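import Pool.Agent.W23.PP.Fin8

/-!
PP project (helper23): `N - G(n)` at the elements of subsets of the set of the `n` with `F(n)`
rough, upper bounds.
-/

namespace Pool.Agent.W23.PP

open Finset Filter Polynomial
open Pool.Agent.H442R2
open Pool.Agent.H442R2.KF
open Pool.Agent.W23.DC
open Pool.Agent.W23.SG
open Pool.Agent.W23.PL
open Pool.Agent.W23.KT
open Pool.Agent.W23.KS

theorem shift_deg {d : ℕ} (hd : 1 ≤ d) {G : ℤ[X]} (hGd : G.natDegree = d) (N : ℤ) :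
    (C N - G).natDegree = d := by
  rw [Polynomial.natDegree_sub_eq_right_of_natDegree_lt]
  · exact hGd
  · rw [Polynomial.natDegree_C, hGd]
    omega

theorem shift_ht {M X : ℕ} (hX : 2 ≤ X) {G : ℤ[X]} (hGh : ∀ i, |(G.coeff i : ℝ)| ≤ (X : ℝ) ^ M)
    (N : ℤ) (hN : |(N : ℝ)| ≤ (X : ℝ) ^ M) (i : ℕ) :
    |((C N - G).coeff i : ℝ)| ≤ (X : ℝ) ^ (M + 1) := by
  have hX2 : (2 : ℝ) ≤ X := by exact_mod_cast hX
  rw [Polynomial.coeff_sub]
  push_cast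
  have h1 : |((C N : ℤ[X]).coeff i : ℝ)| ≤ (X : ℝ) ^ M := by
    rw [Polynomial.coeff_C]
    split_ifs
    · exact hN
    · simp
  calc |((C N : ℤ[X]).coeff i : ℝ) - (G.coeff i : ℝ)|
      ≤ |((C N : ℤ[X]).coeff i : ℝ)| + |(G.coeff i : ℝ)| := abs_sub _ _
    _ ≤ (X : ℝ) ^ M + (X : ℝ) ^ M := add_le_add h1 (hGh i)
    _ = (X : ℝ) ^ M * 2 := by ring
    _ ≤ (X : ℝ) ^ M * X := by gcongr
    _ = _ := by rw [pow_succ]

theorem shiftSharp (d D M : ℕ) (hd : 1 ≤ d) (t r : ℕ) (hr : 1 ≤ r) (κ : ℝ) (hκ0 : 0 < κ)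
    (hκ1 : κ ≤ 1) :
    ∃ (C₀ : ℝ) (X₀ : ℕ), 0 < C₀ ∧ ∀ X : ℕ, X₀ ≤ X →
      ∀ F G : ℤ[X], F.IsPrimitive → F.natDegree ≤ D → (∀ i, |(F.coeff i : ℝ)| ≤ (X : ℝ) ^ M) →
      G.natDegree = d → (∀ i, |(G.coeff i : ℝ)| ≤ (X : ℝ) ^ M) →
      ∀ A : Finset ℕ, (∀ n ∈ A, (1 ≤ n ∧ n ≤ X) ∧ xx (P0 X κ) (F.eval (n : ℤ)) = 1) →
      (∀ N : ℤ, |(N : ℝ)| ≤ (X : ℝ) ^ M → (C N - G).IsPrimitive → Cop F (C N - G) →
        ((Alm A X t r {C N - G}).card : ℝ) ≤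
          C₀ * VP (fun n => (C N - G).eval n) (PF X) * (VP (fun n => F.eval n) (P0 X κ) * X)) ∧
      ∀ E : Finset ℤ, (∀ N ∈ E, |(N : ℝ)| ≤ (X : ℝ) ^ M ∧ (C N - G).IsPrimitive ∧
        Cop F (C N - G)) →
      ∃ A' : Finset ℕ, A' ⊆ A ∧ (A.card : ℝ) - A'.card ≤
          C₀ * (∑ N ∈ E, VP (fun n => (C N - G).eval n) (PF X)) *
            (VP (fun n => F.eval n) (P0 X κ) * X) ∧
        ∀ N ∈ E, Alm A' X t r {C N - G} = ∅ := by
  classical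
  have hK : 1 ≤ d + D := by omega
  obtain ⟨M₀, hM₀, H⟩ := sharpS UBSP_thm VLBP_thm POLA_thm POLB_thm 1 (d + D) (M + 1) le_rfl hK
  obtain ⟨M₁, HB⟩ := POLB_thm (d + D) (M + 1) hK
  obtain ⟨M', hM'0, hM'1, hM'2⟩ : ∃ M' : ℕ, M₀ ≤ M' ∧ M₁ ≤ M' ∧ M + 1 + (d + D) ≤ M' :=
    ⟨max (max M₀ M₁) (M + 1 + (d + D)), (le_max_left _ _).trans (le_max_left _ _),
      (le_max_right _ _).trans (le_max_left _ _), le_max_right _ _⟩
  obtain ⟨C₁, X₀, hC₁, H1⟩ := H M' hM'0 t r hr κ hκ0 hκ1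
  rw [one_mul] at H1
  refine ⟨C₁, max X₀ 3, hC₁, ?_⟩
  intro X hX F G hFp hFd hFh hGd hGh A hA
  have hX₁ : X₀ ≤ X := (le_max_left _ _).trans hX
  have hX3' : 3 ≤ X := (le_max_right _ _).trans hX
  have hX3 : (3 : ℝ) ≤ X := by exact_mod_cast hX3'
  have hFh1 : ∀ i, |(F.coeff i : ℝ)| ≤ (X : ℝ) ^ (M + 1) := fun i =>
    (hFh i).trans (pow_le_pow_right₀ (by linarith) (by omega))
  have hSyF : Sy (d + D) M' X (fun n => F.eval n) :=
    (POLA_thm (d + D) (M + 1) X hK (by omega) F hFp (by omega) hFh1).mono (by omega) hM'2 le_rfl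
  have hS : ∀ N : ℤ, |(N : ℝ)| ≤ (X : ℝ) ^ M → (C N - G).IsPrimitive → Cop F (C N - G) →
      Sst 1 (d + D) (M + 1) X {C N - G} ∧ Cp M' X (fun n => F.eval n) (evS {C N - G}) := by
    intro N h1 h2 h3
    refine ⟨⟨⟨_, mem_singleton_self _⟩, by simp, fun F' hF' => ?_⟩, ?_⟩
    · rw [mem_singleton] at hF'
      subst hF'
      exact ⟨h2, by rw [shift_deg hd hGd]; exact hd, by rw [shift_deg hd hGd]; omega,
        shift_ht (by omega) hGh N h1⟩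
    · rw [evS_single]
      exact (HB X (by omega) F (C N - G) (by omega) (by rw [shift_deg hd hGd]; omega) hFh1
        (shift_ht (by omega) hGh N h1) h3).mono (by omega) hM'1 le_rfl
  obtain ⟨K1, K2⟩ := H1 X hX₁ (fun n => F.eval n) hSyF A hA
  refine ⟨fun N h1 h2 h3 => ?_, fun E hE => ?_⟩
  · have := K1 {C N - G} (hS N h1 h2 h3).1 (hS N h1 h2 h3).2
    rw [evS_single] at this
    exact this
  · have hinj : Set.InjOn (fun N : ℤ => ({C N - G} : Finset ℤ[X])) E := by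
      intro a _ b _ hab
      have h1 : C a - G = C b - G := Finset.singleton_inj.1 hab
      have h2 : (C a : ℤ[X]) = C b := sub_left_inj.1 h1
      exact Polynomial.C_injective h2
    obtain ⟨A', h1, h2, h3⟩ := K2 (E.image (fun N : ℤ => ({C N - G} : Finset ℤ[X]))) (by
      intro S hS'
      obtain ⟨N, hN, rfl⟩ := mem_image.1 hS'
      exact hS N (hE N hN).1 (hE N hN).2.1 (hE N hN).2.2)
    refine ⟨A', h1, ?_, fun N hN => h3 _ (mem_image_of_mem _ hN)⟩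
    rw [Finset.sum_image hinj] at h2
    refine h2.trans (le_of_eq ?_)
    congr 2
    apply Finset.sum_congr rfl
    intro N _
    rw [evS_single]

end Pool.Agent.W23.PP
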