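import Pool.Agent.W23.PP.All

/-!
PP project (helper23): final forms for the integers and for the primes.
-/

namespace Pool.Agent.W23.PP

open Finset Filter Polynomial
open Pool.Agent.H442R2
open Pool.Agent.H442R2.KF
open Pool.Agent.W23.DC
open Pool.Agent.W23.SG
open Pool.Agent.W23.PL
open Pool.Agent.W23.KT
open Pool.Agent.W23.KS

/-- families of pairwise coprime systems -/
structure Fam (k D M X : ℕ) (𝒮 : Finset (Finset ℤ[X])) : Prop where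
  sys : ∀ S ∈ 𝒮, Sst k D M X S
  cop : ∀ S ∈ 𝒮, ∀ T ∈ 𝒮, S ≠ T → ∀ F ∈ S, ∀ G ∈ T, Cop F G

theorem intMain (k D M : ℕ) (hk : 1 ≤ k) (hD : 1 ≤ D) :
    ∃ r : ℕ, 1 ≤ r ∧ ∀ δ : ℝ, 0 < δ → ∃ (c C : ℝ) (t X₀ : ℕ), 0 < c ∧ 0 < C ∧
      ∀ X : ℕ, X₀ ≤ X → ∀ A : Finset ℕ, (∀ n ∈ A, 1 ≤ n ∧ n ≤ X) → δ * X ≤ A.card →
      ∀ 𝒮 : Finset (Finset ℤ[X]), Fam k D M X 𝒮 →
      (∀ S ∈ 𝒮, ((Alm A X t r S).card : ℝ) < c * VP (evS S) (PF X) * A.card) →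
      ∑ S ∈ 𝒮, VP (evS S) (PF X) ≤ C ∧
        (𝒮.card : ℝ) ≤ C * (Real.log X / Real.log (Real.log X)) ^ (k * D) := by
  obtain ⟨M₀, hM₀, H⟩ := mainS RTP_thm BHG_thm BXBP_thm BX0P_thm VLBP_thm SMOP_thm VLBK_thm
    POLA_thm POLB_thm k D M hk hD
  obtain ⟨r, hr, H1⟩ := H M₀ le_rfl
  refine ⟨r, hr, fun δ hδ => ?_⟩
  obtain ⟨c, C, t, X₀, hc, hC, H2⟩ := H1 1 one_pos le_rfl δ hδ
  refine ⟨c, C, t, max X₀ 1, hc, hC, fun X hX A hA hAc 𝒮 h𝒮 hexc => ?_⟩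
  have hX1 : 1 ≤ X := (le_max_right _ _).trans hX
  have hW : VP (fun _ => 1) (P0 X 1) = 1 := VP_one _ P0_prime
  refine H2 X ((le_max_left _ _).trans hX) (fun _ => 1) (Sy_one hX1) (by rw [hW]; exact one_pos)
    A (fun n hn => ⟨hA n hn, xx_one _ P0_prime⟩) (by rw [hW, one_mul]; exact hAc) 𝒮
    (fun S hS => ⟨h𝒮.sys S hS, Cp_one hX1 _⟩) h𝒮.cop hexc

theorem intSharp (k D M : ℕ) (hk : 1 ≤ k) (hD : 1 ≤ D) (t r : ℕ) (hr : 1 ≤ r) :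
    ∃ (C : ℝ) (X₀ : ℕ), 0 < C ∧ ∀ X : ℕ, X₀ ≤ X →
      (∀ S : Finset ℤ[X], Sst k D M X S →
        ((Alm (Icc 1 X) X t r S).card : ℝ) ≤ C * VP (evS S) (PF X) * X) ∧
      ∀ 𝒮 : Finset (Finset ℤ[X]), (∀ S ∈ 𝒮, Sst k D M X S) →
      ∃ A : Finset ℕ, A ⊆ Icc 1 X ∧
        (X : ℝ) - A.card ≤ C * (∑ S ∈ 𝒮, VP (evS S) (PF X)) * X ∧
        ∀ S ∈ 𝒮, Alm A X t r S = ∅ := by
  obtain ⟨M₀, hM₀, H⟩ := sharpS UBSP_thm VLBP_thm POLA_thm POLB_thm k D M hk hD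
  obtain ⟨C, X₀, hC, H1⟩ := H M₀ le_rfl t r hr 1 one_pos le_rfl
  refine ⟨C, max X₀ 1, hC, fun X hX => ?_⟩
  have hX1 : 1 ≤ X := (le_max_right _ _).trans hX
  have hW : VP (fun _ => 1) (P0 X 1) = 1 := VP_one _ P0_prime
  obtain ⟨h1, h2⟩ := H1 X ((le_max_left _ _).trans hX) (fun _ => 1) (Sy_one hX1) (Icc 1 X)
    (fun n hn => ⟨mem_Icc.1 hn, xx_one _ P0_prime⟩)
  rw [hW, one_mul] at h1 h2
  refine ⟨fun S hS => h1 S hS (Cp_one hX1 _), fun 𝒮 h𝒮 => ?_⟩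
  obtain ⟨A, hA1, hA2, hA3⟩ := h2 𝒮 (fun S hS => ⟨h𝒮 S hS, Cp_one hX1 _⟩)
  refine ⟨A, hA1, ?_, hA3⟩
  have : ((Icc 1 X).card : ℝ) = X := by simp
  rw [this] at hA2
  exact hA2

theorem evS_zero {S : Finset ℤ[X]} (h : ∀ F ∈ S, F.coeff 0 ≠ 0) : evS S 0 ≠ 0 := by
  unfold evS
  rw [Finset.prod_ne_zero_iff]
  intro F hF
  rw [← Polynomial.coeff_zero_eq_eval_zero]
  exact h F hF

theorem Cp_idS {k D M X : ℕ} (hX : 2 ≤ X) {S : Finset ℤ[X]} (hS : Sst k D M X S)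
    (h : ∀ F ∈ S, F.coeff 0 ≠ 0) {M' : ℕ} (hM' : k * (M + D) ≤ M') :
    Cp M' X (fun n => n) (evS S) := by
  have hX1 : (1 : ℝ) ≤ X := by exact_mod_cast (by omega : 1 ≤ X)
  have hP := hS.prodPol hX
  apply Cp_id
  · rw [evS_eq]
    intro m n
    exact Polynomial.sub_dvd_eval_sub m n _
  · exact evS_zero h
  · have h1 : evS S 0 = (∏ F ∈ S, F).coeff 0 := by
      rw [evS_eq]
      simp only
      rw [← Polynomial.coeff_zero_eq_eval_zero]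
    rw [h1]
    exact (hP.ht 0).trans (pow_le_pow_right₀ hX1 hM')

theorem prime_rough {X : ℕ} (hX : 2 ≤ X) {κ : ℝ} {p : ℕ} (hp : p.Prime)
    (h : (X : ℝ) ^ κ ≤ p) : xx (P0 X κ) (p : ℤ) = 1 := by
  classical
  unfold xx
  rw [if_pos]
  intro l hl hlp
  rw [mem_P0] at hl
  have h1 := (Nat.prime_dvd_prime_iff_eq hl.2.1 hp).1 (Int.natCast_dvd_natCast.1 hlp)
  subst h1
  have h2 := (tt_lt_iff hX hp.pos κ).1 hl.2.2
  linarith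

open Classical in
theorem primeMain (k D M : ℕ) (hk : 1 ≤ k) (hD : 1 ≤ D) :
    ∃ r : ℕ, 1 ≤ r ∧ ∀ δ : ℝ, 0 < δ → ∃ (c C : ℝ) (t X₀ : ℕ), 0 < c ∧ 0 < C ∧
      ∀ X : ℕ, X₀ ≤ X → ∀ A : Finset ℕ, (∀ p ∈ A, p.Prime ∧ p ≤ X) →
      δ * (X / Real.log X) ≤ A.card →
      ∀ 𝒮 : Finset (Finset ℤ[X]), Fam k D M X 𝒮 → (∀ S ∈ 𝒮, ∀ F ∈ S, F.coeff 0 ≠ 0) →
      (∀ S ∈ 𝒮, ((Alm A X t r S).card : ℝ) < c * VP (evS S) (PF X) * A.card) →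
      ∑ S ∈ 𝒮, VP (evS S) (PF X) ≤ C ∧
        (𝒮.card : ℝ) ≤ C * (Real.log X / Real.log (Real.log X)) ^ (k * D) := by
  obtain ⟨M₀, hM₀, H⟩ := mainS RTP_thm BHG_thm BXBP_thm BX0P_thm VLBP_thm SMOP_thm VLBK_thm
    POLA_thm POLB_thm k D M hk hD
  obtain ⟨r, hr, H1⟩ := H (M₀ + k * (M + D)) (by omega)
  have hkD : 1 ≤ k * D := Nat.mul_pos hk hD
  refine ⟨r, hr, fun δ hδ => ?_⟩
  obtain ⟨CM, N₁, hCM, HM⟩ := VP_id (1 / 2) (by norm_num) (by norm_num)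
  obtain ⟨c, C, t, X₀, hc, hC, H2⟩ := H1 (1 / 2) (by norm_num) (by norm_num) (δ / (2 * CM))
    (by positivity)
  obtain ⟨N₂, HN₂⟩ := logpow_small 1 (show (0 : ℝ) < 1 / 2 by norm_num)
    (show (0 : ℝ) < δ / 2 by positivity)
  refine ⟨c / 2, C, t, max (max X₀ N₁) (max N₂ 3), by positivity, hC,
    fun X hX A hA hAc 𝒮 h𝒮 hz hexc => ?_⟩
  have hX₁ : X₀ ≤ X := ((le_max_left _ _).trans (le_max_left _ _)).trans hX
  have hX₂ : N₁ ≤ X := ((le_max_right _ _).trans (le_max_left _ _)).trans hX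
  have hX₃ : N₂ ≤ X := ((le_max_left _ _).trans (le_max_right _ _)).trans hX
  have hX3' : 3 ≤ X := ((le_max_right _ _).trans (le_max_right _ _)).trans hX
  clear hX
  have hX3 : (3 : ℝ) ≤ X := by exact_mod_cast hX3'
  have hX0 : (0 : ℝ) < X := by linarith
  have hL1 : 1 < Real.log X := by
    rw [Real.lt_log_iff_exp_lt hX0]
    exact Real.exp_one_lt_three.trans_le hX3
  have hL : 0 < Real.log X := by linarith
  obtain ⟨hW0, hW⟩ := HM X hX₂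
  -- remove the small primes
  set A' := A.filter (fun p : ℕ => (X : ℝ) ^ (1 / 2 : ℝ) ≤ p) with hA'
  have hcard : (A.card : ℝ) - A'.card ≤ (X : ℝ) ^ (1 / 2 : ℝ) := by
    have h1 := Finset.card_filter_add_card_filter_not (s := A)
      (fun p : ℕ => (X : ℝ) ^ (1 / 2 : ℝ) ≤ p)
    have h2 : (A.filter (fun p : ℕ => ¬ (X : ℝ) ^ (1 / 2 : ℝ) ≤ p)).card ≤
        (Icc 1 ⌊(X : ℝ) ^ (1 / 2 : ℝ)⌋₊).card := by
      apply Finset.card_le_card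
      intro p hp
      rw [mem_filter, not_le] at hp
      rw [mem_Icc]
      exact ⟨(hA p hp.1).1.pos, Nat.le_floor hp.2.le⟩
    have h3 : (A.card : ℝ) = (A'.card : ℝ) +
        ((A.filter (fun p : ℕ => ¬ (X : ℝ) ^ (1 / 2 : ℝ) ≤ p)).card : ℝ) := by
      rw [hA']
      exact_mod_cast h1.symm
    have h4 : ((A.filter (fun p : ℕ => ¬ (X : ℝ) ^ (1 / 2 : ℝ) ≤ p)).card : ℝ) ≤
        ⌊(X : ℝ) ^ (1 / 2 : ℝ)⌋₊ := by
      have : (Icc 1 ⌊(X : ℝ) ^ (1 / 2 : ℝ)⌋₊).card = ⌊(X : ℝ) ^ (1 / 2 : ℝ)⌋₊ := by simp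
      rw [this] at h2
      exact_mod_cast h2
    have h5 : (⌊(X : ℝ) ^ (1 / 2 : ℝ)⌋₊ : ℝ) ≤ (X : ℝ) ^ (1 / 2 : ℝ) :=
      Nat.floor_le (by positivity)
    linarith
  have hsmall : (X : ℝ) ^ (1 / 2 : ℝ) ≤ δ / 2 * (X / Real.log X) := by
    have h1 := HN₂ X hX₃
    rw [pow_one] at h1
    have h2 : (X : ℝ) = (X : ℝ) ^ (1 / 2 : ℝ) * (X : ℝ) ^ (1 / 2 : ℝ) := by
      rw [← Real.rpow_add hX0]
      norm_num
    rw [← mul_div_assoc, le_div_iff₀ hL]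
    calc (X : ℝ) ^ (1 / 2 : ℝ) * Real.log X ≤ (X : ℝ) ^ (1 / 2 : ℝ) *
          (δ / 2 * (X : ℝ) ^ (1 / 2 : ℝ)) := by gcongr
      _ = δ / 2 * ((X : ℝ) ^ (1 / 2 : ℝ) * (X : ℝ) ^ (1 / 2 : ℝ)) := by ring
      _ = _ := by rw [← h2]
  have hA'2 : (A.card : ℝ) / 2 ≤ A'.card := by
    have h1 : (X : ℝ) ^ (1 / 2 : ℝ) ≤ (A.card : ℝ) / 2 := by
      have : δ / 2 * (X / Real.log X) = δ * (X / Real.log X) / 2 := by ring
      linarith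
    linarith
  have hA'A : A' ⊆ A := Finset.filter_subset _ _
  refine H2 X hX₁ (fun n => n) (Sy_id hkD (by omega)) hW0 A' (fun p hp => ?_) ?_ 𝒮
    (fun S hS => ⟨h𝒮.sys S hS, Cp_idS (by omega) (h𝒮.sys S hS) (hz S hS) (by omega)⟩)
    h𝒮.cop (fun S hS => ?_)
  · rw [hA', mem_filter] at hp
    obtain ⟨h1, h2⟩ := hA p hp.1
    exact ⟨⟨h1.pos, h2⟩, prime_rough (by omega) h1 hp.2⟩
  · calc δ / (2 * CM) * (VP (fun n => n) (P0 X (1 / 2)) * X) ≤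
          δ / (2 * CM) * (CM / Real.log X * X) := by gcongr
      _ = δ / 2 * (X / Real.log X) := by field_simp
      _ ≤ (A.card : ℝ) / 2 := by
          have : δ / 2 * (X / Real.log X) = δ * (X / Real.log X) / 2 := by ring
          linarith
      _ ≤ _ := hA'2
  · have h1 : ((Alm A' X t r S).card : ℝ) ≤ (Alm A X t r S).card := by
      exact_mod_cast Finset.card_le_card (Finset.filter_subset_filter _ hA'A)
    have h2 := hexc S hS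
    have hV0 : 0 ≤ VP (evS S) (PF X) := VP_nonneg _ _
    calc ((Alm A' X t r S).card : ℝ) < c / 2 * VP (evS S) (PF X) * A.card := h1.trans_lt h2
      _ = c * VP (evS S) (PF X) * ((A.card : ℝ) / 2) := by ring
      _ ≤ _ := by gcongr

theorem alg9 {C s W q L x : ℝ} (hC : 0 ≤ C) (hs : 0 ≤ s) (hx : 0 ≤ x) (hW : W ≤ q / L) :
    C * s * (W * x) ≤ C * q * s * (x / L) := by
  have h1 : C * s * (W * x) ≤ C * s * (q / L * x) := by gcongr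
  refine h1.trans (le_of_eq ?_)
  ring

open Classical in
theorem primeSharp (k D M : ℕ) (hk : 1 ≤ k) (hD : 1 ≤ D) (t r : ℕ) (hr : 1 ≤ r) :
    ∃ (C : ℝ) (X₀ : ℕ), 0 < C ∧ ∀ X : ℕ, X₀ ≤ X →
      ∀ 𝒮 : Finset (Finset ℤ[X]), (∀ S ∈ 𝒮, Sst k D M X S ∧ ∀ F ∈ S, F.coeff 0 ≠ 0) →
      ∃ A : Finset ℕ, (∀ p ∈ A, p.Prime ∧ p ≤ X) ∧
        (((Icc 1 X).filter Nat.Prime).card : ℝ) - A.card ≤
          C * (∑ S ∈ 𝒮, VP (evS S) (PF X)) * (X / Real.log X) + (X : ℝ) ^ (1 / 2 : ℝ) ∧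
        ∀ S ∈ 𝒮, Alm A X t r S = ∅ := by
  obtain ⟨M₀, hM₀, H⟩ := sharpS UBSP_thm VLBP_thm POLA_thm POLB_thm k D M hk hD
  have hkD : 1 ≤ k * D := Nat.mul_pos hk hD
  obtain ⟨C, X₀, hC, H1⟩ := H (M₀ + k * (M + D)) (by omega) t r hr (1 / 2) (by norm_num)
    (by norm_num)
  obtain ⟨CM, N₁, hCM, HM⟩ := VP_id (1 / 2) (by norm_num) (by norm_num)
  refine ⟨C * CM, max (max X₀ N₁) 3, by positivity, fun X hX 𝒮 h𝒮 => ?_⟩
  have hX₁ : X₀ ≤ X := ((le_max_left _ _).trans (le_max_left _ _)).trans hX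
  have hX₂ : N₁ ≤ X := ((le_max_right _ _).trans (le_max_left _ _)).trans hX
  have hX3' : 3 ≤ X := (le_max_right _ _).trans hX
  have hX3 : (3 : ℝ) ≤ X := by exact_mod_cast hX3'
  have hX0 : (0 : ℝ) < X := by linarith
  have hL1 : 1 < Real.log X := by
    rw [Real.lt_log_iff_exp_lt hX0]
    exact Real.exp_one_lt_three.trans_le hX3
  have hL : 0 < Real.log X := by linarith
  obtain ⟨hW0, hW⟩ := HM X hX₂
  set A₀ : Finset ℕ := (Icc 1 X).filter (fun p : ℕ => p.Prime ∧ (X : ℝ) ^ (1 / 2 : ℝ) ≤ p) with hA₀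
  obtain ⟨h1, h2⟩ := H1 X hX₁ (fun n => n) (Sy_id hkD (by omega)) A₀ (fun p hp => by
    rw [hA₀, mem_filter, mem_Icc] at hp
    exact ⟨hp.1, prime_rough (by omega) hp.2.1 hp.2.2⟩)
  obtain ⟨A, hA1, hA2, hA3⟩ := h2 𝒮 (fun S hS => ⟨(h𝒮 S hS).1,
    Cp_idS (by omega) (h𝒮 S hS).1 (h𝒮 S hS).2 (by omega)⟩)
  refine ⟨A, fun p hp => ?_, ?_, hA3⟩
  · have h3 := hA1 hp
    rw [hA₀, mem_filter, mem_Icc] at h3
    exact ⟨h3.2.1, h3.1.2⟩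
  · have h3 : (((Icc 1 X).filter Nat.Prime).card : ℝ) - A₀.card ≤ (X : ℝ) ^ (1 / 2 : ℝ) := by
      have h4 : ((Icc 1 X).filter Nat.Prime) ⊆ A₀ ∪ Icc 1 ⌊(X : ℝ) ^ (1 / 2 : ℝ)⌋₊ := by
        intro p hp
        rw [mem_filter, mem_Icc] at hp
        rw [mem_union]
        rcases le_or_gt ((X : ℝ) ^ (1 / 2 : ℝ)) p with h | h
        · left
          rw [hA₀, mem_filter, mem_Icc]
          exact ⟨hp.1, hp.2, h⟩
        · right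
          rw [mem_Icc]
          exact ⟨hp.2.pos, Nat.le_floor h.le⟩
      have h5 := (Finset.card_le_card h4).trans (Finset.card_union_le _ _)
      have h6 : (Icc 1 ⌊(X : ℝ) ^ (1 / 2 : ℝ)⌋₊).card = ⌊(X : ℝ) ^ (1 / 2 : ℝ)⌋₊ := by simp
      rw [h6] at h5
      have h7 : (((Icc 1 X).filter Nat.Prime).card : ℝ) ≤ A₀.card + ⌊(X : ℝ) ^ (1 / 2 : ℝ)⌋₊ := by
        exact_mod_cast h5
      have h8 : (⌊(X : ℝ) ^ (1 / 2 : ℝ)⌋₊ : ℝ) ≤ (X : ℝ) ^ (1 / 2 : ℝ) :=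
        Nat.floor_le (by positivity)
      linarith
    have hs0 : 0 ≤ ∑ S ∈ 𝒮, VP (evS S) (PF X) := Finset.sum_nonneg (fun S _ => VP_nonneg _ _)
    have h10 := alg9 hC.le hs0 hX0.le hW
    linarith

end Pool.Agent.W23.PP
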