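import Pool.Agent.W23.PP.Fin7

/-!
PP project (helper23): `N - G(n)` at the elements of dense subsets of the set of the `n` with `F(n)`
rough.
-/

namespace Pool.Agent.W23.PP

open Finset Filter Polynomial
open Pool.Agent.H442R2
open Pool.Agent.H442R2.KF
open Pool.Agent.W23.DC
open Pool.Agent.W23.SG
open Pool.Agent.W23.PL
open Pool.Agent.W23.KT
open Pool.Agent.W23.KS

theorem evS_single (F : ℤ[X]) : evS {F} = fun n => F.eval n := by
  funext n
  unfold evS
  rw [prod_singleton]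

theorem cop_shift (G : ℤ[X]) {N N' : ℤ} (h : N ≠ N') : Cop (C N - G) (C N' - G) := by
  unfold Cop
  have h0 : ((N : ℚ) - N') ≠ 0 := by
    rw [sub_ne_zero]
    exact_mod_cast h
  refine ⟨C (((N : ℚ) - N')⁻¹), C (-((N : ℚ) - N')⁻¹), ?_⟩
  simp only [Polynomial.map_sub, Polynomial.map_C]
  have e : C (((N : ℚ) - N')⁻¹) * (C ((Int.castRingHom ℚ) N) - map (Int.castRingHom ℚ) G) +
      C (-((N : ℚ) - N')⁻¹) * (C ((Int.castRingHom ℚ) N') - map (Int.castRingHom ℚ) G) =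
      C (((N : ℚ) - N')⁻¹ * (N - N')) := by
    rw [Polynomial.C_neg, Polynomial.C_mul, Polynomial.C_sub]
    simp only [eq_intCast]
    ring
  rw [e, inv_mul_cancel₀ h0, Polynomial.C_1]

theorem nr_lt {φ : ℤ → ℤ} (hper : Per φ) {p : ℕ} (hp : 0 < p) {n : ℤ} (h : ¬ (p : ℤ) ∣ φ n) :
    nr φ p < p := by
  classical
  unfold nr
  have h1 : ((range p).filter (fun a : ℕ => (p : ℤ) ∣ φ a)) ⊂ range p := by
    rw [Finset.filter_ssubset]
    refine ⟨(n % p).toNat, ?_, ?_⟩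
    · rw [mem_range]
      have h2 := Int.emod_lt_of_pos n (show (0 : ℤ) < p by exact_mod_cast hp)
      have h3 := Int.emod_nonneg n (show (p : ℤ) ≠ 0 by exact_mod_cast hp.ne')
      omega
    · intro h2
      apply h
      have h3 := Int.emod_nonneg n (show (p : ℤ) ≠ 0 by exact_mod_cast hp.ne')
      rw [Int.toNat_of_nonneg h3] at h2
      have h4 : (p : ℤ) ∣ n - n % p := Int.dvd_self_sub_emod
      have h5 := h4.trans (hper n (n % p))
      have h6 : φ n = (φ n - φ (n % p)) + φ (n % p) := by ring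
      rw [h6]
      exact dvd_add h5 h2
  have := Finset.card_lt_card h1
  rwa [card_range] at this

theorem shiftMain (d D M : ℕ) (hd : 1 ≤ d) :
    ∃ r : ℕ, 1 ≤ r ∧ ∀ κ : ℝ, 0 < κ → κ ≤ 1 → ∀ δ : ℝ, 0 < δ →
      ∃ (c C₀ : ℝ) (t X₀ : ℕ), 0 < c ∧ 0 < C₀ ∧ ∀ X : ℕ, X₀ ≤ X →
      ∀ F G : ℤ[X], F.IsPrimitive → F.natDegree ≤ D → (∀ i, |(F.coeff i : ℝ)| ≤ (X : ℝ) ^ M) →
      G.natDegree = d → (∀ i, |(G.coeff i : ℝ)| ≤ (X : ℝ) ^ M) →
      ∀ A : Finset ℕ, (∀ n ∈ A, (1 ≤ n ∧ n ≤ X) ∧ xx (P0 X κ) (F.eval (n : ℤ)) = 1) →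
      δ * (VP (fun n => F.eval n) (P0 X κ) * X) ≤ A.card →
      ∀ E : Finset ℤ, (∀ N ∈ E, |(N : ℝ)| ≤ (X : ℝ) ^ M ∧ (C N - G).IsPrimitive ∧
        Cop F (C N - G) ∧
        ((Alm A X t r {C N - G}).card : ℝ) <
          c * VP (fun n => (C N - G).eval n) (PF X) * A.card) →
      ∑ N ∈ E, VP (fun n => (C N - G).eval n) (PF X) ≤ C₀ ∧
        (E.card : ℝ) ≤ C₀ * (Real.log X / Real.log (Real.log X)) ^ d := by
  classical
  have hK : 1 ≤ d + D := by omega
  obtain ⟨M₀, hM₀, H⟩ := mainS RTP_thm BHG_thm BXBP_thm BX0P_thm VLBP_thm SMOP_thm VLBK_thm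
    POLA_thm POLB_thm 1 (d + D) (M + 1) le_rfl hK
  obtain ⟨M₁, HB⟩ := POLB_thm (d + D) (M + 1) hK
  obtain ⟨M', hM'0, hM'1, hM'2⟩ : ∃ M' : ℕ, M₀ ≤ M' ∧ M₁ ≤ M' ∧ M + 1 + (d + D) ≤ M' :=
    ⟨max (max M₀ M₁) (M + 1 + (d + D)), (le_max_left _ _).trans (le_max_left _ _),
      (le_max_right _ _).trans (le_max_left _ _), le_max_right _ _⟩
  obtain ⟨r, hr, H1⟩ := H M' hM'0
  rw [one_mul] at H1
  refine ⟨r, hr, fun κ hκ0 hκ1 δ hδ => ?_⟩
  obtain ⟨c, C₁, t, N₁, hc, hC₁, H2⟩ := H1 κ hκ0 hκ1 δ hδ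
  obtain ⟨c₁, N₃, hc₁, H3⟩ := VP_low RTP_thm VLBP_thm VLBK_thm d (M + 1 + d) hd
  refine ⟨c, max C₁ (C₁ / c₁), t, max (max N₁ N₃) 3, hc, lt_max_of_lt_left hC₁, ?_⟩
  intro X hX F G hFp hFd hFh hGd hGh A hA hAc E hE
  have hX₁ : N₁ ≤ X := ((le_max_left _ _).trans (le_max_left _ _)).trans hX
  have hX₃ : N₃ ≤ X := ((le_max_right _ _).trans (le_max_left _ _)).trans hX
  have hX3' : 3 ≤ X := (le_max_right _ _).trans hX
  clear hX
  have hX3 : (3 : ℝ) ≤ X := by exact_mod_cast hX3'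
  have hX0 : (0 : ℝ) < X := by linarith
  have hL1 : 1 < Real.log X := by
    rw [Real.lt_log_iff_exp_lt hX0]
    exact Real.exp_one_lt_three.trans_le hX3
  have hL : 0 < Real.log X := by linarith
  have hLL : 0 < Real.log (Real.log X) := Real.log_pos hL1
  rcases E.eq_empty_or_nonempty with hE0 | ⟨N₀, hN₀⟩
  · subst hE0
    simp only [sum_empty, card_empty, Nat.cast_zero]
    exact ⟨(lt_max_of_lt_left hC₁).le, mul_nonneg (lt_max_of_lt_left hC₁).le (by positivity)⟩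
  -- `A` is not empty
  have hA0 : A.Nonempty := by
    rw [Finset.nonempty_iff_ne_empty]
    intro h0
    have h1 := (hE N₀ hN₀).2.2.2
    rw [h0] at h1
    unfold Alm at h1
    simp at h1
  obtain ⟨n₀, hn₀⟩ := hA0
  have hperF : Per (fun n => F.eval n) := fun m n => Polynomial.sub_dvd_eval_sub m n F
  have hW0 : 0 < VP (fun n => F.eval n) (P0 X κ) := by
    unfold VP
    apply Finset.prod_pos
    intro p hp
    have hpp := P0_prime p hp
    have h1 : nr (fun n => F.eval n) p < p :=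
      nr_lt hperF hpp.pos (xx_ndvd (hA n₀ hn₀).2 p hp)
    unfold rh
    have h2 : (nr (fun n => F.eval n) p : ℝ) < p := by exact_mod_cast h1
    have hp0 : (0 : ℝ) < p := by exact_mod_cast hpp.pos
    have h3 : (nr (fun n => F.eval n) p : ℝ) / p < 1 := (div_lt_one hp0).2 h2
    linarith
  have hdeg : ∀ N : ℤ, (C N - G).natDegree = d := by
    intro N
    rw [Polynomial.natDegree_sub_eq_right_of_natDegree_lt]
    · exact hGd
    · rw [Polynomial.natDegree_C, hGd]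
      omega
  have hht : ∀ N : ℤ, |(N : ℝ)| ≤ (X : ℝ) ^ M →
      ∀ i, |((C N - G).coeff i : ℝ)| ≤ (X : ℝ) ^ (M + 1) := by
    intro N hN i
    rw [Polynomial.coeff_sub]
    push_cast
    have h1 : |((C N : ℤ[X]).coeff i : ℝ)| ≤ (X : ℝ) ^ M := by
      rw [Polynomial.coeff_C]
      split_ifs
      · exact hN
      · simp
    calc |((C N : ℤ[X]).coeff i : ℝ) - (G.coeff i : ℝ)|
        ≤ |((C N : ℤ[X]).coeff i : ℝ)| + |(G.coeff i : ℝ)| := abs_sub _ _
      _ ≤ (X : ℝ) ^ M + (X : ℝ) ^ M := add_le_add h1 (hGh i)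
      _ = (X : ℝ) ^ M * 2 := by ring
      _ ≤ (X : ℝ) ^ M * X := by gcongr; linarith
      _ = _ := by rw [pow_succ]
  have hinj : Set.InjOn (fun N : ℤ => ({C N - G} : Finset ℤ[X])) E := by
    intro a _ b _ hab
    have h1 : C a - G = C b - G := Finset.singleton_inj.1 hab
    have h2 : (C a : ℤ[X]) = C b := sub_left_inj.1 h1
    exact Polynomial.C_injective h2
  have hFh1 : ∀ i, |(F.coeff i : ℝ)| ≤ (X : ℝ) ^ (M + 1) := fun i =>
    (hFh i).trans (pow_le_pow_right₀ (by linarith) (by omega))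
  have hSyF : Sy (d + D) M' X (fun n => F.eval n) :=
    (POLA_thm (d + D) (M + 1) X hK (by omega) F hFp (by omega) hFh1).mono (by omega) hM'2 le_rfl
  have key := H2 X hX₁ (fun n => F.eval n) hSyF hW0 A hA hAc
    (E.image (fun N : ℤ => ({C N - G} : Finset ℤ[X]))) (by
      intro S hS
      obtain ⟨N, hN, rfl⟩ := mem_image.1 hS
      obtain ⟨h1, h2, h3, -⟩ := hE N hN
      refine ⟨⟨⟨_, mem_singleton_self _⟩, by simp, fun F' hF' => ?_⟩, ?_⟩
      · rw [mem_singleton] at hF'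
        subst hF'
        exact ⟨h2, by rw [hdeg]; exact hd, by rw [hdeg]; omega, hht N h1⟩
      · rw [evS_single]
        exact (HB X (by omega) F (C N - G) (by omega) (by rw [hdeg]; omega) hFh1 (hht N h1)
          h3).mono (by omega) hM'1 le_rfl) (by
      intro S hS T hT hST F' hF' G' hG'
      obtain ⟨N, hN, rfl⟩ := mem_image.1 hS
      obtain ⟨N', hN', rfl⟩ := mem_image.1 hT
      rw [mem_singleton] at hF' hG'
      subst hF'
      subst hG'
      apply cop_shift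
      rintro rfl
      exact hST rfl) (by
      intro S hS
      obtain ⟨N, hN, rfl⟩ := mem_image.1 hS
      have h4 := (hE N hN).2.2.2
      rw [evS_single]
      exact h4)
  obtain ⟨key1, -⟩ := key
  rw [Finset.sum_image hinj] at key1
  have hsum : ∑ N ∈ E, VP (fun n => (C N - G).eval n) (PF X) ≤ C₁ := by
    refine le_trans (le_of_eq ?_) key1
    apply Finset.sum_congr rfl
    intro N _
    rw [evS_single]
  refine ⟨hsum.trans (le_max_left _ _), ?_⟩
  have h7 : (E.card : ℝ) * (c₁ * (Real.log (Real.log X) / Real.log X) ^ d) ≤ C₁ := by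
    refine le_trans ?_ hsum
    rw [← nsmul_eq_mul, ← Finset.sum_const]
    apply Finset.sum_le_sum
    intro N hN
    obtain ⟨h1, h2, -, -⟩ := hE N hN
    exact H3 X hX₃ _ (POLA_thm d (M + 1) X hd (by omega) (C N - G) h2 (hdeg N).le (hht N h1))
  have h8 : (E.card : ℝ) = E.card * (c₁ * (Real.log (Real.log X) / Real.log X) ^ d) *
      (1 / c₁ * (Real.log X / Real.log (Real.log X)) ^ d) := by
    rw [div_pow, div_pow]
    field_simp
  rw [h8]
  calc E.card * (c₁ * (Real.log (Real.log X) / Real.log X) ^ d) *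
      (1 / c₁ * (Real.log X / Real.log (Real.log X)) ^ d) ≤
        C₁ * (1 / c₁ * (Real.log X / Real.log (Real.log X)) ^ d) := by gcongr
    _ = C₁ / c₁ * (Real.log X / Real.log (Real.log X)) ^ d := by ring
    _ ≤ _ := by
        gcongr
        exact le_max_right _ _

end Pool.Agent.W23.PP
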