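import Pool.Agent.W23.PP.Sp2
import Pool.Agent.W23.PP.Fin8

/-!
PP project (helper23), sparse sets: systems of polynomials.
-/

set_option autoImplicit false

namespace Pool.Agent.W23.PP

open Finset Filter Polynomial
open Pool.Agent.H442R2
open Pool.Agent.H442R2.KF
open Pool.Agent.W23.DC
open Pool.Agent.W23.SG
open Pool.Agent.W23.PL
open Pool.Agent.W23.KT
open Pool.Agent.W23.KS

theorem BXS_thm : St_BXS :=
  BXS RTP_thm FLWG_thm CORP_thm PBP_thm OFDP_thm VLBP_thm BX.GS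

open Classical in
/-- the elements of `A` at which all polynomials of the system are almost prime, up to a smooth
factor -/
noncomputable def AlmS (A : Finset ℕ) (X : ℕ) (ε : ℝ) (r : ℕ) (S : Finset ℤ[X]) : Finset ℕ :=
  A.filter (fun n : ℕ => ∀ F ∈ S, F.eval (n : ℤ) ≠ 0 ∧ ∃ m s : ℕ,
    (F.eval (n : ℤ)).natAbs = m * s ∧ (∀ l : ℕ, l.Prime → l ∣ m → (l : ℝ) < (X : ℝ) ^ ε) ∧
    s.primeFactorsList.length ≤ r ∧ ∀ q ∈ s.primeFactors, (X : ℝ) ^ (1 / r : ℝ) ≤ q)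

theorem GS_sub {A : Finset ℕ} {X r : ℕ} {ε : ℝ} (S : Finset ℤ[X]) :
    GS A X ε r (evS S) ⊆ AlmS A X ε r S := by
  classical
  intro n hn
  unfold GS at hn
  rw [mem_filter] at hn
  obtain ⟨hnA, h0, m, s, h1, h2, h3, h4⟩ := hn
  have hms0 : m * s ≠ 0 := by
    rw [← h1, Ne, Int.natAbs_eq_zero]
    exact h0
  have hm0 : m ≠ 0 := left_ne_zero_of_mul hms0
  have hs0 : s ≠ 0 := right_ne_zero_of_mul hms0
  unfold AlmS
  rw [mem_filter]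
  refine ⟨hnA, fun F hF => ?_⟩
  have hdvd : (F.eval (n : ℤ)).natAbs ∣ m * s := by
    rw [← h1]
    exact Int.natAbs_dvd_natAbs.2 (Finset.dvd_prod_of_mem (fun F : ℤ[X] => F.eval (n : ℤ)) hF)
  refine ⟨?_, ?_⟩
  · intro h
    unfold evS at h0
    rw [Finset.prod_ne_zero_iff] at h0
    exact h0 F hF h
  · obtain ⟨m', s', hm', hs', hms⟩ := (Nat.dvd_mul).1 hdvd
    refine ⟨m', s', hms.symm, fun l hl hlm => h2 l hl (hlm.trans hm'), ?_, fun q hq => ?_⟩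
    · refine le_trans ?_ h3
      exact (Nat.primeFactorsList_sublist_of_dvd hs' hs0).length_le
    · apply h4 q
      rw [Nat.mem_primeFactors] at hq ⊢
      exact ⟨hq.1, hq.2.1.trans hs', hs0⟩

open Classical in
/-- **Sparse sets, systems** -/
theorem sparseS (k D M : ℕ) (hk : 1 ≤ k) (hD : 1 ≤ D) :
    ∃ M₀ : ℕ, 1 ≤ M₀ ∧ ∀ M' : ℕ, M₀ ≤ M' → ∃ r : ℕ, 1 ≤ r ∧
      ∀ κ : ℝ, 0 < κ → κ ≤ 1 → ∀ ε : ℝ, 0 < ε →
      ∃ (c C η : ℝ) (X₀ : ℕ), 0 < c ∧ 0 < C ∧ 0 < η ∧ ∀ X : ℕ, X₀ ≤ X →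
      ∀ φ0 : ℤ → ℤ, Sy (k * D) M' X φ0 → 0 < VP φ0 (P0 X κ) →
      ∀ A : Finset ℕ, (∀ n ∈ A, (1 ≤ n ∧ n ≤ X) ∧ xx (P0 X κ) (φ0 n) = 1) →
      (X : ℝ) ^ (1 - η) ≤ A.card →
      ∀ 𝒮 : Finset (Finset ℤ[X]), (∀ S ∈ 𝒮, Sst k D M X S ∧ Cp M' X φ0 (evS S)) →
      (∀ S ∈ 𝒮, ∀ T ∈ 𝒮, S ≠ T → ∀ F ∈ S, ∀ G ∈ T, Cop F G) →
      (∀ S ∈ 𝒮, ((AlmS A X ε r S).card : ℝ) < c * A.card) →
      (𝒮.card : ℝ) ≤ C * (VP φ0 (P0 X κ) * X / A.card) := by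
  have hkD : 1 ≤ k * D := Nat.mul_pos hk hD
  obtain ⟨M₀, hM₀, HC⟩ := consS POLA_thm POLB_thm k D M hk hD
  refine ⟨M₀, hM₀, fun M' hM' => ?_⟩
  obtain ⟨r, hr, H⟩ := sparseP RTP_thm BHG_thm BXS_thm VLBP_thm (k * D) M' hkD (hM₀.trans hM')
  refine ⟨r, hr, fun κ hκ0 hκ1 ε hε => ?_⟩
  obtain ⟨c, C, η, N₁, hc, hC, hη, H1⟩ := H κ hκ0 hκ1 ε hε
  refine ⟨c, C, η, max N₁ 2, hc, hC, hη, ?_⟩
  intro X hX φ0 hφ0 hW0 A hA hAc 𝒮 h𝒮 hpair hexc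
  have hX₁ : N₁ ≤ X := (le_max_left _ _).trans hX
  have hX2 : 2 ≤ X := (le_max_right _ _).trans hX
  have hcons : ∀ S ∈ 𝒮, Sy (k * D) M' X (evS S) ∧ Nv (k * D) (evS S) ∧
      ∀ T : Finset ℤ[X], Sst k D M X T → (∀ F ∈ S, ∀ G ∈ T, Cop F G) →
        Cp M' X (evS S) (evS T) := fun S hS => HC M' hM' X hX2 S (h𝒮 S hS).1
  exact H1 X hX₁ φ0 hφ0 hW0 A hA hAc (Finset ℤ[X]) 𝒮 evS
    (fun S hS => ⟨(hcons S hS).1, (h𝒮 S hS).2⟩)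
    (fun S hS T hT hST => (hcons S hS).2.2 T (h𝒮 T hT).1 (hpair S hS T hT hST))
    (fun S hS => lt_of_le_of_lt (by exact_mod_cast Finset.card_le_card (GS_sub S)) (hexc S hS))

open Classical in
/-- subsets of the set of the `n` with `F0(n)` rough -/
theorem sparseRough (k D M : ℕ) (hk : 1 ≤ k) (hD : 1 ≤ D) :
    ∃ r : ℕ, 1 ≤ r ∧ ∀ κ : ℝ, 0 < κ → κ ≤ 1 → ∀ ε : ℝ, 0 < ε →
      ∃ (c C η : ℝ) (X₀ : ℕ), 0 < c ∧ 0 < C ∧ 0 < η ∧ ∀ X : ℕ, X₀ ≤ X →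
      ∀ F : ℤ[X], F.IsPrimitive → F.natDegree ≤ D → (∀ i, |(F.coeff i : ℝ)| ≤ (X : ℝ) ^ M) →
      ∀ A : Finset ℕ, (∀ n ∈ A, (1 ≤ n ∧ n ≤ X) ∧ xx (P0 X κ) (F.eval (n : ℤ)) = 1) →
      (X : ℝ) ^ (1 - η) ≤ A.card →
      ∀ 𝒮 : Finset (Finset ℤ[X]), Fam k D M X 𝒮 → (∀ S ∈ 𝒮, ∀ G ∈ S, Cop F G) →
      (∀ S ∈ 𝒮, ((AlmS A X ε r S).card : ℝ) < c * A.card) →
      (𝒮.card : ℝ) ≤ C * (VP (fun n => F.eval n) (P0 X κ) * X / A.card) := by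
  have hkD : 1 ≤ k * D := Nat.mul_pos hk hD
  have hDk : D ≤ k * D := Nat.le_mul_of_pos_left D (by omega)
  have hMk : M ≤ k * (M + D) := (Nat.le_add_right M D).trans (Nat.le_mul_of_pos_left _ (by omega))
  obtain ⟨M₀, hM₀, H⟩ := sparseS k D M hk hD
  obtain ⟨M₁, HB⟩ := POLB_thm (k * D) (k * (M + D)) hkD
  obtain ⟨r, hr, H1⟩ := H (M₀ + M₁ + (k * (M + D) + k * D)) (by omega)
  refine ⟨r, hr, fun κ hκ0 hκ1 ε hε => ?_⟩
  obtain ⟨c, C, η, N₁, hc, hC, hη, H2⟩ := H1 κ hκ0 hκ1 ε hε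
  refine ⟨c, C, η, max N₁ 2, hc, hC, hη, ?_⟩
  intro X hX F hFp hFd hFh A hA hAc 𝒮 h𝒮 hcop hexc
  have hX₁ : N₁ ≤ X := (le_max_left _ _).trans hX
  have hX2 : 2 ≤ X := (le_max_right _ _).trans hX
  have hX1 : (1 : ℝ) ≤ X := by exact_mod_cast (by omega : 1 ≤ X)
  have hX0 : (0 : ℝ) < X := by linarith
  -- `A` is not empty
  have hA0 : A.Nonempty := by
    rw [Finset.nonempty_iff_ne_empty]
    intro h0
    rw [h0, card_empty] at hAc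
    have := Real.rpow_pos_of_pos hX0 (1 - η)
    push_cast at hAc
    linarith
  obtain ⟨n₀, hn₀⟩ := hA0
  have hperF : Per (fun n => F.eval n) := fun m n => Polynomial.sub_dvd_eval_sub m n F
  have hW0 : 0 < VP (fun n => F.eval n) (P0 X κ) := by
    unfold VP
    apply Finset.prod_pos
    intro p hp
    have hpp := P0_prime p hp
    have h1 : nr (fun n => F.eval n) p < p :=
      nr_lt hperF hpp.pos (xx_ndvd (hA n₀ hn₀).2 p hp)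
    unfold rh
    have h2 : (nr (fun n => F.eval n) p : ℝ) < p := by exact_mod_cast h1
    have hp0 : (0 : ℝ) < p := by exact_mod_cast hpp.pos
    have h3 : (nr (fun n => F.eval n) p : ℝ) / p < 1 := (div_lt_one hp0).2 h2
    linarith
  have hFh1 : ∀ i, |(F.coeff i : ℝ)| ≤ (X : ℝ) ^ (k * (M + D)) := fun i =>
    (hFh i).trans (pow_le_pow_right₀ hX1 hMk)
  have hSyF : Sy (k * D) (M₀ + M₁ + (k * (M + D) + k * D)) X (fun n => F.eval n) :=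
    (POLA_thm (k * D) (k * (M + D)) X hkD hX2 F hFp (hFd.trans hDk) hFh1).mono (by omega)
      (by omega) le_rfl
  refine H2 X hX₁ (fun n => F.eval n) hSyF hW0 A hA hAc 𝒮 (fun S hS => ⟨h𝒮.sys S hS, ?_⟩)
    h𝒮.cop hexc
  have hQ := (h𝒮.sys S hS).prodPol hX2
  rw [evS_eq]
  have hc1 : Cop F (∏ G ∈ S, G) := by
    have := cop_prod (S := {F}) (T := S) (fun F' hF' G hG => by
      rw [mem_singleton] at hF'
      rw [hF']
      exact hcop S hS G hG)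
    rwa [prod_singleton] at this
  exact (HB X hX2 F (∏ G ∈ S, G) (hFd.trans hDk) hQ.deg hFh1 hQ.ht hc1).mono (by omega)
    (by omega) le_rfl

open Classical in
/-- sets of primes -/
theorem sparsePrimes (k D M : ℕ) (hk : 1 ≤ k) (hD : 1 ≤ D) :
    ∃ r : ℕ, 1 ≤ r ∧ ∀ ε : ℝ, 0 < ε →
      ∃ (c C η : ℝ) (X₀ : ℕ), 0 < c ∧ 0 < C ∧ 0 < η ∧ ∀ X : ℕ, X₀ ≤ X →
      ∀ A : Finset ℕ, (∀ p ∈ A, p.Prime ∧ p ≤ X) → (X : ℝ) ^ (1 - η) ≤ A.card →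
      ∀ 𝒮 : Finset (Finset ℤ[X]), Fam k D M X 𝒮 → (∀ S ∈ 𝒮, ∀ F ∈ S, F.coeff 0 ≠ 0) →
      (∀ S ∈ 𝒮, ((AlmS A X ε r S).card : ℝ) < c * A.card) →
      (𝒮.card : ℝ) ≤ C * (X / (A.card * Real.log X)) := by
  obtain ⟨M₀, hM₀, H⟩ := sparseS k D M hk hD
  obtain ⟨r, hr, H1⟩ := H (M₀ + k * (M + D)) (by omega)
  have hkD : 1 ≤ k * D := Nat.mul_pos hk hD
  refine ⟨r, hr, fun ε hε => ?_⟩
  obtain ⟨CM, N₁, hCM, HM⟩ := VP_id (1 / 2) (by norm_num) (by norm_num)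
  obtain ⟨c, C, η, X₀, hc, hC, hη, H2⟩ := H1 (1 / 2) (by norm_num) (by norm_num) ε hε
  obtain ⟨N₂, HN₂⟩ : ∃ N₀ : ℕ, ∀ N : ℕ, N₀ ≤ N → (2 : ℝ) ≤ (N : ℝ) ^ (min (η / 2) (1 / 4)) := by
    have h1 := (tendsto_rpow_atTop (lt_min (by positivity) (by norm_num) :
      (0 : ℝ) < min (η / 2) (1 / 4))).comp (tendsto_natCast_atTop_atTop (R := ℝ))
    exact Filter.eventually_atTop.1 (h1.eventually_ge_atTop 2)
  refine ⟨c / 2, C * CM * 2, min (η / 2) (1 / 4), max (max X₀ N₁) (max N₂ 3), by positivity,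
    by positivity, lt_min (by positivity) (by norm_num), fun X hX A hA hAc 𝒮 h𝒮 hz hexc => ?_⟩
  have hX₁ : X₀ ≤ X := ((le_max_left _ _).trans (le_max_left _ _)).trans hX
  have hX₂ : N₁ ≤ X := ((le_max_right _ _).trans (le_max_left _ _)).trans hX
  have hX₃ : N₂ ≤ X := ((le_max_left _ _).trans (le_max_right _ _)).trans hX
  have hX3' : 3 ≤ X := ((le_max_right _ _).trans (le_max_right _ _)).trans hX
  clear hX
  have hX3 : (3 : ℝ) ≤ X := by exact_mod_cast hX3'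
  have hX0 : (0 : ℝ) < X := by linarith
  have hX1 : (1 : ℝ) ≤ X := by linarith
  have hL : 0 < Real.log X := Real.log_pos (by linarith)
  obtain ⟨hW0, hW⟩ := HM X hX₂
  set u : ℝ := min (η / 2) (1 / 4) with hu
  have hu1 : u ≤ η / 2 := min_le_left _ _
  have hu2 : u ≤ 1 / 4 := min_le_right _ _
  have h2u := HN₂ X hX₃
  -- remove the small primes
  set A' := A.filter (fun p : ℕ => (X : ℝ) ^ (1 / 2 : ℝ) ≤ p) with hA'
  have hcard : (A.card : ℝ) - A'.card ≤ (X : ℝ) ^ (1 / 2 : ℝ) := by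
    have h1 := Finset.card_filter_add_card_filter_not (s := A)
      (fun p : ℕ => (X : ℝ) ^ (1 / 2 : ℝ) ≤ p)
    have h2 : (A.filter (fun p : ℕ => ¬ (X : ℝ) ^ (1 / 2 : ℝ) ≤ p)).card ≤
        (Icc 1 ⌊(X : ℝ) ^ (1 / 2 : ℝ)⌋₊).card := by
      apply Finset.card_le_card
      intro p hp
      rw [mem_filter, not_le] at hp
      rw [mem_Icc]
      exact ⟨(hA p hp.1).1.pos, Nat.le_floor hp.2.le⟩
    have h3 : (A.card : ℝ) = (A'.card : ℝ) +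
        ((A.filter (fun p : ℕ => ¬ (X : ℝ) ^ (1 / 2 : ℝ) ≤ p)).card : ℝ) := by
      rw [hA']
      exact_mod_cast h1.symm
    have h4 : ((A.filter (fun p : ℕ => ¬ (X : ℝ) ^ (1 / 2 : ℝ) ≤ p)).card : ℝ) ≤
        ⌊(X : ℝ) ^ (1 / 2 : ℝ)⌋₊ := by
      have : (Icc 1 ⌊(X : ℝ) ^ (1 / 2 : ℝ)⌋₊).card = ⌊(X : ℝ) ^ (1 / 2 : ℝ)⌋₊ := by simp
      rw [this] at h2
      exact_mod_cast h2
    have h5 : (⌊(X : ℝ) ^ (1 / 2 : ℝ)⌋₊ : ℝ) ≤ (X : ℝ) ^ (1 / 2 : ℝ) :=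
      Nat.floor_le (by positivity)
    linarith
  have hA'2 : (A.card : ℝ) / 2 ≤ A'.card := by
    have h1 : (X : ℝ) ^ (1 / 2 : ℝ) ≤ (A.card : ℝ) / 2 := by
      have h3 : 2 * (X : ℝ) ^ (1 / 2 : ℝ) ≤ (X : ℝ) ^ u * (X : ℝ) ^ (1 / 2 : ℝ) := by gcongr
      have h4 : (X : ℝ) ^ u * (X : ℝ) ^ (1 / 2 : ℝ) ≤ (X : ℝ) ^ (1 - u) := by
        rw [← Real.rpow_add hX0]
        exact Real.rpow_le_rpow_of_exponent_le hX1 (by linarith)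
      linarith
    linarith
  have hApos : (0 : ℝ) < A.card := lt_of_lt_of_le (Real.rpow_pos_of_pos hX0 _) hAc
  have hA'A : A' ⊆ A := Finset.filter_subset _ _
  have hA'c : (X : ℝ) ^ (1 - η) ≤ A'.card := by
    refine le_trans ?_ hA'2
    have h3 : (X : ℝ) ^ (1 - η) * (X : ℝ) ^ u ≤ (X : ℝ) ^ (1 - u) := by
      rw [← Real.rpow_add hX0]
      exact Real.rpow_le_rpow_of_exponent_le hX1 (by linarith)
    have h4 : (X : ℝ) ^ (1 - η) * 2 ≤ (X : ℝ) ^ (1 - η) * (X : ℝ) ^ u := by gcongr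
    linarith
  have key := H2 X hX₁ (fun n => n) (Sy_id hkD (by omega)) hW0 A' (fun p hp => by
    rw [hA', mem_filter] at hp
    obtain ⟨h1, h2⟩ := hA p hp.1
    exact ⟨⟨h1.pos, h2⟩, prime_rough (by omega) h1 hp.2⟩) hA'c 𝒮
    (fun S hS => ⟨h𝒮.sys S hS, Cp_idS (by omega) (h𝒮.sys S hS) (hz S hS) (by omega)⟩)
    h𝒮.cop (fun S hS => by
      have h1 : ((AlmS A' X ε r S).card : ℝ) ≤ (AlmS A X ε r S).card := by
        exact_mod_cast Finset.card_le_card (Finset.filter_subset_filter _ hA'A)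
      have h2 := hexc S hS
      calc ((AlmS A' X ε r S).card : ℝ) < c / 2 * A.card := h1.trans_lt h2
        _ = c * ((A.card : ℝ) / 2) := by ring
        _ ≤ _ := by gcongr)
  refine key.trans ?_
  have hA'pos : (0 : ℝ) < A'.card := by linarith
  calc C * (VP (fun n => n) (P0 X (1 / 2)) * X / A'.card)
      ≤ C * (CM / Real.log X * X / ((A.card : ℝ) / 2)) := by gcongr
    _ = _ := by field_simp

end Pool.Agent.W23.PP
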