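import Pool.Agent.W23.KI.Defs

/-!
PP project (helper23): almost prime values of polynomials at the elements of dense sets.

Dense sets `A` of integers `n` such that `φ0 n` has no prime factor `< N^κ` (`φ0 = 1`: all integers;
`φ0 n = n`: primes), families of pairwise coprime polynomials `φ`.  Instead of polynomials we use
functions `φ : ℤ → ℤ` with the properties `Sy`; `POLA`, `POLB` say that polynomials have them.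

Every `St_X` below is the statement of one task; the doc comment is its complete proof.  The file of a
task is `Pool/Agent/W<yourseat>/PP/<Name>.lean`, the theorem has the name given in the comment.

Nearly everything is an adaptation of the landed project KS/KI (tuples of linear forms):
there the function is `Fp S`, the weights of the sieve density `kw k d / d`; here the function is `φ`,
the density `rh φ d`.  All primes are good here (no `gp`), and the weights `BX.nuS lam z n` are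
replaced by `Ev t0 D (φ0 n)`.
-/

namespace Pool.Agent.W23.PP

open Finset
open Pool.Agent.H442R2
open Pool.Agent.H442R2.KF
open Pool.Agent.W23.DC
open Pool.Agent.W23.SG
open Pool.Agent.W23.PL
open Pool.Agent.W23.KT

/-- functions preserving congruences -/
def Per (φ : ℤ → ℤ) : Prop := ∀ m n : ℤ, m - n ∣ φ m - φ n

/-- functions like the primitive polynomials of degree at most `k` and height at most `N^M` -/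
structure Sy (k M N : ℕ) (φ : ℤ → ℤ) : Prop where
  per : Per φ
  gr : ∀ n : ℤ, |(φ n : ℝ)| ≤ (N : ℝ) ^ M * (1 + |(n : ℝ)|) ^ k
  ze : ∃ Z : Finset ℤ, Z.card ≤ k ∧ ∀ n : ℤ, φ n = 0 → n ∈ Z
  lift : ∀ p j : ℕ, p.Prime → 1 ≤ j → ∃ Ω : Finset ℕ, Ω.card ≤ k ∧ ∀ n : ℤ,
    ((p ^ (k * (j - 1) + 1) : ℕ) : ℤ) ∣ φ n → ∃ s ∈ Ω, ((p ^ j : ℕ) : ℤ) ∣ n - s

/-- like coprime polynomials: `R` is the resultant -/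
def Cp (M N : ℕ) (φ ψ : ℤ → ℤ) : Prop := ∃ R : ℤ, R ≠ 0 ∧ |(R : ℝ)| ≤ (N : ℝ) ^ M ∧
  ∀ (n : ℤ) (l : ℕ), l.Prime → (l : ℤ) ∣ φ n → (l : ℤ) ∣ ψ n → (l : ℤ) ∣ R

open Classical in
/-- the number of residues `a` modulo `d` with `d ∣ φ a` -/
noncomputable def nr (φ : ℤ → ℤ) (d : ℕ) : ℕ :=
  ((range d).filter (fun a : ℕ => (d : ℤ) ∣ φ a)).card

/-- the density of `d ∣ φ n` -/
noncomputable def rh (φ : ℤ → ℤ) (d : ℕ) : ℝ := (nr φ d : ℝ) / d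

/-- the multiplicative function `∏_{p | e} g p` -/
noncomputable def gm (g : ℕ → ℝ) (e : ℕ) : ℝ := ∏ p ∈ e.primeFactors, g p

/-- `∏ (1 - ρ(p))` -/
noncomputable def VP (φ : ℤ → ℤ) (P : Finset ℕ) : ℝ := ∏ p ∈ P, (1 - rh φ p)

/-- `∑ θ_e ρ(e)` -/
noncomputable def hatP (φ : ℤ → ℤ) (th : ℕ → ℝ) (D : ℕ) : ℝ := ∑ e ∈ Icc 1 D, th e * rh φ e

open Classical in
/-- all primes `< N^ε₁` -/
noncomputable def P0 (N : ℕ) (ε₁ : ℝ) : Finset ℕ :=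
  (Icc 1 N).filter (fun p => p.Prime ∧ tt N p < ε₁)

open Classical in
/-- the primes in `[log N, N]` -/
noncomputable def PF (N : ℕ) : Finset ℕ :=
  (Icc 1 N).filter (fun p => p.Prime ∧ Real.log N ≤ (p : ℝ))

open Classical in
/-- `1_{d | φ n} - ρ(d)` -/
noncomputable def dP (φ : ℤ → ℤ) (d : ℕ) (n : ℤ) : ℝ := (if (d : ℤ) ∣ φ n then 1 else 0) - rh φ d

/-- coefficients, supported on the squarefree `1 < d ≤ X` with all prime factors `> y` -/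
structure CofP (y : ℝ) (X : ℕ) (c : ℕ → ℝ) : Prop where
  bd : ∀ d, |c d| ≤ 1
  supp : ∀ d, c d ≠ 0 → 1 < d ∧ d ≤ X ∧ Squarefree d ∧ ∀ p : ℕ, p.Prime → p ∣ d → y < (p : ℝ)

/-- the moduli: squarefree, `1 < d ≤ N^(49/100)`, all prime factors at least `N^ε₁` -/
def BlP (N : ℕ) (ε₁ : ℝ) (d : ℕ) : Prop :=
  1 < d ∧ d ≤ ⌊(N : ℝ) ^ (49 / 100 : ℝ)⌋₊ ∧ Squarefree d ∧ ∀ p : ℕ, p.Prime → p ∣ d → ε₁ ≤ tt N p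

noncomputable def RP (φ : ℤ → ℤ) (c : ℕ → ℝ) (X : ℕ) (n : ℤ) : ℝ := ∑ d ∈ Icc 1 X, c d * dP φ d n

/-- the same, zero if `φ n = 0` -/
noncomputable def rP (φ : ℤ → ℤ) (c : ℕ → ℝ) (X : ℕ) (n : ℤ) : ℝ :=
  if φ n = 0 then 0 else RP φ c X n

open Classical in
/-- the discrepancy of `f` on the integers up to `N` with `d ∣ φ n` -/
noncomputable def DP (φ : ℤ → ℤ) (f : ℕ → ℝ) (N : ℕ) (d : ℕ) : ℝ :=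
  (∑ n ∈ (Icc 1 N).filter (fun n : ℕ => (d : ℤ) ∣ φ n), f n) - (∑ n ∈ Icc 1 N, f n) * rh φ d

/-- **FLWG** (theorem `FLWG : St_FLWG`; copy and adapt `Pool/Agent/W347/KS/FLWK.lean` (here the proof
for `g(p) = k/p` and `P ⊆ P1 N B ε₁`) and `Pool/Agent/W308/PL/{FLW1,FLW2}.lean`).  The fundamental
lemma of dimension `k`, Brun–Hooley, for all primes `< N^ε₁` and all densities `g(p) ≤ k/p`; the
coefficients do not depend on `g`.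

Proof.  (1) `P' = {p ∈ P : p ≥ w}` for a constant `w = w(k) ≥ 2k` chosen below.  The construction of
`th', dl'` (blocks `P_j` of `P'`, `b_j = b + j`, `∏ T_j` and `∑_i E_i ∏_{j ≠ i} T_j`) and the pointwise
inequalities are as in FLWK; the number of blocks is `J = ⌈log₂ log N⌉ + 1` (`Z^(2^-J) ≤ 2 ≤ w`,
`Z = N^ε₁`), `J + 1 ≤ log N`.  Main terms with the weights `g p` in place of `k/p`:
`V_j = ∏_{p ∈ P_j} (1 - g p) ≤ T̂_j ≤ V_j + Ê_j`, `Ê_j ≤ L_j^(2b_j+1)/(2b_j+1)!`,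
`L_j = ∑_{P_j} g p ≤ k ∑_{P_j} 1/p ≤ k` (Mertens: `∑_{x ≤ p < x²} 1/p ≤ log 2 + C/log x ≤ 1` for
`x ≥ w(k)^(1/2)`), and `V_j ≥ e^(-2k)` (`g ≤ 1/2`).  So `Ê_j/V_j ≤ e^(2k) k^(2b_j+1)/(2b_j+1)! =: ρ_j`,
and the rest is as in FLWK; level `D' = ⌊N^(η₀/2)⌋`.
(2) `W = ∏_{p < w} p` (a constant).  `th e = μ(e₁) th'(e₂)` if `e = e₁ e₂` is squarefree, all prime
factors of `e₁` are in `P` and `< w`, those of `e₂` are `≥ w`; `dl` the same with `dl'`; level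
`W N^(η₀/2) ≤ D`.  Then `Ev th D m = xx P_s m · Ev th' D' m`, `P_s = {p ∈ P : p < w}`
(`∑_{e₁ | gcd(m, ∏ P_s)} μ(e₁)`), so the pointwise inequalities follow from those of `th', dl'`, and
`∑ th e gm g e = ∏_{P_s} (1 - g p) · ∑ th' e gm g e`, similarly `dl`. -/
def St_FLWG : Prop := ∀ k : ℕ, 1 ≤ k → ∀ η₀ A : ℝ, 0 < η₀ → 0 < A → ∃ εs : ℝ, 0 < εs ∧
    ∀ ε₁ : ℝ, 0 < ε₁ → ε₁ ≤ εs → ∃ N₀ : ℕ, ∀ N : ℕ, N₀ ≤ N →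
    ∀ D : ℕ, D = ⌊(N : ℝ) ^ η₀⌋₊ → ∀ P : Finset ℕ, P ⊆ P0 N ε₁ →
    ∃ th dl : ℕ → ℝ, DW P D (Real.log N) th ∧ DW P D (Real.log N) dl ∧
      (∀ m : ℤ, xx P m ≤ Ev th D m ∧ Ev th D m - xx P m ≤ Ev dl D m) ∧
      ∀ g : ℕ → ℝ, (∀ p ∈ P, 0 ≤ g p ∧ g p ≤ 1 ∧ g p ≤ k / p) →
        |∑ e ∈ Icc 1 D, th e * gm g e - ∏ p ∈ P, (1 - g p)| ≤
          Real.exp (-(A / ε₁)) * ∏ p ∈ P, (1 - g p) ∧
        |∑ e ∈ Icc 1 D, dl e * gm g e| ≤ Real.exp (-(A / ε₁)) * ∏ p ∈ P, (1 - g p)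

open Classical in
/-- **BHG** (theorem `BHG : St_BHG`; copy and adapt `Pool/Agent/W597/KS/BHU.lean` or
`Pool/Agent/W23/KI/BHI.lean` (the same for `g(p) = k/(p-1)`, `g(p) = k/p`)).  The lower bound sieve of
dimension `k` for the primes in `[N^ε₁, N^ζ)` and all densities `g(p) ≤ k/p`; the coefficients do not
depend on `g`.

Proof.  As BHI with `P = pr N ε₁ ζ`: the construction does not involve `g`; main terms with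
`g p ≤ k/p ≤ 1/2`: `L_j = ∑_{P_j} g p ≤ k ∑_{P_j} 1/p ≤ k`, `V_j = ∏_{P_j} (1 - g p) ≥ e^(-2 L_j)`,
`∏_{p ∈ P} (1 - g p) ≥ ∏_{p ∈ P} (1 - k/p) ≥ c' (ε₁/ζ)^k`. -/
def St_BHG : Prop := ∀ k : ℕ, 1 ≤ k → ∃ ζ c : ℝ, 0 < ζ ∧ ζ ≤ 1 / 10 ∧ 0 < c ∧ ∀ ε₁ : ℝ, 0 < ε₁ →
    ε₁ < ζ → ∃ N₀ : ℕ, ∀ N : ℕ, N₀ ≤ N →
    ∃ th : ℕ → ℝ, (∀ e, |th e| ≤ 1 / ε₁) ∧
      (∀ e, th e ≠ 0 → Squarefree e ∧ (e : ℝ) ≤ (N : ℝ) ^ (49 / 100 : ℝ) ∧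
        ∀ p : ℕ, p.Prime → p ∣ e → p ∈ pr N ε₁ ζ) ∧
      (∀ m : ℤ, ∑ e ∈ Icc 1 ⌊(N : ℝ) ^ (49 / 100 : ℝ)⌋₊, th e * (if (e : ℤ) ∣ m then 1 else 0) ≤
        xx (pr N ε₁ ζ) m) ∧
      ∀ g : ℕ → ℝ, (∀ p ∈ pr N ε₁ ζ, 0 ≤ g p ∧ g p ≤ k / p) →
        c * ε₁ ^ k ≤ ∑ e ∈ Icc 1 ⌊(N : ℝ) ^ (49 / 100 : ℝ)⌋₊, th e * gm g e

/-- **RTP** (theorem `RTP : St_RTP`).  Roots.

Proof.  (1) Three conditions: the set `Ω` is the set of the Chinese remainders (`< abc`) of the triples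
`(r, s, t)`, `r < a`, `a | φ0 r`, `s < b`, `b | φ1 s`, `t < c`, `c | φ2 t`; by `Per` the condition
`a | φ0 n` only depends on `n` modulo `a`.  (`Nat.chineseRemainder` twice, or `ZMod.chineseRemainder`.)
(2) multiplicativity: the case `φ0 = φ1 = φ`, `c = 1`: `ab | φ n` iff `a | φ n` and `b | φ n`, and `Ω`
is then exactly the set of the residues counted by `nr φ (a b)`; note `nr φ 1 = 1`.
(3) `nr φ p ≤ k`: `lift` with `j = 1` (`k * 0 + 1 = 1`): the residues `a < p` with `p | φ a` inject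
into `Ω` (`a ≡ s (mod p)`).
(4) squarefree `e`: induction over the prime factors with (2), (3); `kw k e = k^ω(e)`. -/
def St_RTP : Prop :=
  (∀ φ0 φ1 φ2 : ℤ → ℤ, Per φ0 → Per φ1 → Per φ2 → ∀ a b c : ℕ, 1 ≤ a → 1 ≤ b → 1 ≤ c →
    Nat.Coprime a b → Nat.Coprime a c → Nat.Coprime b c →
    ∃ Ω : Finset ℕ, Ω.card = nr φ0 a * nr φ1 b * nr φ2 c ∧ (∀ s ∈ Ω, s < a * b * c) ∧
      ∀ n : ℤ, ((a : ℤ) ∣ φ0 n ∧ (b : ℤ) ∣ φ1 n ∧ (c : ℤ) ∣ φ2 n) ↔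
        ∃ s ∈ Ω, ((a * b * c : ℕ) : ℤ) ∣ n - s) ∧
  (∀ φ : ℤ → ℤ, Per φ → ∀ a b : ℕ, 1 ≤ a → 1 ≤ b → Nat.Coprime a b →
    nr φ (a * b) = nr φ a * nr φ b) ∧
  (∀ (k M N : ℕ) (φ : ℤ → ℤ), Sy k M N φ → (∀ p : ℕ, p.Prime → nr φ p ≤ k) ∧
    ∀ e : ℕ, Squarefree e → rh φ e = gm (rh φ) e ∧ (nr φ e : ℝ) ≤ kw k e)

/-- **PBP** (theorem `PBP (hRTP : St_RTP) : St_PBP`; copy and adapt `Pool/Agent/W216/KS/PBXK.lean`,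
`Pool/Agent/W82/KT/PBK.lean`).

Proof.  For `n` with `φ n ≠ 0`: `|φ n| ≤ N^M (1 + |n|)^k ≤ N^(M+k) (1 + |n|/N)^k`, so the number of
`y`-rough divisors (`y = N^ε`) is at most `2^(log|φ n|/(ε log N)) ≤ exp((M+k)/ε) (1 + |n|/N)^(k/(ε log N))`,
exponent `≤ 1/4` for `ε log N ≥ 4k`.  For squarefree rough `d ≤ N`: `ω(d) ≤ 1/ε`, `nr φ d ≤ kw k d ≤
(k+1)^(1/ε)`, and `∑_{d ≤ N rough} 1/d ≤ exp(4/ε)` for `N ≥ N₀(ε)` (proof of `W655.PL.PBX`).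
`|RP| ≤ #rd + ∑ nr/d`. -/
def St_PBP : Prop := ∀ k M : ℕ, ∃ c₁ : ℝ, 0 < c₁ ∧ ∀ ε : ℝ, 0 < ε → ε ≤ 1 → ∃ N₀ : ℕ,
    ∀ N X : ℕ, N₀ ≤ N → X ≤ N → ∀ φ : ℤ → ℤ, Sy k M N φ →
    (∀ n : ℤ, φ n ≠ 0 → ((BX.rd ((N : ℝ) ^ ε) X (φ n)).card : ℝ) ≤
      Real.exp (c₁ / ε) * (1 + |(n : ℝ)| / N) ^ (1 / 4 : ℝ)) ∧
    ∀ c : ℕ → ℝ, CofP ((N : ℝ) ^ ε) X c → ∀ n : ℤ,
      |rP φ c X n| ≤ Real.exp (c₁ / ε) * (1 + |(n : ℝ)| / N) ^ (1 / 4 : ℝ)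

/-- **CORP** (theorem `CORP (hRTP : St_RTP) (hGS : BX.St_GS) : St_CORP`; copy and adapt
`Pool/Agent/W410/KS/{CORK1,CORK2,CORK}.lean` (there: `ν` and two functions; here three functions)).
Correlations of divisor sums.

Proof.  The sum is `∑ t0 e₀ t1 e₁ t2 e₂ S(e₀,e₁,e₂)` over squarefree `e_i ≤ D`,
`S = ∑' Wt 1_{e₀ | φ0 n} 1_{e₁ | φ1 n} 1_{e₂ | φ2 n}`.
(1) `e₀, e₁, e₂` pairwise coprime: by RTP the `n` lie in `nr φ0 e₀ · nr φ1 e₁ · nr φ2 e₂ ≤ e₀e₁e₂`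
classes modulo `e₀e₁e₂ ≤ N^(3/20)`, so `S = nr nr nr N/(e₀e₁e₂) + O(e₀e₁e₂ N^(-5))`
(`KF.poisson_trunc` with `J = 0`, or `SG.PA`).
(2) otherwise and `S ≠ 0`: some prime `l` divides two of them, so `l ≥ y` (it divides `e₁` or `e₂`),
and a solution `n` shows that `l` divides `R`, the number of the corresponding `Cp`.  The number of
such `l` is at most `3 M log N/log 2`.  The conditions define at most `k^ω(m) ≤ kw k e₀ kw k e₁ kw k e₂`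
classes modulo `m = lcm(e₀,e₁,e₂)` (at most `k` classes modulo each prime `p | m`), so
`S ≤ kw kw kw 8 N/m` (GS), and `∑ k^ω(m)... /lcm(e₀,e₁,e₂)` over squarefree `e_i ≤ N` with `l | lcm` is
at most `(7 k³/l) ∏_{p ≤ N} (1 + 7 k³/p) ≤ C (log N)^(7k³)/l`.  Total `≤ C U³ N (log N)^(7k³+1)/y`.
(3) In the main term `N hatP hatP hatP` the triples which are not pairwise coprime contribute at most
`C U³ N (log N)^E ∑_{l ≥ y} k²/l² ≤ C U³ N (log N)^E/y` (`rh φ e ≤ kw k e/e`).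
(4) The errors of (1): `U³ D³ D³ N^(-5) ≤ U³`. -/
def St_CORP : Prop := ∀ k M : ℕ, 1 ≤ k → ∃ (C : ℝ) (E N₀ : ℕ), 0 < C ∧
    ∀ N : ℕ, N₀ ≤ N → ∀ D : ℕ, 1 ≤ D → (D : ℝ) ≤ (N : ℝ) ^ (1 / 20 : ℝ) →
    ∀ φ0 φ1 φ2 : ℤ → ℤ, Sy k M N φ0 → Sy k M N φ1 → Sy k M N φ2 →
    Cp M N φ0 φ1 → Cp M N φ0 φ2 → Cp M N φ1 φ2 →
    ∀ (Q0 Q1 Q2 : Finset ℕ) (y : ℝ), 2 ≤ y → (∀ p ∈ Q0, p.Prime) →
    (∀ p ∈ Q1, p.Prime ∧ y ≤ (p : ℝ)) → (∀ p ∈ Q2, p.Prime ∧ y ≤ (p : ℝ)) →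
    ∀ (U : ℝ) (t0 t1 t2 : ℕ → ℝ), 1 ≤ U → DW Q0 D U t0 → DW Q1 D U t1 → DW Q2 D U t2 →
    |∑' n : ℤ, Wt N n * (Ev t0 D (φ0 n) * (Ev t1 D (φ1 n) * Ev t2 D (φ2 n))) -
      N * (hatP φ0 t0 D * (hatP φ1 t1 D * hatP φ2 t2 D))| ≤ C * U ^ 3 * (N * Real.log N ^ E / y + 1)

/-- **TTCP** (theorem `TTCP (hPA : St_PA) (hRTP : St_RTP) : St_TTCP`; copy and adapt
`Pool/Agent/W45/KS/TTCK.lean`).  One coprime pair of moduli, one class `b` modulo `Q`.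

Proof.  By RTP (with `φ0 n = n - b`, `a = Q`, `nr = 1`) the conditions `Q | n - b`, `d | φ n`, `d' | ψ n`
are `nr φ d · nr ψ d'` classes modulo `Q d d' ≤ N^(199/200)`, so by PA (`δ = 1/200`) the sum of `Wt` over
them is `nr nr' N/(Q d d') + O(nr nr' N^(-5))`; the same for `(Q, d)`, `(Q, d')`, `Q`.  Expanding the
product the main terms cancel, and the errors are at most `nr nr' (1 + 1/d' + 1/d + 1/(dd')) N^(-5)`. -/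
def St_TTCP : Prop := ∃ N₀ : ℕ, ∀ N : ℕ, N₀ ≤ N → ∀ Q d d' : ℕ, 1 ≤ Q → 1 ≤ d → 1 ≤ d' →
    Nat.Coprime Q d → Nat.Coprime Q d' → Nat.Coprime d d' →
    ((Q * d * d' : ℕ) : ℝ) ≤ (N : ℝ) ^ (199 / 200 : ℝ) → ∀ φ ψ : ℤ → ℤ, Per φ → Per ψ →
    ∀ b : ℤ, |∑' n : ℤ, (if (Q : ℤ) ∣ n - b then Wt N n else 0) *
      (dP φ d n * dP ψ d' n)| ≤ 4 * ((nr φ d : ℝ) * nr ψ d') / (N : ℝ) ^ 5

/-- **OFDP** (theorem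
`OFDP (hTTCP : St_TTCP) (hPBP : St_PBP) (hRTP : St_RTP) (hGS : BX.St_GS) (hRB : BX.St_RB) : St_OFDP`;
copy and adapt `Pool/Agent/W108/KS/{OFDK1,OFDK2,OFDK3,OFDK}.lean`).  The off-diagonal terms.

Proof.  `η₀ = 1/1000`, `η = min (ε₁/8) (1/200)` or smaller, `N ≥ N₀`, `C₁ = (k+1)^(2/ε₁) ≥ kw k d ≥
nr φ d` for the moduli, `Θ_i = Ev t_i D (φ_i n)`, `G(n) = Wt(n) Θ_0 Θ_1 Θ_2 ≥ 0`.  Expand:
`G(n) = Wt(n) ∑ t0 e₀ t1 e₁ t2 e₂ 1_{e₀ | φ0 n} 1_{e₁ | φ1 n} 1_{e₂ | φ2 n}`; for given `e₀,e₁,e₂` the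
product of the indicators depends only on `n` modulo `Q = lcm(e₀,e₁,e₂) ≤ N^(3η₀)`, so it is
`∑_{b ∈ R} 1_{Q | n - b}` for a set `R ⊆ [0, Q)`: at most `D³ N^(3η₀) ≤ N^(6η₀)` terms, coefficients
`≤ (log N)³`.  `Q` is coprime to the `d` with `c d ≠ 0` or `c' d ≠ 0` (prime factors `≥ N^ε₁`).
`∑' G RP RP' = ∑_{(d,d')=1} c c' ∑' G dP dP' + ∑_{(d,d')>1} c c' ∑' G dP dP'`.
(1) Coprime pairs: TTCP for each term: total `≤ N^(6η₀) (log N)³ X² 4 C₁² N^(-5) ≤ 1`.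
(2) Pairs with `(d,d') > 1`: `|dP φ1 d n dP φ2 d' n| ≤ 1_{d|φ1 n} 1_{d'|φ2 n} + C₁ 1_{d|φ1 n}/d' +
C₁ 1_{d'|φ2 n}/d + C₁²/(dd')`.  For `n` with `φ0 n, φ1 n, φ2 n ≠ 0`: `G(n) ≤ C N^(ε₁/8) (1+|n|/N)^(1/8)
Wt(n)` (divisor bound `τ(m) ≤ C_κ |m|^κ` with `κ` small depending on `k, M, ε₁`: `Θ_i ≤ (log N)
τ(φ_i n)`, `|φ_i n| ≤ N^(M+k) (1+|n|/N)^k`); and `G(n) ≤ (log N)³ D³ ≤ N^(4η₀)` always.
 (2a) such `n`: `∑_{(d,d')>1} 1_{d | φ1 n} 1_{d' | φ2 n}` vanishes unless a prime `l ≥ N^ε₁` divides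
 `φ1 n`, `φ2 n`, hence `R` (`Cp`; at most `M/ε₁` primes `l`, and for each the `n` lie in at most `k`
 classes modulo `l`: `lift` with `j = 1`), and it is `≤ C (1+|n|/N)^(1/2)` (PBP: number of rough
 divisors); contribution `≤ C N^(ε₁/8) ∑_l ∑_{classes} ∑_{l | n - n_l} Wt(n) (1+|n|/N) ≤
 C N^(ε₁/8) (N^(1-ε₁) + 1)`.  `∑_{(d,d')>1} 1_{d | φ1 n}/d'`: for each of the `≤ C (1+|n|/N)^(1/4)` rough
 `d | φ1 n`, `∑_{d' : (d,d')>1} 1/d' ≤ ∑_{l | d} (1 + log N)/l ≤ C log N N^(-ε₁)`; similarly the third;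
 for the fourth `∑_{(d,d')>1} 1/(dd') ≤ 4 (1 + log N)² N^(-ε₁)`, and `∑ G ≤ C N^(1 + ε₁/8)`.
 Total `≤ C N^(1 - ε₁/2)`.
 (2b) the at most `3k` other `n`: `φ1 n = φ2 n = 0` is impossible (`Cp`: every prime would divide
 `R ≠ 0`), so with `G ≤ N^(4η₀)` the sums are `≤ C N^(4η₀) X log N ≤ C N^(1-η)`: if `φ1 n = 0` then
 `1_{d | φ1 n} = 1` for all `d`: at most `X` values `d`, and `≤ C (1+|n|/N)^(1/4)` (rough divisors of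
 `φ2 n`; `Wt(n) (1+|n|/N) ≤ C`) values `d'` resp. `≤ 1 + log N` for `∑ 1/d'`.
(3) From `RP` to `rP`: the `n` with `φ1 n = 0` or `φ2 n = 0`: `G |RP| |RP'| ≤ C N^(4η₀) C₁ X`. -/
def St_OFDP : Prop := ∀ k M : ℕ, 1 ≤ k → ∃ η₀ : ℝ, 0 < η₀ ∧ η₀ ≤ 1 / 40 ∧
    ∀ ε₁ : ℝ, 0 < ε₁ → ε₁ ≤ 1 → ∃ (η C : ℝ) (N₀ : ℕ), 0 < η ∧ 0 < C ∧
    ∀ (N D X : ℕ), N₀ ≤ N → 1 ≤ D → (D : ℝ) ≤ (N : ℝ) ^ η₀ → X = ⌊(N : ℝ) ^ (49 / 100 : ℝ)⌋₊ →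
    ∀ φ0 φ1 φ2 : ℤ → ℤ, Sy k M N φ0 → Sy k M N φ1 → Sy k M N φ2 → Cp M N φ1 φ2 →
    ∀ Q0 Q1 Q2 : Finset ℕ, (∀ p ∈ Q0, p.Prime ∧ (p : ℝ) < (N : ℝ) ^ ε₁) →
    (∀ p ∈ Q1, p.Prime ∧ (p : ℝ) < (N : ℝ) ^ ε₁) → (∀ p ∈ Q2, p.Prime ∧ (p : ℝ) < (N : ℝ) ^ ε₁) →
    ∀ t0 t1 t2 : ℕ → ℝ, DW Q0 D (Real.log N) t0 → DW Q1 D (Real.log N) t1 →
    DW Q2 D (Real.log N) t2 →
    (∀ m : ℤ, 0 ≤ Ev t0 D m) → (∀ m : ℤ, 0 ≤ Ev t1 D m) → (∀ m : ℤ, 0 ≤ Ev t2 D m) →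
    ∀ c c' : ℕ → ℝ, CofP ((N : ℝ) ^ (ε₁ / 2)) X c → CofP ((N : ℝ) ^ (ε₁ / 2)) X c' →
    (∀ d, c d ≠ 0 → BlP N ε₁ d) → (∀ d, c' d ≠ 0 → BlP N ε₁ d) →
    |∑' n : ℤ, Wt N n * (Ev t0 D (φ0 n) * (Ev t1 D (φ1 n) * Ev t2 D (φ2 n))) *
      (rP φ1 c X n * rP φ2 c' X n)| ≤ C * (N : ℝ) ^ (1 - η)

/-- **VLBP** (theorem `VLBP (hRTP : St_RTP) : St_VLBP`; compare `Pool/Agent/W216/KS/VLBK.lean`;
Mertens: `Pool.Agent.Helper256.KM.mertens_inv`, `Pool.Agent.W378.DC.MP`).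

Proof.  `rh φ p ≤ min(1, k/p)`.  (1) `P1 N B ε₁ ⊆ PF N`, and for `N ≥ N₀` all elements of `PF N` are
`≥ 2k`, so all factors are in `[1/2, 1]`; `VF/VP(P1)` is the product over the primes in
`[log N, (log N)^B)` and `[N^ε₁, N]`, `≥ ∏ (1 - k/p) ≥ exp(-2k ∑ 1/p) ≥ exp(-2k (log B + log(1/ε₁) + 1))`.
`VP(P1) ≥ exp(-∑ k/p - 2k²/p²) ≥ exp(-k (log log N - log log log N + C)) ≥ 1/(log N)^(k+1)`; the same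
for `VF` (`PF N` in place of `P1`).
(2) `VP(P0 κ)/VP(P0 ε₁)` is the product over the primes in `[N^ε₁, N^κ)`,
`≥ exp(-k ∑ 1/p - 2 k² ∑ 1/p²) ≥ exp(-k log(κ/ε₁) - 1) ≥ e^(-1) ε₁^k` for `N ≥ N₀` (write it as
`VP(P0 ε₁) ≤ ...`; all factors are `≥ 0`).  If `VP(P0 κ) > 0`: for `p ≤ 2k` the factor
`1 - nr φ p/p > 0` is `≥ 1/p`, and `∏_{2k < p < N^κ} (1 - k/p) ≥ c (log N)^(-k)`. -/
def St_VLBP : Prop := ∀ k : ℕ, 1 ≤ k →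
    (∀ M B : ℕ, 1 ≤ B → ∀ ε₁ : ℝ, 0 < ε₁ → ε₁ ≤ 1 → ∃ (C : ℝ) (N₀ : ℕ), 0 < C ∧ ∀ N : ℕ, N₀ ≤ N →
      ∀ φ : ℤ → ℤ, Sy k M N φ → VP φ (PF N) ≤ VP φ (P1 N B ε₁) ∧
        VP φ (P1 N B ε₁) ≤ C * VP φ (PF N) ∧ 1 / Real.log N ^ (k + 1) ≤ VP φ (PF N) ∧
        VP φ (P1 N B ε₁) ≤ 1) ∧
    (∀ κ : ℝ, 0 < κ → κ ≤ 1 → ∃ C : ℝ, 0 < C ∧ ∀ (M : ℕ) (ε₁ : ℝ), 0 < ε₁ → ε₁ ≤ κ → ∃ N₀ : ℕ,
      ∀ N : ℕ, N₀ ≤ N → ∀ φ : ℤ → ℤ, Sy k M N φ →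
        VP φ (P0 N κ) ≤ VP φ (P0 N ε₁) ∧ VP φ (P0 N ε₁) ≤ C * (1 / ε₁) ^ k * VP φ (P0 N κ) ∧
        0 ≤ VP φ (P0 N κ) ∧ (0 < VP φ (P0 N κ) → 1 / Real.log N ^ (k + 1) ≤ VP φ (P0 N κ)))

/-- **BXBP** (theorem
`BXBP (hRTP : St_RTP) (hFLWG : St_FLWG) (hCORP : St_CORP) (hPBP : St_PBP) (hOFDP : St_OFDP)
(hVLBP : St_VLBP) (hGS : BX.St_GS) : St_BXBP`; copy and adapt `Pool/Agent/W973/KI/BXBI.lean`).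

Proof.  `η₀` from OFDP (at `k, M`); `c₁` from PBP; `A = A₀ + 4 c₁ + 10`; `ε*` from FLWG at `k, η₀, A`,
and `ε* ≤ 1/8`; `E` from CORP, `B₀ = E + 4k + 10`.  Given `ε₁ ≤ ε*`, `ε = ε₁/2`, `B ≥ B₀`, `N ≥ N₀`:
`D = ⌊N^η₀⌋`, `y = (log N)^B`, `t0, l0` from FLWG with `P = P0 N ε₁`, `th, dl` from FLWG with
`P = P1 N B ε₁ ⊆ P0 N ε₁`; by RTP `hatP φ t D = ∑ t e gm (rh φ) e`, so with `V0 = VP φ0 (P0 N ε₁)`,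
`V_i = VP (φ i) (P1 N B ε₁)`, `ρ = e^(-A/ε₁)`: `|hatP φ0 t0 - V0| ≤ ρ V0`, `|hatP φ_i th - V_i| ≤ ρ V_i`,
`|hatP φ_i dl| ≤ ρ V_i`.  `V0, V_i ≥ (log N)^(-(k+1))` (VLBP; for `V0` take `κ = ε₁`), so the errors
`C (log N)³ (N (log N)^(E-B) + 1)` of CORP are `≤ N V0 V_i V_j/(log N)²`.
Weights `w(n) = Wt N n · Ev t0 D (φ0 n) ≥ 0`; if `1 ≤ n ≤ N`, `xx (P0 N ε₁) (φ0 n) = 1` then
`w(n) ≥ e^(-π) ≥ 1/25`.  `∑_{n ≤ N} f² ≤ 25 ∑' w ≤ 100 V0 N` (CORP with `t1 = t2 = 1_{e=1}`,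
`Q1 = Q2 = ∅`, `φ1 = φ2 = 1`, `y = N²`).
For `i ∈ 𝒜` let `c_i(d)` be the sign of `DP (φ i) (f xx) N d` on `T i`, `0` elsewhere (`CofP` with
`X = ⌊N^(49/100)⌋`, `y = N^ε`, by `BlP`), `x_i(n) = xx (P1 N B ε₁) (φ i n)`, `r_i = x_i · rP (φ i) c_i X`,
`Y_i = ∑_{n ≤ N} f n r_i(n)`, `R = ∑_i r_i`.  Then `∑_{d ∈ T i} |DP| = ∑_{n ≤ N} f n x_i(n) RP(n)` exactly,
which is `Y_i` up to the at most `k` integers `n` with `φ_i n = 0`, each contributes `≤ 2X`.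
`(∑_i Y_i)² = (∑ f R)² ≤ (∑ f²) · 25 ∑' w R²` (Cauchy–Schwarz), `∑' w R² = ∑_i ∑' w r_i² +
∑_{i ≠ j} ∑' w r_i r_j`.
(G) `∑' w r_i² ≤ e^(2c₁/ε) ∑' Wt N (1+|n|/N)^(1/2) Θ_0 x_i ≤ 2 e^(4c₁/ε₁) ∑' Wt (2N) Θ_0 Ev th (φ i n)`
(as in BXBI), and CORP at `2N` (`Sy k M N φ → Sy k M (2N) φ`, `Cp` too; third function `1`) gives
`≤ C(ε₁) V0 V_i N`.
(O) `i ≠ j`: `ΘΘ' - xx' = (Θ-x)Θ' + x(Θ'-x')` lies in `[0, ΔΘ' + ΘΔ']` (`Θ = Ev th (φ i n)`,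
`Δ = Ev dl (φ i n)`, ...).  So `|∑' w r_i r_j| ≤ |∑' Wt Θ_0 ΘΘ' rP rP'| + ∑' w (ΔΘ' + ΘΔ') |rP| |rP'|`;
the first is `≤ C N^(1-η)` (OFDP), the second is `≤ 2 e^(4c₁/ε₁) ∑' Wt (2N) Θ_0 (ΔΘ' + ΘΔ') ≤
C e^((4c₁ - A)/ε₁) V0 V_i V_j N` with an absolute `C` (CORP at `2N`).
So with `Λ = ∑ V_i`: `(∑ Y_i)² ≤ (V0 N)² (C(ε₁) Λ + C e^((4c₁-A)/ε₁) Λ²)`, and the exceptional `n`
contribute at most `2k X |𝒜| ≤ 2k X (log N)^(k+1) Λ` to the sum.  Use `(a + b)² ≤ 2a² + 2b²`. -/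
def St_BXBP : Prop := ∀ k M : ℕ, 1 ≤ k → 1 ≤ M → ∀ A₀ : ℝ, 0 < A₀ → ∃ (B₀ : ℕ) (εs : ℝ), 0 < εs ∧
    ∀ ε₁ : ℝ, 0 < ε₁ → ε₁ ≤ εs → ∀ B : ℕ, B₀ ≤ B → ∃ (C : ℝ) (N₀ : ℕ), 0 < C ∧
    ∀ N : ℕ, N₀ ≤ N → ∀ φ0 : ℤ → ℤ, Sy k M N φ0 → 0 < VP φ0 (P0 N ε₁) →
    ∀ (ι : Type) (𝒜 : Finset ι) (φ : ι → ℤ → ℤ), (∀ i ∈ 𝒜, Sy k M N (φ i) ∧ Cp M N φ0 (φ i)) →
    (∀ i ∈ 𝒜, ∀ j ∈ 𝒜, i ≠ j → Cp M N (φ i) (φ j)) →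
    ∀ f : ℕ → ℝ, (∀ n, |f n| ≤ 1) → (∀ n : ℕ, f n ≠ 0 → xx (P0 N ε₁) (φ0 n) = 1) →
    ∀ T : ι → Finset ℕ, (∀ i ∈ 𝒜, ∀ d ∈ T i, BlP N ε₁ d) →
    (∑ i ∈ 𝒜, ∑ d ∈ T i, |DP (φ i) (fun n => f n * xx (P1 N B ε₁) (φ i n)) N d|) ^ 2 ≤
      (VP φ0 (P0 N ε₁) * N) ^ 2 * (C * ∑ i ∈ 𝒜, VP (φ i) (P1 N B ε₁) +
        Real.exp (-(A₀ / ε₁)) * (∑ i ∈ 𝒜, VP (φ i) (P1 N B ε₁)) ^ 2)

/-- **BX0P** (theorem
`BX0P (hRTP : St_RTP) (hFLWG : St_FLWG) (hCORP : St_CORP) (hVLBP : St_VLBP) (hGS : BX.St_GS) :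
St_BX0P`; copy and adapt `Pool/Agent/W351/KI/BX0I.lean`).  The first moment.

Proof.  `A = A₀ + 10`, `η₀ = 1/40`, `ε*` from FLWG; `B₀ = E + 4k + 10`; notation as in BXBP (`t0, th, dl,
w, V0, V_i, x_i`).  With the signs `s_i` of the inner sums and `R = ∑_i s_i (x_i - V_i)`:
`(∑_i |...|)² = (∑_{n ≤ N} f R)² ≤ (∑ f²) · 25 ∑' w R²`, `∑_{n ≤ N} f² ≤ 100 V0 N`.
Diagonal: `∑' w (x_i - V_i)² ≤ ∑' w Ev th (φ i n) + V_i² ∑' w ≤ C V0 V_i N` (CORP).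
`i ≠ j`: `∑' w (x_i - V_i)(x_j - V_j) = ∑' w x_i x_j - V_j ∑' w x_i - V_i ∑' w x_j + V_i V_j ∑' w`; by CORP
and `0 ≤ ΘΘ' - x_i x_j ≤ ΔΘ' + ΘΔ'`, `0 ≤ Θ - x_i ≤ Δ`: `∑' w x_i x_j = N hat₀ V_i V_j (1 + O(ρ)) + err`,
`∑' w x_i = N hat₀ V_i (1 + O(ρ)) + err`, `∑' w = N hat₀ + err`, so the sum is `≤ C ρ V0 V_i V_j N` in
absolute value (`C` absolute, `ρ = e^(-A/ε₁)`). -/
def St_BX0P : Prop := ∀ k M : ℕ, 1 ≤ k → 1 ≤ M → ∀ A₀ : ℝ, 0 < A₀ → ∃ (B₀ : ℕ) (εs : ℝ), 0 < εs ∧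
    ∀ ε₁ : ℝ, 0 < ε₁ → ε₁ ≤ εs → ∀ B : ℕ, B₀ ≤ B → ∃ (C : ℝ) (N₀ : ℕ), 0 < C ∧
    ∀ N : ℕ, N₀ ≤ N → ∀ φ0 : ℤ → ℤ, Sy k M N φ0 → 0 < VP φ0 (P0 N ε₁) →
    ∀ (ι : Type) (𝒜 : Finset ι) (φ : ι → ℤ → ℤ), (∀ i ∈ 𝒜, Sy k M N (φ i) ∧ Cp M N φ0 (φ i)) →
    (∀ i ∈ 𝒜, ∀ j ∈ 𝒜, i ≠ j → Cp M N (φ i) (φ j)) →
    ∀ f : ℕ → ℝ, (∀ n, |f n| ≤ 1) → (∀ n : ℕ, f n ≠ 0 → xx (P0 N ε₁) (φ0 n) = 1) →
    (∑ i ∈ 𝒜, |∑ n ∈ Icc 1 N, f n * (xx (P1 N B ε₁) (φ i n) - VP (φ i) (P1 N B ε₁))|) ^ 2 ≤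
      (VP φ0 (P0 N ε₁) * N) ^ 2 * (C * ∑ i ∈ 𝒜, VP (φ i) (P1 N B ε₁) +
        Real.exp (-(A₀ / ε₁)) * (∑ i ∈ 𝒜, VP (φ i) (P1 N B ε₁)) ^ 2)

open Classical in
/-- **UBSP** (theorem `UBSP (hRTP : St_RTP) (hVLBP : St_VLBP) : St_UBSP`; copy and adapt
`Pool/Agent/W397/KI/UBSI.lean`, compare `Pool/Agent/W946/KS/UBSK.lean` (two conditions); the sieve is
`Pool.Agent.H373R2.T7.Fund`: `sys_fund`).  An upper bound sieve of dimension `2k`.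

Proof.  `n = r' + m j`, `0 ≤ j ≤ N/m` (`r'` the residue of `r`); translate to `[1, X]`,
`X = ⌊N/m⌋ + 2 ≥ N^(19/20)`.  Conditions modulo a prime `l ≤ Y = N^(1/(2K))` (`K` from `sys_fund` with
`c = 2k`, `ε = 1`; `Y^K ≤ N^(1/2) ≤ X`), `l ∤ m`: `l ∤ φ0 n` if `l < N^κ`, and `l ∤ φ n` if
`l ∈ P1 N B ε₁`; `l | m`: none.  As `l ∤ m`, the number of the excluded classes of `j` is `nr φ0 l`, plus
`nr φ l` if `l ∈ P1` and `l ∤ R` (`Cp`; no common root), at least `nr φ0 l` if `l ∈ P1`, `l | R`.  So the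
count is `≤ 2 X ∏_{l ≤ Y, l ∤ m} (1 - ν(l)/l) + √X`.  If `rh φ0 l = 1` for some `l < N^κ` then the set is
empty; otherwise `∏_{l | m} (1 - rh φ0 l)^(-1) ≤ (2k)^ω(m) = kw (2k) m` (`nr φ0 l ≤ min(k, l-1)`), so
`∏_{l ≤ Y, l ∤ m} (1 - ν(l)/l) ≤ kw (2k) m ∏_{l ≤ Y, l < N^κ} (1 - rh φ0 l)
∏_{l ∈ P1, l ≤ Y, l ∤ mR} (1 - rh φ l)` (`1 - a - b ≤ (1-a)(1-b)`), and
`∏_{l ∈ P1, l | mR} (1 - rh φ l)^(-1) ≤ 2` (at most `C log N` primes `l ≥ (log N)^B`, `B ≥ 2`); the primes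
between `Y` and `N^κ` resp. `N^ε₁` are added at the cost of a constant (`∏ (1 - k/l) ≥ c(k, K, κ)`, see
VLBP), and `√X` is smaller than the main term (VLBP: both products are `≥ (log N)^(-(k+1))`). -/
def St_UBSP : Prop := ∀ k M B : ℕ, 1 ≤ k → 2 ≤ B → ∀ ε₁ κ : ℝ, 0 < ε₁ → ε₁ ≤ 1 → 0 < κ → κ ≤ 1 →
    ∃ (C : ℝ) (N₀ : ℕ), 0 < C ∧ ∀ N : ℕ, N₀ ≤ N → ∀ φ0 φ : ℤ → ℤ, Sy k M N φ0 → Sy k M N φ →
    Cp M N φ0 φ → ∀ m : ℕ, 1 ≤ m → (m : ℝ) ≤ (N : ℝ) ^ (1 / 20 : ℝ) → ∀ r : ℤ,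
    (((Icc 1 N).filter (fun n : ℕ => (m : ℤ) ∣ (n : ℤ) - r ∧ xx (P0 N κ) (φ0 n) = 1 ∧
      xx (P1 N B ε₁) (φ n) = 1)).card : ℝ) ≤
      C * kw (2 * k) m * (N / m) * (VP φ0 (P0 N κ) * VP φ (P1 N B ε₁))

open Classical in
/-- **SMOP** (theorem `SMOP (hUBSP : St_UBSP) (hVLBP : St_VLBP) : St_SMOP`; copy and adapt
`Pool/Agent/W503/KI/SMOI.lean`, `Pool/Agent/W216/KS/SMOK.lean`, `Pool/Agent/W214/PL/SMO.lean`).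
Smooth parts.

Proof.  `y = (log N)^B`.  For `n` with `φ n ≠ 0` let `a_l = v_l(φ n)`, and
`h(n) = ∏_{l < y} l^⌈a_l/k⌉`; the condition on `n` says `∏_{l < y} l^a_l > y^(ku)`, hence `h(n) > y^u`.
For a `y`-smooth `m = ∏ l^j_l`: `m | h(n)` iff `l^(k (j_l - 1) + 1) | φ n` for all `l | m`, and by `lift`
and the Chinese remainder theorem these `n` lie in at most `k^ω(m)` classes modulo `m`.
(1) `h(n) > N^(1/20)`: then `h(n)` has a `y`-smooth divisor `m ∈ (N^(1/20), N^(1/20) y]`, and for each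
`m` the number of `n ≤ N` is at most `k^ω(m) (N/m + 1) ≤ 2 k^ω(m) N/m`.  The sum over `m` as in SMOI
(Rankin; `∑_{m smooth, m > N^(1/20)} k^ω(m)/m ≤ N^(-σ/20) ∏_{l < y} (1 + k ∑_{j ≥ 1} l^(-j(1-σ)))`,
`σ = 1/(2B+2)`, the product is `≤ exp(C y^σ log log N) ≤ exp((log N)^(3/4))`): `≤ N^(1-c)`, smaller
than the right side (if `VP φ0 (P0 N κ) = 0` the set is empty: `rh φ0 l = 1` for some `l`).
(2) `y^u < h(n) ≤ N^(1/20)`: with `α = 1/log y`, `1 ≤ e^(-u) h(n)^α`, and `h^α = ∑_{m | h} g(m)` with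
`g ≥ 0` multiplicative, `g(l^j) = l^(jα) - l^((j-1)α)`.  So the number is at most
`e^(-u) ∑_{m ≤ N^(1/20), y-smooth} g(m) k^ω(m) max_r #{n ≤ N : n ≡ r (m), xx = xx = 1} ≤
e^(-u) C V0 V N ∑_m g(m) (2k²)^ω(m)/m` (UBSP), and the last sum is at most
`∏_{l < y} (1 + 2k² ∑_j g(l^j)/l^j) ≤ C` (`∑_{l < y} (l^α - 1)/l ≤ C ∑_{l < y} log l/(l log y) ≤ C`, see
SMOI; here the constant `2k²` multiplies). -/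
def St_SMOP : Prop := ∀ k M B : ℕ, 1 ≤ k → 2 ≤ B → ∀ ε₁ κ : ℝ, 0 < ε₁ → ε₁ ≤ 1 → 0 < κ → κ ≤ 1 →
    ∃ C : ℝ, 0 < C ∧ ∀ u : ℕ, 1 ≤ u → ∃ N₀ : ℕ, ∀ N : ℕ, N₀ ≤ N → ∀ φ0 φ : ℤ → ℤ, Sy k M N φ0 →
    Sy k M N φ → Cp M N φ0 φ →
    (((Icc 1 N).filter (fun n : ℕ => xx (P0 N κ) (φ0 n) = 1 ∧ φ n ≠ 0 ∧
      xx (P1 N B ε₁) (φ n) = 1 ∧
      ∃ m : ℕ, m ∣ (φ n).natAbs ∧ (∀ l : ℕ, l.Prime → l ∣ m → (l : ℝ) < Real.log N ^ B) ∧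
      Real.log N ^ (B * (k * u)) < m)).card : ℝ) ≤
      C * Real.exp (-(u : ℝ)) * (VP φ0 (P0 N κ) * VP φ (P1 N B ε₁)) * N

/-- **POLA** (theorem `POLA : St_POLA`).  Polynomials have the property `Sy`.

Proof.  `per`: `Polynomial.sub_dvd_eval_sub`.  `gr`: `|F(n)| ≤ ∑_{i ≤ k} N^M |n|^i ≤
(k+1) N^M (1+|n|)^k`, `k + 1 ≤ 2^k ≤ N^k`.  `ze`: `F ≠ 0` has at most `k` roots.
`lift`: claim (induction on `k`, for all `F` with `natDegree ≤ k` and all `j ≥ 1`): if `n_0, ..., n_k`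
are pairwise incongruent modulo `p^j` and `p^(k(j-1)+1) | F(n_i)` for all `i`, then `p` divides all
coefficients of `F`.  `k = 0`: clear.  `k ≥ 1`: `F = F(n_0) + (X - n_0) G`, `G` an integer polynomial of
degree `≤ k-1` (`Polynomial.divX` after a shift, `Polynomial.mul_divByMonic_eq_iff_isRoot`, or
`F - C (F.eval n_0) = (X - C n_0) * G` from `Polynomial.dvd_iff_isRoot`); for `i ≥ 1`
`(n_i - n_0) G(n_i) = F(n_i) - F(n_0)` is divisible by `p^(k(j-1)+1)`, and `p^j ∤ n_i - n_0`, so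
`p^((k-1)(j-1)+1) | G(n_i)`; by induction `p | G`, and `p | F(n_0)`, so `p | F`.
Now for primitive `F` take for `Ω` the set of all residues `s < p^j` such that some integer
`n ≡ s (mod p^j)` has `p^(k(j-1)+1) | F(n)`; by the claim it has at most `k` elements (`p` does not
divide all coefficients of `F`). -/
def St_POLA : Prop := ∀ k M N : ℕ, 1 ≤ k → 2 ≤ N → ∀ F : Polynomial ℤ, F.IsPrimitive →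
    F.natDegree ≤ k → (∀ i, |(F.coeff i : ℝ)| ≤ (N : ℝ) ^ M) → Sy k (M + k) N (fun n => F.eval n)

/-- **POLB** (theorem `POLB : St_POLB`).  Coprime polynomials have the property `Cp`.

Proof.  `R = Polynomial.resultant F G` (`Mathlib.RingTheory.Polynomial.Resultant.Basic`).  `R ≠ 0`: its
image in `ℚ` is the resultant of the images (`resultant_map_map`, the degrees do not change), and
`resultant_eq_zero_iff`.  `R = A F + B G` with integer polynomials (`exists_mul_add_mul_eq_C_resultant`;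
if both degrees are `0` treat directly: one of the two constants is not `0`, take it), so
`l | F(n), l | G(n)` gives `l | R`.  `|R| ≤ (2k)! (N^M)^(2k)` (`R` is the determinant of the Sylvester
matrix, `Matrix.det_le` or the expansion; its entries are coefficients of `F`, `G` or `0`)
`≤ N^((2k)² + 2kM)` (`(2k)! ≤ (2k)^(2k) ≤ 2^((2k)²) ≤ N^((2k)²)`). -/
def St_POLB : Prop := ∀ k M : ℕ, 1 ≤ k → ∃ M' : ℕ, ∀ N : ℕ, 2 ≤ N → ∀ F G : Polynomial ℤ,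
    F.natDegree ≤ k → G.natDegree ≤ k → (∀ i, |(F.coeff i : ℝ)| ≤ (N : ℝ) ^ M) →
    (∀ i, |(G.coeff i : ℝ)| ≤ (N : ℝ) ^ M) →
    IsCoprime (F.map (Int.castRingHom ℚ)) (G.map (Int.castRingHom ℚ)) →
    Cp M' N (fun n => F.eval n) (fun n => G.eval n)

end Pool.Agent.W23.PP
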