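import Pool.Agent.W23.PP.Fin6
import Pool.Agent.W23.KS.All
import Pool.Agent.W85.PP.FLWG
import Pool.Agent.W315.PP.BHG
import Pool.Agent.W20.PP.RTP
import Pool.Agent.W432.PP.PBP
import Pool.Agent.W962.PP.CORP
import Pool.Agent.W639.PP.TTCP
import Pool.Agent.W253.PP.OFDP
import Pool.Agent.W291.PP.VLBP
import Pool.Agent.W959.PP.BXBP
import Pool.Agent.W654.PP.BX0P
import Pool.Agent.W899.PP.UBSP
import Pool.Agent.W766.PP.SMOP
import Pool.Agent.W214.PP.POLA
import Pool.Agent.W759.PP.POLB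

/-!
PP project (helper23): assembly.
-/

namespace Pool.Agent.W23.PP

open Finset Polynomial
open Pool.Agent.H442R2
open Pool.Agent.W23.KT
open Pool.Agent.W23.KS

theorem RTP_thm : St_RTP := W20.PP.RTP
theorem FLWG_thm : St_FLWG := W85.PP.FLWG
theorem BHG_thm : St_BHG := W315.PP.BHG
theorem PBP_thm : St_PBP := W432.PP.PBP RTP_thm
theorem CORP_thm : St_CORP := W962.PP.CORP RTP_thm BX.GS
theorem TTCP_thm : St_TTCP := W639.PP.TTCP W488.SG.PA RTP_thm
theorem OFDP_thm : St_OFDP := W253.PP.OFDP TTCP_thm PBP_thm RTP_thm BX.GS BX.RB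
theorem VLBP_thm : St_VLBP := W291.PP.VLBP RTP_thm
theorem BXBP_thm : St_BXBP := W959.PP.BXBP RTP_thm FLWG_thm CORP_thm PBP_thm OFDP_thm VLBP_thm BX.GS
theorem BX0P_thm : St_BX0P := W654.PP.BX0P RTP_thm FLWG_thm CORP_thm VLBP_thm BX.GS
theorem UBSP_thm : St_UBSP := W899.PP.UBSP RTP_thm VLBP_thm
theorem SMOP_thm : St_SMOP := W766.PP.SMOP UBSP_thm VLBP_thm
theorem POLA_thm : St_POLA := W214.PP.POLA
theorem POLB_thm : St_POLB := W759.PP.POLB

end Pool.Agent.W23.PP
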