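import Pool.Agent.W23.PP.Defs
import Pool.Agent.W23.KI.Fin2

/-!
PP project (helper23): the sieve.
-/

namespace Pool.Agent.W23.PP

open Finset Filter
open Pool.Agent.H442R2
open Pool.Agent.H442R2.KF
open Pool.Agent.W23.DC
open Pool.Agent.W23.SG
open Pool.Agent.W23.PL
open Pool.Agent.W23.KT

theorem Sy.mono {k M M' N N' : ℕ} {φ : ℤ → ℤ} (h : Sy k M N φ) (hN : 1 ≤ N) (hM : M ≤ M')
    (hNN : N ≤ N') : Sy k M' N' φ := by
  refine ⟨h.per, fun n => (h.gr n).trans ?_, h.ze, h.lift⟩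
  have h1 : (1 : ℝ) ≤ N := by exact_mod_cast hN
  have h2 : (N : ℝ) ≤ N' := by exact_mod_cast hNN
  have h3 : (N : ℝ) ^ M ≤ (N' : ℝ) ^ M' :=
    (pow_le_pow_left₀ (by linarith) h2 M).trans (pow_le_pow_right₀ (by linarith) hM)
  have h4 : (0 : ℝ) ≤ (1 + |(n : ℝ)|) ^ k := by positivity
  exact mul_le_mul_of_nonneg_right h3 h4

theorem Cp.mono {M M' N N' : ℕ} {φ ψ : ℤ → ℤ} (h : Cp M N φ ψ) (hN : 1 ≤ N) (hM : M ≤ M')
    (hNN : N ≤ N') : Cp M' N' φ ψ := by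
  obtain ⟨R, h0, h1, h2⟩ := h
  refine ⟨R, h0, h1.trans ?_, h2⟩
  have h3 : (1 : ℝ) ≤ N := by exact_mod_cast hN
  have h4 : (N : ℝ) ≤ N' := by exact_mod_cast hNN
  exact (pow_le_pow_left₀ (by linarith) h4 M).trans (pow_le_pow_right₀ (by linarith) hM)

theorem Cp.symm {M N : ℕ} {φ ψ : ℤ → ℤ} (h : Cp M N φ ψ) : Cp M N ψ φ := by
  obtain ⟨R, h0, h1, h2⟩ := h
  exact ⟨R, h0, h1, fun n l hl h3 h4 => h2 n l hl h4 h3⟩

/-- each value is taken at most `k` times -/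
def Nv (k : ℕ) (φ : ℤ → ℤ) : Prop := ∀ v : ℤ, ∃ Z : Finset ℤ, Z.card ≤ k ∧ ∀ n : ℤ, φ n = v → n ∈ Z

theorem rh_nonneg (φ : ℤ → ℤ) (d : ℕ) : 0 ≤ rh φ d := by
  unfold rh
  positivity

theorem rh_le_one (φ : ℤ → ℤ) (d : ℕ) : rh φ d ≤ 1 := by
  classical
  unfold rh
  rcases Nat.eq_zero_or_pos d with h | h
  · subst h
    simp
  · rw [div_le_one (by exact_mod_cast h)]
    have : nr φ d ≤ d := by
      unfold nr
      exact (card_filter_le _ _).trans (by simp)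
    exact_mod_cast this

theorem VP_nonneg (φ : ℤ → ℤ) (P : Finset ℕ) : 0 ≤ VP φ P :=
  Finset.prod_nonneg (fun p _ => by linarith [rh_le_one φ p])

theorem VP_le_one (φ : ℤ → ℤ) (P : Finset ℕ) : VP φ P ≤ 1 :=
  Finset.prod_le_one (fun p _ => by linarith [rh_le_one φ p]) (fun p _ => by
    linarith [rh_nonneg φ p])

theorem nr_one (φ : ℤ → ℤ) : nr φ 1 = 1 := by
  classical
  unfold nr
  simp

theorem rh_one (φ : ℤ → ℤ) : rh φ 1 = 1 := by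
  unfold rh
  rw [nr_one]
  simp

open Classical in
/-- the elements of `A` at which `φ` has no prime factor in `P` -/
noncomputable def AP (A : Finset ℕ) (P : Finset ℕ) (φ : ℤ → ℤ) : Finset ℕ :=
  A.filter (fun n : ℕ => xx P (φ n) = 1)

theorem fA_AP (A : Finset ℕ) (P : Finset ℕ) (φ : ℤ → ℤ) :
    fA (AP A P φ) = fun n : ℕ => fA A n * xx P (φ n) := by
  classical
  funext p
  unfold fA AP
  by_cases h : p ∈ A
  · by_cases hx : xx P (φ p) = 1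
    · rw [if_pos (mem_filter.2 ⟨h, hx⟩), if_pos h, hx, mul_one]
    · have hnp : p ∉ A.filter (fun p : ℕ => xx P (φ p) = 1) :=
        fun hh => hx (mem_filter.1 hh).2
      rw [if_neg hnp, if_pos h, one_mul]
      unfold xx at hx ⊢
      split_ifs with h1
      · exact absurd (if_pos h1) hx
      · rfl
  · have hnp : p ∉ A.filter (fun p : ℕ => xx P (φ p) = 1) :=
      fun hh => h (mem_filter.1 hh).1
    rw [if_neg hnp, if_neg h, zero_mul]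

theorem card_AP {A : Finset ℕ} {N : ℕ} (hA : ∀ n ∈ A, 1 ≤ n ∧ n ≤ N) (P : Finset ℕ) (V : ℝ)
    (φ : ℤ → ℤ) :
    ((AP A P φ).card : ℝ) - V * A.card = ∑ n ∈ Icc 1 N, fA A n * (xx P (φ n) - V) := by
  classical
  have hsub : A ⊆ Icc 1 N := by
    intro p hp
    rw [mem_Icc]
    exact hA p hp
  rw [← Finset.sum_subset hsub (fun p _ hpn => by
    unfold fA
    rw [if_neg hpn, zero_mul])]
  have h1 : ∑ p ∈ A, fA A p * (xx P (φ p) - V) = ∑ p ∈ A, (xx P (φ (p : ℤ)) - V) := by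
    apply Finset.sum_congr rfl
    intro p hp
    unfold fA
    rw [if_pos hp, one_mul]
  rw [h1, Finset.sum_sub_distrib, Finset.sum_const, nsmul_eq_mul]
  have h2 : ((AP A P φ).card : ℝ) = ∑ p ∈ A, xx P (φ (p : ℤ)) := by
    unfold AP
    rw [Finset.card_filter]
    push_cast
    apply Finset.sum_congr rfl
    intro p _
    unfold xx
    split_ifs <;> simp_all
  rw [h2]
  ring

theorem DP_one (φ : ℤ → ℤ) (f : ℕ → ℝ) (N : ℕ) : DP φ f N 1 = 0 := by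
  unfold DP
  rw [rh_one]
  have : (Icc 1 N).filter (fun n : ℕ => ((1 : ℕ) : ℤ) ∣ φ n) = Icc 1 N := by
    apply Finset.filter_true_of_mem
    intro p _
    push_cast
    exact one_dvd _
  rw [this]
  simp

open Classical in
theorem countP {N : ℕ} {A : Finset ℕ} (hA : ∀ n ∈ A, 1 ≤ n ∧ n ≤ N) (φ : ℤ → ℤ) (e : ℕ) :
    ∑ n ∈ A, (if (e : ℤ) ∣ φ n then (1 : ℝ) else 0) =
      (A.card : ℝ) * rh φ e + DP φ (fA A) N e := by
  unfold DP
  have h1 : ∑ p ∈ (Icc 1 N).filter (fun p : ℕ => (e : ℤ) ∣ φ p), fA A p =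
      ∑ p ∈ A, (if (e : ℤ) ∣ φ p then (1 : ℝ) else 0) := by
    rw [← Finset.sum_filter]
    symm
    have h3 : A.filter (fun p : ℕ => (e : ℤ) ∣ φ p) ⊆
        (Icc 1 N).filter (fun p : ℕ => (e : ℤ) ∣ φ p) := by
      intro p hp
      rw [mem_filter] at hp
      rw [mem_filter, mem_Icc]
      exact ⟨hA p hp.1, hp.2⟩
    rw [← Finset.sum_subset h3]
    · apply Finset.sum_congr rfl
      intro p hp
      rw [mem_filter] at hp
      unfold fA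
      rw [if_pos hp.1]
    · intro p hp hpn
      rw [mem_filter] at hp hpn
      unfold fA
      rw [if_neg]
      intro h
      exact hpn ⟨h, hp.2⟩
  have h4 : ∑ p ∈ Icc 1 N, fA A p = A.card := by
    have h5 : A ⊆ Icc 1 N := by
      intro p hp
      rw [mem_Icc]
      exact hA p hp
    rw [← Finset.sum_subset h5]
    · have : ∑ p ∈ A, fA A p = ∑ p ∈ A, (1 : ℝ) := by
        apply Finset.sum_congr rfl
        intro p hp
        unfold fA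
        rw [if_pos hp]
      rw [this]
      simp
    · intro p _ hpn
      unfold fA
      rw [if_neg hpn]
  rw [h1, h4]
  ring

open Classical in
/-- the moduli of the sieve -/
noncomputable def TBP (N : ℕ) (ε₁ : ℝ) : Finset ℕ :=
  (Icc 1 ⌊(N : ℝ) ^ (49 / 100 : ℝ)⌋₊).filter (fun d => BlP N ε₁ d)

/-- the sieve lower bound -/
theorem sieveP (hRTP : St_RTP) (hBHG : St_BHG) (k : ℕ) (hk : 1 ≤ k) :
    ∃ ζ c : ℝ, 0 < ζ ∧ ζ ≤ 1 / 10 ∧ 0 < c ∧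
    ∀ ε₁ : ℝ, 0 < ε₁ → ε₁ < ζ → ∃ N₀ : ℕ, ∀ N : ℕ, N₀ ≤ N → ∀ A : Finset ℕ,
    (∀ n ∈ A, 1 ≤ n ∧ n ≤ N) → ∀ (M : ℕ) (φ : ℤ → ℤ), Sy k M N φ →
    c * ε₁ ^ k * A.card - 1 / ε₁ * ∑ d ∈ TBP N ε₁, |DP φ (fA A) N d| ≤
      ∑ n ∈ A, xx (pr N ε₁ ζ) (φ n) := by
  classical
  obtain ⟨ζ, c, hζ, hζ2, hc, H⟩ := hBHG k hk
  refine ⟨ζ, c, hζ, hζ2, hc, fun ε₁ hε hεζ => ?_⟩
  obtain ⟨N₀, H1⟩ := H ε₁ hε hεζ
  refine ⟨max N₀ 2, fun N hN A hA M φ hφ => ?_⟩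
  have hN2 : 2 ≤ N := (le_max_right _ _).trans hN
  have hN1 : (1 : ℝ) < N := by exact_mod_cast (by omega : 1 < N)
  obtain ⟨th, h1, h2, h3, h4'⟩ := H1 N ((le_max_left _ _).trans hN)
  obtain ⟨hrt1, hrt2⟩ := hRTP.2.2 k M N φ hφ
  have h4 := h4' (rh φ) (fun p hp => by
    refine ⟨rh_nonneg φ p, ?_⟩
    rw [mem_pr] at hp
    unfold rh
    have : (nr φ p : ℝ) ≤ k := by exact_mod_cast hrt1 p hp.2.1
    gcongr)
  set D := ⌊(N : ℝ) ^ (49 / 100 : ℝ)⌋₊ with hD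
  have h4e : ∑ e ∈ Icc 1 D, th e * gm (rh φ) e = ∑ e ∈ Icc 1 D, th e * rh φ e := by
    apply Finset.sum_congr rfl
    intro e _
    by_cases hth : th e = 0
    · rw [hth, zero_mul, zero_mul]
    · rw [(hrt2 e (h2 e hth).1).1]
  rw [h4e] at h4
  have e1 : ∑ p ∈ A, ∑ e ∈ Icc 1 D, th e * (if (e : ℤ) ∣ φ p then (1 : ℝ) else 0) =
      (A.card : ℝ) * (∑ e ∈ Icc 1 D, th e * rh φ e) +
        ∑ e ∈ Icc 1 D, th e * DP φ (fA A) N e := by
    rw [Finset.sum_comm, Finset.mul_sum, ← Finset.sum_add_distrib]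
    apply Finset.sum_congr rfl
    intro e _
    rw [← Finset.mul_sum, countP hA φ e]
    ring
  have e2 : ∑ p ∈ A, ∑ e ∈ Icc 1 D, th e * (if (e : ℤ) ∣ φ p then (1 : ℝ) else 0) ≤
      ∑ p ∈ A, xx (pr N ε₁ ζ) (φ p) := by
    apply Finset.sum_le_sum
    intro p _
    have := h3 (φ p)
    convert this using 2
  have e3 : |∑ e ∈ Icc 1 D, th e * DP φ (fA A) N e| ≤
      1 / ε₁ * ∑ d ∈ TBP N ε₁, |DP φ (fA A) N d| := by
    have hz : ∀ e ∈ Icc 1 D, e ∉ TBP N ε₁ → th e * DP φ (fA A) N e = 0 := by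
      intro e he heT
      by_cases hth : th e = 0
      · rw [hth, zero_mul]
      · obtain ⟨g1, g2, g3⟩ := h2 e hth
        rw [mem_Icc] at he
        by_cases he1 : e = 1
        · rw [he1, DP_one, mul_zero]
        · exfalso
          apply heT
          unfold TBP
          rw [mem_filter, mem_Icc]
          refine ⟨⟨he.1, he.2⟩, by omega, he.2, g1, fun p hp hpe => ?_⟩
          have h5 := g3 p hp hpe
          rw [mem_pr] at h5
          exact h5.2.2.1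
    have hsub : TBP N ε₁ ⊆ Icc 1 D := Finset.filter_subset _ _
    rw [← Finset.sum_subset hsub hz]
    calc |∑ e ∈ TBP N ε₁, th e * DP φ (fA A) N e|
        ≤ ∑ e ∈ TBP N ε₁, |th e * DP φ (fA A) N e| := Finset.abs_sum_le_sum_abs _ _
      _ ≤ ∑ e ∈ TBP N ε₁, 1 / ε₁ * |DP φ (fA A) N e| := by
          apply Finset.sum_le_sum
          intro e _
          rw [abs_mul]
          exact mul_le_mul_of_nonneg_right (h1 e) (abs_nonneg _)
      _ = _ := by rw [Finset.mul_sum]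
  have e4 := (abs_le.1 e3).1
  have e5 : c * ε₁ ^ k * A.card ≤ (A.card : ℝ) * (∑ e ∈ Icc 1 D, th e * rh φ e) := by
    have := mul_le_mul_of_nonneg_left h4 (Nat.cast_nonneg A.card : (0 : ℝ) ≤ A.card)
    linarith
  linarith

open Classical in
/-- the elements of `A` at which `φ` is almost prime, up to a small factor -/
noncomputable def GP (A : Finset ℕ) (X t r : ℕ) (φ : ℤ → ℤ) : Finset ℕ :=
  A.filter (fun n : ℕ => ∃ m s : ℕ, (φ n).natAbs = m * s ∧ 1 ≤ m ∧ (m : ℝ) ≤ Real.log X ^ t ∧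
    1 < s ∧ s.primeFactorsList.length ≤ r ∧ ∀ q ∈ s.primeFactors, (X : ℝ) ^ (1 / r : ℝ) ≤ q)

theorem Sy.le {k M N : ℕ} {φ : ℤ → ℤ} (h : Sy k M N φ) (hN : 2 ≤ N) {n : ℕ} (hn : n ≤ N) :
    ((φ n).natAbs : ℝ) ≤ (N : ℝ) ^ (M + 2 * k) := by
  have h1 := h.gr n
  have h2 : ((φ n).natAbs : ℝ) = |(φ n : ℝ)| := by
    rw [Nat.cast_natAbs]
    push_cast
    rfl
  have hN2 : (2 : ℝ) ≤ N := by exact_mod_cast hN
  have hn' : (n : ℝ) ≤ N := by exact_mod_cast hn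
  have h3 : (1 : ℝ) + |((n : ℤ) : ℝ)| ≤ (N : ℝ) ^ 2 := by
    rw [show (((n : ℤ) : ℝ)) = (n : ℝ) by push_cast; rfl, abs_of_nonneg (Nat.cast_nonneg n)]
    nlinarith
  rw [h2, pow_add, pow_mul]
  refine h1.trans ?_
  gcongr

/-- the structure of the values -/
theorem structP {k M : ℕ} {ζ : ℝ} (hζ : 0 < ζ) (hζ1 : ζ ≤ 1 / 10) {r : ℕ} (hk : 1 ≤ k)
    (hr : ((M : ℝ) + 2 * k) / ζ ≤ r)
    {N : ℕ} (hN : 2 ≤ N) {φ : ℤ → ℤ} (hL : Sy k M N φ) {n : ℕ} (hn : n ≤ N) {w : ℝ}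
    (h0 : φ n ≠ 0) (hs : ∀ l : ℕ, l.Prime → l ∣ (φ n).natAbs →
      (l : ℝ) < w ∨ (N : ℝ) ^ ζ ≤ l) :
    ∃ m s : ℕ, (φ n).natAbs = m * s ∧ (∀ l : ℕ, l.Prime → l ∣ m → (l : ℝ) < w) ∧
      s.primeFactorsList.length ≤ r ∧ ∀ q ∈ s.primeFactors, (N : ℝ) ^ (1 / r : ℝ) ≤ q := by
  have hN1 : (1 : ℝ) < N := by exact_mod_cast (by omega : 1 < N)
  have hN0 : (0 : ℝ) < N := by linarith
  have hk1 : (1 : ℝ) ≤ k := by exact_mod_cast hk
  have hM0 : (0 : ℝ) ≤ M := Nat.cast_nonneg _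
  have hn0 : (φ n).natAbs ≠ 0 := by
    rw [Ne, Int.natAbs_eq_zero]
    exact h0
  obtain ⟨m, s, h1, h2, h3, h4⟩ := decomp ((N : ℝ) ^ ζ) _ hn0
  have hM2 : (0 : ℝ) < ((M : ℝ) + 2 * k) / ζ := by positivity
  have hr0 : (0 : ℝ) < r := lt_of_lt_of_le hM2 hr
  have hm0 : m ≠ 0 := by
    rintro rfl
    exact hn0 (by rw [h1, zero_mul])
  have hval : ((φ n).natAbs : ℝ) ≤ (N : ℝ) ^ ((M : ℝ) + 2 * k) := by
    refine (hL.le hN hn).trans (le_of_eq ?_)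
    rw [show ((M : ℝ) + 2 * k) = ((M + 2 * k : ℕ) : ℝ) by push_cast; ring, Real.rpow_natCast]
  refine ⟨m, s, h1, ?_, ?_, ?_⟩
  · intro l hl hlm
    rcases hs l hl (h1 ▸ hlm.mul_right s) with h | h
    · exact h
    · have := h2 l hl hlm
      linarith
  · have h5 := h4 (by positivity)
    have h6 : (s : ℝ) ≤ (N : ℝ) ^ ((M : ℝ) + 2 * k) := by
      refine le_trans ?_ hval
      have : s ≤ (φ n).natAbs := by
        rw [h1]
        exact Nat.le_mul_of_pos_left s (Nat.pos_of_ne_zero hm0)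
      exact_mod_cast this
    have h7 := h5.trans h6
    rw [← Real.rpow_natCast, ← Real.rpow_mul hN0.le] at h7
    have h8 := (Real.rpow_le_rpow_left_iff hN1).1 h7
    have h9 : (s.primeFactorsList.length : ℝ) ≤ ((M : ℝ) + 2 * k) / ζ := by
      rw [le_div_iff₀ hζ]
      linarith
    exact_mod_cast h9.trans hr
  · intro q hq
    refine le_trans (Real.rpow_le_rpow_of_exponent_le hN1.le ?_) (h3 q hq)
    rw [div_le_iff₀ hr0]
    have h10 : 1 ≤ ((M : ℝ) + 2 * k) / ζ * ζ := by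
      rw [div_mul_cancel₀ _ hζ.ne']
      linarith
    nlinarith

/-- few integers with a small value -/
theorem smallP {k : ℕ} {φ : ℤ → ℤ} (h : Nv k φ) (A : Finset ℕ) {Y : ℝ} (hY : 0 ≤ Y) :
    ((A.filter (fun n : ℕ => ((φ n).natAbs : ℝ) ≤ Y)).card : ℝ) ≤ k * (2 * Y + 1) := by
  classical
  choose Z hZ1 hZ2 using h
  have h1 : (A.filter (fun n : ℕ => ((φ n).natAbs : ℝ) ≤ Y)).card ≤
      ((Finset.Icc (-(⌊Y⌋₊ : ℤ)) ⌊Y⌋₊).biUnion Z).card := by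
    apply Finset.card_le_card_of_injOn (fun n : ℕ => (n : ℤ))
    · intro n hn
      rw [Finset.mem_coe, mem_filter] at hn
      have h2 : (φ n).natAbs ≤ ⌊Y⌋₊ := Nat.le_floor hn.2
      have h3 : |φ n| ≤ (⌊Y⌋₊ : ℤ) := by
        rw [Int.abs_eq_natAbs]
        exact_mod_cast h2
      rw [Finset.mem_coe, mem_biUnion]
      exact ⟨φ n, Finset.mem_Icc.2 (abs_le.1 h3), hZ2 _ _ rfl⟩
    · intro p _ q _ h
      simpa using h
  have h2 : ((Finset.Icc (-(⌊Y⌋₊ : ℤ)) ⌊Y⌋₊).biUnion Z).card ≤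
      (Finset.Icc (-(⌊Y⌋₊ : ℤ)) ⌊Y⌋₊).card * k :=
    Finset.card_biUnion_le_card_mul _ _ _ (fun v _ => hZ1 v)
  rw [Int.card_Icc] at h2
  have h5 : (⌊Y⌋₊ + 1 - -(⌊Y⌋₊ : ℤ)).toNat = 2 * ⌊Y⌋₊ + 1 := by omega
  rw [h5] at h2
  have h6 := Nat.floor_le hY
  have h7 : ((A.filter (fun n : ℕ => ((φ n).natAbs : ℝ) ≤ Y)).card : ℝ) ≤
      (((2 * ⌊Y⌋₊ + 1) * k : ℕ) : ℝ) := by exact_mod_cast h1.trans h2
  push_cast at h7
  have hk0 : (0 : ℝ) ≤ k := Nat.cast_nonneg _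
  nlinarith

end Pool.Agent.W23.PP
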