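import Pool.Agent.W23.PP.Fin1

/-!
PP project (helper23): the main theorem.
-/

namespace Pool.Agent.W23.PP

open Finset Filter
open Pool.Agent.H442R2
open Pool.Agent.H442R2.KF
open Pool.Agent.W23.DC
open Pool.Agent.W23.SG
open Pool.Agent.W23.PL
open Pool.Agent.W23.KT
open Pool.Agent.W23.KS

theorem mem_P0 {N : ℕ} {ε₁ : ℝ} {p : ℕ} : p ∈ P0 N ε₁ ↔ (1 ≤ p ∧ p ≤ N) ∧ p.Prime ∧ tt N p < ε₁ := by
  classical
  unfold P0
  rw [mem_filter, mem_Icc]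

theorem P0_mono {N : ℕ} {ε κ : ℝ} (h : ε ≤ κ) : P0 N ε ⊆ P0 N κ := by
  intro p hp
  rw [mem_P0] at hp ⊢
  exact ⟨hp.1, hp.2.1, hp.2.2.trans_le h⟩

theorem xx_mono {P Q : Finset ℕ} (h : P ⊆ Q) {m : ℤ} (hm : xx Q m = 1) : xx P m = 1 := by
  classical
  unfold xx
  rw [if_pos]
  intro p hp
  exact xx_ndvd hm p (h hp)

open Classical in
/-- the integers at which `φ` has a large smooth divisor -/
noncomputable def SmP (N B k u : ℕ) (ε₁ κ : ℝ) (φ0 φ : ℤ → ℤ) : Finset ℕ :=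
  (Icc 1 N).filter (fun n : ℕ => xx (P0 N κ) (φ0 n) = 1 ∧ φ n ≠ 0 ∧
      xx (P1 N B ε₁) (φ n) = 1 ∧
      ∃ m : ℕ, m ∣ (φ n).natAbs ∧ (∀ l : ℕ, l.Prime → l ∣ m → (l : ℝ) < Real.log N ^ B) ∧
      Real.log N ^ (B * (k * u)) < m)


theorem lamB {Λ x K D C e W : ℝ} (hΛ : 0 ≤ Λ) (hx : 0 < x) (hD : 0 < D) (hC : 0 ≤ C) (he0 : 0 ≤ e)
    (h1 : (Λ * x * D) ^ 2 ≤ W ^ 2 * (C * Λ + e * Λ ^ 2)) (hW : W ^ 2 ≤ K ^ 2 * D ^ 2)
    (he : K ^ 2 * e ≤ x ^ 2 / 2) : Λ ≤ 2 * K ^ 2 * C / x ^ 2 := by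
  have h5 : W ^ 2 * (C * Λ + e * Λ ^ 2) ≤ K ^ 2 * D ^ 2 * (C * Λ + e * Λ ^ 2) :=
    mul_le_mul_of_nonneg_right hW (by positivity)
  have h6 := h1.trans h5
  have h7 : (Λ * x * D) ^ 2 = D ^ 2 * (Λ ^ 2 * x ^ 2) := by ring
  have h8 : K ^ 2 * D ^ 2 * (C * Λ + e * Λ ^ 2) =
      D ^ 2 * (K ^ 2 * C * Λ + K ^ 2 * e * Λ ^ 2) := by ring
  rw [h7, h8] at h6
  have h9 := le_of_mul_le_mul_left h6 (by positivity)
  have h10 : K ^ 2 * e * Λ ^ 2 ≤ x ^ 2 / 2 * Λ ^ 2 :=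
    mul_le_mul_of_nonneg_right he (by positivity)
  have h11 : Λ * (Λ * x ^ 2) ≤ Λ * (2 * K ^ 2 * C) := by nlinarith
  rw [le_div_iff₀ (by positivity)]
  rcases hΛ.eq_or_lt with h | h
  · rw [← h, zero_mul]
    positivity
  · exact le_of_mul_le_mul_left h11 h

open Classical in
theorem inclP {k M : ℕ} {ζ : ℝ} (hζ : 0 < ζ) (hζ1 : ζ ≤ 1 / 10) {r : ℕ} (hk : 1 ≤ k)
    (hr : ((M : ℝ) + 2 * k) / ζ ≤ r) {N : ℕ} (hN3 : 3 ≤ N) {B u : ℕ} {ε₁ κ : ℝ}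
    {φ0 φ : ℤ → ℤ} (hSy : Sy k M N φ) {A : Finset ℕ}
    (hA : ∀ n ∈ A, (1 ≤ n ∧ n ≤ N) ∧ xx (P0 N κ) (φ0 n) = 1) :
    ∑ n ∈ AP A (P1 N B ε₁) φ, xx (pr N ε₁ ζ) (φ n) ≤
      ((GP A N (B * (k * u)) r φ).card : ℝ) + (SmP N B k u ε₁ κ φ0 φ).card +
        (A.filter (fun n : ℕ => ((φ n).natAbs : ℝ) ≤ Real.log N ^ (B * (k * u)))).card := by
  have hN2 : 2 ≤ N := by omega
  have hN1 : (1 : ℝ) < N := by exact_mod_cast (by omega : 1 < N)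
  have hN0 : (0 : ℝ) < N := by linarith
  have hL : 0 < Real.log N := Real.log_pos hN1
  have h1 : ∑ n ∈ AP A (P1 N B ε₁) φ, xx (pr N ε₁ ζ) (φ n) =
      (((AP A (P1 N B ε₁) φ).filter (fun n : ℕ => ∀ l ∈ pr N ε₁ ζ, ¬ (l : ℤ) ∣ φ n)).card : ℝ) := by
    rw [Finset.card_filter]
    push_cast
    apply Finset.sum_congr rfl
    intro p _
    unfold xx
    congr 1
  rw [h1]
  have h2 : (AP A (P1 N B ε₁) φ).filter (fun n : ℕ => ∀ l ∈ pr N ε₁ ζ, ¬ (l : ℤ) ∣ φ n) ⊆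
      (GP A N (B * (k * u)) r φ ∪ SmP N B k u ε₁ κ φ0 φ) ∪
        A.filter (fun n : ℕ => ((φ n).natAbs : ℝ) ≤ Real.log N ^ (B * (k * u))) := by
    intro n hn
    rw [mem_filter] at hn
    obtain ⟨hnA', hnx⟩ := hn
    obtain ⟨hnA, hnx1⟩ := mem_filter.1 hnA'
    by_contra hno
    simp only [mem_union, not_or] at hno
    obtain ⟨⟨g1, g3⟩, g4⟩ := hno
    apply g1
    unfold GP
    rw [mem_filter]
    refine ⟨hnA, ?_⟩
    have hbig : Real.log N ^ (B * (k * u)) < ((φ n).natAbs : ℝ) := by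
      by_contra hcon
      exact g4 (mem_filter.2 ⟨hnA, not_lt.1 hcon⟩)
    have hpow0 : (0 : ℝ) ≤ Real.log N ^ (B * (k * u)) := by positivity
    have hn0 : (φ n).natAbs ≠ 0 := by
      intro h0
      rw [h0, Nat.cast_zero] at hbig
      linarith
    have hne : φ n ≠ 0 := by
      intro h0
      exact hn0 (Int.natAbs_eq_zero.2 h0)
    have hpp := (hA n hnA).1
    obtain ⟨m, s, h3, h4, h5, h6⟩ := structP hζ hζ1 hk hr hN2 hSy hpp.2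
      (w := Real.log N ^ B) hne (by
      intro l hl hld
      by_contra hcon
      rw [not_or, not_lt, not_le] at hcon
      obtain ⟨hc1, hc2⟩ := hcon
      have hldi : (l : ℤ) ∣ φ n := Int.natCast_dvd.2 hld
      have hlN : l ≤ N := by
        have h3 : (N : ℝ) ^ ζ ≤ N := by
          calc (N : ℝ) ^ ζ ≤ (N : ℝ) ^ (1 : ℝ) :=
                Real.rpow_le_rpow_of_exponent_le hN1.le (by linarith)
            _ = N := Real.rpow_one _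
        exact_mod_cast (hc2.le.trans h3)
      rcases lt_or_ge (tt N l) ε₁ with ht | ht
      · exact xx_ndvd hnx1 l (mem_P1.2 ⟨⟨hl.pos, hlN⟩, hl, hc1, ht⟩) hldi
      · exact hnx l (mem_pr.2 ⟨⟨hl.pos, hlN⟩, hl, ht, (tt_lt_iff hN2 hl.pos _).2 hc2⟩) hldi)
    have hm0 : m ≠ 0 := by
      rintro rfl
      exact hn0 (by rw [h3, zero_mul])
    have hm : (m : ℝ) ≤ Real.log N ^ (B * (k * u)) := by
      by_contra hm
      rw [not_le] at hm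
      apply g3
      unfold SmP
      rw [mem_filter]
      exact ⟨mem_Icc.2 hpp, (hA n hnA).2, hne, hnx1, m, Dvd.intro _ h3.symm, h4, hm⟩
    refine ⟨m, s, h3, Nat.pos_of_ne_zero hm0, hm, ?_, h5, h6⟩
    by_contra hs1
    have hs0 : s ≠ 0 := by
      rintro rfl
      exact hn0 (by rw [h3, mul_zero])
    have hs2 : s = 1 := by omega
    rw [h3, hs2, mul_one] at hbig
    linarith
  have h3 := (Finset.card_le_card h2).trans (Finset.card_union_le _ _)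
  have h4 := Finset.card_union_le (GP A N (B * (k * u)) r φ) (SmP N B k u ε₁ κ φ0 φ)
  have h6 : ((AP A (P1 N B ε₁) φ).filter (fun n : ℕ => ∀ l ∈ pr N ε₁ ζ, ¬ (l : ℤ) ∣ φ n)).card ≤
      (GP A N (B * (k * u)) r φ).card + (SmP N B k u ε₁ κ φ0 φ).card +
      (A.filter (fun n : ℕ => ((φ n).natAbs : ℝ) ≤ Real.log N ^ (B * (k * u)))).card := by omega
  exact_mod_cast h6

/-- the numerical part of the argument for one good function -/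
theorem goodP {c₀ ε₁ δ V D a a' R σ S g sm z VF : ℝ} {k : ℕ} (hc₀ : 0 < c₀) (hε₁ : 0 < ε₁)
    (hV : 0 ≤ V) (hσ : σ = c₀ * ε₁ ^ k * δ / 16) (hAc : δ * D ≤ a) (ha0 : 0 ≤ a)
    (hA'c : V * a / 2 ≤ a') (hR : R ≤ c₀ * δ * ε₁ ^ (k + 1) / 4 * V * D)
    (hlow : c₀ * ε₁ ^ k * a' - 1 / ε₁ * R ≤ S) (hS : S ≤ g + sm + z)
    (hsm : sm ≤ σ * (V * D)) (hz : z ≤ σ * (V * D)) (hVF : VF ≤ V) :
    c₀ * ε₁ ^ k / 8 * VF * a ≤ g := by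
  have hR3 : 1 / ε₁ * R ≤ c₀ * ε₁ ^ k * δ / 4 * (V * D) := by
    calc 1 / ε₁ * R ≤ 1 / ε₁ * (c₀ * δ * ε₁ ^ (k + 1) / 4 * V * D) := by gcongr
      _ = _ := by
          rw [pow_succ]
          field_simp
  have hAδ : c₀ * ε₁ ^ k * V * (δ * D) ≤ c₀ * ε₁ ^ k * V * a := by
    have : 0 ≤ c₀ * ε₁ ^ k * V := by positivity
    exact mul_le_mul_of_nonneg_left hAc this
  have hA'2 : c₀ * ε₁ ^ k * (V * a / 2) ≤ c₀ * ε₁ ^ k * a' := by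
    have : 0 ≤ c₀ * ε₁ ^ k := by positivity
    exact mul_le_mul_of_nonneg_left hA'c this
  have hgood2 : c₀ * ε₁ ^ k / 8 * VF * a ≤ c₀ * ε₁ ^ k / 8 * V * a := by gcongr
  have hσV : σ * (V * D) = c₀ * ε₁ ^ k * V * (δ * D) / 16 := by
    rw [hσ]
    ring
  rw [hσV] at hsm hz
  have e1 : c₀ * ε₁ ^ k * δ / 4 * (V * D) = c₀ * ε₁ ^ k * V * (δ * D) / 4 := by ring
  have e2 : c₀ * ε₁ ^ k * (V * a / 2) = c₀ * ε₁ ^ k * V * a / 2 := by ring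
  have e3 : c₀ * ε₁ ^ k / 8 * V * a = c₀ * ε₁ ^ k * V * a / 8 := by ring
  rw [e1] at hR3
  rw [e2] at hA'2
  rw [e3] at hgood2
  linarith

theorem constP {k : ℕ} {Cκ ε₁ w x : ℝ} (hCκ : 0 < Cκ) (hε₁ : 0 < ε₁)
    (h : Real.exp (-(1 / ε₁)) ≤ w / (2 * Cκ ^ 2) * ε₁ ^ (2 * (2 * k) + 2))
    (hx : w * ε₁ ^ (2 * k + 2) ≤ x ^ 2) :
    (Cκ * (1 / ε₁) ^ k) ^ 2 * Real.exp (-(1 / ε₁)) ≤ x ^ 2 / 2 := by
  have h1 : (Cκ * (1 / ε₁) ^ k) ^ 2 * Real.exp (-(1 / ε₁)) ≤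
      (Cκ * (1 / ε₁) ^ k) ^ 2 * (w / (2 * Cκ ^ 2) * ε₁ ^ (2 * (2 * k) + 2)) := by gcongr
  refine h1.trans ?_
  have h2 : (Cκ * (1 / ε₁) ^ k) ^ 2 * (w / (2 * Cκ ^ 2) * ε₁ ^ (2 * (2 * k) + 2)) =
      w * ε₁ ^ (2 * k + 2) / 2 := by
    rw [mul_pow, ← pow_mul, one_div, inv_pow,
      show 2 * (2 * k) + 2 = k * 2 + (2 * k + 2) by ring, pow_add ε₁ (k * 2)]
    have : ε₁ ^ (k * 2) ≠ 0 := by positivity
    field_simp
  rw [h2]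
  linarith

end Pool.Agent.W23.PP
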