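import Pool.Agent.W23.PP.Fin2

/-!
PP project (helper23): the main theorem.
-/

namespace Pool.Agent.W23.PP

open Finset Filter
open Pool.Agent.H442R2
open Pool.Agent.H442R2.KF
open Pool.Agent.W23.DC
open Pool.Agent.W23.SG
open Pool.Agent.W23.PL
open Pool.Agent.W23.KT
open Pool.Agent.W23.KS

open Classical in
theorem smallN (k t : ℕ) (hk : 1 ≤ k) {σ : ℝ} (hσ : 0 < σ) : ∃ N₀ : ℕ, ∀ N : ℕ, N₀ ≤ N →
    ∀ φ : ℤ → ℤ, Nv k φ → ∀ A : Finset ℕ, ∀ W V : ℝ, 1 / Real.log N ^ (k + 1) ≤ W →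
    1 / Real.log N ^ (k + 1) ≤ V →
    ((A.filter (fun n : ℕ => ((φ n).natAbs : ℝ) ≤ Real.log N ^ t)).card : ℝ) ≤
      σ * (V * (W * N)) := by
  have hk1 : (1 : ℝ) ≤ k := by exact_mod_cast hk
  obtain ⟨N₇, hN₇⟩ := logpow_small (t + (2 * k + 2)) (show (0 : ℝ) < 1 by norm_num)
    (show (0 : ℝ) < σ / (3 * k) by positivity)
  refine ⟨max N₇ 3, fun N hN φ hNv A W V hW hV => ?_⟩
  have hN3 : 3 ≤ N := (le_max_right _ _).trans hN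
  have hN1 : (1 : ℝ) < N := by exact_mod_cast (by omega : 1 < N)
  have hN0 : (0 : ℝ) < N := by linarith
  have hL1 : 1 < Real.log N := by
    rw [Real.lt_log_iff_exp_lt hN0]
    have h3 : (3 : ℝ) ≤ N := by exact_mod_cast hN3
    exact Real.exp_one_lt_three.trans_le h3
  have hL : 0 < Real.log N := by linarith
  have hp1 : (1 : ℝ) ≤ Real.log N ^ t := one_le_pow₀ hL1.le
  have h1 : ((A.filter (fun n : ℕ => ((φ n).natAbs : ℝ) ≤ Real.log N ^ t)).card : ℝ) ≤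
      k * (3 * Real.log N ^ t) := by
    have := smallP hNv A (show 0 ≤ Real.log N ^ t by positivity)
    refine this.trans ?_
    gcongr
    linarith
  refine h1.trans ?_
  have h2 := hN₇ N ((le_max_left _ _).trans hN)
  rw [Real.rpow_one] at h2
  have hq : (0 : ℝ) ≤ 1 / Real.log N ^ (k + 1) := by positivity
  have h3 : 1 / Real.log N ^ (k + 1) * (1 / Real.log N ^ (k + 1) * N) ≤ V * (W * N) := by
    have a1 : 1 / Real.log N ^ (k + 1) * (N : ℝ) ≤ W * N := mul_le_mul_of_nonneg_right hW hN0.le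
    exact mul_le_mul hV a1 (by positivity) (hq.trans hV)
  refine le_trans ?_ (mul_le_mul_of_nonneg_left h3 hσ.le)
  have h4 : σ * (1 / Real.log N ^ (k + 1) * (1 / Real.log N ^ (k + 1) * N)) =
      σ * N / Real.log N ^ (2 * k + 2) := by
    rw [show 2 * k + 2 = (k + 1) + (k + 1) by ring, pow_add]
    field_simp
    ring
  rw [h4, le_div_iff₀ (by positivity)]
  calc (k : ℝ) * (3 * Real.log N ^ t) * Real.log N ^ (2 * k + 2)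
      = 3 * k * Real.log N ^ (t + (2 * k + 2)) := by rw [pow_add]; ring
    _ ≤ 3 * k * (σ / (3 * k) * N) := by gcongr
    _ = σ * N := by field_simp

open Classical in
theorem mainP (hRTP : St_RTP) (hBHG : St_BHG) (hBXBP : St_BXBP) (hBX0P : St_BX0P)
    (hVLBP : St_VLBP) (hSMOP : St_SMOP) (k M : ℕ) (hk : 1 ≤ k) (hM : 1 ≤ M) :
    ∃ r : ℕ, 1 ≤ r ∧ ∀ κ : ℝ, 0 < κ → κ ≤ 1 → ∀ δ : ℝ, 0 < δ →
      ∃ (c C : ℝ) (t N₀ : ℕ), 0 < c ∧ 0 < C ∧ ∀ N : ℕ, N₀ ≤ N →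
      ∀ φ0 : ℤ → ℤ, Sy k M N φ0 → 0 < VP φ0 (P0 N κ) →
      ∀ A : Finset ℕ, (∀ n ∈ A, (1 ≤ n ∧ n ≤ N) ∧ xx (P0 N κ) (φ0 n) = 1) →
      δ * (VP φ0 (P0 N κ) * N) ≤ A.card →
      ∀ (ι : Type) (𝒜 : Finset ι) (φ : ι → ℤ → ℤ),
      (∀ i ∈ 𝒜, Sy k M N (φ i) ∧ Cp M N φ0 (φ i) ∧ Nv k (φ i)) →
      (∀ i ∈ 𝒜, ∀ j ∈ 𝒜, i ≠ j → Cp M N (φ i) (φ j)) →
      (∀ i ∈ 𝒜, ((GP A N t r (φ i)).card : ℝ) < c * VP (φ i) (PF N) * A.card) →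
      ∑ i ∈ 𝒜, VP (φ i) (PF N) ≤ C := by
  obtain ⟨ζ, c₀, hζ, hζ1, hc₀, H1⟩ := sieveP hRTP hBHG k hk
  have hk1 : (1 : ℝ) ≤ k := by exact_mod_cast hk
  have hM0 : (0 : ℝ) ≤ M := Nat.cast_nonneg _
  obtain ⟨r, hr0, hr1⟩ : ∃ r : ℕ, 1 ≤ r ∧ ((M : ℝ) + 2 * k) / ζ ≤ r :=
    ⟨⌈((M : ℝ) + 2 * k) / ζ⌉₊, Nat.ceil_pos.2 (by positivity), Nat.le_ceil _⟩
  refine ⟨r, hr0, fun κ hκ0 hκ1 δ hδ => ?_⟩
  obtain ⟨hVa, hVb⟩ := hVLBP k hk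
  obtain ⟨Cκ, hCκ, HVκ⟩ := hVb κ hκ0 hκ1
  obtain ⟨B₁, e1, he1, HF⟩ := hBXBP k M hk hM 1 one_pos
  obtain ⟨B₂, e2, he2, H0⟩ := hBX0P k M hk hM 1 one_pos
  obtain ⟨B, hBB₁, hBB₂, hB2⟩ : ∃ B : ℕ, B₁ ≤ B ∧ B₂ ≤ B ∧ 2 ≤ B :=
    ⟨max (max B₁ B₂) 2, (le_max_left _ _).trans (le_max_left _ _),
      (le_max_right _ _).trans (le_max_left _ _), le_max_right _ _⟩
  -- the choice of `ε₁`
  have hw0 : (0 : ℝ) < min ((c₀ * δ / 4) ^ 2) ((δ / 2) ^ 2) :=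
    lt_min (by positivity) (by positivity)
  obtain ⟨ε₁, hε₁, hε₁a, hε₁1, hε₁b, -⟩ := exp_choice (2 * k)
    (show (0 : ℝ) < min ((c₀ * δ / 4) ^ 2) ((δ / 2) ^ 2) / (2 * Cκ ^ 2) by positivity)
    (show (0 : ℝ) < 1 by norm_num)
    (show (0 : ℝ) < min (min (ζ / 2) κ) (min e1 e2) from
      lt_min (lt_min (by positivity) hκ0) (lt_min he1 he2))
  have hε₁ζ : ε₁ < ζ := by
    have := (hε₁a.trans (min_le_left _ _)).trans (min_le_left _ _)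
    linarith
  have hε₁κ : ε₁ ≤ κ := (hε₁a.trans (min_le_left _ _)).trans (min_le_right _ _)
  have hε₁e1 : ε₁ ≤ e1 := hε₁a.trans ((min_le_right _ _).trans (min_le_left _ _))
  have hε₁e2 : ε₁ ≤ e2 := hε₁a.trans ((min_le_right _ _).trans (min_le_right _ _))
  obtain ⟨N₁, hN₁⟩ := H1 ε₁ hε₁ hε₁ζ
  obtain ⟨C₁, N₂, hC₁, hN₂⟩ := HF ε₁ hε₁ hε₁e1 B hBB₁
  obtain ⟨C₃, N₃, hC₃, hN₃⟩ := H0 ε₁ hε₁ hε₁e2 B hBB₂
  obtain ⟨CV, N₄, hCV, hN₄⟩ := hVa M B (by omega) ε₁ hε₁ hε₁1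
  obtain ⟨N₅, hN₅⟩ := HVκ M ε₁ hε₁ hε₁κ
  obtain ⟨C₅, hC₅, HS⟩ := hSMOP k M B hk hB2 ε₁ κ hε₁ hε₁1 hκ0 hκ1
  obtain ⟨σ, hσ⟩ : ∃ σ : ℝ, σ = c₀ * ε₁ ^ k * δ / 16 := ⟨_, rfl⟩
  have hσ0 : 0 < σ := by rw [hσ]; positivity
  obtain ⟨u, hu1, hu⟩ : ∃ u : ℕ, 1 ≤ u ∧ C₅ * Real.exp (-(u : ℝ)) ≤ σ := by
    have hlim : Tendsto (fun u : ℕ => C₅ * Real.exp (-(u : ℝ))) atTop (nhds (C₅ * 0)) :=
      (Real.tendsto_exp_neg_atTop_nhds_zero.comp tendsto_natCast_atTop_atTop).const_mul C₅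
    rw [mul_zero] at hlim
    obtain ⟨u, hu⟩ := Filter.eventually_atTop.1 (hlim.eventually_le_const hσ0)
    exact ⟨max u 1, le_max_right _ _, hu _ (le_max_left _ _)⟩
  obtain ⟨N₆, hN₆⟩ := HS u hu1
  obtain ⟨N₇, hN₇⟩ := smallN k (B * (k * u)) hk hσ0
  obtain ⟨K1, hK1⟩ : ∃ K1 : ℝ, K1 = Cκ * (1 / ε₁) ^ k := ⟨_, rfl⟩
  have hK10 : 0 < K1 := by rw [hK1]; positivity
  obtain ⟨η, hη⟩ : ∃ η : ℝ, η = c₀ * δ * ε₁ ^ (k + 1) / 4 := ⟨_, rfl⟩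
  have hη0 : 0 < η := by rw [hη]; positivity
  have hexp1 : K1 ^ 2 * Real.exp (-(1 / ε₁)) ≤ η ^ 2 / 2 := by
    rw [hK1]
    apply constP hCκ hε₁ hε₁b
    have h3 : η ^ 2 = (c₀ * δ / 4) ^ 2 * ε₁ ^ (2 * k + 2) := by
      rw [hη, show 2 * k + 2 = (k + 1) * 2 by ring, pow_mul]
      ring
    rw [h3]
    exact mul_le_mul_of_nonneg_right (min_le_left _ _) (by positivity)
  have hexp2 : K1 ^ 2 * Real.exp (-(1 / ε₁)) ≤ (δ / 2) ^ 2 / 2 := by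
    rw [hK1]
    apply constP hCκ hε₁ hε₁b
    have h5 : ε₁ ^ (2 * k + 2) ≤ 1 := pow_le_one₀ hε₁.le hε₁1
    calc min ((c₀ * δ / 4) ^ 2) ((δ / 2) ^ 2) * ε₁ ^ (2 * k + 2)
        ≤ (δ / 2) ^ 2 * 1 :=
          mul_le_mul (min_le_right _ _) h5 (by positivity) (by positivity)
      _ = _ := mul_one _
  refine ⟨c₀ * ε₁ ^ k / 8, 2 * K1 ^ 2 * C₃ / (δ / 2) ^ 2 + 2 * K1 ^ 2 * C₁ / η ^ 2, B * (k * u),
    max (max (max N₁ N₂) (max N₃ N₄)) (max (max N₅ N₆) (max N₇ 3)), by positivity, by positivity, ?_⟩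
  intro N hN φ0 hφ0 hW0 A hA hAc ι 𝒜 φ hφ hpair hexc
  have hNN₁ : N₁ ≤ N :=
    (((le_max_left _ _).trans (le_max_left _ _)).trans (le_max_left _ _)).trans hN
  have hNN₂ : N₂ ≤ N :=
    (((le_max_right _ _).trans (le_max_left _ _)).trans (le_max_left _ _)).trans hN
  have hNN₃ : N₃ ≤ N :=
    (((le_max_left _ _).trans (le_max_right _ _)).trans (le_max_left _ _)).trans hN
  have hNN₄ : N₄ ≤ N :=
    (((le_max_right _ _).trans (le_max_right _ _)).trans (le_max_left _ _)).trans hN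
  have hNN₅ : N₅ ≤ N :=
    (((le_max_left _ _).trans (le_max_left _ _)).trans (le_max_right _ _)).trans hN
  have hNN₆ : N₆ ≤ N :=
    (((le_max_right _ _).trans (le_max_left _ _)).trans (le_max_right _ _)).trans hN
  have hNN₇ : N₇ ≤ N :=
    (((le_max_left _ _).trans (le_max_right _ _)).trans (le_max_right _ _)).trans hN
  have hN3 : 3 ≤ N :=
    (((le_max_right _ _).trans (le_max_right _ _)).trans (le_max_right _ _)).trans hN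
  clear hN
  have hN1 : (1 : ℝ) < N := by exact_mod_cast (by omega : 1 < N)
  have hN0 : (0 : ℝ) < N := by linarith
  have hL : 0 < Real.log N := Real.log_pos hN1
  obtain ⟨hWε, hWK, -, hWlow⟩ := hN₅ N hNN₅ φ0 hφ0
  have hWlow' := hWlow hW0
  obtain ⟨W, hW⟩ : ∃ W : ℝ, W = VP φ0 (P0 N κ) := ⟨_, rfl⟩
  rw [← hW] at hW0 hAc hWε hWK hWlow'
  have hWε0 : 0 < VP φ0 (P0 N ε₁) := lt_of_lt_of_le hW0 hWε
  have hWN0 : 0 < W * N := by positivity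
  have hAI : ∀ n ∈ A, 1 ≤ n ∧ n ≤ N := fun n hn => (hA n hn).1
  have hVPN : (VP φ0 (P0 N ε₁) * N) ^ 2 ≤ K1 ^ 2 * (W * N) ^ 2 := by
    rw [← mul_pow]
    apply pow_le_pow_left₀ (by positivity)
    calc VP φ0 (P0 N ε₁) * N ≤ (Cκ * (1 / ε₁) ^ k * W) * N := by gcongr
      _ = _ := by rw [hK1]; ring
  -- the two kinds of exceptions
  have hV0 : ∀ i, 0 ≤ VP (φ i) (P1 N B ε₁) := fun i => VP_nonneg _ _
  have hVfac : ∀ i ∈ 𝒜, VP (φ i) (PF N) ≤ VP (φ i) (P1 N B ε₁) ∧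
      1 / Real.log N ^ (k + 1) ≤ VP (φ i) (P1 N B ε₁) := by
    intro i hi
    obtain ⟨h1, h2, h3, h4⟩ := hN₄ N hNN₄ (φ i) (hφ i hi).1
    exact ⟨h1, h3.trans h1⟩
  have hfA0 : ∀ n : ℕ, fA A n ≠ 0 → xx (P0 N ε₁) (φ0 n) = 1 := by
    intro n hn
    by_cases h : n ∈ A
    · exact xx_mono (P0_mono hε₁κ) (hA n h).2
    · exfalso
      apply hn
      unfold fA
      rw [if_neg h]
  have hsubpair : ∀ 𝒯 : Finset ι, 𝒯 ⊆ 𝒜 → (∀ i ∈ 𝒯, Sy k M N (φ i) ∧ Cp M N φ0 (φ i)) ∧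
      (∀ i ∈ 𝒯, ∀ j ∈ 𝒯, i ≠ j → Cp M N (φ i) (φ j)) := by
    intro 𝒯 h
    exact ⟨fun i hi => ⟨(hφ i (h hi)).1, (hφ i (h hi)).2.1⟩,
      fun i hi j hj hij => hpair i (h hi) j (h hj) hij⟩
  obtain ⟨𝒯1, h𝒯1⟩ : ∃ 𝒯1 : Finset ι, 𝒯1 = 𝒜.filter (fun i =>
    VP (φ i) (P1 N B ε₁) * (A.card : ℝ) / 2 ≤
      |((AP A (P1 N B ε₁) (φ i)).card : ℝ) - VP (φ i) (P1 N B ε₁) * A.card|) := ⟨_, rfl⟩
  obtain ⟨𝒯2, h𝒯2⟩ : ∃ 𝒯2 : Finset ι, 𝒯2 = 𝒜.filter (fun i =>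
    η * VP (φ i) (P1 N B ε₁) * (W * N) ≤ ∑ d ∈ TBP N ε₁,
      |DP (φ i) (fun n => fA A n * xx (P1 N B ε₁) (φ i n)) N d|) := ⟨_, rfl⟩
  have hcov : 𝒜 ⊆ 𝒯1 ∪ 𝒯2 := by
    intro i hi
    by_contra hno
    rw [mem_union, not_or, h𝒯1, h𝒯2] at hno
    have n1 : |((AP A (P1 N B ε₁) (φ i)).card : ℝ) - VP (φ i) (P1 N B ε₁) * A.card| <
        VP (φ i) (P1 N B ε₁) * (A.card : ℝ) / 2 := by
      by_contra hcon
      exact hno.1 (mem_filter.2 ⟨hi, not_lt.1 hcon⟩)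
    have n2 : ∑ d ∈ TBP N ε₁, |DP (φ i) (fun n => fA A n * xx (P1 N B ε₁) (φ i n)) N d| <
        η * VP (φ i) (P1 N B ε₁) * (W * N) := by
      by_contra hcon
      exact hno.2 (mem_filter.2 ⟨hi, not_lt.1 hcon⟩)
    obtain ⟨hSy, hCp, hNv⟩ := hφ i hi
    obtain ⟨hVF, hVlow⟩ := hVfac i hi
    have hA'A : ∀ n ∈ AP A (P1 N B ε₁) (φ i), 1 ≤ n ∧ n ≤ N :=
      fun n hn => hAI n (mem_filter.1 hn).1
    have hlow := hN₁ N hNN₁ (AP A (P1 N B ε₁) (φ i)) hA'A M (φ i) hSy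
    rw [fA_AP A (P1 N B ε₁) (φ i)] at hlow
    have hA'c : VP (φ i) (P1 N B ε₁) * (A.card : ℝ) / 2 ≤ (AP A (P1 N B ε₁) (φ i)).card := by
      have h1 := (abs_lt.1 n1).1
      linarith
    have hsum := inclP (ε₁ := ε₁) (B := B) (u := u) hζ hζ1 hk hr1 hN3 hSy hA
    have hcc2 : ((SmP N B k u ε₁ κ φ0 (φ i)).card : ℝ) ≤
        σ * (VP (φ i) (P1 N B ε₁) * (W * N)) := by
      have h1 := hN₆ N hNN₆ φ0 (φ i) hφ0 hSy hCp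
      refine h1.trans ?_
      calc C₅ * Real.exp (-(u : ℝ)) * (VP φ0 (P0 N κ) * VP (φ i) (P1 N B ε₁)) * N =
            C₅ * Real.exp (-(u : ℝ)) * (VP (φ i) (P1 N B ε₁) * (W * N)) := by
            rw [hW]
            ring
        _ ≤ _ := mul_le_mul_of_nonneg_right hu (mul_nonneg (hV0 i) hWN0.le)
    have hcc3 := hN₇ N hNN₇ (φ i) hNv A W (VP (φ i) (P1 N B ε₁)) hWlow' hVlow
    have hgood := goodP hc₀ hε₁ (hV0 i) hσ hAc (Nat.cast_nonneg _) hA'c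
      (by rw [← hη]; exact n2.le) hlow hsum hcc2 hcc3 hVF
    exact absurd (hexc i hi) (not_lt.2 hgood)
  have hb1 : ∑ i ∈ 𝒯1, VP (φ i) (P1 N B ε₁) ≤ 2 * K1 ^ 2 * C₃ / (δ / 2) ^ 2 := by
    obtain ⟨q1, q2⟩ := hsubpair 𝒯1 (by rw [h𝒯1]; exact filter_subset _ _)
    have h1 := hN₃ N hNN₃ φ0 hφ0 hWε0 ι 𝒯1 φ q1 q2 (fA A) (fA_le A) hfA0
    refine lamB (Finset.sum_nonneg (fun i _ => hV0 i)) (by positivity) hWN0 hC₃.le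
      (Real.exp_pos _).le (le_trans ?_ h1) hVPN hexp2
    apply pow_le_pow_left₀ (mul_nonneg (mul_nonneg (Finset.sum_nonneg (fun i _ => hV0 i))
      (by positivity)) hWN0.le)
    rw [Finset.sum_mul, Finset.sum_mul]
    apply Finset.sum_le_sum
    intro i hi
    rw [h𝒯1] at hi
    rw [← card_AP hAI (P1 N B ε₁) (VP (φ i) (P1 N B ε₁)) (φ i)]
    refine le_trans ?_ (mem_filter.1 hi).2
    have h3 : VP (φ i) (P1 N B ε₁) * (δ * (W * N)) ≤ VP (φ i) (P1 N B ε₁) * A.card :=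
      mul_le_mul_of_nonneg_left hAc (hV0 i)
    linarith
  have hb2 : ∑ i ∈ 𝒯2, VP (φ i) (P1 N B ε₁) ≤ 2 * K1 ^ 2 * C₁ / η ^ 2 := by
    obtain ⟨q1, q2⟩ := hsubpair 𝒯2 (by rw [h𝒯2]; exact filter_subset _ _)
    have h1 := hN₂ N hNN₂ φ0 hφ0 hWε0 ι 𝒯2 φ q1 q2 (fA A) (fA_le A) hfA0
      (fun _ => TBP N ε₁) (fun i _ d hd => by
        unfold TBP at hd
        exact (mem_filter.1 hd).2)
    refine lamB (Finset.sum_nonneg (fun i _ => hV0 i)) hη0 hWN0 hC₁.le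
      (Real.exp_pos _).le (le_trans ?_ h1) hVPN hexp1
    apply pow_le_pow_left₀ (mul_nonneg (mul_nonneg (Finset.sum_nonneg (fun i _ => hV0 i))
      hη0.le) hWN0.le)
    rw [Finset.sum_mul, Finset.sum_mul]
    apply Finset.sum_le_sum
    intro i hi
    rw [h𝒯2] at hi
    have := (mem_filter.1 hi).2
    linarith
  calc ∑ i ∈ 𝒜, VP (φ i) (PF N) ≤ ∑ i ∈ 𝒜, VP (φ i) (P1 N B ε₁) :=
        Finset.sum_le_sum (fun i hi => (hVfac i hi).1)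
    _ ≤ ∑ i ∈ 𝒯1 ∪ 𝒯2, VP (φ i) (P1 N B ε₁) :=
        Finset.sum_le_sum_of_subset_of_nonneg hcov (fun i _ _ => hV0 i)
    _ ≤ ∑ i ∈ 𝒯1, VP (φ i) (P1 N B ε₁) + ∑ i ∈ 𝒯2, VP (φ i) (P1 N B ε₁) := by
        have h1 := Finset.sum_union_inter (s₁ := 𝒯1) (s₂ := 𝒯2)
          (f := fun i => VP (φ i) (P1 N B ε₁))
        have h2 : 0 ≤ ∑ i ∈ 𝒯1 ∩ 𝒯2, VP (φ i) (P1 N B ε₁) :=
          Finset.sum_nonneg (fun i _ => hV0 i)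
        linarith
    _ ≤ _ := add_le_add hb1 hb2

end Pool.Agent.W23.PP
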