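import Pool.Agent.W23.PP.Fin3
import Pool.Agent.W366.PL.UBS

/-!
PP project (helper23): the upper bound, constants, the functions `1` and `n`.
-/

namespace Pool.Agent.W23.PP

open Finset Filter
open Pool.Agent.H442R2
open Pool.Agent.H442R2.KF
open Pool.Agent.W23.DC
open Pool.Agent.W23.SG
open Pool.Agent.W23.PL
open Pool.Agent.W23.KT
open Pool.Agent.W23.KS

open Classical in
/-- the elements `n` of `A` at which `φ` is a product `m s`, `m` small, the prime factors of `s`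
large -/
noncomputable def XP (A : Finset ℕ) (X B : ℕ) (ε₁ : ℝ) (φ : ℤ → ℤ) : Finset ℕ :=
  A.filter (fun n : ℕ => xx (P1 X B ε₁) (φ n) = 1)

/-- the upper bound -/
theorem upperP (hUBSP : St_UBSP) (hVLBP : St_VLBP) (k M B : ℕ) (hk : 1 ≤ k) (hB : 2 ≤ B)
    (ε₁ κ : ℝ) (hε0 : 0 < ε₁) (hε1 : ε₁ ≤ 1) (hκ0 : 0 < κ) (hκ1 : κ ≤ 1) :
    ∃ (C : ℝ) (X₀ : ℕ), 0 < C ∧ ∀ X : ℕ, X₀ ≤ X → ∀ φ0 φ : ℤ → ℤ, Sy k M X φ0 → Sy k M X φ →
      Cp M X φ0 φ → ∀ A : Finset ℕ, (∀ n ∈ A, (1 ≤ n ∧ n ≤ X) ∧ xx (P0 X κ) (φ0 n) = 1) →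
      ((XP A X B ε₁ φ).card : ℝ) ≤ C * VP φ (PF X) * (VP φ0 (P0 X κ) * X) := by
  classical
  obtain ⟨C, N₁, hC, hU⟩ := hUBSP k M B hk hB ε₁ κ hε0 hε1 hκ0 hκ1
  obtain ⟨hVa, -⟩ := hVLBP k hk
  obtain ⟨CV, N₂, hCV, hV⟩ := hVa M B (by omega) ε₁ hε0 hε1
  refine ⟨C * CV, max (max N₁ N₂) 3, by positivity, fun X hX φ0 φ hφ0 hφ hCp A hA => ?_⟩
  have hXN₁ : N₁ ≤ X := ((le_max_left _ _).trans (le_max_left _ _)).trans hX
  have hXN₂ : N₂ ≤ X := ((le_max_right _ _).trans (le_max_left _ _)).trans hX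
  have hX3' : 3 ≤ X := (le_max_right _ _).trans hX
  have hX3 : (3 : ℝ) ≤ X := by exact_mod_cast hX3'
  have h1 := hU X hXN₁ φ0 φ hφ0 hφ hCp 1 le_rfl (by
    push_cast
    exact Real.one_le_rpow (by linarith) (by norm_num)) 0
  have hkw : kw (2 * k) 1 = 1 := by simp [kw]
  rw [hkw, mul_one, show ((1 : ℕ) : ℝ) = 1 from Nat.cast_one, div_one] at h1
  have h2 : ((XP A X B ε₁ φ).card : ℝ) ≤
      (((Icc 1 X).filter (fun n : ℕ => ((1 : ℕ) : ℤ) ∣ (n : ℤ) - 0 ∧ xx (P0 X κ) (φ0 n) = 1 ∧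
      xx (P1 X B ε₁) (φ n) = 1)).card : ℝ) := by
    have : XP A X B ε₁ φ ⊆ (Icc 1 X).filter (fun n : ℕ => ((1 : ℕ) : ℤ) ∣ (n : ℤ) - 0 ∧
        xx (P0 X κ) (φ0 n) = 1 ∧ xx (P1 X B ε₁) (φ n) = 1) := by
      intro n hn
      unfold XP at hn
      rw [mem_filter] at hn
      rw [mem_filter, mem_Icc]
      refine ⟨(hA n hn.1).1, ?_, (hA n hn.1).2, hn.2⟩
      push_cast
      exact one_dvd _
    exact_mod_cast Finset.card_le_card this
  have h3 : ((XP A X B ε₁ φ).card : ℝ) ≤ C * X * (VP φ0 (P0 X κ) * VP φ (P1 X B ε₁)) := by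
    refine h2.trans (le_trans (le_of_eq ?_) h1)
    congr 2
  obtain ⟨-, h4, -, -⟩ := hV X hXN₂ φ hφ
  refine h3.trans ?_
  have h5 : (0 : ℝ) ≤ VP φ0 (P0 X κ) := VP_nonneg _ _
  calc C * X * (VP φ0 (P0 X κ) * VP φ (P1 X B ε₁)) ≤
        C * X * (VP φ0 (P0 X κ) * (CV * VP φ (PF X))) := by gcongr
    _ = _ := by ring

theorem Sy_one {k M N : ℕ} (hN : 1 ≤ N) : Sy k M N (fun _ => 1) := by
  classical
  refine ⟨fun m n => by simp, fun n => ?_, ⟨∅, by simp, fun n h => by simp at h⟩,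
    fun p j hp _ => ⟨∅, by simp, fun n h => ?_⟩⟩
  · have h1 : (1 : ℝ) ≤ N := by exact_mod_cast hN
    have h2 : (1 : ℝ) ≤ (N : ℝ) ^ M := one_le_pow₀ h1
    have h3 : (1 : ℝ) ≤ (1 + |(n : ℝ)|) ^ k := one_le_pow₀ (by linarith [abs_nonneg (n : ℝ)])
    push_cast
    rw [abs_one]
    nlinarith
  · exfalso
    have h1 := Int.natCast_dvd_natCast.1 (show ((p ^ (k * (j - 1) + 1) : ℕ) : ℤ) ∣ ((1 : ℕ) : ℤ) by
      simpa using h)
    have h2 := Nat.dvd_one.1 h1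
    rw [Nat.pow_eq_one] at h2
    have := hp.one_lt
    omega

theorem Cp_one {M N : ℕ} (hN : 1 ≤ N) (φ : ℤ → ℤ) : Cp M N (fun _ => 1) φ := by
  refine ⟨1, one_ne_zero, ?_, fun n l _ h _ => h⟩
  have h1 : (1 : ℝ) ≤ N := by exact_mod_cast hN
  push_cast
  rw [abs_one]
  exact one_le_pow₀ h1

theorem VP_one (P : Finset ℕ) (hP : ∀ p ∈ P, p.Prime) : VP (fun _ => 1) P = 1 := by
  classical
  unfold VP
  apply Finset.prod_eq_one
  intro p hp
  have : nr (fun _ => 1) p = 0 := by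
    unfold nr
    rw [Finset.card_eq_zero, Finset.filter_eq_empty_iff]
    intro a _ h
    have h1 := Int.natCast_dvd_natCast.1 (show ((p : ℕ) : ℤ) ∣ ((1 : ℕ) : ℤ) by simpa using h)
    exact absurd (Nat.dvd_one.1 h1) (hP p hp).one_lt.ne'
  unfold rh
  rw [this]
  simp

theorem xx_one (P : Finset ℕ) (hP : ∀ p ∈ P, p.Prime) : xx P 1 = 1 := by
  classical
  unfold xx
  rw [if_pos]
  intro p hp h
  have h1 := Int.natCast_dvd_natCast.1 (show ((p : ℕ) : ℤ) ∣ ((1 : ℕ) : ℤ) by simpa using h)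
  exact absurd (Nat.dvd_one.1 h1) (hP p hp).one_lt.ne'

theorem P0_prime {N : ℕ} {κ : ℝ} : ∀ p ∈ P0 N κ, p.Prime := fun p hp => (mem_P0.1 hp).2.1

theorem Sy_id {k M N : ℕ} (hk : 1 ≤ k) (hN : 1 ≤ N) : Sy k M N (fun n => n) := by
  classical
  refine ⟨fun m n => dvd_refl _, fun n => ?_, ⟨{0}, by simpa using hk, fun n h => by simpa using h⟩,
    fun p j hp hj => ⟨{0}, by simpa using hk, fun n h => ⟨0, by simp, ?_⟩⟩⟩
  · have h1 : (1 : ℝ) ≤ N := by exact_mod_cast hN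
    have h2 : (1 : ℝ) ≤ (N : ℝ) ^ M := one_le_pow₀ h1
    have h4 : 0 ≤ |(n : ℝ)| := abs_nonneg _
    have h3 : 1 + |(n : ℝ)| ≤ (1 + |(n : ℝ)|) ^ k :=
      le_self_pow₀ (by linarith) (by omega)
    nlinarith
  · have h1 : p ^ j ∣ p ^ (k * (j - 1) + 1) := by
      apply pow_dvd_pow
      have : 1 * (j - 1) ≤ k * (j - 1) := Nat.mul_le_mul_right _ hk
      omega
    simp only [Nat.cast_zero, sub_zero]
    exact (Int.natCast_dvd_natCast.2 h1).trans h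

theorem Cp_id {M N : ℕ} {φ : ℤ → ℤ} (hper : Per φ) (h0 : φ 0 ≠ 0)
    (hb : |(φ 0 : ℝ)| ≤ (N : ℝ) ^ M) : Cp M N (fun n => n) φ := by
  refine ⟨φ 0, h0, hb, fun n l _ h1 h2 => ?_⟩
  have h3 : n - 0 ∣ φ n - φ 0 := hper n 0
  rw [sub_zero] at h3
  have h4 := h1.trans h3
  have h5 : φ 0 = φ n - (φ n - φ 0) := by ring
  rw [h5]
  exact dvd_sub h2 h4

theorem rh_id {p : ℕ} (hp : p.Prime) : rh (fun n => n) p = 1 / p := by
  classical
  unfold rh
  have : nr (fun n => n) p = 1 := by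
    unfold nr
    rw [Finset.card_eq_one]
    refine ⟨0, ?_⟩
    ext a
    rw [mem_filter, mem_range, mem_singleton]
    constructor
    · rintro ⟨h1, h2⟩
      exact Nat.eq_zero_of_dvd_of_lt (Int.natCast_dvd_natCast.1 h2) h1
    · rintro rfl
      exact ⟨hp.pos, by simp⟩
  rw [this]
  simp

/-- Mertens, upper bound -/
theorem VP_id (κ : ℝ) (hκ : 0 < κ) (hκ1 : κ ≤ 1) : ∃ (C : ℝ) (N₀ : ℕ), 0 < C ∧ ∀ N : ℕ, N₀ ≤ N →
    0 < VP (fun n => n) (P0 N κ) ∧ VP (fun n => n) (P0 N κ) ≤ C / Real.log N := by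
  classical
  obtain ⟨C, hC, H⟩ := Pool.Agent.W366.PL.Vz_up
  obtain ⟨N₁, hN₁⟩ := log_large (2 / κ + 8 / κ)
  refine ⟨2 * C / κ, max N₁ 3, by positivity, fun N hN => ?_⟩
  have hNN₁ : N₁ ≤ N := (le_max_left _ _).trans hN
  have hN3 : 3 ≤ N := (le_max_right _ _).trans hN
  have hN1 : (1 : ℝ) < N := by exact_mod_cast (by omega : 1 < N)
  have hN0 : (0 : ℝ) < N := by linarith
  have hL : 0 < Real.log N := Real.log_pos hN1
  have hlog := hN₁ N hNN₁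
  have hlog2 : 10 ≤ κ * Real.log N := by
    have : 2 / κ + 8 / κ = 10 / κ := by ring
    rw [this, div_le_iff₀ hκ] at hlog
    linarith
  have hfac : ∀ p ∈ P0 N κ, rh (fun n => n) p = 1 / p := fun p hp => rh_id (P0_prime p hp)
  have hVP : VP (fun n => n) (P0 N κ) = ∏ p ∈ P0 N κ, (1 - 1 / (p : ℝ)) := by
    unfold VP
    exact Finset.prod_congr rfl (fun p hp => by rw [hfac p hp])
  have hpos : ∀ p : ℕ, p.Prime → 0 < 1 - 1 / (p : ℝ) := by
    intro p hp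
    have h2 : (2 : ℝ) ≤ p := by exact_mod_cast hp.two_le
    have : 1 / (p : ℝ) ≤ 1 / 2 := one_div_le_one_div_of_le (by norm_num) h2
    linarith
  refine ⟨?_, ?_⟩
  · rw [hVP]
    exact Finset.prod_pos (fun p hp => hpos p (P0_prime p hp))
  · -- `Y = ⌊N^κ⌋ - 1`
    set Y : ℕ := ⌊(N : ℝ) ^ κ⌋₊ - 1 with hY
    have hbig : (4 : ℝ) + 4 * (κ * Real.log N) ≤ (N : ℝ) ^ κ + 4 * (κ * Real.log N) := by
      have : (N : ℝ) ^ κ = Real.exp (κ * Real.log N) := by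
        rw [Real.rpow_def_of_pos hN0]
        ring_nf
      rw [this]
      have := Real.add_one_le_exp (κ * Real.log N)
      linarith
    have h4 : (8 : ℝ) ≤ (N : ℝ) ^ κ := by
      have : (N : ℝ) ^ κ = Real.exp (κ * Real.log N) := by
        rw [Real.rpow_def_of_pos hN0]
        ring_nf
      rw [this]
      have := Real.add_one_le_exp (κ * Real.log N)
      linarith
    have hfl : (N : ℝ) ^ κ - 1 < ⌊(N : ℝ) ^ κ⌋₊ := Nat.sub_one_lt_floor _
    have hfl2 : 8 ≤ ⌊(N : ℝ) ^ κ⌋₊ := Nat.le_floor (by exact_mod_cast h4)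
    have hYr : (Y : ℝ) = ⌊(N : ℝ) ^ κ⌋₊ - 1 := by
      rw [hY, Nat.cast_sub (by omega)]
      simp
    have hY3 : 3 ≤ Y := by omega
    have hYlow : (N : ℝ) ^ (κ / 2) ≤ Y := by
      have h5 : (N : ℝ) ^ κ = (N : ℝ) ^ (κ / 2) * (N : ℝ) ^ (κ / 2) := by
        rw [← Real.rpow_add hN0]
        ring_nf
      have h6 : (3 : ℝ) ≤ (N : ℝ) ^ (κ / 2) := by
        have : (N : ℝ) ^ (κ / 2) = Real.exp (κ / 2 * Real.log N) := by
          rw [Real.rpow_def_of_pos hN0]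
          ring_nf
        rw [this]
        have := Real.add_one_le_exp (κ / 2 * Real.log N)
        linarith
      rw [hYr]
      nlinarith
    have h7 := H Y hY3
    have h8 : VP (fun n => n) (P0 N κ) ≤ Pool.Agent.H373R2.T7.Vz Y := by
      rw [hVP]
      unfold Pool.Agent.H373R2.T7.Vz
      have hsub : Pool.Agent.H373R2.T7.pz Y ⊆ P0 N κ := by
        intro p hp
        unfold Pool.Agent.H373R2.T7.pz at hp
        rw [mem_filter, mem_Icc] at hp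
        have hpY : (p : ℝ) ≤ Y := by exact_mod_cast hp.1.2
        have hfle : (⌊(N : ℝ) ^ κ⌋₊ : ℝ) ≤ (N : ℝ) ^ κ := Nat.floor_le (by positivity)
        have hlt : (p : ℝ) < (N : ℝ) ^ κ := by linarith
        have hNκ : (N : ℝ) ^ κ ≤ N := by
          calc (N : ℝ) ^ κ ≤ (N : ℝ) ^ (1 : ℝ) :=
                Real.rpow_le_rpow_of_exponent_le hN1.le hκ1
            _ = N := Real.rpow_one _
        rw [mem_P0]
        exact ⟨⟨hp.1.1, by exact_mod_cast (hlt.le.trans hNκ)⟩, hp.2,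
          (tt_lt_iff (by omega) hp.2.pos _).2 hlt⟩
      rw [← Finset.prod_sdiff hsub]
      have hq : ∏ p ∈ P0 N κ \ Pool.Agent.H373R2.T7.pz Y, (1 - 1 / (p : ℝ)) ≤ 1 := by
        apply Finset.prod_le_one
        · intro p hp
          exact (hpos p (P0_prime p (mem_sdiff.1 hp).1)).le
        · intro p _
          have : (0 : ℝ) ≤ 1 / (p : ℝ) := by positivity
          linarith
      have hq2 : 0 ≤ ∏ p ∈ Pool.Agent.H373R2.T7.pz Y, (1 - 1 / (p : ℝ)) :=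
        Finset.prod_nonneg (fun p hp => (hpos p (P0_prime p (hsub hp))).le)
      exact mul_le_of_le_one_left hq2 hq
    refine h8.trans (h7.trans ?_)
    have h9 : κ / 2 * Real.log N ≤ Real.log Y := by
      rw [← Real.log_rpow hN0]
      exact Real.log_le_log (by positivity) hYlow
    calc C / Real.log Y ≤ C / (κ / 2 * Real.log N) := by gcongr
      _ = _ := by field_simp

end Pool.Agent.W23.PP
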