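import Pool.Agent.W23.PP.Fin4

/-!
PP project (helper23): systems of polynomials.
-/

namespace Pool.Agent.W23.PP

open Finset Filter Polynomial
open Pool.Agent.H442R2
open Pool.Agent.H442R2.KF
open Pool.Agent.W23.DC
open Pool.Agent.W23.SG
open Pool.Agent.W23.PL
open Pool.Agent.W23.KT
open Pool.Agent.W23.KS

/-- primitive nonconstant polynomials of degree at most `D`, coefficients at most `X^M` -/
structure Pol (D M X : ℕ) (F : ℤ[X]) : Prop where
  prim : F.IsPrimitive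
  pos : 1 ≤ F.natDegree
  deg : F.natDegree ≤ D
  ht : ∀ i, |(F.coeff i : ℝ)| ≤ (X : ℝ) ^ M

/-- coprime over the rationals -/
def Cop (F G : ℤ[X]) : Prop :=
  IsCoprime (F.map (Int.castRingHom ℚ)) (G.map (Int.castRingHom ℚ))

/-- systems of at most `k` polynomials -/
structure Sst (k D M X : ℕ) (S : Finset ℤ[X]) : Prop where
  ne : S.Nonempty
  card : S.card ≤ k
  pol : ∀ F ∈ S, Pol D M X F

/-- the product of the values -/
def evS (S : Finset ℤ[X]) (n : ℤ) : ℤ := ∏ F ∈ S, F.eval n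

theorem evS_eq (S : Finset ℤ[X]) : evS S = fun n => (∏ F ∈ S, F).eval n := by
  funext n
  unfold evS
  rw [Polynomial.eval_prod]

open Classical in
/-- the elements of `A` at which all polynomials of the system are almost prime -/
noncomputable def Alm (A : Finset ℕ) (X t r : ℕ) (S : Finset ℤ[X]) : Finset ℕ :=
  A.filter (fun n : ℕ => ∀ F ∈ S, ∃ m s : ℕ, (F.eval (n : ℤ)).natAbs = m * s ∧ 1 ≤ m ∧
    (m : ℝ) ≤ Real.log X ^ t ∧ 1 < s ∧ s.primeFactorsList.length ≤ r ∧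
    ∀ q ∈ s.primeFactors, (X : ℝ) ^ (1 / r : ℝ) ≤ q)

theorem prod_ht {D M X : ℕ} (hX : 2 ≤ X) (S : Finset ℤ[X])
    (h : ∀ F ∈ S, F.natDegree ≤ D ∧ ∀ i, |(F.coeff i : ℝ)| ≤ (X : ℝ) ^ M) :
    ∀ i, |((∏ F ∈ S, F).coeff i : ℝ)| ≤ (X : ℝ) ^ (S.card * (M + D)) := by
  classical
  have hX2 : (2 : ℝ) ≤ X := by exact_mod_cast hX
  induction S using Finset.induction_on with
  | empty =>
    intro i
    simp only [prod_empty, card_empty, zero_mul, pow_zero]
    rw [Polynomial.coeff_one]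
    split_ifs <;> simp
  | insert F S hF ih =>
    intro i
    have ih' := ih (fun G hG => h G (mem_insert_of_mem hG))
    obtain ⟨h1, h2⟩ := h F (mem_insert_self _ _)
    rw [prod_insert hF, card_insert_of_notMem hF, Polynomial.coeff_mul]
    push_cast
    have h3 : ∀ x ∈ antidiagonal i, |(F.coeff x.1 : ℝ) * ((∏ F ∈ S, F).coeff x.2 : ℝ)| ≤
        if x.1 ≤ D then (X : ℝ) ^ M * (X : ℝ) ^ (S.card * (M + D)) else 0 := by
      intro x _
      split_ifs with hx
      · rw [abs_mul]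
        exact mul_le_mul (h2 _) (ih' _) (abs_nonneg _) (by positivity)
      · rw [Polynomial.coeff_eq_zero_of_natDegree_lt (by omega)]
        simp
    have h4 : ((antidiagonal i).filter (fun x => x.1 ≤ D)).card ≤ D + 1 := by
      have : ((antidiagonal i).filter (fun x => x.1 ≤ D)).card ≤ (range (D + 1)).card := by
        apply Finset.card_le_card_of_injOn (fun x => x.1)
        · intro x hx
          rw [Finset.mem_coe, mem_filter] at hx
          rw [Finset.mem_coe, mem_range]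
          have := hx.2
          show x.1 < D + 1
          omega
        · intro x hx y hy hxy
          rw [Finset.mem_coe, mem_filter, HasAntidiagonal.mem_antidiagonal] at hx hy
          have hxy : x.1 = y.1 := hxy
          ext
          · exact hxy
          · omega
      simpa using this
    have hD : ((D : ℝ) + 1) ≤ (X : ℝ) ^ D := by
      have h5 : D + 1 ≤ 2 ^ D := Nat.lt_two_pow_self
      calc ((D : ℝ) + 1) ≤ (2 : ℝ) ^ D := by exact_mod_cast h5
        _ ≤ _ := pow_le_pow_left₀ (by norm_num) hX2 D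
    calc |∑ x ∈ antidiagonal i, (F.coeff x.1 : ℝ) * ((∏ F ∈ S, F).coeff x.2 : ℝ)|
        ≤ ∑ x ∈ antidiagonal i, |(F.coeff x.1 : ℝ) * ((∏ F ∈ S, F).coeff x.2 : ℝ)| :=
          Finset.abs_sum_le_sum_abs _ _
      _ ≤ ∑ x ∈ antidiagonal i,
          if x.1 ≤ D then (X : ℝ) ^ M * (X : ℝ) ^ (S.card * (M + D)) else 0 :=
          Finset.sum_le_sum h3
      _ = ((antidiagonal i).filter (fun x => x.1 ≤ D)).card *
          ((X : ℝ) ^ M * (X : ℝ) ^ (S.card * (M + D))) := by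
          rw [← Finset.sum_filter, Finset.sum_const, nsmul_eq_mul]
      _ ≤ ((D : ℝ) + 1) * ((X : ℝ) ^ M * (X : ℝ) ^ (S.card * (M + D))) := by
          gcongr
          exact_mod_cast h4
      _ ≤ (X : ℝ) ^ D * ((X : ℝ) ^ M * (X : ℝ) ^ (S.card * (M + D))) := by gcongr
      _ = _ := by ring

theorem prod_prim (S : Finset ℤ[X]) (h : ∀ F ∈ S, F.IsPrimitive) : (∏ F ∈ S, F).IsPrimitive := by
  classical
  induction S using Finset.induction_on with
  | empty => simpa using Polynomial.isPrimitive_one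
  | insert F S hF ih =>
    rw [prod_insert hF]
    exact (h F (mem_insert_self _ _)).mul (ih (fun G hG => h G (mem_insert_of_mem hG)))

theorem Sst.prodPol {k D M X : ℕ} {S : Finset ℤ[X]} (h : Sst k D M X S) (hX : 2 ≤ X) :
    Pol (k * D) (k * (M + D)) X (∏ F ∈ S, F) := by
  classical
  have hX1 : (1 : ℝ) ≤ X := by exact_mod_cast (by omega : 1 ≤ X)
  have hne : ∀ F ∈ S, F ≠ 0 := fun F hF => (h.pol F hF).prim.ne_zero
  refine ⟨prod_prim S (fun F hF => (h.pol F hF).prim), ?_, ?_, fun i => ?_⟩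
  · rw [Polynomial.natDegree_prod _ _ hne]
    obtain ⟨F, hF⟩ := h.ne
    exact (h.pol F hF).pos.trans
      (Finset.single_le_sum (f := fun F : ℤ[X] => F.natDegree) (fun _ _ => Nat.zero_le _) hF)
  · refine (Polynomial.natDegree_prod_le _ _).trans ?_
    refine (Finset.sum_le_card_nsmul _ _ D (fun F hF => (h.pol F hF).deg)).trans ?_
    rw [smul_eq_mul]
    exact Nat.mul_le_mul_right _ h.card
  · refine (prod_ht hX S (fun F hF => ⟨(h.pol F hF).deg, (h.pol F hF).ht⟩) i).trans ?_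
    exact pow_le_pow_right₀ hX1 (Nat.mul_le_mul_right _ h.card)

theorem Pol.nv {D M X : ℕ} {F : ℤ[X]} (h : Pol D M X F) : Nv D (fun n => F.eval n) := by
  classical
  intro v
  have hne : F - C v ≠ 0 := by
    intro h0
    have h1 : F = C v := sub_eq_zero.1 h0
    have := h.pos
    rw [h1, Polynomial.natDegree_C] at this
    omega
  refine ⟨(F - C v).roots.toFinset, ?_, fun n hn => ?_⟩
  · refine (Multiset.toFinset_card_le _).trans ((Polynomial.card_roots' _).trans ?_)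
    refine (Polynomial.natDegree_sub_le _ _).trans ?_
    rw [Polynomial.natDegree_C]
    exact max_le h.deg (Nat.zero_le _)
  · rw [Multiset.mem_toFinset, Polynomial.mem_roots hne, Polynomial.IsRoot.def,
      Polynomial.eval_sub, Polynomial.eval_C, sub_eq_zero]
    exact hn

theorem cop_prod {S T : Finset ℤ[X]} (h : ∀ F ∈ S, ∀ G ∈ T, Cop F G) :
    Cop (∏ F ∈ S, F) (∏ G ∈ T, G) := by
  unfold Cop
  rw [Polynomial.map_prod, Polynomial.map_prod]
  exact IsCoprime.prod_left (fun F hF => IsCoprime.prod_right (fun G hG => h F hF G hG))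

open Classical in
theorem GP_sub {A : Finset ℕ} {X t r : ℕ} (S : Finset ℤ[X]) :
    GP A X t r (evS S) ⊆ Alm A X t r S ∪
      S.biUnion (fun F => A.filter (fun n : ℕ => ((F.eval (n : ℤ)).natAbs : ℝ) ≤ Real.log X ^ t)) := by
  intro n hn
  by_contra hno
  rw [mem_union, not_or] at hno
  obtain ⟨g1, g2⟩ := hno
  unfold GP at hn
  rw [mem_filter] at hn
  obtain ⟨hnA, m, s, h1, h2, h3, h4, h5, h6⟩ := hn
  apply g1
  unfold Alm
  rw [mem_filter]
  refine ⟨hnA, fun F hF => ?_⟩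
  have hbig : Real.log X ^ t < ((F.eval (n : ℤ)).natAbs : ℝ) := by
    by_contra hcon
    exact g2 (mem_biUnion.2 ⟨F, hF, mem_filter.2 ⟨hnA, not_lt.1 hcon⟩⟩)
  have hdvd : (F.eval (n : ℤ)).natAbs ∣ m * s := by
    rw [← h1]
    exact Int.natAbs_dvd_natAbs.2 (Finset.dvd_prod_of_mem (fun F : ℤ[X] => F.eval (n : ℤ)) hF)
  obtain ⟨m', s', hm', hs', hms⟩ := (Nat.dvd_mul).1 hdvd
  have hm0 : 0 < m' := Nat.pos_of_dvd_of_pos hm' (by omega)
  have hmle : (m' : ℝ) ≤ Real.log X ^ t := by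
    have : m' ≤ m := Nat.le_of_dvd (by omega) hm'
    exact le_trans (by exact_mod_cast this) h3
  have hs0 : 0 < s' := Nat.pos_of_dvd_of_pos hs' (by omega)
  refine ⟨m', s', hms.symm, hm0, hmle, ?_, ?_, ?_⟩
  · by_contra hs1
    have hs2 : s' = 1 := by omega
    rw [← hms, hs2, mul_one] at hbig
    linarith
  · refine le_trans ?_ h5
    exact (Nat.primeFactorsList_sublist_of_dvd hs' (by omega)).length_le
  · intro q hq
    apply h6 q
    rw [Nat.mem_primeFactors] at hq ⊢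
    exact ⟨hq.1, hq.2.1.trans hs', by omega⟩

theorem Alm_sub {A : Finset ℕ} {X t r : ℕ} (hX : 3 ≤ X) {ε₁ : ℝ} (hε : ε₁ ≤ 1 / r)
    (S : Finset ℤ[X]) : Alm A X t r S ⊆ XP A X (t + 2) ε₁ (evS S) := by
  classical
  intro n hn
  have hX3 : (3 : ℝ) ≤ X := by exact_mod_cast hX
  have hX0 : (0 : ℝ) < X := by linarith
  have hL1 : 1 < Real.log X := by
    rw [Real.lt_log_iff_exp_lt hX0]
    exact Real.exp_one_lt_three.trans_le hX3
  unfold Alm at hn
  rw [mem_filter] at hn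
  obtain ⟨hnA, hgood⟩ := hn
  unfold XP
  rw [mem_filter]
  refine ⟨hnA, ?_⟩
  unfold xx
  rw [if_pos]
  intro l hl hld
  obtain ⟨⟨hl1, hl2⟩, hlp, hl3, hl4⟩ := mem_P1.1 hl
  unfold evS at hld
  obtain ⟨F, hFS, hlF⟩ := (Nat.prime_iff_prime_int.1 hlp).exists_mem_finset_dvd hld
  obtain ⟨m, s, e1, e2, e3, e4, e5, e6⟩ := hgood F hFS
  have hln : l ∣ m * s := by
    rw [← e1]
    exact Int.natCast_dvd.1 hlF
  rcases (hlp.dvd_mul).1 hln with h | h
  · have h1 : l ≤ m := Nat.le_of_dvd (by omega) h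
    have h2 : (l : ℝ) ≤ Real.log X ^ t := le_trans (by exact_mod_cast h1) e3
    have h3 : Real.log X ^ t < Real.log X ^ (t + 2) := pow_lt_pow_right₀ hL1 (by omega)
    linarith
  · have h1 := e6 l (Nat.mem_primeFactors.2 ⟨hlp, h, by omega⟩)
    have h2 := (tt_lt_iff (by omega : 2 ≤ X) hlp.pos _).1 hl4
    have h3 : (X : ℝ) ^ ε₁ ≤ (X : ℝ) ^ (1 / r : ℝ) :=
      Real.rpow_le_rpow_of_exponent_le (by linarith) hε
    linarith

/-- lower bound for the density -/
theorem VP_low (hRTP : St_RTP) (hVLBP : St_VLBP) (hVLBK : St_VLBK) (k M : ℕ) (hk : 1 ≤ k) :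
    ∃ (c : ℝ) (N₀ : ℕ), 0 < c ∧ ∀ N : ℕ, N₀ ≤ N → ∀ φ : ℤ → ℤ, Sy k M N φ →
      c * (Real.log (Real.log N) / Real.log N) ^ k ≤ VP φ (PF N) := by
  classical
  obtain ⟨hVa, -⟩ := hVLBP k hk
  obtain ⟨CV, N₁, hCV, H1⟩ := hVa M 2 (by omega) 1 one_pos le_rfl
  obtain ⟨c₂, hc₂, H2⟩ := hVLBK k hk
  obtain ⟨N₂, H2'⟩ := H2 M 2 le_rfl 1 one_pos le_rfl
  obtain ⟨N₃, H3⟩ := log_large (k + 2)
  refine ⟨c₂ / CV, max (max N₁ N₂) (max N₃ 3), by positivity, fun N hN φ hφ => ?_⟩
  have hNN₁ : N₁ ≤ N := ((le_max_left _ _).trans (le_max_left _ _)).trans hN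
  have hNN₂ : N₂ ≤ N := ((le_max_right _ _).trans (le_max_left _ _)).trans hN
  have hNN₃ : N₃ ≤ N := ((le_max_left _ _).trans (le_max_right _ _)).trans hN
  have hN3 : 3 ≤ N := ((le_max_right _ _).trans (le_max_right _ _)).trans hN
  have hN0 : (0 : ℝ) < N := by exact_mod_cast (by omega : 0 < N)
  have hlog := H3 N hNN₃
  have hk0 : (0 : ℝ) ≤ k := Nat.cast_nonneg _
  have hL0 : 0 < Real.log N := by linarith
  have hLL : 0 < Real.log (Real.log N) := Real.log_pos (by linarith)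
  obtain ⟨-, h1, -, -⟩ := H1 N hNN₁ φ hφ
  obtain ⟨h2, -, -⟩ := H2' N hNN₂
  obtain ⟨hrt1, -⟩ := hRTP.2.2 k M N φ hφ
  have h3 : Vk k (P1 N 2 1) ≤ VP φ (P1 N 2 1) := by
    unfold Vk VP
    apply Finset.prod_le_prod
    · intro p hp
      obtain ⟨-, hpp, hpl, -⟩ := mem_P1.1 hp
      have hp0 : (0 : ℝ) < p := by exact_mod_cast hpp.pos
      have : (k : ℝ) ≤ p := by nlinarith
      have h4 : (k : ℝ) / p ≤ 1 := (div_le_one hp0).2 this
      linarith
    · intro p hp
      obtain ⟨-, hpp, -, -⟩ := mem_P1.1 hp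
      have h5 : (nr φ p : ℝ) ≤ k := by exact_mod_cast hrt1 p hpp
      have h6 : rh φ p ≤ (k : ℝ) / p := by
        unfold rh
        gcongr
      linarith
  have h4 : c₂ * (Real.log (Real.log N) / Real.log N) ^ k ≤ Vk k (P1 N 2 1) := by
    refine le_trans ?_ h2
    have h5 : Real.log (Real.log N) / Real.log N ≤
        ((2 : ℕ) : ℝ) * Real.log (Real.log N) / (1 * Real.log N) := by
      rw [one_mul]
      push_cast
      gcongr
      linarith
    gcongr
  rw [div_mul_eq_mul_div, div_le_iff₀ hCV]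
  calc c₂ * (Real.log (Real.log N) / Real.log N) ^ k ≤ VP φ (P1 N 2 1) := h4.trans h3
    _ ≤ CV * VP φ (PF N) := h1
    _ = _ := by ring

end Pool.Agent.W23.PP
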