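import Pool.Agent.W23.PP.Fin5

/-!
PP project (helper23): the theorems for systems of polynomials.
-/

namespace Pool.Agent.W23.PP

open Finset Filter Polynomial
open Pool.Agent.H442R2
open Pool.Agent.H442R2.KF
open Pool.Agent.W23.DC
open Pool.Agent.W23.SG
open Pool.Agent.W23.PL
open Pool.Agent.W23.KT
open Pool.Agent.W23.KS

theorem Nv.mono {k k' : ℕ} {φ : ℤ → ℤ} (h : Nv k φ) (hk : k ≤ k') : Nv k' φ := fun v => by
  obtain ⟨Z, h1, h2⟩ := h v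
  exact ⟨Z, h1.trans hk, h2⟩

/-- the constant of `POLB` and the properties of the products -/
theorem consS (hPOLA : St_POLA) (hPOLB : St_POLB) (k D M : ℕ) (hk : 1 ≤ k) (hD : 1 ≤ D) :
    ∃ M₀ : ℕ, 1 ≤ M₀ ∧ ∀ M' : ℕ, M₀ ≤ M' → ∀ X : ℕ, 2 ≤ X → ∀ S : Finset ℤ[X],
      Sst k D M X S → Sy (k * D) M' X (evS S) ∧ Nv (k * D) (evS S) ∧
      ∀ T : Finset ℤ[X], Sst k D M X T → (∀ F ∈ S, ∀ G ∈ T, Cop F G) →
        Cp M' X (evS S) (evS T) := by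
  have hkD : 1 ≤ k * D := Nat.mul_pos hk hD
  obtain ⟨M₁, hM₁⟩ := hPOLB (k * D) (k * (M + D)) hkD
  refine ⟨max M₁ (k * (M + D) + k * D), ?_, fun M' hM' X hX S hS => ?_⟩
  · exact le_trans (by omega) (le_max_right _ _)
  have hP := hS.prodPol hX
  refine ⟨?_, ?_, fun T hT hST => ?_⟩
  · rw [evS_eq]
    exact (hPOLA (k * D) (k * (M + D)) X hkD hX _ hP.prim hP.deg hP.ht).mono (by omega)
      ((le_max_right _ _).trans hM') le_rfl
  · rw [evS_eq]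
    exact hP.nv
  · rw [evS_eq, evS_eq]
    have hQ := hT.prodPol hX
    exact (hM₁ X hX _ _ hP.deg hQ.deg hP.ht hQ.ht (cop_prod hST)).mono (by omega)
      ((le_max_left _ _).trans hM') le_rfl

open Classical in
theorem mainS (hRTP : St_RTP) (hBHG : St_BHG) (hBXBP : St_BXBP) (hBX0P : St_BX0P)
    (hVLBP : St_VLBP) (hSMOP : St_SMOP) (hVLBK : St_VLBK) (hPOLA : St_POLA) (hPOLB : St_POLB)
    (k D M : ℕ) (hk : 1 ≤ k) (hD : 1 ≤ D) :
    ∃ M₀ : ℕ, 1 ≤ M₀ ∧ ∀ M' : ℕ, M₀ ≤ M' → ∃ r : ℕ, 1 ≤ r ∧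
      ∀ κ : ℝ, 0 < κ → κ ≤ 1 → ∀ δ : ℝ, 0 < δ →
      ∃ (c C : ℝ) (t X₀ : ℕ), 0 < c ∧ 0 < C ∧ ∀ X : ℕ, X₀ ≤ X →
      ∀ φ0 : ℤ → ℤ, Sy (k * D) M' X φ0 → 0 < VP φ0 (P0 X κ) →
      ∀ A : Finset ℕ, (∀ n ∈ A, (1 ≤ n ∧ n ≤ X) ∧ xx (P0 X κ) (φ0 n) = 1) →
      δ * (VP φ0 (P0 X κ) * X) ≤ A.card →
      ∀ 𝒮 : Finset (Finset ℤ[X]), (∀ S ∈ 𝒮, Sst k D M X S ∧ Cp M' X φ0 (evS S)) →
      (∀ S ∈ 𝒮, ∀ T ∈ 𝒮, S ≠ T → ∀ F ∈ S, ∀ G ∈ T, Cop F G) →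
      (∀ S ∈ 𝒮, ((Alm A X t r S).card : ℝ) < c * VP (evS S) (PF X) * A.card) →
      ∑ S ∈ 𝒮, VP (evS S) (PF X) ≤ C ∧
        (𝒮.card : ℝ) ≤ C * (Real.log X / Real.log (Real.log X)) ^ (k * D) := by
  have hkD : 1 ≤ k * D := Nat.mul_pos hk hD
  obtain ⟨M₀, hM₀, HC⟩ := consS hPOLA hPOLB k D M hk hD
  refine ⟨M₀, hM₀, fun M' hM' => ?_⟩
  obtain ⟨r, hr, H⟩ := mainP hRTP hBHG hBXBP hBX0P hVLBP hSMOP (k * D) M' hkD (hM₀.trans hM')
  refine ⟨r, hr, fun κ hκ0 hκ1 δ hδ => ?_⟩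
  obtain ⟨c, C, t, N₁, hc, hC, H1⟩ := H κ hκ0 hκ1 δ hδ
  have hk0 : (0 : ℝ) < k := by exact_mod_cast hk
  obtain ⟨N₂, H2⟩ := smallN (k * D) t hkD (show (0 : ℝ) < c * δ / (2 * k) by positivity)
  obtain ⟨c₁, N₃, hc₁, H3⟩ := VP_low hRTP hVLBP hVLBK (k * D) M' hkD
  obtain ⟨hVa, hVb⟩ := hVLBP (k * D) hkD
  obtain ⟨_CV, N₄, _, H4⟩ := hVa M' 1 le_rfl 1 one_pos le_rfl
  obtain ⟨_Cκ, _, HVκ⟩ := hVb κ hκ0 hκ1
  obtain ⟨N₅, H5⟩ := HVκ M' κ hκ0 le_rfl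
  refine ⟨c / 2, max C (C / c₁), t, max (max N₁ N₂) (max (max N₃ N₄) (max N₅ 3)), by positivity,
    lt_max_of_lt_left hC, ?_⟩
  intro X hX φ0 hφ0 hW0 A hA hAc 𝒮 h𝒮 hpair hexc
  have hX₁ : N₁ ≤ X := ((le_max_left _ _).trans (le_max_left _ _)).trans hX
  have hX₂ : N₂ ≤ X := ((le_max_right _ _).trans (le_max_left _ _)).trans hX
  have hX₃ : N₃ ≤ X :=
    (((le_max_left _ _).trans (le_max_left _ _)).trans (le_max_right _ _)).trans hX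
  have hX₄ : N₄ ≤ X :=
    (((le_max_right _ _).trans (le_max_left _ _)).trans (le_max_right _ _)).trans hX
  have hX₅ : N₅ ≤ X :=
    (((le_max_left _ _).trans (le_max_right _ _)).trans (le_max_right _ _)).trans hX
  have hX3' : 3 ≤ X :=
    (((le_max_right _ _).trans (le_max_right _ _)).trans (le_max_right _ _)).trans hX
  clear hX
  have hX3 : (3 : ℝ) ≤ X := by exact_mod_cast hX3'
  have hX0 : (0 : ℝ) < X := by linarith
  have hL1 : 1 < Real.log X := by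
    rw [Real.lt_log_iff_exp_lt hX0]
    exact Real.exp_one_lt_three.trans_le hX3
  have hL : 0 < Real.log X := by linarith
  have hLL : 0 < Real.log (Real.log X) := Real.log_pos hL1
  obtain ⟨-, -, -, hWlow⟩ := H5 X hX₅ φ0 hφ0
  have hWlow' := hWlow hW0
  have hcons : ∀ S ∈ 𝒮, Sy (k * D) M' X (evS S) ∧ Nv (k * D) (evS S) ∧
      ∀ T : Finset ℤ[X], Sst k D M X T → (∀ F ∈ S, ∀ G ∈ T, Cop F G) →
        Cp M' X (evS S) (evS T) := fun S hS => HC M' hM' X (by omega) S (h𝒮 S hS).1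
  have hsum := H1 X hX₁ φ0 hφ0 hW0 A hA hAc (Finset ℤ[X]) 𝒮 evS
    (fun S hS => ⟨(hcons S hS).1, (h𝒮 S hS).2, (hcons S hS).2.1⟩)
    (fun S hS T hT hST => (hcons S hS).2.2 T (h𝒮 T hT).1 (hpair S hS T hT hST))
    (fun S hS => by
      have hSst := (h𝒮 S hS).1
      obtain ⟨-, -, hVlow, -⟩ := H4 X hX₄ (evS S) (hcons S hS).1
      have hV0 : 0 < VP (evS S) (PF X) := lt_of_lt_of_le (by positivity) hVlow
      have h1 := (Finset.card_le_card (GP_sub (A := A) (X := X) (t := t) (r := r) S)).trans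
        (Finset.card_union_le _ _)
      have h2 : ((S.biUnion (fun F => A.filter (fun n : ℕ =>
          ((F.eval (n : ℤ)).natAbs : ℝ) ≤ Real.log X ^ t))).card : ℝ) ≤
          c / 2 * VP (evS S) (PF X) * A.card := by
        have h3 : (S.biUnion (fun F => A.filter (fun n : ℕ =>
          ((F.eval (n : ℤ)).natAbs : ℝ) ≤ Real.log X ^ t))).card ≤
          ∑ F ∈ S, (A.filter (fun n : ℕ =>
          ((F.eval (n : ℤ)).natAbs : ℝ) ≤ Real.log X ^ t)).card := Finset.card_biUnion_le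
        have h4 : ∀ F ∈ S, ((A.filter (fun n : ℕ =>
            ((F.eval (n : ℤ)).natAbs : ℝ) ≤ Real.log X ^ t)).card : ℝ) ≤
            c * δ / (2 * k) * (VP (evS S) (PF X) * (VP φ0 (P0 X κ) * X)) := by
          intro F hF
          exact H2 X hX₂ (fun n => F.eval n)
            ((hSst.pol F hF).nv.mono (Nat.le_mul_of_pos_left D (by omega))) A _ _ hWlow' hVlow
        calc ((S.biUnion (fun F => A.filter (fun n : ℕ =>
              ((F.eval (n : ℤ)).natAbs : ℝ) ≤ Real.log X ^ t))).card : ℝ)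
            ≤ ∑ F ∈ S, ((A.filter (fun n : ℕ =>
              ((F.eval (n : ℤ)).natAbs : ℝ) ≤ Real.log X ^ t)).card : ℝ) := by exact_mod_cast h3
          _ ≤ ∑ _F ∈ S, c * δ / (2 * k) * (VP (evS S) (PF X) * (VP φ0 (P0 X κ) * X)) :=
              Finset.sum_le_sum h4
          _ = S.card * (c * δ / (2 * k) * (VP (evS S) (PF X) * (VP φ0 (P0 X κ) * X))) := by
              rw [Finset.sum_const, nsmul_eq_mul]
          _ ≤ k * (c * δ / (2 * k) * (VP (evS S) (PF X) * (VP φ0 (P0 X κ) * X))) := by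
              have : (S.card : ℝ) ≤ k := by exact_mod_cast hSst.card
              gcongr
          _ = c / 2 * VP (evS S) (PF X) * (δ * (VP φ0 (P0 X κ) * X)) := by
              field_simp
          _ ≤ _ := by gcongr
      have h5 : ((GP A X t r (evS S)).card : ℝ) ≤ (Alm A X t r S).card +
          (S.biUnion (fun F => A.filter (fun n : ℕ =>
          ((F.eval (n : ℤ)).natAbs : ℝ) ≤ Real.log X ^ t))).card := by exact_mod_cast h1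
      have h6 := hexc S hS
      have e1 : c * VP (evS S) (PF X) * A.card = c / 2 * VP (evS S) (PF X) * A.card +
          c / 2 * VP (evS S) (PF X) * A.card := by ring
      rw [e1]
      linarith)
  refine ⟨hsum.trans (le_max_left _ _), ?_⟩
  have h7 : (𝒮.card : ℝ) * (c₁ * (Real.log (Real.log X) / Real.log X) ^ (k * D)) ≤ C := by
    refine le_trans ?_ hsum
    rw [← nsmul_eq_mul, ← Finset.sum_const]
    exact Finset.sum_le_sum (fun S hS => H3 X hX₃ (evS S) (hcons S hS).1)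
  have h8 : (𝒮.card : ℝ) = 𝒮.card * (c₁ * (Real.log (Real.log X) / Real.log X) ^ (k * D)) *
      (1 / c₁ * (Real.log X / Real.log (Real.log X)) ^ (k * D)) := by
    rw [div_pow, div_pow]
    field_simp
  rw [h8]
  calc 𝒮.card * (c₁ * (Real.log (Real.log X) / Real.log X) ^ (k * D)) *
      (1 / c₁ * (Real.log X / Real.log (Real.log X)) ^ (k * D)) ≤
        C * (1 / c₁ * (Real.log X / Real.log (Real.log X)) ^ (k * D)) := by gcongr
    _ = C / c₁ * (Real.log X / Real.log (Real.log X)) ^ (k * D) := by ring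
    _ ≤ _ := by
        gcongr
        exact le_max_right _ _

open Classical in
theorem sharpS (hUBSP : St_UBSP) (hVLBP : St_VLBP) (hPOLA : St_POLA) (hPOLB : St_POLB)
    (k D M : ℕ) (hk : 1 ≤ k) (hD : 1 ≤ D) :
    ∃ M₀ : ℕ, 1 ≤ M₀ ∧ ∀ M' : ℕ, M₀ ≤ M' → ∀ t r : ℕ, 1 ≤ r → ∀ κ : ℝ, 0 < κ → κ ≤ 1 →
      ∃ (C : ℝ) (X₀ : ℕ), 0 < C ∧ ∀ X : ℕ, X₀ ≤ X → ∀ φ0 : ℤ → ℤ, Sy (k * D) M' X φ0 →
      ∀ A : Finset ℕ, (∀ n ∈ A, (1 ≤ n ∧ n ≤ X) ∧ xx (P0 X κ) (φ0 n) = 1) →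
      (∀ S : Finset ℤ[X], Sst k D M X S → Cp M' X φ0 (evS S) →
        ((Alm A X t r S).card : ℝ) ≤ C * VP (evS S) (PF X) * (VP φ0 (P0 X κ) * X)) ∧
      ∀ 𝒮 : Finset (Finset ℤ[X]), (∀ S ∈ 𝒮, Sst k D M X S ∧ Cp M' X φ0 (evS S)) →
      ∃ A' : Finset ℕ, A' ⊆ A ∧ (A.card : ℝ) - A'.card ≤
          C * (∑ S ∈ 𝒮, VP (evS S) (PF X)) * (VP φ0 (P0 X κ) * X) ∧
        ∀ S ∈ 𝒮, Alm A' X t r S = ∅ := by
  have hkD : 1 ≤ k * D := Nat.mul_pos hk hD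
  obtain ⟨M₀, hM₀, HC⟩ := consS hPOLA hPOLB k D M hk hD
  refine ⟨M₀, hM₀, fun M' hM' t r hr κ hκ0 hκ1 => ?_⟩
  have hr0 : (0 : ℝ) < r := by exact_mod_cast hr
  have hε0 : (0 : ℝ) < 1 / (r + 1) := by positivity
  have hε1 : (1 : ℝ) / (r + 1) ≤ 1 := by
    rw [div_le_one (by positivity)]
    linarith
  have hεr : (1 : ℝ) / (r + 1) ≤ 1 / r := one_div_le_one_div_of_le hr0 (by linarith)
  obtain ⟨C, N₁, hC, H⟩ := upperP hUBSP hVLBP (k * D) M' (t + 2) hkD (by omega)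
    (1 / (r + 1)) κ hε0 hε1 hκ0 hκ1
  refine ⟨C, max N₁ 3, hC, fun X hX φ0 hφ0 A hA => ?_⟩
  have hX₁ : N₁ ≤ X := (le_max_left _ _).trans hX
  have hX3 : 3 ≤ X := (le_max_right _ _).trans hX
  have hup : ∀ S : Finset ℤ[X], Sst k D M X S → Cp M' X φ0 (evS S) →
      ((Alm A X t r S).card : ℝ) ≤ C * VP (evS S) (PF X) * (VP φ0 (P0 X κ) * X) := by
    intro S hS hCp
    have h1 := H X hX₁ φ0 (evS S) hφ0 (HC M' hM' X (by omega) S hS).1 hCp A hA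
    refine le_trans ?_ h1
    exact_mod_cast Finset.card_le_card (Alm_sub hX3 hεr S)
  refine ⟨hup, fun 𝒮 h𝒮 => ?_⟩
  refine ⟨A.filter (fun n => ∀ S ∈ 𝒮, n ∉ Alm A X t r S), Finset.filter_subset _ _, ?_, ?_⟩
  · have h1 := Finset.card_filter_add_card_filter_not (s := A)
      (fun n => ∀ S ∈ 𝒮, n ∉ Alm A X t r S)
    have h2 : (A.filter (fun n => ¬ ∀ S ∈ 𝒮, n ∉ Alm A X t r S)).card ≤
        ∑ S ∈ 𝒮, (Alm A X t r S).card := by
      refine (Finset.card_le_card ?_).trans Finset.card_biUnion_le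
      intro n hn
      rw [mem_filter] at hn
      rw [mem_biUnion]
      by_contra hcon
      exact hn.2 (fun S hS hnS => hcon ⟨S, hS, hnS⟩)
    have h3 : (A.card : ℝ) = ((A.filter (fun n => ∀ S ∈ 𝒮, n ∉ Alm A X t r S)).card : ℝ) +
        ((A.filter (fun n => ¬ ∀ S ∈ 𝒮, n ∉ Alm A X t r S)).card : ℝ) := by
      exact_mod_cast h1.symm
    have h4 : ((A.filter (fun n => ¬ ∀ S ∈ 𝒮, n ∉ Alm A X t r S)).card : ℝ) ≤
        ∑ S ∈ 𝒮, ((Alm A X t r S).card : ℝ) := by exact_mod_cast h2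
    have h5 : ∑ S ∈ 𝒮, ((Alm A X t r S).card : ℝ) ≤
        ∑ S ∈ 𝒮, C * VP (evS S) (PF X) * (VP φ0 (P0 X κ) * X) :=
      Finset.sum_le_sum (fun S hS => hup S (h𝒮 S hS).1 (h𝒮 S hS).2)
    have h6 : ∑ S ∈ 𝒮, C * VP (evS S) (PF X) * (VP φ0 (P0 X κ) * X) =
        C * (∑ S ∈ 𝒮, VP (evS S) (PF X)) * (VP φ0 (P0 X κ) * X) := by
      rw [← Finset.sum_mul, ← Finset.mul_sum]
    linarith
  · intro S hS
    rw [Finset.eq_empty_iff_forall_notMem]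
    intro n hn
    unfold Alm at hn
    rw [mem_filter] at hn
    obtain ⟨hnA', hgood⟩ := hn
    rw [mem_filter] at hnA'
    exact hnA'.2 S hS (mem_filter.2 ⟨hnA'.1, hgood⟩)

end Pool.Agent.W23.PP
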