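import Pool.Agent.W23.PP.Wt5

/-!
PP project (helper23): the weighted sieve for linear forms `a + b n` at level `49/100`, arbitrary sets
of integers.  (Adapted from `Pool/Agent/W23/PP/Wt2.lean`.)
-/

namespace Pool.Agent.W23.PP

open Finset
open Pool.Agent.H442R2
open Pool.Agent.H442R2.KF
open Pool.Agent.W23.DC
open Pool.Agent.W23.SG
open Pool.Agent.W23.KT

/-- densities `1/p` -/
theorem merdb (hMP : St_MP) (ε₁ w η : ℝ) (hε : 0 < ε₁) (hw : w ≤ 1) (hη : 0 < η) :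
    ∃ N₀ : ℕ, ∀ N : ℕ, N₀ ≤ N → ∀ b : ℕ, 1 ≤ b → b ≤ N ^ 2 →
      Mer (prb N b ε₁ w) (tt N) (fun p => 1 / (p : ℝ)) ε₁ w η := by
  classical
  obtain ⟨N₀, H⟩ := merb hMP ε₁ w (η / 2) hε hw (by positivity)
  have hlim : Filter.Tendsto (fun N : ℕ => 4 * (N : ℝ) ^ (-ε₁)) Filter.atTop (nhds (4 * 0)) :=
    ((tendsto_rpow_neg_atTop hε).comp (tendsto_natCast_atTop_atTop (R := ℝ))).const_mul _
  rw [mul_zero] at hlim
  obtain ⟨N₁, hN₁⟩ := Filter.eventually_atTop.1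
    (hlim.eventually_le_const (show (0 : ℝ) < η / 2 by positivity))
  refine ⟨max (max N₀ N₁) 2, fun N hN b hb1 hb2 c d hc hcd hd => ?_⟩
  have hNN₀ : N₀ ≤ N := ((le_max_left _ _).trans (le_max_left _ _)).trans hN
  have hNN₁ : N₁ ≤ N := ((le_max_right _ _).trans (le_max_left _ _)).trans hN
  have hN2 : 2 ≤ N := (le_max_right _ _).trans hN
  have hN1 : (1 : ℝ) ≤ N := by exact_mod_cast (by omega : 1 ≤ N)
  have hN0 : (0 : ℝ) < N := by linarith
  have h1 := H N hNN₀ b hb1 hb2 c d hc hcd hd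
  set S := (prb N b ε₁ w).filter (fun p => c ≤ tt N p ∧ tt N p < d) with hS
  have hSp : ∀ p ∈ S, p.Prime ∧ (N : ℝ) ^ ε₁ ≤ p := by
    intro p hp
    rw [hS, mem_filter, mem_prb] at hp
    exact ⟨hp.1.1.2.1, (le_tt_iff hN2 hp.1.1.2.1.pos _).1 hp.1.1.2.2.1⟩
  have hy0 : 0 < (N : ℝ) ^ ε₁ := by positivity
  obtain ⟨m, hm⟩ : ∃ m : ℕ, m = ⌈(N : ℝ) ^ ε₁⌉₊ := ⟨_, rfl⟩
  have hm1 : 1 ≤ m := by rw [hm]; exact Nat.ceil_pos.2 hy0
  have hmy : (N : ℝ) ^ ε₁ ≤ m := by rw [hm]; exact Nat.le_ceil _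
  have h2 : ∑ p ∈ S, (1 / ((p : ℝ) - 1) - 1 / (p : ℝ)) ≤ 4 * (N : ℝ) ^ (-ε₁) := by
    calc ∑ p ∈ S, (1 / ((p : ℝ) - 1) - 1 / (p : ℝ)) ≤ ∑ p ∈ S, 2 * ((p : ℝ) ^ 2)⁻¹ := by
          apply Finset.sum_le_sum
          intro p hp
          have h3 : (2 : ℝ) ≤ p := by exact_mod_cast (hSp p hp).1.two_le
          have h4 : 1 / ((p : ℝ) - 1) - 1 / (p : ℝ) = 1 / (((p : ℝ) - 1) * p) := by
            have : (p : ℝ) - 1 ≠ 0 := by linarith
            field_simp
            ring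
          rw [h4, ← div_eq_mul_inv, div_le_div_iff₀ (by nlinarith) (by positivity)]
          nlinarith
      _ ≤ ∑ p ∈ Ioo (m - 1) (N + 1), 2 * ((p : ℝ) ^ 2)⁻¹ := by
          apply Finset.sum_le_sum_of_subset_of_nonneg
          · intro p hp
            rw [mem_Ioo]
            have h3 : m ≤ p := by
              rw [hm]
              exact Nat.ceil_le.2 (hSp p hp).2
            have h4 : p ≤ N := by
              rw [hS, mem_filter, mem_prb] at hp
              exact hp.1.1.1.2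
            omega
          · intro p _ _
            positivity
      _ = 2 * ∑ p ∈ Ioo (m - 1) (N + 1), ((p : ℝ) ^ 2)⁻¹ := by rw [Finset.mul_sum]
      _ ≤ 2 * (2 / (((m - 1 : ℕ) : ℝ) + 1)) :=
          mul_le_mul_of_nonneg_left (sum_Ioo_inv_sq_le (α := ℝ) _ _) (by norm_num)
      _ = 4 / (m : ℝ) := by
          have : ((m - 1 : ℕ) : ℝ) + 1 = m := by
            rw [Nat.cast_sub hm1]
            push_cast
            ring
          rw [this]
          ring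
      _ ≤ 4 / (N : ℝ) ^ ε₁ := div_le_div_of_nonneg_left (by norm_num) hy0 hmy
      _ = _ := by rw [Real.rpow_neg hN0.le, div_eq_mul_inv]
  have h3 : 0 ≤ ∑ p ∈ S, (1 / ((p : ℝ) - 1) - 1 / (p : ℝ)) := by
    apply Finset.sum_nonneg
    intro p hp
    have h3 : (2 : ℝ) ≤ p := by exact_mod_cast (hSp p hp).1.two_le
    rw [sub_nonneg]
    exact one_div_le_one_div_of_le (by linarith) (by linarith)
  rw [Finset.sum_sub_distrib] at h2 h3
  have h4 := hN₁ N hNN₁
  rw [abs_le] at h1 ⊢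
  constructor <;> linarith [h1.1, h1.2]


theorem rh_ph (h : ℤ) {d : ℕ} (hd : 1 ≤ d) : rh (ph h) d = 1 / (d : ℝ) := Li_ph h d hd

theorem rh_lf {L : ℤ × ℕ} {d : ℕ} (hd : 1 ≤ d)
    (hc : Nat.Coprime d L.2) : rh (lf L) d = 1 / (d : ℝ) := by
  classical
  have h1 : Int.gcd (L.2 : ℤ) (d : ℤ) = 1 := by
    rw [Int.gcd_natCast_natCast]
    exact hc.symm
  obtain ⟨v, hv⟩ := Int.mod_coprime h1
  have hvd : (d : ℤ) ∣ 1 - L.2 * v := hv.dvd
  have key : ∀ n : ℤ, (d : ℤ) ∣ lf L n ↔ (d : ℤ) ∣ ph (-L.1 * v) n := by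
    intro n
    unfold lf ph
    constructor
    · intro h
      have e1 : -L.1 * v - n = -(v * (L.1 + L.2 * n)) - (1 - L.2 * v) * n := by ring
      rw [e1]
      exact dvd_sub ((h.mul_left v).neg_right) (hvd.mul_right n)
    · intro h
      have e1 : L.1 + L.2 * n = L.1 * (1 - L.2 * v) - L.2 * (-L.1 * v - n) := by ring
      rw [e1]
      exact dvd_sub (hvd.mul_left L.1) (h.mul_left _)
  rw [← rh_ph (-L.1 * v) hd]
  unfold rh nr
  congr 3
  apply Finset.filter_congr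
  intro a _
  exact key a

/-- the recursion for the counting function of `A` -/
theorem LLLb (hRTP : St_RTP) (hLN : St_LN) {N : ℕ} (hN : 2 ≤ N) {ε₁ : ℝ} {A : Finset ℕ}
    (hA : ∀ p ∈ A, 1 ≤ p ∧ p ≤ N) (L : ℤ × ℕ) (K : ℕ) (b : Bool)
    (τ ζ : ℝ) (d : ℕ)
    (hd : ∀ p ∈ prb N L.2 ε₁ (1 / 8), tt N p < ζ → ¬ p ∣ d) :
    ∑ p ∈ A, LL (prb N L.2 ε₁ (1 / 8)) (tt N) (ind (lf L p).natAbs) K b τ ζ d =
      (A.card : ℝ) * (rh (lf L) d *
        MM (prb N L.2 ε₁ (1 / 8)) (tt N) (fun p => 1 / (p : ℝ)) K b τ ζ) +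
      LL (prb N L.2 ε₁ (1 / 8)) (tt N) (DP (lf L) (fA A) N) K b τ ζ d := by
  classical
  have hper : Per (lf L) := by
    intro m n
    unfold lf
    rw [show L.1 + L.2 * m - (L.1 + L.2 * n) = L.2 * (m - n) by ring]
    exact Dvd.intro_left _ rfl
  rw [← hLN.1 (prb N L.2 ε₁ (1 / 8)) (tt N) A (fun p => ind (lf L p).natAbs) K b τ ζ d]
  have h1 : (fun e => ∑ p ∈ A, ind (lf L p).natAbs e) =
      (fun e => (A.card : ℝ) * (fun e : ℕ => rh (lf L) e) e + DP (lf L) (fA A) N e) := by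
    funext e
    rw [← countP hA (lf L) e]
    apply Finset.sum_congr rfl
    intro p _
    unfold ind
    have : (e ∣ (lf L p).natAbs) ↔ ((e : ℤ) ∣ lf L p) := by
      rw [Int.natCast_dvd]
    simp only [this]
  have h2 : ∀ d, ∀ p ∈ prb N L.2 ε₁ (1 / 8), ¬ p ∣ d →
      (fun e : ℕ => rh (lf L) e) (d * p) = (fun e : ℕ => rh (lf L) e) d * (1 / (p : ℝ)) := by
    intro d p hp hpd
    have hpp := (mem_prb.1 hp).1.2.1
    have hd0 : d ≠ 0 := by
      rintro rfl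
      exact hpd (dvd_zero p)
    have hc : Nat.Coprime d p := ((hpp.coprime_iff_not_dvd).2 hpd).symm
    have h3 := hRTP.2.1 (lf L) hper d p (Nat.pos_of_ne_zero hd0) hpp.pos hc
    simp only
    rw [← rh_lf hpp.pos ((hpp.coprime_iff_not_dvd).2 (mem_prb.1 hp).2)]
    unfold rh
    rw [h3]
    push_cast
    rw [mul_div_mul_comm]
  rw [h1, hLN.2.1 (prb N L.2 ε₁ (1 / 8)) (tt N) (A.card : ℝ) (fun e : ℕ => rh (lf L) e)
    (DP (lf L) (fA A) N) K b τ ζ d,
    hLN.2.2 (prb N L.2 ε₁ (1 / 8)) (tt N) (sizb hN _ _ _) (fun p => 1 / (p : ℝ))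
      (fun e : ℕ => rh (lf L) e) h2 K b τ ζ d hd]

/-- the first error term -/
theorem err1l {N b : ℕ} (hN : 2 ≤ N) {ε₁ : ℝ} (hε : 0 < ε₁) (f : ℕ → ℝ) (φ : ℤ → ℤ) :
    ∑ e ∈ EE (prb N b ε₁ (1 / 8)) (tt N) (49 / 100) (1 / 8), |DP φ f N (1 * e)| ≤
      ∑ d ∈ TBP N ε₁, |DP φ f N d| := by
  classical
  have h1 : ∑ e ∈ EE (prb N b ε₁ (1 / 8)) (tt N) (49 / 100) (1 / 8), |DP φ f N (1 * e)| =
      ∑ e ∈ (EE (prb N b ε₁ (1 / 8)) (tt N) (49 / 100) (1 / 8)).filter (fun e => 1 < e),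
        |DP φ f N e| := by
    rw [Finset.sum_filter]
    apply Finset.sum_congr rfl
    intro e he
    rw [one_mul]
    split_ifs with h
    · rfl
    · have h0 := (mem_EEb he).1
      have : e = 1 := by omega
      rw [this, DP_one, abs_zero]
  rw [h1]
  apply Finset.sum_le_sum_of_subset_of_nonneg
  · intro e he
    rw [mem_filter] at he
    obtain ⟨h2, h3, h4, h5⟩ := mem_EEb he.1
    exact TBP_of hN h3 he.2 (fun p hp => (h4 p hp).1)
      (sz_of_wfac (by norm_num) h2 h5 (fun p hp => lt_of_lt_of_le hε (h4 p hp).1))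
  · intro _ _ _
    exact abs_nonneg _

/-- the second error term -/
theorem err2l {N b : ℕ} (hN : 2 ≤ N) {ε₁ : ℝ} (hε : 0 < ε₁) (hε2 : ε₁ ≤ 1 / 25)
    (f : ℕ → ℝ) (φ : ℤ → ℤ) :
    ∑ q ∈ prb N b (1 / 8) (9 / 20),
      ∑ e ∈ EE (prb N b ε₁ (1 / 8)) (tt N) (ta4 N q) (za4 N q), |DP φ f N (q * e)| ≤
      ∑ d ∈ TBP N ε₁, |DP φ f N d| := by
  classical
  rw [Finset.sum_sigma' (f := fun q e => |DP φ f N (q * e)|)]
  have hinj : Set.InjOn (fun x : (_ : ℕ) × ℕ => x.1 * x.2)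
      ((prb N b (1 / 8) (9 / 20)).sigma
        (fun q => EE (prb N b ε₁ (1 / 8)) (tt N) (ta4 N q) (za4 N q)) :
          Finset ((_ : ℕ) × ℕ)) := by
    rintro ⟨q, e⟩ hqe ⟨q', e'⟩ hqe' heq
    rw [mem_coe, mem_sigma] at hqe hqe'
    simp only at hqe hqe' heq
    have hq := (mem_prb.1 hqe.1).1
    have hq' := (mem_prb.1 hqe'.1).1
    obtain ⟨h1, h2, h3, h4⟩ := mem_EEb hqe.2
    obtain ⟨h1', h2', h3', h4'⟩ := mem_EEb hqe'.2
    have hqq : q = q' := by
      have hd : q ∣ q' * e' := heq ▸ Dvd.intro e rfl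
      rcases (hq.2.1.dvd_mul).1 hd with h | h
      · exact (Nat.prime_dvd_prime_iff_eq hq.2.1 hq'.2.1).1 h
      · exfalso
        have := (h3' q (Nat.mem_primeFactors.2 ⟨hq.2.1, h, h1'⟩)).2.1
        linarith [hq.2.2.1]
    subst hqq
    have : e = e' := Nat.eq_of_mul_eq_mul_left hq.2.1.pos heq
    rw [this]
  calc ∑ x ∈ (prb N b (1 / 8) (9 / 20)).sigma
        (fun q => EE (prb N b ε₁ (1 / 8)) (tt N) (ta4 N q) (za4 N q)), |DP φ f N (x.1 * x.2)|
      = ∑ d ∈ ((prb N b (1 / 8) (9 / 20)).sigma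
        (fun q => EE (prb N b ε₁ (1 / 8)) (tt N) (ta4 N q) (za4 N q))).image
          (fun x => x.1 * x.2), |DP φ f N d| := by
        rw [Finset.sum_image hinj]
    _ ≤ _ := by
        apply Finset.sum_le_sum_of_subset_of_nonneg
        · intro d hd
          rw [mem_image] at hd
          obtain ⟨⟨q, e⟩, hqe, rfl⟩ := hd
          rw [mem_sigma] at hqe
          simp only at hqe ⊢
          obtain ⟨hq, hqb⟩ := mem_prb.1 hqe.1
          obtain ⟨h1, h2, h3, h4⟩ := mem_EEb hqe.2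
          have hqe' : ¬ q ∣ e := by
            intro h
            have := (h3 q (Nat.mem_primeFactors.2 ⟨hq.2.1, h, h1⟩)).2.1
            linarith [hq.2.2.1]
          have hcop : Nat.Coprime q e := (hq.2.1.coprime_iff_not_dvd).2 hqe'
          apply TBP_of hN
          · exact (Nat.squarefree_mul hcop).2 ⟨hq.2.1.squarefree, h2⟩
          · have h5 := hq.2.1.one_lt
            have h6 : 1 ≤ e := Nat.pos_of_ne_zero h1
            nlinarith
          · intro p hp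
            rw [Nat.primeFactors_mul hq.2.1.ne_zero h1, mem_union, hq.2.1.primeFactors,
              mem_singleton] at hp
            rcases hp with rfl | hp
            · linarith [hq.2.2.1]
            · exact (h3 p hp).1
          · rw [SG.sz_mul hq.2.1 hqe' h1]
            have h7 : sz (tt N) e ≤ ta4 N q := sz_of_wfac (by
              unfold ta4
              linarith [hq.2.2.2]) h1 h4 (fun p hp => lt_of_lt_of_le hε (h3 p hp).1)
            unfold ta4 at h7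
            linarith
        · intro _ _ _
          exact abs_nonneg _

theorem lowerWL (hPT : St_PT) (hLN : St_LN) (hER : St_ER) (hMI : St_MI) (hMT : St_MT)
    (hMP : St_MP) (hRTP : St_RTP) (hNU : St_NU4) (A0 : ℝ) (F f : ℝ → ℝ) (hS : SF A0 F f) :
    ∃ c₀ : ℝ, 0 < c₀ ∧ ∀ ε₁ : ℝ, 0 < ε₁ → ε₁ ≤ 1 / 25 → ∃ N₀ : ℕ, ∀ N : ℕ, N₀ ≤ N →
      ∀ A : Finset ℕ, (∀ p ∈ A, 1 ≤ p ∧ p ≤ N) → ∀ L : ℤ × ℕ, 1 ≤ L.2 → L.2 ≤ N ^ 2 →
      c₀ * ε₁ * A.card - 3 * ∑ d ∈ TBP N ε₁, |DP (lf L) (fA A) N d| ≤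
        ∑ p ∈ A, Wb N L.2 ε₁ (lf L p).natAbs := by
  classical
  set J : ℝ := 29 / 30 * (∫ x in (1 / 8 : ℝ)..(9 / 20),
      (1 - x / (9 / 20)) / (x * (49 / 100 - x))) with hJ
  set Z : ℝ := Real.log (73 / 25) / (49 / 100) with hZ
  have hJZ : J < Z := hNU
  set c₂ : ℝ := Z - J with hc₂
  have hc₂0 : 0 < c₂ := by rw [hc₂]; linarith
  have hA0 := hS.pos
  refine ⟨A0 * c₂ / 2, by positivity, ?_⟩
  intro ε₁ hε hε2
  obtain ⟨η, hη0, HM⟩ := hMT A0 F f hS ε₁ (ε₁ * A0 * c₂ / 32) ⌈1 / ε₁⌉₊ hε (by linarith)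
    (by positivity)
  obtain ⟨N₁, hN₁⟩ := merdb hMP ε₁ (1 / 8) η hε (by norm_num) hη0
  obtain ⟨N₂, hN₂⟩ := QS4 hMI hMP (c₂ / 4) (by positivity)
  obtain ⟨N₃, hN₃⟩ := hMP (1 / 8) 1 (by norm_num) one_pos
  refine ⟨max (max N₁ N₂) (max N₃ 2), ?_⟩
  intro N hN A hA L hb1 hb2
  have hNN₁ : N₁ ≤ N := ((le_max_left _ _).trans (le_max_left _ _)).trans hN
  have hNN₂ : N₂ ≤ N := ((le_max_right _ _).trans (le_max_left _ _)).trans hN
  have hNN₃ : N₃ ≤ N := ((le_max_left _ _).trans (le_max_right _ _)).trans hN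
  have hN2 : 2 ≤ N := ((le_max_right _ _).trans (le_max_right _ _)).trans hN
  set P := prb N L.2 ε₁ (1 / 8) with hP
  set Q := prb N L.2 (1 / 8) (9 / 20) with hQ
  set g : ℕ → ℝ := fun p => 1 / (p : ℝ) with hg
  set K := ⌈1 / ε₁⌉₊ with hK
  set r := DP (lf L) (fA A) N with hr
  set R := ∑ d ∈ TBP N ε₁, |r d| with hR
  have hR0 : 0 ≤ R := Finset.sum_nonneg fun _ _ => abs_nonneg _
  have hQpr : ∀ q ∈ Q, q ∈ pr N (1 / 8) (9 / 20) := fun q hq => prb_sub hq
  have hKε : 1 ≤ (K + 2) * ε₁ := by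
    have h1 : 1 / ε₁ ≤ K := Nat.le_ceil _
    have h2 : 1 / ε₁ * ε₁ = 1 := by field_simp
    nlinarith
  have HM' := HM P (tt N) g (1 / 8) (by norm_num) (fun p hp => by
      simp only [hg]
      positivity)
    (fun p hp => (mem_prb.1 hp).1.2.2.1) (hN₁ N hNN₁ L.2 hb1 hb2) K le_rfl
  -- the main terms
  have hminus : ε₁ * A0 * Z - ε₁ * A0 * c₂ / 32 ≤ MM P (tt N) g K false (49 / 100) (1 / 8) := by
    have h1 := (HM' (49 / 100) (1 / 8) (by linarith) (by linarith) le_rfl (by norm_num)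
      (by norm_num)).2 (by norm_num)
    have h2 : ε₁ / (1 / 8) * f (49 / 100 / (1 / 8)) = ε₁ * A0 * Z := by
      rw [hS.f4 _ (by norm_num) (by norm_num), hZ]
      have : (49 / 100 / (1 / 8) - 1 : ℝ) = 73 / 25 := by norm_num
      rw [this]
      ring
    rw [h2] at h1
    exact h1
  have hplus : ∀ q ∈ Q, MM P (tt N) g K true (ta4 N q) (za4 N q) ≤
      ε₁ * A0 / ta4 N q + ε₁ * A0 * c₂ / 32 := by
    intro q hq
    have h0 := ta4_pos (hQpr q hq)
    have h1 := ta4_le (hQpr q hq)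
    have h2 : za4 N q ≤ ta4 N q := min_le_right _ _
    have h3 : ε₁ ≤ za4 N q := le_min (by linarith) (by linarith)
    have h4 : ta4 N q ≤ 1 := by
      have := (mem_prb.1 hq).1.2.2.1
      unfold ta4
      linarith
    have h5 := (HM' (ta4 N q) (za4 N q) (by linarith) h3 (min_le_left _ _) h2 h4).1
    have h6 : 0 < za4 N q := by linarith
    have h7 : ε₁ / za4 N q * F (ta4 N q / za4 N q) = ε₁ * A0 / ta4 N q := by
      rw [hS.F3 _ ((one_le_div h6).2 h2) ((div_le_iff₀ h6).2 h1)]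
      field_simp
    rw [h7] at h5
    exact h5
  -- the recursion, summed over `A`
  have e1 := LLLb hRTP hLN hN2 (ε₁ := ε₁) hA L K false (49 / 100) (1 / 8) 1
    (fun p hp _ h => (mem_prb.1 hp).1.2.1.one_lt.ne' (Nat.dvd_one.1 h))
  have e2 : ∀ q ∈ Q, ∑ p ∈ A, LL P (tt N) (ind (lf L p).natAbs) K true (ta4 N q) (za4 N q) q =
      (A.card : ℝ) * (1 / (q : ℝ) * MM P (tt N) g K true (ta4 N q) (za4 N q)) +
        LL P (tt N) r K true (ta4 N q) (za4 N q) q := by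
    intro q hq
    have hq0 := (mem_prb.1 hq).1
    have h1 := LLLb hRTP hLN hN2 (ε₁ := ε₁) hA L K true (ta4 N q) (za4 N q) q (fun p hp _ h => by
      have h4 := (Nat.prime_dvd_prime_iff_eq (mem_prb.1 hp).1.2.1 (mem_prb.1 hq).1.2.1).1 h
      have h5 := (mem_prb.1 hp).1.2.2.2
      have h6 := (mem_prb.1 hq).1.2.2.1
      rw [h4] at h5
      linarith)
    rw [rh_lf hq0.2.1.pos (((hq0.2.1.coprime_iff_not_dvd).2 (mem_prb.1 hq).2))] at h1
    exact h1
  have hsum : ∑ p ∈ A, (LL P (tt N) (ind (lf L p).natAbs) K false (49 / 100) (1 / 8) 1 -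
      ∑ q ∈ Q, c3 N q * LL P (tt N) (ind (lf L p).natAbs) K true (ta4 N q) (za4 N q) q) ≤
      ∑ p ∈ A, Wb N L.2 ε₁ (lf L p).natAbs :=
    Finset.sum_le_sum fun p _ => Wb_ge4 hPT hN2 L.2 K _
  rw [Finset.sum_sub_distrib, Finset.sum_comm] at hsum
  have e3 : ∑ q ∈ Q, ∑ p ∈ A, c3 N q *
      LL P (tt N) (ind (lf L p).natAbs) K true (ta4 N q) (za4 N q) q =
      ∑ q ∈ Q, c3 N q * ((A.card : ℝ) * (1 / (q : ℝ) *
        MM P (tt N) g K true (ta4 N q) (za4 N q)) + LL P (tt N) r K true (ta4 N q) (za4 N q) q) := by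
    apply Finset.sum_congr rfl
    intro q hq
    rw [← Finset.mul_sum, e2 q hq]
  rw [rh_one] at e1
  rw [e3, e1] at hsum
  -- the errors
  have hE1 : |LL P (tt N) r K false (49 / 100) (1 / 8) 1| ≤ R :=
    (hER P (tt N) (sizb hN2 _ _ _) r K false (49 / 100) (1 / 8) 1 (by norm_num)
      (fun _ => by norm_num)).trans (err1l hN2 hε (fA A) (lf L))
  have hE2 : ∑ q ∈ Q, c3 N q * LL P (tt N) r K true (ta4 N q) (za4 N q) q ≤ 29 / 30 * R := by
    calc ∑ q ∈ Q, c3 N q * LL P (tt N) r K true (ta4 N q) (za4 N q) q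
        ≤ ∑ q ∈ Q, 29 / 30 * ∑ e ∈ EE P (tt N) (ta4 N q) (za4 N q), |r (q * e)| := by
          apply Finset.sum_le_sum
          intro q hq
          have h1 := hER P (tt N) (sizb hN2 _ _ _) r K true (ta4 N q) (za4 N q) q
            (by have := ta4_pos (hQpr q hq); linarith) (fun h => by simp at h)
          have h2 := c3_nonneg q (hQpr q hq)
          have h3 := c3_le hN2 q (hQpr q hq)
          calc c3 N q * LL P (tt N) r K true (ta4 N q) (za4 N q) q
              ≤ c3 N q * |LL P (tt N) r K true (ta4 N q) (za4 N q) q| :=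
                mul_le_mul_of_nonneg_left (le_abs_self _) h2
            _ ≤ 29 / 30 * ∑ e ∈ EE P (tt N) (ta4 N q) (za4 N q), |r (q * e)| :=
                mul_le_mul h3 h1 (abs_nonneg _) (by norm_num)
      _ = 29 / 30 * ∑ q ∈ Q, ∑ e ∈ EE P (tt N) (ta4 N q) (za4 N q), |r (q * e)| := by
          rw [Finset.mul_sum]
      _ ≤ 29 / 30 * R := mul_le_mul_of_nonneg_left (err2l hN2 hε hε2 (fA A) (lf L)) (by norm_num)
  -- the sum over `q`
  have hgg : ∀ q ∈ pr N (1 / 8) (9 / 20), g q ≤ 1 / ((q : ℝ) - 1) := by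
    intro q hq
    have h2 : (2 : ℝ) ≤ q := by exact_mod_cast (mem_pr.1 hq).2.1.two_le
    simp only [hg]
    exact one_div_le_one_div_of_le (by linarith) (by linarith)
  have hg0 : ∀ q : ℕ, 0 ≤ g q := by
    intro q
    simp only [hg]
    positivity
  have hq1 : ∑ q ∈ Q, g q * (c3 N q / ta4 N q) ≤ J + c₂ / 4 := by
    have h1 := hN₂ N hNN₂
    refine le_trans ?_ h1
    calc ∑ q ∈ Q, g q * (c3 N q / ta4 N q)
        ≤ ∑ q ∈ Q, 1 / ((q : ℝ) - 1) * (c3 N q / ta4 N q) := by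
          apply Finset.sum_le_sum
          intro q hq
          have h2 := c3_nonneg q (hQpr q hq)
          have h3 := ta4_pos (hQpr q hq)
          have h5 : 0 < ta4 N q := by linarith
          exact mul_le_mul_of_nonneg_right (hgg q (hQpr q hq)) (by positivity)
      _ ≤ ∑ q ∈ pr N (1 / 8) (9 / 20), 1 / ((q : ℝ) - 1) * (c3 N q / ta4 N q) := by
          apply Finset.sum_le_sum_of_subset_of_nonneg
          · intro q hq
            exact hQpr q hq
          · intro q hq _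
            have h2 := c3_nonneg q hq
            have h3 := ta4_pos hq
            have h4 : 0 ≤ 1 / ((q : ℝ) - 1) := g_nonneg q hq
            have h5 : 0 < ta4 N q := by linarith
            positivity
      _ = _ := by
          simp only [ta4]
  have hq2 : ∑ q ∈ Q, g q ≤ 3 := by
    have h1 := (abs_le.1 (hN₃ N hNN₃ (1 / 8) (9 / 20) le_rfl (by norm_num) (by norm_num))).2
    have h2 : Real.log (9 / 20 / (1 / 8)) ≤ 2 := by
      rw [Real.log_le_iff_le_exp (by norm_num)]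
      have h3 := Real.add_one_le_exp (1 : ℝ)
      have h4 : Real.exp 2 = Real.exp 1 * Real.exp 1 := by
        rw [← Real.exp_add]
        norm_num
      nlinarith
    have h3 : ∑ q ∈ Q, g q ≤ ∑ q ∈ pr N (1 / 8) (9 / 20), 1 / ((q : ℝ) - 1) :=
      (Finset.sum_le_sum fun q hq => hgg q (hQpr q hq)).trans
        (Finset.sum_le_sum_of_subset_of_nonneg (fun q hq => hQpr q hq)
          (fun q hq _ => g_nonneg q hq))
    linarith
  have hq3 : ∑ q ∈ Q, c3 N q * ((A.card : ℝ) * (1 / (q : ℝ) *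
        MM P (tt N) g K true (ta4 N q) (za4 N q))) ≤
      (A.card : ℝ) * (ε₁ * A0 * (J + c₂ / 4) + ε₁ * A0 * c₂ / 32 * (29 / 30 * 3)) := by
    calc ∑ q ∈ Q, c3 N q * ((A.card : ℝ) * (1 / (q : ℝ) *
          MM P (tt N) g K true (ta4 N q) (za4 N q)))
        ≤ ∑ q ∈ Q, (A.card : ℝ) * (ε₁ * A0 * (g q * (c3 N q / ta4 N q)) +
            ε₁ * A0 * c₂ / 32 * (29 / 30 * g q)) := by
          apply Finset.sum_le_sum
          intro q hq
          have h1 := hplus q hq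
          have h2 := c3_nonneg q (hQpr q hq)
          have h3 := c3_le hN2 q (hQpr q hq)
          have h4 : 0 ≤ g q := hg0 q
          have h5 := ta4_pos (hQpr q hq)
          have h6 : (0 : ℝ) ≤ A.card := Nat.cast_nonneg _
          have h7 : c3 N q * (g q * MM P (tt N) g K true (ta4 N q) (za4 N q)) ≤
              ε₁ * A0 * (g q * (c3 N q / ta4 N q)) + ε₁ * A0 * c₂ / 32 * (29 / 30 * g q) := by
            calc c3 N q * (g q * MM P (tt N) g K true (ta4 N q) (za4 N q))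
                ≤ c3 N q * (g q * (ε₁ * A0 / ta4 N q + ε₁ * A0 * c₂ / 32)) := by gcongr
              _ = ε₁ * A0 * (g q * (c3 N q / ta4 N q)) +
                  ε₁ * A0 * c₂ / 32 * (c3 N q * g q) := by ring
              _ ≤ _ := by gcongr
          calc c3 N q * ((A.card : ℝ) * (1 / (q : ℝ) *
                MM P (tt N) g K true (ta4 N q) (za4 N q)))
              = (A.card : ℝ) * (c3 N q * (g q * MM P (tt N) g K true (ta4 N q) (za4 N q))) := by
                simp only [hg]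
                ring
            _ ≤ _ := mul_le_mul_of_nonneg_left h7 h6
      _ = (A.card : ℝ) * (ε₁ * A0 * (∑ q ∈ Q, g q * (c3 N q / ta4 N q)) +
            ε₁ * A0 * c₂ / 32 * (29 / 30 * ∑ q ∈ Q, g q)) := by
          rw [← Finset.mul_sum, Finset.sum_add_distrib, ← Finset.mul_sum, ← Finset.mul_sum,
            ← Finset.mul_sum]
      _ ≤ _ := by
          have h1 : 0 ≤ ε₁ * A0 := by positivity
          have h2 : 0 ≤ ε₁ * A0 * c₂ / 32 := by positivity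
          gcongr
  have e4 : ∑ q ∈ Q, c3 N q * ((A.card : ℝ) * (1 / (q : ℝ) *
        MM P (tt N) g K true (ta4 N q) (za4 N q)) + LL P (tt N) r K true (ta4 N q) (za4 N q) q) =
      ∑ q ∈ Q, c3 N q * ((A.card : ℝ) * (1 / (q : ℝ) *
        MM P (tt N) g K true (ta4 N q) (za4 N q))) +
      ∑ q ∈ Q, c3 N q * LL P (tt N) r K true (ta4 N q) (za4 N q) q := by
    rw [← Finset.sum_add_distrib]
    apply Finset.sum_congr rfl
    intro q _
    ring
  rw [e4] at hsum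
  have hA6 : (0 : ℝ) ≤ A.card := Nat.cast_nonneg _
  have hmain : (A.card : ℝ) * (ε₁ * A0 * Z - ε₁ * A0 * c₂ / 32) ≤
      (A.card : ℝ) * (1 *
        MM P (tt N) g K false (49 / 100) (1 / 8)) := by
    apply mul_le_mul_of_nonneg_left _ hA6
    rw [one_mul]
    linarith
  have hE1' := (abs_le.1 hE1).1
  have hfin : A0 * c₂ / 2 * ε₁ * A.card ≤
      (A.card : ℝ) * (ε₁ * A0 * Z - ε₁ * A0 * c₂ / 32) -
      (A.card : ℝ) * (ε₁ * A0 * (J + c₂ / 4) + ε₁ * A0 * c₂ / 32 * (29 / 30 * 3)) := by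
    have h1 : (A.card : ℝ) * (ε₁ * A0 * Z - ε₁ * A0 * c₂ / 32) -
      (A.card : ℝ) * (ε₁ * A0 * (J + c₂ / 4) + ε₁ * A0 * c₂ / 32 * (29 / 30 * 3)) =
        (A.card : ℝ) * (ε₁ * A0 * c₂) * (1 - 1 / 32 - 1 / 4 - 29 / 320) := by
      rw [hc₂]
      ring
    rw [h1]
    have h2 : 0 ≤ (A.card : ℝ) * (ε₁ * A0 * c₂) := by positivity
    nlinarith
  linarith

end Pool.Agent.W23.PP
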