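import Pool.Agent.W23.PP.Lt1

/-!
PP project (helper23): linear forms `a + b n` on dense sets, products of few primes with an explicit
bound.  (Adapted from `Pool/Agent/W23/PP/Wt3.lean`.)
-/

namespace Pool.Agent.W23.PP

open Finset Filter
open Pool.Agent.H442R2
open Pool.Agent.H442R2.KF
open Pool.Agent.W23.DC
open Pool.Agent.W23.SG
open Pool.Agent.W23.PL
open Pool.Agent.W23.KT
open Pool.Agent.W23.KS

theorem Nv_lf {L : ℤ × ℕ} (hb : 1 ≤ L.2) : Nv 1 (lf L) := by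
  intro v
  have hb0 : (L.2 : ℤ) ≠ 0 := by exact_mod_cast (by omega : L.2 ≠ 0)
  refine ⟨{(v - L.1) / L.2}, by simp, fun n hn => ?_⟩
  unfold lf at hn
  rw [mem_singleton, ← hn, add_sub_cancel_left, Int.mul_ediv_cancel_left _ hb0]

theorem Sy_lf {N : ℕ} (hN : 2 ≤ N) {L : ℤ × ℕ} (hg : Int.gcd L.1 L.2 = 1)
    (ha : |(L.1 : ℝ)| ≤ (N : ℝ) ^ 2) (hb2 : (L.2 : ℝ) ≤ (N : ℝ) ^ 2) :
    Sy 1 5 N (lf L) := by
  classical
  have h1 := POLA_thm 1 2 N le_rfl hN (Polynomial.C L.1 + Polynomial.C (L.2 : ℤ) * Polynomial.X)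
    (by
      intro r hr
      rw [Polynomial.C_dvd_iff_dvd_coeff] at hr
      have h0 := hr 0
      have h1 := hr 1
      simp only [Polynomial.coeff_add, Polynomial.coeff_C_mul, Polynomial.coeff_X_zero, mul_zero,
        add_zero, Polynomial.coeff_C_zero, Polynomial.coeff_X_one, mul_one] at h0 h1
      rw [Polynomial.coeff_C, if_neg one_ne_zero, zero_add] at h1
      have h2 := Int.dvd_coe_gcd h0 h1
      rw [hg] at h2
      exact isUnit_of_dvd_one (by exact_mod_cast h2))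
    (by
      refine (Polynomial.natDegree_add_le _ _).trans (max_le ?_ ?_)
      · simp
      · exact (Polynomial.natDegree_C_mul_le _ _).trans Polynomial.natDegree_X_le)
    (by
      intro i
      have hN1 : (1 : ℝ) ≤ N := by exact_mod_cast (by omega : 1 ≤ N)
      have hN2 : (0 : ℝ) ≤ (N : ℝ) ^ 2 := by positivity
      rcases Nat.eq_zero_or_pos i with rfl | hi
      · simpa using ha
      · rcases Nat.eq_or_lt_of_le hi with h | h
        · rw [← h]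
          simp only [Polynomial.coeff_add, Polynomial.coeff_C_mul, Polynomial.coeff_X_one, mul_one,
            Polynomial.coeff_C]
          simpa using hb2
        · have h3 : (Polynomial.C L.1 + Polynomial.C (L.2 : ℤ) * Polynomial.X).coeff i = 0 := by
            rw [Polynomial.coeff_add, Polynomial.coeff_C_mul, Polynomial.coeff_X, Polynomial.coeff_C,
              if_neg (by omega), if_neg (by omega)]
            simp
          rw [h3]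
          simpa using hN2)
  have h2 : (fun n : ℤ => (Polynomial.C L.1 + Polynomial.C (L.2 : ℤ) * Polynomial.X).eval n) =
      lf L := by
    funext n
    unfold lf
    simp
  rw [h2] at h1
  exact h1.mono (by omega) (by norm_num) le_rfl

theorem pair_ne {L L' : ℤ × ℕ} (hg : Int.gcd L.1 L.2 = 1) (hg' : Int.gcd L'.1 L'.2 = 1)
    (hb : 1 ≤ L.2) (hb' : 1 ≤ L'.2) (hne : L ≠ L') : L.1 * L'.2 - L'.1 * L.2 ≠ 0 := by
  intro h0
  apply hne
  have h1 : L.1 * (L'.2 : ℤ) = L'.1 * (L.2 : ℤ) := by linarith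
  have h2 : (L.2 : ℤ) ∣ (L'.2 : ℤ) := by
    have h3 : (L.2 : ℤ) ∣ L.1 * (L'.2 : ℤ) := h1 ▸ Dvd.intro_left _ rfl
    exact Int.dvd_of_dvd_mul_right_of_gcd_one h3 (by rw [Int.gcd_comm]; exact hg)
  have h2' : (L'.2 : ℤ) ∣ (L.2 : ℤ) := by
    have h3 : (L'.2 : ℤ) ∣ L'.1 * (L.2 : ℤ) := h1.symm ▸ Dvd.intro_left _ rfl
    exact Int.dvd_of_dvd_mul_right_of_gcd_one h3 (by rw [Int.gcd_comm]; exact hg')
  have h4 : L.2 = L'.2 := Nat.dvd_antisymm (Int.natCast_dvd_natCast.1 h2)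
    (Int.natCast_dvd_natCast.1 h2')
  have h5 : L.1 = L'.1 := by
    rw [h4] at h1
    have : (L'.2 : ℤ) ≠ 0 := by exact_mod_cast (by omega : L'.2 ≠ 0)
    exact mul_right_cancel₀ this h1
  exact Prod.ext h5 h4

theorem Cp_lf {N : ℕ} (hN : 2 ≤ N) {L L' : ℤ × ℕ} (hg : Int.gcd L.1 L.2 = 1)
    (hg' : Int.gcd L'.1 L'.2 = 1) (hb : 1 ≤ L.2) (hb' : 1 ≤ L'.2) (hne : L ≠ L')
    (ha : |(L.1 : ℝ)| ≤ (N : ℝ) ^ 2) (ha' : |(L'.1 : ℝ)| ≤ (N : ℝ) ^ 2)
    (hb2 : (L.2 : ℝ) ≤ (N : ℝ) ^ 2) (hb2' : (L'.2 : ℝ) ≤ (N : ℝ) ^ 2) :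
    Cp 5 N (lf L) (lf L') := by
  have hN2 : (2 : ℝ) ≤ N := by exact_mod_cast hN
  refine ⟨L.1 * L'.2 - L'.1 * L.2, pair_ne hg hg' hb hb' hne, ?_, fun n l _ h1 h2 => ?_⟩
  · push_cast
    have h1 : |(L.1 : ℝ) * L'.2 - L'.1 * L.2| ≤ |(L.1 : ℝ) * L'.2| + |(L'.1 : ℝ) * L.2| :=
      abs_sub _ _
    rw [abs_mul, abs_mul, abs_of_nonneg (Nat.cast_nonneg L'.2 : (0 : ℝ) ≤ L'.2),
      abs_of_nonneg (Nat.cast_nonneg L.2 : (0 : ℝ) ≤ L.2)] at h1
    have h3 : |(L.1 : ℝ)| * L'.2 ≤ (N : ℝ) ^ 2 * (N : ℝ) ^ 2 := by gcongr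
    have h4 : |(L'.1 : ℝ)| * L.2 ≤ (N : ℝ) ^ 2 * (N : ℝ) ^ 2 := by gcongr
    have h5 : (N : ℝ) ^ 5 = (N : ℝ) ^ 2 * (N : ℝ) ^ 2 * N := by ring
    rw [h5]
    have h6 : 0 ≤ (N : ℝ) ^ 2 * (N : ℝ) ^ 2 := by positivity
    nlinarith
  · have h3 : L.1 * L'.2 - L'.1 * L.2 = L'.2 * lf L n - L.2 * lf L' n := by
      unfold lf
      ring
    rw [h3]
    exact dvd_sub (h1.mul_left _) (h2.mul_left _)

open Classical in
/-- the elements `n` of `A` such that `a + b n` is a product of at most `r` large primes, up to a small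
factor -/
noncomputable def GLf (A : Finset ℕ) (X t r : ℕ) (L : ℤ × ℕ) : Finset ℕ :=
  A.filter (fun n : ℕ => ∃ m s : ℕ, (lf L n).natAbs = m * s ∧ 1 ≤ m ∧ (m : ℝ) ≤ Real.log X ^ t ∧
    1 < s ∧ s.primeFactorsList.length ≤ r ∧ ∀ q ∈ s.primeFactors, (X : ℝ) ^ (1 / 8 : ℝ) ≤ q)

open Classical in
/-- the elements with a large square factor -/
noncomputable def SqL (A : Finset ℕ) (N : ℕ) (L : ℤ × ℕ) : Finset ℕ :=
  A.filter (fun p : ℕ => lf L p ≠ 0 ∧ ∃ q : ℕ, q.Prime ∧ (N : ℝ) ^ (1 / 8 : ℝ) ≤ q ∧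
      (q : ℝ) ≤ (N : ℝ) ^ (7 / 8 : ℝ) ∧ q ^ 2 ∣ (lf L p).natAbs)

open Classical in
theorem inclL (g : ℝ) (r : ℕ) (hg1 : 1 ≤ g) (hg2 : g ≤ 2) (hgr : g < 9 / 20 * ((r : ℝ) - 1 / 29)) :
    ∃ N₀ : ℕ, ∀ N : ℕ, N₀ ≤ N → ∀ (B u : ℕ) (ε₁ κ : ℝ), ε₁ ≤ 1 →
    ∀ (φ0 : ℤ → ℤ) (L : ℤ × ℕ), Int.gcd L.1 L.2 = 1 →
    |(L.1 : ℝ)| ≤ (N : ℝ) ^ g → (L.2 : ℝ) ≤ (N : ℝ) ^ (g - 1) → ∀ A : Finset ℕ,
    (∀ n ∈ A, (1 ≤ n ∧ n ≤ N) ∧ xx (P0 N κ) (φ0 n) = 1) →
    ∑ n ∈ AP A (P1 N B ε₁) (lf L), Wb N L.2 ε₁ (lf L n).natAbs ≤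
      ((GLf A N (B * (1 * u)) r L).card : ℝ) + (SmP N B 1 u ε₁ κ φ0 (lf L)).card +
        ((A.filter (fun n : ℕ => ((lf L n).natAbs : ℝ) ≤ Real.log N ^ (B * (1 * u)))).card +
          (SqL A N L).card) := by
  obtain ⟨N₁, HS⟩ := structg g r hg2 hgr
  refine ⟨max N₁ 3, fun N hN B u ε₁ κ hε1 φ0 L hg hh hh2 A hA => ?_⟩
  have hNN₁ : N₁ ≤ N := (le_max_left _ _).trans hN
  have hN3 : 3 ≤ N := (le_max_right _ _).trans hN
  have hN2 : 2 ≤ N := by omega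
  have hN1 : (1 : ℝ) < N := by exact_mod_cast (by omega : 1 < N)
  have hN0 : (0 : ℝ) < N := by linarith
  have hL : 0 < Real.log N := Real.log_pos hN1
  have h1 := sum_le_posb (N := N) (b := L.2) (ε₁ := ε₁) (AP A (P1 N B ε₁) (lf L))
    (fun n : ℕ => (lf L n).natAbs)
  refine h1.trans ?_
  have h2 : (AP A (P1 N B ε₁) (lf L)).filter (fun n : ℕ => 0 < Wb N L.2 ε₁ (lf L n).natAbs) ⊆
      (GLf A N (B * (1 * u)) r L ∪ SmP N B 1 u ε₁ κ φ0 (lf L)) ∪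
        (A.filter (fun n : ℕ => ((lf L n).natAbs : ℝ) ≤ Real.log N ^ (B * (1 * u))) ∪
          SqL A N L) := by
    intro n hn
    rw [mem_filter] at hn
    obtain ⟨hnA', hnx⟩ := hn
    obtain ⟨hnA, hnx1⟩ := mem_filter.1 hnA'
    by_contra hno
    simp only [mem_union, not_or] at hno
    obtain ⟨⟨g1, g3⟩, g4, g5⟩ := hno
    apply g1
    unfold GLf
    rw [mem_filter]
    refine ⟨hnA, ?_⟩
    have hbig : Real.log N ^ (B * (1 * u)) < ((lf L n).natAbs : ℝ) := by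
      by_contra hcon
      exact g4 (mem_filter.2 ⟨hnA, not_lt.1 hcon⟩)
    have hpow0 : (0 : ℝ) ≤ Real.log N ^ (B * (1 * u)) := by positivity
    have hn0 : (lf L n).natAbs ≠ 0 := by
      intro h0
      rw [h0, Nat.cast_zero] at hbig
      linarith
    have hne : lf L n ≠ 0 := by
      intro h0
      exact hn0 (Int.natAbs_eq_zero.2 h0)
    have hpp := (hA n hnA).1
    have hle : ((lf L n).natAbs : ℝ) ≤ 2 * (N : ℝ) ^ g := by
      have e1 : ((lf L n).natAbs : ℝ) = |(L.1 : ℝ) + L.2 * n| := by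
        rw [Nat.cast_natAbs]
        unfold lf
        push_cast
        rfl
      have e2 : |(L.1 : ℝ) + L.2 * n| ≤ |(L.1 : ℝ)| + |(L.2 : ℝ) * n| := abs_add_le _ _
      have e3 : |(L.2 : ℝ) * n| ≤ (N : ℝ) ^ (g - 1) * N := by
        rw [abs_of_nonneg (by positivity)]
        have : (n : ℝ) ≤ N := by exact_mod_cast hpp.2
        gcongr
      have e4 : (N : ℝ) ^ (g - 1) * N = (N : ℝ) ^ g := by
        rw [Real.rpow_sub_one hN0.ne']
        field_simp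
      rw [e1]
      linarith
    have hsq : ∀ q : ℕ, q.Prime → (N : ℝ) ^ (1 / 8 : ℝ) ≤ q → (q : ℝ) ≤ (N : ℝ) ^ (7 / 8 : ℝ) →
        ¬ q ^ 2 ∣ (lf L n).natAbs := by
      intro q hq hq1 hq2 hq3
      apply g5
      unfold SqL
      rw [mem_filter]
      refine ⟨hnA, ?_, q, hq, hq1, hq2, ?_⟩
      · intro h0
        apply hn0
        rw [h0]
        rfl
      · exact hq3
    obtain ⟨m, s, h3, h4, h5, h6⟩ := HS N hNN₁ L.2 ε₁ (lf L n).natAbs hn0 hle hnx hsq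
      (fun q hq h1 h2 => by
        have h3 : (q : ℤ) ∣ lf L n := Int.natCast_dvd.2 h1
        have h4 : (q : ℤ) ∣ (L.2 : ℤ) := Int.natCast_dvd_natCast.2 h2
        have h5 : (q : ℤ) ∣ L.1 := by
          have h6 : L.1 = lf L n - L.2 * n := by
            unfold lf
            ring
          rw [h6]
          exact dvd_sub h3 (h4.mul_right _)
        have h7 := Int.dvd_coe_gcd h5 h4
        rw [hg] at h7
        exact hq.one_lt.ne' (Nat.dvd_one.1 (by exact_mod_cast h7)))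
    have hm0 : m ≠ 0 := by
      rintro rfl
      exact hn0 (by rw [h3, zero_mul])
    have h4' : ∀ l : ℕ, l.Prime → l ∣ m → (l : ℝ) < Real.log N ^ B := by
      intro l hl hlm
      by_contra hcon
      rw [not_lt] at hcon
      have hl1 := h4 l hl hlm
      have hldi : (l : ℤ) ∣ lf L n := Int.natCast_dvd.2 (h3 ▸ hlm.mul_right s)
      have hlN : l ≤ N := by
        have h3 : (N : ℝ) ^ ε₁ ≤ N := by
          calc (N : ℝ) ^ ε₁ ≤ (N : ℝ) ^ (1 : ℝ) :=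
                Real.rpow_le_rpow_of_exponent_le hN1.le hε1
            _ = N := Real.rpow_one _
        exact_mod_cast (hl1.le.trans h3)
      exact xx_ndvd hnx1 l (mem_P1.2 ⟨⟨hl.pos, hlN⟩, hl, hcon, (tt_lt_iff hN2 hl.pos _).2 hl1⟩) hldi
    have hm : (m : ℝ) ≤ Real.log N ^ (B * (1 * u)) := by
      by_contra hm
      rw [not_le] at hm
      apply g3
      unfold SmP
      rw [mem_filter]
      exact ⟨mem_Icc.2 hpp, (hA n hnA).2, hne, hnx1, m, Dvd.intro _ h3.symm, h4', hm⟩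
    refine ⟨m, s, h3, Nat.pos_of_ne_zero hm0, hm, ?_, h5, h6⟩
    by_contra hs1
    have hs0 : s ≠ 0 := by
      rintro rfl
      exact hn0 (by rw [h3, mul_zero])
    have hs2 : s = 1 := by omega
    rw [h3, hs2, mul_one] at hbig
    linarith
  have h3 := (Finset.card_le_card h2).trans (Finset.card_union_le _ _)
  have h4 := Finset.card_union_le (GLf A N (B * (1 * u)) r L) (SmP N B 1 u ε₁ κ φ0 (lf L))
  have h5 := Finset.card_union_le
    (A.filter (fun n : ℕ => ((lf L n).natAbs : ℝ) ≤ Real.log N ^ (B * (1 * u)))) (SqL A N L)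
  have h6 : ((AP A (P1 N B ε₁) (lf L)).filter
      (fun n : ℕ => 0 < Wb N L.2 ε₁ (lf L n).natAbs)).card ≤
      (GLf A N (B * (1 * u)) r L).card + (SmP N B 1 u ε₁ κ φ0 (lf L)).card +
      ((A.filter (fun n : ℕ => ((lf L n).natAbs : ℝ) ≤ Real.log N ^ (B * (1 * u)))).card +
        (SqL A N L).card) := by omega
  exact_mod_cast h6

open Classical in
theorem squareL {σ : ℝ} (hσ : 0 < σ) : ∃ N₀ : ℕ, ∀ N : ℕ, N₀ ≤ N →
    ∀ L : ℤ × ℕ, Int.gcd L.1 L.2 = 1 → ∀ A : Finset ℕ, (∀ p ∈ A, p ≤ N) → ∀ W V : ℝ, 1 / Real.log N ^ (1 + 1) ≤ W →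
    1 / Real.log N ^ (1 + 1) ≤ V → ((SqL A N L).card : ℝ) ≤ σ * (V * (W * N)) := by
  obtain ⟨N₇, hN₇⟩ := logpow_small 4 (show (0 : ℝ) < 1 / 8 by norm_num)
    (show (0 : ℝ) < σ / 5 by positivity)
  refine ⟨max N₇ 3, fun N hN L hg A hA W V hW hV => ?_⟩
  have hN3 : 3 ≤ N := (le_max_right _ _).trans hN
  have hN1 : (1 : ℝ) < N := by exact_mod_cast (by omega : 1 < N)
  have hN0 : (0 : ℝ) < N := by linarith
  have hL : 0 < Real.log N := Real.log_pos hN1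
  have h1 : ((SqL A N L).card : ℝ) ≤ 5 * (N : ℝ) ^ (7 / 8 : ℝ) := by
    unfold SqL
    exact squaresg (by omega) A hA L hg
  refine h1.trans ?_
  have h2 := hN₇ N ((le_max_left _ _).trans hN)
  have hq : (0 : ℝ) ≤ 1 / Real.log N ^ (1 + 1) := by positivity
  have h3 : 1 / Real.log N ^ (1 + 1) * (1 / Real.log N ^ (1 + 1) * N) ≤ V * (W * N) := by
    have a1 : 1 / Real.log N ^ (1 + 1) * (N : ℝ) ≤ W * N := mul_le_mul_of_nonneg_right hW hN0.le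
    exact mul_le_mul hV a1 (by positivity) (hq.trans hV)
  refine le_trans ?_ (mul_le_mul_of_nonneg_left h3 hσ.le)
  have h4 : σ * (1 / Real.log N ^ (1 + 1) * (1 / Real.log N ^ (1 + 1) * N)) =
      σ * N / Real.log N ^ 4 := by
    rw [show 4 = (1 + 1) + (1 + 1) by norm_num, pow_add]
    field_simp
  rw [h4, le_div_iff₀ (by positivity)]
  have h5 : (N : ℝ) ^ (7 / 8 : ℝ) * (N : ℝ) ^ (1 / 8 : ℝ) = N := by
    rw [← Real.rpow_add hN0]
    norm_num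
  calc 5 * (N : ℝ) ^ (7 / 8 : ℝ) * Real.log N ^ 4
      ≤ 5 * (N : ℝ) ^ (7 / 8 : ℝ) * (σ / 5 * (N : ℝ) ^ (1 / 8 : ℝ)) := by gcongr
    _ = σ * ((N : ℝ) ^ (7 / 8 : ℝ) * (N : ℝ) ^ (1 / 8 : ℝ)) := by ring
    _ = σ * N := by rw [h5]

end Pool.Agent.W23.PP
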