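import Pool.Agent.W23.PP.Wt5

/-!
PP project (helper23): `h - n` for dense sets of integers `n`, final forms.
-/

namespace Pool.Agent.W23.PP

open Finset Filter
open Pool.Agent.H442R2
open Pool.Agent.H442R2.KF
open Pool.Agent.W23.DC
open Pool.Agent.W23.SG
open Pool.Agent.W23.PL
open Pool.Agent.W23.KT
open Pool.Agent.W23.KS

open Classical in
theorem intW (g : ℝ) (r : ℕ) (hg1 : 1 ≤ g) (hg2 : g ≤ 2) (hgr : g < 9 / 20 * ((r : ℝ) - 1 / 29)) :
    ∀ δ : ℝ, 0 < δ → ∃ (c C : ℝ) (t X₀ : ℕ), 0 < c ∧ 0 < C ∧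
      ∀ X : ℕ, X₀ ≤ X → ∀ A : Finset ℕ, (∀ n ∈ A, 1 ≤ n ∧ n ≤ X) → δ * X ≤ A.card →
      ∀ 𝒜 : Finset ℤ, (∀ h ∈ 𝒜, |(h : ℝ)| ≤ (X : ℝ) ^ g) →
      (∀ h ∈ 𝒜, ((GW A X t r h).card : ℝ) <
        c * (Real.log (Real.log X) / Real.log X) * A.card) →
      (𝒜.card : ℝ) ≤ C * (Real.log X / Real.log (Real.log X)) := by
  intro δ hδ
  obtain ⟨A0, F, f, hS⟩ := W366.DC.SFX
  obtain ⟨c, C, t, X₀, hc, hC, H2⟩ := mainW W52.DC.PT W120.DC.LN W586.DC.ER W505.DC.MI MT_thm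
    W378.DC.MP A0 F f hS BXBP_thm BX0P_thm VLBP_thm SMOP_thm g r hg1 hg2 hgr 1 one_pos le_rfl δ hδ
  obtain ⟨cv, N₃, hcv, HV⟩ := VP_low RTP_thm VLBP_thm VLBK_thm 1 3 le_rfl
  obtain ⟨N₄, hN₄3, HN₄⟩ := loglog_large
  refine ⟨c * cv, C / cv, t, max X₀ (max N₃ N₄), by positivity, by positivity,
    fun X hX A hA hAc 𝒜 h𝒜 hexc => ?_⟩
  have hX₁ : X₀ ≤ X := (le_max_left _ _).trans hX
  have hX₄ : N₃ ≤ X := ((le_max_left _ _).trans (le_max_right _ _)).trans hX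
  have hX₅ : N₄ ≤ X := ((le_max_right _ _).trans (le_max_right _ _)).trans hX
  clear hX
  have hX3' : 3 ≤ X := hN₄3.trans hX₅
  have hX3 : (3 : ℝ) ≤ X := by exact_mod_cast hX3'
  obtain ⟨hLL1, hLL2, hL1⟩ := HN₄ X hX₅
  have hL : 0 < Real.log X := by linarith
  have hLL : 0 < Real.log (Real.log X) := by linarith
  have hW : VP (fun _ => 1) (P0 X 1) = 1 := VP_one _ P0_prime
  have hXg : ∀ h ∈ 𝒜, |(h : ℝ)| ≤ (X : ℝ) ^ 2 := fun h hh => (h𝒜 h hh).trans (by
    rw [← Real.rpow_two]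
    exact Real.rpow_le_rpow_of_exponent_le (by linarith) hg2)
  have hVlow : ∀ h ∈ 𝒜, cv * (Real.log (Real.log X) / Real.log X) ≤ VP (ph h) (PF X) := by
    intro h hh
    have := HV X hX₄ (ph h) (Sy_ph (by omega) (hXg h hh))
    rwa [pow_one] at this
  have hmain : ∑ h ∈ 𝒜, VP (ph h) (PF X) ≤ C := by
    refine H2 X hX₁ (fun _ => 1) (Sy_one (by omega)) (by rw [hW]; exact one_pos) A
      (fun n hn => ⟨hA n hn, xx_one _ P0_prime⟩) (by rw [hW, one_mul]; exact hAc) 𝒜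
      (fun h hh => ⟨h𝒜 h hh, Cp_one (by omega) _⟩) (fun h hh => ?_)
    have h2 := hexc h hh
    have h3 := hVlow h hh
    calc ((GW A X t r h).card : ℝ) < c * cv * (Real.log (Real.log X) / Real.log X) *
          A.card := h2
      _ = c * (cv * (Real.log (Real.log X) / Real.log X)) * A.card := by ring
      _ ≤ c * VP (ph h) (PF X) * A.card := by gcongr
  have h1 : (𝒜.card : ℝ) * (cv * (Real.log (Real.log X) / Real.log X)) ≤ C := by
    refine le_trans ?_ hmain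
    rw [← nsmul_eq_mul, ← Finset.sum_const]
    exact Finset.sum_le_sum hVlow
  have h2 : C / cv * (Real.log X / Real.log (Real.log X)) =
      C / (cv * (Real.log (Real.log X) / Real.log X)) := by
    field_simp
  rw [h2, le_div_iff₀ (by positivity)]
  exact h1

open Classical in
/-- the upper bound -/
theorem intUp (t : ℕ) : ∃ (C : ℝ) (X₀ : ℕ), 0 < C ∧ ∀ X : ℕ, X₀ ≤ X →
    ∀ h : ℤ, |(h : ℝ)| ≤ (X : ℝ) ^ 2 →
    (((Icc 1 X).filter (fun p : ℕ => RepS X t h p)).card : ℝ) ≤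
      C * (Real.log (Real.log X) / Real.log X) * X := by
  obtain ⟨C, N₁, hC, H⟩ := upperP UBSP_thm VLBP_thm 1 3 (t + 2) le_rfl (by omega) (1 / 8) 1
    (by norm_num) (by norm_num) (by norm_num) (by norm_num)
  obtain ⟨CV, N₃, hCV, HV⟩ := VP_ph_up
  refine ⟨C * CV, max (max N₁ N₃) 3, by positivity, fun X hX h hh => ?_⟩
  have hX₁ : N₁ ≤ X := ((le_max_left _ _).trans (le_max_left _ _)).trans hX
  have hX₃ : N₃ ≤ X := ((le_max_right _ _).trans (le_max_left _ _)).trans hX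
  have hX3' : 3 ≤ X := (le_max_right _ _).trans hX
  have hX0 : (0 : ℝ) ≤ X := Nat.cast_nonneg _
  have hW : VP (fun _ => 1) (P0 X 1) = 1 := VP_one _ P0_prime
  have h1 := H X hX₁ (fun _ => 1) (ph h) (Sy_one (by omega)) (Sy_ph (by omega) hh)
    (Cp_one (by omega) _) (Icc 1 X) (fun p hp => ⟨mem_Icc.1 hp, xx_one _ P0_prime⟩)
  rw [hW, one_mul] at h1
  have h2 : (Icc 1 X).filter (fun p : ℕ => RepS X t h p) ⊆
      XP (Icc 1 X) X (t + 2) (1 / 8) (ph h) := by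
    intro p hp
    rw [mem_filter] at hp
    unfold XP
    rw [mem_filter]
    exact ⟨hp.1, RepS_xx hX3' hp.2⟩
  have h3 : (((Icc 1 X).filter (fun p : ℕ => RepS X t h p)).card : ℝ) ≤
      (XP (Icc 1 X) X (t + 2) (1 / 8) (ph h)).card := by
    exact_mod_cast Finset.card_le_card h2
  have h9 := HV X hX₃ h hh
  refine h3.trans (h1.trans ?_)
  calc C * VP (ph h) (PF X) * X ≤ C * (CV * (Real.log (Real.log X) / Real.log X)) * X := by gcongr
    _ = _ := by ring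

open Classical in
/-- the sharpness of the number of exceptions -/
theorem intSh (t : ℕ) (η : ℝ) (hη : 0 < η) : ∃ (c : ℝ) (X₀ : ℕ), 0 < c ∧ ∀ X : ℕ, X₀ ≤ X →
    ∀ H : Finset ℤ, (∀ h ∈ H, |(h : ℝ)| ≤ (X : ℝ) ^ 2) →
    (H.card : ℝ) ≤ c * (Real.log X / Real.log (Real.log X)) →
    ∃ A : Finset ℕ, (∀ n ∈ A, 1 ≤ n ∧ n ≤ X) ∧ (1 - η) * X ≤ A.card ∧
      ∀ h ∈ H, ∀ p ∈ A, ¬ RepS X t h p := by
  obtain ⟨C, N₁, hC, HU⟩ := intUp t
  obtain ⟨N₄, hN₄3, HN₄⟩ := loglog_large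
  refine ⟨η / C, max N₁ N₄, by positivity, fun X hX H hH hHc => ?_⟩
  have hX₁ : N₁ ≤ X := (le_max_left _ _).trans hX
  have hX₄ : N₄ ≤ X := (le_max_right _ _).trans hX
  have hX3' : 3 ≤ X := hN₄3.trans hX₄
  have hX3 : (3 : ℝ) ≤ X := by exact_mod_cast hX3'
  have hX0 : (0 : ℝ) < X := by linarith
  obtain ⟨hLL1, hLL2, hL1⟩ := HN₄ X hX₄
  have hL : 0 < Real.log X := by linarith
  have hLL : 0 < Real.log (Real.log X) := by linarith
  set P : Finset ℕ := Icc 1 X with hP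
  set B : Finset ℕ := H.biUnion (fun h => P.filter (fun p : ℕ => RepS X t h p)) with hB
  refine ⟨P \ B, fun p hp => ?_, ?_, fun h hh p hp hR => ?_⟩
  · rw [Finset.mem_sdiff, hP, mem_Icc] at hp
    exact hp.1
  · have hBP : B ⊆ P := by
      intro p hp
      rw [hB, mem_biUnion] at hp
      obtain ⟨h, _, h2⟩ := hp
      exact (mem_filter.1 h2).1
    have h1 : ((P \ B).card : ℝ) = P.card - B.card := by
      rw [Finset.card_sdiff_of_subset hBP, Nat.cast_sub (Finset.card_le_card hBP)]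
    have hPc : (P.card : ℝ) = X := by
      rw [hP]
      simp
    rw [h1, hPc]
    have h2 : (B.card : ℝ) ≤ ∑ h ∈ H, ((P.filter (fun p : ℕ => RepS X t h p)).card : ℝ) := by
      have := Finset.card_biUnion_le (s := H) (t := fun h => P.filter (fun p : ℕ => RepS X t h p))
      exact_mod_cast this
    have h3 : ∑ h ∈ H, ((P.filter (fun p : ℕ => RepS X t h p)).card : ℝ) ≤
        H.card * (C * (Real.log (Real.log X) / Real.log X) * X) := by
      rw [← nsmul_eq_mul, ← Finset.sum_const]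
      exact Finset.sum_le_sum fun h hh => HU X hX₁ h (hH h hh)
    have h4 : (H.card : ℝ) * (C * (Real.log (Real.log X) / Real.log X) * X) ≤
        (η / C * (Real.log X / Real.log (Real.log X))) *
          (C * (Real.log (Real.log X) / Real.log X) * X) := by gcongr
    have h5 : (η / C * (Real.log X / Real.log (Real.log X))) *
          (C * (Real.log (Real.log X) / Real.log X) * X) = η * X := by
      field_simp
    rw [h5] at h4
    linarith
  · rw [Finset.mem_sdiff] at hp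
    exact hp.2 (by
      rw [hB, mem_biUnion]
      exact ⟨h, hh, mem_filter.2 ⟨hp.1, hR⟩⟩)

end Pool.Agent.W23.PP
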