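import Pool.Agent.W23.PP.Lt3
import Pool.Agent.W23.PP.Wt6

/-!
PP project (helper23): linear forms on dense sets of integers, final forms; the numbers `2 k p + 1`.
-/

namespace Pool.Agent.W23.PP

open Finset Filter
open Pool.Agent.H442R2
open Pool.Agent.H442R2.KF
open Pool.Agent.W23.DC
open Pool.Agent.W23.SG
open Pool.Agent.W23.PL
open Pool.Agent.W23.KT
open Pool.Agent.W23.KS

open Classical in
theorem intL (g : ℝ) (r : ℕ) (hg1 : 1 ≤ g) (hg2 : g ≤ 2) (hgr : g < 9 / 20 * ((r : ℝ) - 1 / 29)) :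
    ∀ δ : ℝ, 0 < δ → ∃ (c C : ℝ) (t X₀ : ℕ), 0 < c ∧ 0 < C ∧
      ∀ X : ℕ, X₀ ≤ X → ∀ A : Finset ℕ, (∀ n ∈ A, 1 ≤ n ∧ n ≤ X) → δ * X ≤ A.card →
      ∀ 𝒜 : Finset (ℤ × ℕ), (∀ L ∈ 𝒜, Int.gcd L.1 L.2 = 1 ∧ |(L.1 : ℝ)| ≤ (X : ℝ) ^ g ∧
        1 ≤ L.2 ∧ (L.2 : ℝ) ≤ (X : ℝ) ^ (g - 1)) →
      (∀ L ∈ 𝒜, ((GLf A X t r L).card : ℝ) <
        c * (Real.log (Real.log X) / Real.log X) * A.card) →
      (𝒜.card : ℝ) ≤ C * (Real.log X / Real.log (Real.log X)) := by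
  intro δ hδ
  obtain ⟨A0, F, f, hS⟩ := W366.DC.SFX
  obtain ⟨c, C, t, X₀, hc, hC, H2⟩ := mainL W52.DC.PT W120.DC.LN W586.DC.ER W505.DC.MI MT_thm
    W378.DC.MP RTP_thm A0 F f hS BXBP_thm BX0P_thm VLBP_thm SMOP_thm g r hg1 hg2 hgr 1 one_pos
    le_rfl δ hδ
  obtain ⟨cv, N₃, hcv, HV⟩ := VP_low RTP_thm VLBP_thm VLBK_thm 1 5 le_rfl
  obtain ⟨N₄, hN₄3, HN₄⟩ := loglog_large
  refine ⟨c * cv, C / cv, t, max X₀ (max N₃ N₄), by positivity, by positivity,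
    fun X hX A hA hAc 𝒜 h𝒜 hexc => ?_⟩
  have hX₁ : X₀ ≤ X := (le_max_left _ _).trans hX
  have hX₄ : N₃ ≤ X := ((le_max_left _ _).trans (le_max_right _ _)).trans hX
  have hX₅ : N₄ ≤ X := ((le_max_right _ _).trans (le_max_right _ _)).trans hX
  clear hX
  have hX3' : 3 ≤ X := hN₄3.trans hX₅
  have hX3 : (3 : ℝ) ≤ X := by exact_mod_cast hX3'
  obtain ⟨hLL1, hLL2, hL1⟩ := HN₄ X hX₅
  have hL : 0 < Real.log X := by linarith
  have hLL : 0 < Real.log (Real.log X) := by linarith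
  have hW : VP (fun _ => 1) (P0 X 1) = 1 := VP_one _ P0_prime
  have hXg : ∀ L ∈ 𝒜, |(L.1 : ℝ)| ≤ (X : ℝ) ^ 2 := fun h hh => (h𝒜 h hh).2.1.trans (by
    rw [← Real.rpow_two]
    exact Real.rpow_le_rpow_of_exponent_le (by linarith) hg2)
  have hXg2 : ∀ L ∈ 𝒜, (L.2 : ℝ) ≤ (X : ℝ) ^ 2 := fun h hh => (h𝒜 h hh).2.2.2.trans (by
    rw [← Real.rpow_two]
    exact Real.rpow_le_rpow_of_exponent_le (by linarith) (by linarith))
  have hVlow : ∀ L ∈ 𝒜, cv * (Real.log (Real.log X) / Real.log X) ≤ VP (lf L) (PF X) := by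
    intro h hh
    have := HV X hX₄ (lf h) (Sy_lf (by omega) (h𝒜 h hh).1 (hXg h hh) (hXg2 h hh))
    rwa [pow_one] at this
  have hmain : ∑ L ∈ 𝒜, VP (lf L) (PF X) ≤ C := by
    refine H2 X hX₁ (fun _ => 1) (Sy_one (by omega)) (by rw [hW]; exact one_pos) A
      (fun n hn => ⟨hA n hn, xx_one _ P0_prime⟩) (by rw [hW, one_mul]; exact hAc) 𝒜
      (fun h hh => ⟨(h𝒜 h hh).1, (h𝒜 h hh).2.1, (h𝒜 h hh).2.2.1, (h𝒜 h hh).2.2.2,
        Cp_one (by omega) _⟩) (fun h hh => ?_)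
    have h2 := hexc h hh
    have h3 := hVlow h hh
    calc ((GLf A X t r h).card : ℝ) < c * cv * (Real.log (Real.log X) / Real.log X) *
          A.card := h2
      _ = c * (cv * (Real.log (Real.log X) / Real.log X)) * A.card := by ring
      _ ≤ c * VP (lf h) (PF X) * A.card := by gcongr
  have h1 : (𝒜.card : ℝ) * (cv * (Real.log (Real.log X) / Real.log X)) ≤ C := by
    refine le_trans ?_ hmain
    rw [← nsmul_eq_mul, ← Finset.sum_const]
    exact Finset.sum_le_sum hVlow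
  have h2 : C / cv * (Real.log X / Real.log (Real.log X)) =
      C / (cv * (Real.log (Real.log X) / Real.log X)) := by
    field_simp
  rw [h2, le_div_iff₀ (by positivity)]
  exact h1

/-- the linear form `1 + 2 p n` -/
def Lp (p : ℕ) : ℤ × ℕ := (1, 2 * p)

theorem Sy_Lp {N : ℕ} (hN : 2 ≤ N) {p : ℕ} (hp : 2 * p ≤ N ^ 2) : Sy 1 5 N (lf (Lp p)) := by
  have hN1 : (1 : ℝ) ≤ N := by exact_mod_cast (by omega : 1 ≤ N)
  refine Sy_lf hN (by simp [Lp]) ?_ ?_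
  · simp only [Lp]
    push_cast
    rw [abs_one]
    exact one_le_pow₀ hN1
  · simp only [Lp]
    exact_mod_cast hp

/-- Mertens: the upper bound -/
theorem VP_Lp_up : ∃ (C : ℝ) (N₀ : ℕ), 0 < C ∧ ∀ N : ℕ, N₀ ≤ N → ∀ p : ℕ, p.Prime →
    2 * p ≤ N ^ 2 → VP (lf (Lp p)) (PF N) ≤ C * (Real.log (Real.log N) / Real.log N) := by
  classical
  obtain ⟨c₂, hc₂, H⟩ := W655.PL.VLB
  obtain ⟨N₁, hN₁⟩ := H 1 le_rfl 1 one_pos le_rfl
  obtain ⟨hVa, -⟩ := VLBP_thm 1 le_rfl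
  obtain ⟨CV, N₂, hCV, hV⟩ := hVa 5 1 le_rfl 1 one_pos le_rfl
  obtain ⟨N₃, hN₃⟩ := log_large 3
  refine ⟨2 * (1 / c₂), max (max N₁ N₂) (max N₃ 2), by positivity, fun N hN p hp hpN => ?_⟩
  have hNN₁ : N₁ ≤ N := ((le_max_left _ _).trans (le_max_left _ _)).trans hN
  have hNN₂ : N₂ ≤ N := ((le_max_right _ _).trans (le_max_left _ _)).trans hN
  have hNN₃ : N₃ ≤ N := ((le_max_left _ _).trans (le_max_right _ _)).trans hN
  have hN2 : 2 ≤ N := ((le_max_right _ _).trans (le_max_right _ _)).trans hN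
  obtain ⟨h1, -, -, -⟩ := hV N hNN₂ (lf (Lp p)) (Sy_Lp hN2 hpN)
  have hlog := hN₃ N hNN₃
  have hrh : ∀ l ∈ P1 N 1 1, l ≠ p → rh (lf (Lp p)) l = 1 / (l : ℝ) := by
    intro l hl hlp
    obtain ⟨hl1, hlpr, hl3, -⟩ := mem_P1.1 hl
    rw [pow_one] at hl3
    have hl4 : 3 ≤ l := by
      have : (3 : ℝ) ≤ l := hlog.trans hl3
      exact_mod_cast this
    apply rh_lf hl1.1
    rw [hlpr.coprime_iff_not_dvd]
    intro hd
    rcases (hlpr.dvd_mul).1 hd with h | h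
    · have := Nat.le_of_dvd (by norm_num) h
      omega
    · exact hlp ((Nat.prime_dvd_prime_iff_eq hlpr hp).1 h)
  have hf : ∀ l ∈ P1 N 1 1, (0 : ℝ) ≤ 1 - 1 / (l : ℝ) := by
    intro l hl
    have : (1 : ℝ) ≤ l := by exact_mod_cast (mem_P1.1 hl).1.1
    rw [sub_nonneg]
    exact (div_le_one (by linarith)).2 this
  have h2 : VP (lf (Lp p)) (P1 N 1 1) ≤ ∏ l ∈ (P1 N 1 1).erase p, (1 - 1 / (l : ℝ)) := by
    unfold VP
    have e1 : ∏ l ∈ (P1 N 1 1).erase p, (1 - rh (lf (Lp p)) l) =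
        ∏ l ∈ (P1 N 1 1).erase p, (1 - 1 / (l : ℝ)) := by
      apply Finset.prod_congr rfl
      intro l hl
      rw [Finset.mem_erase] at hl
      rw [hrh l hl.2 hl.1]
    rw [← e1]
    by_cases hpP : p ∈ P1 N 1 1
    · rw [← Finset.mul_prod_erase _ _ hpP]
      have e2 : 0 ≤ ∏ l ∈ (P1 N 1 1).erase p, (1 - rh (lf (Lp p)) l) :=
        Finset.prod_nonneg (fun l _ => by linarith [rh_le_one (lf (Lp p)) l])
      have e3 : 1 - rh (lf (Lp p)) p ≤ 1 := by linarith [rh_nonneg (lf (Lp p)) p]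
      calc _ ≤ 1 * ∏ l ∈ (P1 N 1 1).erase p, (1 - rh (lf (Lp p)) l) :=
            mul_le_mul_of_nonneg_right e3 e2
        _ = _ := one_mul _
    · rw [Finset.erase_eq_of_notMem hpP]
  have h3 : ∏ l ∈ (P1 N 1 1).erase p, (1 - 1 / (l : ℝ)) ≤ 2 * VV (P1 N 1 1) := by
    unfold VV
    have e2 : 0 ≤ ∏ l ∈ (P1 N 1 1).erase p, (1 - 1 / (l : ℝ)) :=
      Finset.prod_nonneg (fun l hl => hf l (Finset.mem_erase.1 hl).2)
    by_cases hpP : p ∈ P1 N 1 1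
    · rw [← Finset.mul_prod_erase _ _ hpP]
      have e3 : (1 : ℝ) / 2 ≤ 1 - 1 / (p : ℝ) := by
        have : (2 : ℝ) ≤ p := by exact_mod_cast hp.two_le
        have : 1 / (p : ℝ) ≤ 1 / 2 := one_div_le_one_div_of_le (by norm_num) this
        linarith
      nlinarith
    · rw [Finset.erase_eq_of_notMem hpP] at e2 ⊢
      linarith
  have h4 := (hN₁ N hNN₁).2
  rw [Nat.cast_one, one_mul, one_mul] at h4
  calc VP (lf (Lp p)) (PF N) ≤ 2 * VV (P1 N 1 1) := h1.trans (h2.trans h3)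
    _ ≤ 2 * (1 / c₂ * (Real.log (Real.log N) / Real.log N)) := by linarith
    _ = _ := by ring

/-- `2 k p + 1` is a product `m s`, `m` small, no prime factor of `s` is below `X^(1/8)` -/
def RepL (X t p k : ℕ) : Prop := ∃ m s : ℕ, 2 * k * p + 1 = m * s ∧ 1 ≤ m ∧
    (m : ℝ) ≤ Real.log X ^ t ∧ 1 < s ∧ ∀ q ∈ s.primeFactors, (X : ℝ) ^ (1 / 8 : ℝ) ≤ q

theorem lf_Lp (p k : ℕ) : (lf (Lp p) k).natAbs = 2 * k * p + 1 := by
  unfold lf Lp
  push_cast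
  rw [show (1 : ℤ) + 2 * p * k = ((2 * k * p + 1 : ℕ) : ℤ) by push_cast; ring, Int.natAbs_natCast]

theorem RepL_xx {X t : ℕ} (hX : 3 ≤ X) {p k : ℕ} (hR : RepL X t p k) :
    xx (P1 X (t + 2) (1 / 8)) (lf (Lp p) k) = 1 := by
  classical
  have hX3 : (3 : ℝ) ≤ X := by exact_mod_cast hX
  have hX0 : (0 : ℝ) < X := by linarith
  have hL1 : 1 < Real.log X := by
    rw [Real.lt_log_iff_exp_lt hX0]
    exact Real.exp_one_lt_three.trans_le hX3
  obtain ⟨m, s, e1, e2, e3, e4, e6⟩ := hR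
  unfold xx
  rw [if_pos]
  intro l hl hld
  obtain ⟨⟨hl1, hl2⟩, hlp, hl3, hl4⟩ := mem_P1.1 hl
  have hln : l ∣ m * s := by
    rw [← e1, ← lf_Lp]
    exact Int.natCast_dvd.1 hld
  rcases (hlp.dvd_mul).1 hln with h | h
  · have h1 : l ≤ m := Nat.le_of_dvd (by omega) h
    have h2 : (l : ℝ) ≤ Real.log X ^ t := le_trans (by exact_mod_cast h1) e3
    have h3 : Real.log X ^ t < Real.log X ^ (t + 2) := pow_lt_pow_right₀ hL1 (by omega)
    linarith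
  · have h1 := e6 l (Nat.mem_primeFactors.2 ⟨hlp, h, by omega⟩)
    have h2 := (tt_lt_iff (by omega : 2 ≤ X) hlp.pos _).1 hl4
    linarith

open Classical in
/-- the upper bound -/
theorem upL (t : ℕ) : ∃ (C : ℝ) (X₀ : ℕ), 0 < C ∧ ∀ X : ℕ, X₀ ≤ X →
    ∀ p : ℕ, p.Prime → 2 * p ≤ X ^ 2 →
    (((Icc 1 X).filter (fun k : ℕ => RepL X t p k)).card : ℝ) ≤
      C * (Real.log (Real.log X) / Real.log X) * X := by
  obtain ⟨C, N₁, hC, H⟩ := upperP UBSP_thm VLBP_thm 1 5 (t + 2) le_rfl (by omega) (1 / 8) 1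
    (by norm_num) (by norm_num) (by norm_num) (by norm_num)
  obtain ⟨CV, N₃, hCV, HV⟩ := VP_Lp_up
  refine ⟨C * CV, max (max N₁ N₃) 3, by positivity, fun X hX p hp hpX => ?_⟩
  have hX₁ : N₁ ≤ X := ((le_max_left _ _).trans (le_max_left _ _)).trans hX
  have hX₃ : N₃ ≤ X := ((le_max_right _ _).trans (le_max_left _ _)).trans hX
  have hX3' : 3 ≤ X := (le_max_right _ _).trans hX
  have hX0 : (0 : ℝ) ≤ X := Nat.cast_nonneg _
  have hW : VP (fun _ => 1) (P0 X 1) = 1 := VP_one _ P0_prime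
  have h1 := H X hX₁ (fun _ => 1) (lf (Lp p)) (Sy_one (by omega)) (Sy_Lp (by omega) hpX)
    (Cp_one (by omega) _) (Icc 1 X) (fun p hp => ⟨mem_Icc.1 hp, xx_one _ P0_prime⟩)
  rw [hW, one_mul] at h1
  have h2 : (Icc 1 X).filter (fun k : ℕ => RepL X t p k) ⊆
      XP (Icc 1 X) X (t + 2) (1 / 8) (lf (Lp p)) := by
    intro k hk
    rw [mem_filter] at hk
    unfold XP
    rw [mem_filter]
    exact ⟨hk.1, RepL_xx hX3' hk.2⟩
  have h3 : (((Icc 1 X).filter (fun k : ℕ => RepL X t p k)).card : ℝ) ≤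
      (XP (Icc 1 X) X (t + 2) (1 / 8) (lf (Lp p))).card := by
    exact_mod_cast Finset.card_le_card h2
  have h9 := HV X hX₃ p hp hpX
  refine h3.trans (h1.trans ?_)
  calc C * VP (lf (Lp p)) (PF X) * X ≤ C * (CV * (Real.log (Real.log X) / Real.log X)) * X := by
        gcongr
    _ = _ := by ring

open Classical in
/-- the sharpness of the number of exceptions -/
theorem shL (t : ℕ) (η : ℝ) (hη : 0 < η) : ∃ (c : ℝ) (X₀ : ℕ), 0 < c ∧ ∀ X : ℕ, X₀ ≤ X →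
    ∀ H : Finset ℕ, (∀ p ∈ H, p.Prime ∧ 2 * p ≤ X ^ 2) →
    (H.card : ℝ) ≤ c * (Real.log X / Real.log (Real.log X)) →
    ∃ A : Finset ℕ, (∀ n ∈ A, 1 ≤ n ∧ n ≤ X) ∧ (1 - η) * X ≤ A.card ∧
      ∀ p ∈ H, ∀ k ∈ A, ¬ RepL X t p k := by
  obtain ⟨C, N₁, hC, HU⟩ := upL t
  obtain ⟨N₄, hN₄3, HN₄⟩ := loglog_large
  refine ⟨η / C, max N₁ N₄, by positivity, fun X hX H hH hHc => ?_⟩
  have hX₁ : N₁ ≤ X := (le_max_left _ _).trans hX
  have hX₄ : N₄ ≤ X := (le_max_right _ _).trans hX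
  have hX3' : 3 ≤ X := hN₄3.trans hX₄
  have hX3 : (3 : ℝ) ≤ X := by exact_mod_cast hX3'
  have hX0 : (0 : ℝ) < X := by linarith
  obtain ⟨hLL1, hLL2, hL1⟩ := HN₄ X hX₄
  have hL : 0 < Real.log X := by linarith
  have hLL : 0 < Real.log (Real.log X) := by linarith
  set P : Finset ℕ := Icc 1 X with hP
  set B : Finset ℕ := H.biUnion (fun h => P.filter (fun p : ℕ => RepL X t h p)) with hB
  refine ⟨P \ B, fun p hp => ?_, ?_, fun h hh p hp hR => ?_⟩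
  · rw [Finset.mem_sdiff, hP, mem_Icc] at hp
    exact hp.1
  · have hBP : B ⊆ P := by
      intro p hp
      rw [hB, mem_biUnion] at hp
      obtain ⟨h, _, h2⟩ := hp
      exact (mem_filter.1 h2).1
    have h1 : ((P \ B).card : ℝ) = P.card - B.card := by
      rw [Finset.card_sdiff_of_subset hBP, Nat.cast_sub (Finset.card_le_card hBP)]
    have hPc : (P.card : ℝ) = X := by
      rw [hP]
      simp
    rw [h1, hPc]
    have h2 : (B.card : ℝ) ≤ ∑ h ∈ H, ((P.filter (fun p : ℕ => RepL X t h p)).card : ℝ) := by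
      have := Finset.card_biUnion_le (s := H) (t := fun h => P.filter (fun p : ℕ => RepL X t h p))
      exact_mod_cast this
    have h3 : ∑ h ∈ H, ((P.filter (fun p : ℕ => RepL X t h p)).card : ℝ) ≤
        H.card * (C * (Real.log (Real.log X) / Real.log X) * X) := by
      rw [← nsmul_eq_mul, ← Finset.sum_const]
      exact Finset.sum_le_sum fun h hh => HU X hX₁ h (hH h hh).1 (hH h hh).2
    have h4 : (H.card : ℝ) * (C * (Real.log (Real.log X) / Real.log X) * X) ≤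
        (η / C * (Real.log X / Real.log (Real.log X))) *
          (C * (Real.log (Real.log X) / Real.log X) * X) := by gcongr
    have h5 : (η / C * (Real.log X / Real.log (Real.log X))) *
          (C * (Real.log (Real.log X) / Real.log X) * X) = η * X := by
      field_simp
    rw [h5] at h4
    linarith
  · rw [Finset.mem_sdiff] at hp
    exact hp.2 (by
      rw [hB, mem_biUnion]
      exact ⟨h, hh, mem_filter.2 ⟨hp.1, hR⟩⟩)

end Pool.Agent.W23.PP
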