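import Pool.Agent.W959.PP.BXBP

/-!
PP project (helper23), sparse sets: the Bessel inequality for arbitrary functions.
(Adapted from `Pool/Agent/W959/PP/BXBP.lean`.)
-/

set_option autoImplicit false

namespace Pool.Agent.W23.PP

open Finset
open Pool.Agent.H442R2
open Pool.Agent.H442R2.KF
open Pool.Agent.W23.DC
open Pool.Agent.W23.SG
open Pool.Agent.W23.KT
open Pool.Agent.W23.PL (P1 xx DW Ev)
open Pool.Agent.W500.PL (xx_or xx_nonneg xx_le_one abs_xx Ev_bdd th1 th1_DW Ev_th1 ev_log)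
open Pool.Agent.W214.KS (ev_errK ev_powK fin_constK)
open Pool.Agent.W959.PP (Sy_one Cp_one Sy_two Cp_two one1 rP_bd hatP_th1 hatP_eq rh_prime summ_v
  diag_v duS prP)

/-- the Bessel inequality for arbitrary functions: the square sum of `f` on the right -/
def St_BXS : Prop := ∀ k M : ℕ, 1 ≤ k → 1 ≤ M → ∃ εs : ℝ, 0 < εs ∧
    ∀ ε₁ : ℝ, 0 < ε₁ → ε₁ ≤ εs → ∃ (η C : ℝ) (N₀ : ℕ), 0 < η ∧ 0 < C ∧
    ∀ N : ℕ, N₀ ≤ N → ∀ φ0 : ℤ → ℤ, Sy k M N φ0 → 0 < VP φ0 (P0 N ε₁) →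
    ∀ (ι : Type) (𝒜 : Finset ι) (φ : ι → ℤ → ℤ), (∀ i ∈ 𝒜, Sy k M N (φ i) ∧ Cp M N φ0 (φ i)) →
    (∀ i ∈ 𝒜, ∀ j ∈ 𝒜, i ≠ j → Cp M N (φ i) (φ j)) →
    ∀ f : ℕ → ℝ, (∀ n, |f n| ≤ 1) → (∀ n : ℕ, f n ≠ 0 → xx (P0 N ε₁) (φ0 n) = 1) →
    ∀ T : ι → Finset ℕ, (∀ i ∈ 𝒜, ∀ d ∈ T i, BlP N ε₁ d) →
    (∑ i ∈ 𝒜, ∑ d ∈ T i, |DP (φ i) f N d|) ^ 2 ≤
      C * ((∑ n ∈ Icc 1 N, f n ^ 2) * (VP φ0 (P0 N ε₁) * N * 𝒜.card +
        (N : ℝ) ^ (1 - η) * (𝒜.card : ℝ) ^ 2) + (𝒜.card : ℝ) ^ 2 * (N : ℝ) ^ (49 / 50 : ℝ))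

set_option maxHeartbeats 4000000 in
theorem BXS (hRTP : St_RTP) (hFLWG : St_FLWG) (hCORP : St_CORP) (hPBP : St_PBP)
    (hOFDP : St_OFDP) (hVLBP : St_VLBP) (hGS : BX.St_GS) : St_BXS := by
  classical
  intro k M hk hM
  obtain ⟨η₀, hη₀, hη₀40, ofd⟩ := hOFDP k M hk
  obtain ⟨c₁, hc₁, pbx⟩ := hPBP k M
  obtain ⟨εF, hεF, flw⟩ := hFLWG k hk η₀ 1 hη₀ one_pos
  obtain ⟨CC, EE, NC, hCC, cor⟩ := hCORP k M hk
  obtain ⟨vlbA, vlbB⟩ := hVLBP k hk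
  refine ⟨min εF (1 / 10), lt_min hεF (by norm_num), ?_⟩
  intro ε₁ hε₁ hε₁s
  obtain ⟨B, hB⟩ : ∃ B : ℕ, B = EE + (3 * k + 4) + 3 := ⟨_, rfl⟩
  have hεF1 : ε₁ ≤ εF := hε₁s.trans (min_le_left _ _)
  have hε10 : ε₁ ≤ 1 / 10 := hε₁s.trans (min_le_right _ _)
  have hε1 : ε₁ ≤ 1 := hε10.trans (by norm_num)
  obtain ⟨η, CO, NO, hη, hCO, ofd1⟩ := ofd ε₁ hε₁ hε1
  obtain ⟨N1, pbx1⟩ := pbx (ε₁ / 2) (by positivity) (by linarith only [hε1])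
  obtain ⟨K, hKdef⟩ : ∃ K : ℝ, K = Real.exp (2 * c₁ / ε₁) := ⟨_, rfl⟩
  have hK1 : 1 ≤ K := by
    rw [hKdef]
    exact Real.one_le_exp (by positivity)
  have hK0 : 0 < K := by linarith only [hK1]
  have hKe : Real.exp (c₁ / (ε₁ / 2)) = K := by
    rw [hKdef]
    congr 1
    field_simp
  obtain ⟨N3, flw1⟩ := flw ε₁ hε₁ hεF1
  obtain ⟨CW, hCW, vlbB1⟩ := vlbB ε₁ hε₁ hε1
  obtain ⟨N5, vlb2⟩ := vlbB1 M ε₁ hε₁ le_rfl
  obtain ⟨ρ, hρdef⟩ : ∃ ρ : ℝ, ρ = Real.exp (-(1 / ε₁)) := ⟨_, rfl⟩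
  have hρ0 : 0 < ρ := by rw [hρdef]; exact Real.exp_pos _
  have hρ1 : ρ ≤ 1 := by
    rw [hρdef, Real.exp_le_one_iff]
    have : 0 ≤ 1 / ε₁ := by positivity
    linarith only [this]
  obtain ⟨N6, err⟩ := ev_errK CC ρ EE (3 * k + 4) hCC hρ0
  obtain ⟨N9, hL3⟩ : ∃ N9 : ℕ, ∀ N : ℕ, N9 ≤ N → (2 : ℝ) ≤ Real.log N := by
    have := (Real.tendsto_log_atTop.comp
      (tendsto_natCast_atTop_atTop (R := ℝ))).eventually_ge_atTop (2 : ℝ)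
    exact Filter.eventually_atTop.1 this
  refine ⟨η, 500 * K ^ 2 + 50 * CO + 2 * (k : ℝ) ^ 2, N1 + N3 + N5 + N6 + N9 + NC + NO + 2, hη,
    by positivity, ?_⟩
  intro N hN φ0 hφ0 hV0pos ι 𝒜 φ h𝒜 hdis f hf hfx T hT
  have hNr : (2 : ℝ) ≤ N := by exact_mod_cast (by omega : 2 ≤ N)
  have hN0 : (0 : ℝ) < N := by linarith only [hNr]
  have hN1 : (1 : ℝ) ≤ N := by linarith only [hNr]
  obtain ⟨L, hL⟩ : ∃ L : ℝ, L = Real.log N := ⟨_, rfl⟩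
  have hL2 : 2 ≤ L := by rw [hL]; exact hL3 N (by omega)
  have hL0 : 0 < L := by linarith only [hL2]
  have hL1 : 1 ≤ L := by linarith only [hL2]
  obtain ⟨V0, hV0def⟩ : ∃ V : ℝ, V = VP φ0 (P0 N ε₁) := ⟨_, rfl⟩
  rw [← hV0def] at hV0pos
  have hV0l : 1 / L ^ (k + 1) ≤ V0 := by
    have h := (vlb2 N (by omega) φ0 hφ0).2.2.2
    rw [← hV0def, ← hL] at h
    exact h hV0pos
  -- the small error
  obtain ⟨e, he⟩ : ∃ e : ℝ, e = ρ * N / L ^ (3 * k + 3) := ⟨_, rfl⟩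
  have he0 : 0 ≤ e := by rw [he]; positivity
  have hLp : 0 < 1 / L ^ (k + 1) := by positivity
  have heL : e = ρ * N * ((1 / L ^ (k + 1)) * ((1 / L ^ (k + 1)) * (1 / L ^ (k + 1)))) := by
    rw [he]
    have : L ^ (3 * k + 3) = L ^ (k + 1) * (L ^ (k + 1) * L ^ (k + 1)) := by ring
    rw [this]
    field_simp
  have hLp1 : 1 / L ^ (k + 1) ≤ 1 := by
    rw [div_le_one (by positivity)]
    exact one_le_pow₀ hL1
  have he3 : e ≤ V0 * N := by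
    rw [heL]
    calc ρ * N * ((1 / L ^ (k + 1)) * ((1 / L ^ (k + 1)) * (1 / L ^ (k + 1)))) ≤
        1 * N * (V0 * (1 * 1)) := by
          have h1 : (1 / L ^ (k + 1)) * (1 / L ^ (k + 1)) ≤ 1 * 1 :=
            mul_le_mul hLp1 hLp1 hLp.le zero_le_one
          have h2 := mul_le_mul hV0l h1 (by positivity) hV0pos.le
          have h3 : ρ * N ≤ 1 * N := mul_le_mul_of_nonneg_right hρ1 hN0.le
          exact mul_le_mul h3 h2 (by positivity) (by positivity)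
      _ = _ := by ring
  -- the sets and weights
  obtain ⟨X, hX⟩ : ∃ X : ℕ, X = ⌊(N : ℝ) ^ (49 / 100 : ℝ)⌋₊ := ⟨_, rfl⟩
  have hXθ : (X : ℝ) ≤ (N : ℝ) ^ (49 / 100 : ℝ) := by
    rw [hX]
    exact Nat.floor_le (Real.rpow_nonneg hN0.le _)
  have hXN : X ≤ N := by
    have : (X : ℝ) ≤ N := hXθ.trans (by
      calc (N : ℝ) ^ (49 / 100 : ℝ) ≤ (N : ℝ) ^ (1 : ℝ) :=
            Real.rpow_le_rpow_of_exponent_le hN1 (by norm_num)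
        _ = N := Real.rpow_one _)
    exact_mod_cast this
  obtain ⟨D, hD⟩ : ∃ D : ℕ, D = ⌊(N : ℝ) ^ η₀⌋₊ := ⟨_, rfl⟩
  have hflw := flw1 N (by omega) D hD
  rw [← hL, ← hρdef] at hflw
  obtain ⟨t0, l0, ht0, -, hx0, hg0⟩ := hflw (P0 N ε₁) subset_rfl
  have hP0p : ∀ p ∈ P0 N ε₁, p.Prime ∧ (p : ℝ) < (N : ℝ) ^ ε₁ := by
    intro p hp
    unfold P0 at hp
    rw [mem_filter] at hp
    refine ⟨hp.2.1, ?_⟩
    have h2 := hp.2.2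
    unfold tt at h2
    rw [← hL, div_lt_iff₀ hL0] at h2
    have hp0 : (0 : ℝ) < p := by exact_mod_cast hp.2.1.pos
    rw [← Real.log_lt_log_iff hp0 (by positivity), Real.log_rpow hN0, ← hL]
    exact h2
  have hP10 : P1 N B ε₁ ⊆ P0 N ε₁ := by
    intro p hp
    unfold P1 at hp
    unfold P0
    rw [mem_filter] at hp ⊢
    exact ⟨hp.1, hp.2.1, hp.2.2.2⟩
  have hP1p : ∀ p ∈ P1 N B ε₁, p.Prime ∧ L ^ B ≤ (p : ℝ) := by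
    intro p hp
    unfold P1 at hp
    rw [mem_filter] at hp
    rw [hL]
    exact ⟨hp.2.1, hp.2.2.1⟩
  have hh0 : |hatP φ0 t0 D| ≤ 2 * V0 := by
    have h := (hg0 (rh φ0) (fun p hp => rh_prime hRTP hφ0 (hP0p p hp).1)).1
    rw [← hatP_eq hRTP hφ0 ht0] at h
    have h1 : ∏ p ∈ P0 N ε₁, (1 - rh φ0 p) = V0 := by rw [hV0def]; rfl
    rw [h1] at h
    have h2 : |hatP φ0 t0 D| ≤ |hatP φ0 t0 D - V0| + |V0| := by
      have := abs_add_le (hatP φ0 t0 D - V0) V0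
      simpa using this
    rw [abs_of_pos hV0pos] at h2
    have h3 : ρ * V0 ≤ 1 * V0 := mul_le_mul_of_nonneg_right hρ1 hV0pos.le
    linarith only [h, h2, h3]
  have hNη : (1 : ℝ) ≤ (N : ℝ) ^ η₀ := Real.one_le_rpow hN1 hη₀.le
  have hD1 : 1 ≤ D := by
    rw [hD]
    exact Nat.le_floor (by exact_mod_cast hNη)
  have hDη : (D : ℝ) ≤ (N : ℝ) ^ η₀ := by
    rw [hD]
    exact Nat.floor_le (by positivity)
  have hyB : 2 ≤ L ^ B := hL2.trans (le_self_pow₀ hL1 (by omega))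
  have hDN' : ∀ N' : ℕ, N ≤ N' → (D : ℝ) ≤ (N' : ℝ) ^ (1 / 20 : ℝ) := by
    intro N' hN'
    have hMN : (N : ℝ) ≤ N' := by exact_mod_cast hN'
    calc (D : ℝ) ≤ (N : ℝ) ^ η₀ := hDη
      _ ≤ (N : ℝ) ^ (1 / 20 : ℝ) :=
          Real.rpow_le_rpow_of_exponent_le hN1 (by linarith only [hη₀40])
      _ ≤ (N' : ℝ) ^ (1 / 20 : ℝ) := Real.rpow_le_rpow hN0.le hMN (by norm_num)
  have hNge1 : 1 ≤ N := by omega
  have hS1 : Sy k M N one1 := Sy_one hNge1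
  have hth1 : DW (P1 N B ε₁) D L th1 := th1_DW _ hD1 hL1
  have hth0 : DW (P0 N ε₁) D L th1 := th1_DW _ hD1 hL1
  have hhat1 : |hatP one1 th1 D| ≤ 1 := by rw [hatP_th1 _ hD1, abs_one]
  obtain ⟨v, hv⟩ : ∃ v : ℤ → ℝ, v = fun n => Ev t0 D (φ0 n) := ⟨_, rfl⟩
  have hvn : ∀ n, v n = Ev t0 D (φ0 n) := fun n => by rw [hv]
  have hv0 : ∀ n, 0 ≤ v n := by
    intro n
    rw [hvn]
    exact (xx_nonneg _ _).trans (hx0 (φ0 n)).1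
  have hvb : ∀ n, |v n| ≤ D * L := by
    intro n
    rw [hvn]
    exact Ev_bdd ht0 _
  -- CORP at `2N`
  have cuA : ∑' n : ℤ, Wt (2 * N) n * v n ≤ 5 * (V0 * N) := by
    have hNN : N ≤ 2 * N := by omega
    have h3 := cor (2 * N) (by omega) D hD1 (hDN' (2 * N) hNN) φ0 one1 one1 (Sy_two hφ0 hNN)
      (Sy_two hS1 hNN) (Sy_two hS1 hNN) (Cp_two (Cp_one hNge1 _) hNN)
      (Cp_two (Cp_one hNge1 _) hNN) (Cp_two (Cp_one hNge1 _) hNN) (P0 N ε₁) (P1 N B ε₁)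
      (P1 N B ε₁) (L ^ B) hyB (fun p hp => (hP0p p hp).1) hP1p hP1p L t0 th1 th1 hL1 ht0 hth1 hth1
    have h4 := err N (by omega) B (by omega) (2 * N) (Or.inr rfl)
    rw [← hL] at h4
    have h5 : CC * L ^ 3 * ((2 * N : ℕ) * Real.log (2 * N : ℕ) ^ EE / L ^ B + 1) ≤ e := by
      have h6 := mul_le_mul_of_nonneg_left h4 hL0.le
      have h7 : L * (ρ * N / L ^ (3 * k + 4)) = e := by
        rw [he, show 3 * k + 4 = (3 * k + 3) + 1 by ring, pow_succ]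
        field_simp
      rw [h7] at h6
      calc CC * L ^ 3 * ((2 * N : ℕ) * Real.log (2 * N : ℕ) ^ EE / L ^ B + 1) =
          L * (CC * L ^ 2 * ((2 * N : ℕ) * Real.log (2 * N : ℕ) ^ EE / L ^ B + 1)) := by ring
        _ ≤ e := h6
    have h6 := (abs_le.1 (h3.trans h5)).2
    have h7 : ((2 * N : ℕ) : ℝ) * (hatP φ0 t0 D * (hatP one1 th1 D * hatP one1 th1 D)) ≤
        4 * (V0 * N) := by
      refine (le_abs_self _).trans ?_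
      rw [abs_mul, abs_mul, abs_mul, Nat.abs_cast]
      have h8 : |hatP one1 th1 D| * |hatP one1 th1 D| ≤ 1 * 1 :=
        mul_le_mul hhat1 hhat1 (abs_nonneg _) zero_le_one
      have h9 : |hatP φ0 t0 D| * (|hatP one1 th1 D| * |hatP one1 th1 D|) ≤ 2 * V0 * (1 * 1) :=
        mul_le_mul hh0 h8 (by positivity) (by positivity)
      have h11 : 0 ≤ |hatP φ0 t0 D| * (|hatP one1 th1 D| * |hatP one1 th1 D|) := by positivity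
      calc ((2 * N : ℕ) : ℝ) * (|hatP φ0 t0 D| * (|hatP one1 th1 D| * |hatP one1 th1 D|)) ≤
          (2 * N) * (2 * V0 * (1 * 1)) := by
            push_cast
            exact mul_le_mul le_rfl h9 h11 (by positivity)
        _ = _ := by ring
    have h2 : ∑' n : ℤ, Wt (2 * N) n * v n = ∑' n : ℤ, Wt (2 * N) n * (Ev t0 D (φ0 n) *
        (Ev th1 D (one1 n) * Ev th1 D (one1 n))) := by
      refine tsum_congr fun n => ?_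
      rw [Ev_th1 hD1, hvn]
      ring
    rw [h2]
    linarith only [h6, h7, he3]
  -- coefficients
  have hc : ∀ i : ι, ∃ c : ℕ → ℝ, i ∈ 𝒜 → (CofP ((N : ℝ) ^ (ε₁ / 2)) X c ∧
      (∀ d, c d ≠ 0 → d ∈ T i) ∧
      ∑ d ∈ T i, |DP (φ i) f N d| ≤ |∑ p ∈ Icc 1 N, f p * rP (φ i) c X p| + k * X) := by
    intro i
    by_cases hi : i ∈ 𝒜
    · obtain ⟨c, h1, h2, h3⟩ := prP hε₁ (by omega) hX f hf (φ i) (h𝒜 i hi).1 (T i) (hT i hi)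
      exact ⟨c, fun _ => ⟨h1, h2, h3⟩⟩
    · exact ⟨0, fun h => absurd h hi⟩
  choose c hc using hc
  have hR : ∀ i ∈ 𝒜, ∀ n : ℤ, |rP (φ i) (c i) X n| ≤
      K * (1 + |(n : ℝ)| / N) ^ (1 / 4 : ℝ) := by
    intro i hi n
    have h := (pbx1 N X (by omega) hXN (φ i) (h𝒜 i hi).1).2 (c i) (hc i hi).1 n
    rwa [hKe] at h
  have hbR : ∀ i ∈ 𝒜, ∀ n : ℤ, |rP (φ i) (c i) X n| ≤ X := fun i hi n =>
    rP_bd (hc i hi).1.bd X n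
  have hw25 : ∀ p ∈ Icc 1 N, f p ≠ 0 → (1 : ℝ) ≤ 25 * (Wt N (p : ℤ) * v (p : ℤ)) := by
    intro p hp hfp
    rw [mem_Icc] at hp
    have h1 : 1 ≤ v (p : ℤ) := by
      rw [hvn, ← hfx p hfp]
      exact (hx0 _).1
    have h0 : 0 ≤ ((p : ℤ) : ℝ) / N := by positivity
    have h2 : ((p : ℤ) : ℝ) / N ≤ 1 := by
      rw [div_le_one hN0]
      push_cast
      exact_mod_cast hp.2
    have h3 : (((p : ℤ) : ℝ) / N) ^ 2 ≤ 1 := pow_le_one₀ h0 h2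
    have h4 : Real.exp (-Real.pi) ≤ Wt N (p : ℤ) := by
      unfold Wt
      apply Real.exp_le_exp.2
      nlinarith only [Real.pi_pos, h3]
    have h5 : 1 ≤ 25 * Wt N (p : ℤ) := by linarith only [BX.TaskBK.exp_neg_pi, h4]
    have h6 : 25 * Wt N (p : ℤ) * 1 ≤ 25 * Wt N (p : ℤ) * v (p : ℤ) :=
      mul_le_mul_of_nonneg_left h1 (by linarith only [h5])
    linarith only [h5, h6]
  have hw0 : ∀ n : ℤ, 0 ≤ Wt N n * v n := fun n => mul_nonneg (Real.exp_nonneg _) (hv0 n)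
  obtain ⟨G, hG⟩ : ∃ G : ℝ, G = 10 * K ^ 2 * (V0 * N) := ⟨_, rfl⟩
  obtain ⟨O, hO⟩ : ∃ O : ℝ, O = CO * (N : ℝ) ^ (1 - η) := ⟨_, rfl⟩
  have hO0 : 0 ≤ O := by rw [hO]; positivity
  have hGle : ∀ i ∈ 𝒜, ∑' n : ℤ, Wt N n * v n * (rP (φ i) (c i) X n * rP (φ i) (c i) X n) ≤
      G * 1 := by
    intro i hi
    have h1 : ∑' n : ℤ, Wt (2 * N) n * v n * 1 ≤ 5 * (V0 * N) := by
      simpa using cuA
    have h2 := diag_v (N := N) (v := v) (x := fun _ => 1) (t := fun _ => 1)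
      (R := fun n => rP (φ i) (c i) X n) hNge1 hv0 hvb hGS
      hK0.le (fun n => Or.inr rfl) (fun n => le_rfl) (hbR i hi)
      (bt := 1) (fun n => by simp) (hR i hi) h1
    simp only [one_mul] at h2
    refine h2.trans ?_
    rw [hG]
    linarith only
  have hOle : ∀ i ∈ 𝒜, ∀ j ∈ 𝒜, i ≠ j →
      |∑' n : ℤ, Wt N n * v n * (rP (φ i) (c i) X n * rP (φ j) (c j) X n)| ≤ O * (1 * 1) := by
    intro i hi j hj hij
    have hE0 : ∀ m : ℤ, 0 ≤ Ev th1 D m := fun m => by rw [Ev_th1 hD1]; exact zero_le_one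
    have hE00 : ∀ m : ℤ, 0 ≤ Ev t0 D m := fun m => (xx_nonneg _ _).trans (hx0 m).1
    have h1 := ofd1 N D X (by omega) hD1 hDη hX φ0 (φ i) (φ j) hφ0 (h𝒜 i hi).1 (h𝒜 j hj).1
      (hdis i hi j hj hij) (P0 N ε₁) (P0 N ε₁) (P0 N ε₁) hP0p hP0p hP0p t0 th1 th1
      (by rw [← hL]; exact ht0) (by rw [← hL]; exact hth0) (by rw [← hL]; exact hth0)
      hE00 hE0 hE0 (c i) (c j) (hc i hi).1 (hc j hj).1
      (fun d hd => hT i hi d ((hc i hi).2.1 d hd))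
      (fun d hd => hT j hj d ((hc j hj).2.1 d hd))
    have e5 : ∑' n : ℤ, Wt N n * v n * (rP (φ i) (c i) X n * rP (φ j) (c j) X n) =
        ∑' n : ℤ, Wt N n * (Ev t0 D (φ0 n) * (Ev th1 D (φ i n) * Ev th1 D (φ j n))) *
        (rP (φ i) (c i) X n * rP (φ j) (c j) X n) := by
      refine tsum_congr fun n => ?_
      rw [hvn, Ev_th1 hD1, Ev_th1 hD1]
      ring
    rw [e5, hO, mul_one, mul_one]
    exact h1
  have hdu := duS (fun n : ℤ => Wt N n * v n) hw0 (Icc 1 N) f hw25 𝒜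
    (fun i n => rP (φ i) (c i) X n)
    (fun i hi j hj => by
      refine summ_v (K := (X : ℝ) * X) hNge1 hvb (fun n => ?_)
      rw [abs_mul]
      exact mul_le_mul (hbR i hi n) (hbR j hj n) (abs_nonneg _) (Nat.cast_nonneg _))
    (fun _ => 1) (fun i _ => zero_le_one) G O hO0 hGle hOle
  simp only [sum_const, nsmul_eq_mul, mul_one] at hdu
  -- the end
  obtain ⟨S, hS⟩ : ∃ S : ℝ, S = ∑ i ∈ 𝒜, |∑ p ∈ Icc 1 N, f p * rP (φ i) (c i) X p| := ⟨_, rfl⟩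
  have hSdu : S ^ 2 ≤ 25 * (∑ p ∈ Icc 1 N, f p ^ 2) * (G * 𝒜.card + O * (𝒜.card : ℝ) ^ 2) := by
    rw [hS]
    exact hdu
  have hSa : ∑ i ∈ 𝒜, ∑ d ∈ T i, |DP (φ i) f N d| ≤ S + (𝒜.card : ℝ) * (k * X) := by
    calc _ ≤ ∑ i ∈ 𝒜, (|∑ p ∈ Icc 1 N, f p * rP (φ i) (c i) X p| + k * X) :=
          sum_le_sum fun i hi => (hc i hi).2.2
      _ = _ := by rw [sum_add_distrib, sum_const, nsmul_eq_mul, hS]
  have hSa0 : 0 ≤ ∑ i ∈ 𝒜, ∑ d ∈ T i, |DP (φ i) f N d| :=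
    sum_nonneg fun i _ => sum_nonneg fun d _ => abs_nonneg _
  have h1 := pow_le_pow_left₀ hSa0 hSa 2
  have hXX : (X : ℝ) ^ 2 ≤ (N : ℝ) ^ (49 / 50 : ℝ) := by
    have h2 := pow_le_pow_left₀ (Nat.cast_nonneg X) hXθ 2
    rw [← Real.rpow_natCast ((N : ℝ) ^ (49 / 100 : ℝ)) 2, ← Real.rpow_mul hN0.le] at h2
    norm_num at h2
    exact h2
  rw [← hV0def]
  obtain ⟨F, hF⟩ : ∃ F : ℝ, F = ∑ p ∈ Icc 1 N, f p ^ 2 := ⟨_, rfl⟩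
  have hF0 : 0 ≤ F := by rw [hF]; exact sum_nonneg fun _ _ => sq_nonneg _
  rw [← hF] at hSdu ⊢
  obtain ⟨m, hm⟩ : ∃ m : ℝ, m = 𝒜.card := ⟨_, rfl⟩
  have hm0 : 0 ≤ m := by rw [hm]; exact Nat.cast_nonneg _
  rw [← hm] at hSdu h1 ⊢
  have h2 : (S + m * (k * X)) ^ 2 ≤ 2 * S ^ 2 + 2 * (m * (k * X)) ^ 2 := by
    nlinarith only [sq_nonneg (S - m * (k * X))]
  have h3 : (m * (k * X)) ^ 2 ≤ (k : ℝ) ^ 2 * (m ^ 2 * (N : ℝ) ^ (49 / 50 : ℝ)) := by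
    have : (m * (k * X)) ^ 2 = (k : ℝ) ^ 2 * (m ^ 2 * (X : ℝ) ^ 2) := by ring
    rw [this]
    gcongr
  have h4 : 25 * F * (G * m + O * m ^ 2) =
      F * (250 * K ^ 2 * (V0 * N * m) + 25 * CO * ((N : ℝ) ^ (1 - η) * m ^ 2)) := by
    rw [hG, hO]
    ring
  obtain ⟨a, ha⟩ : ∃ a : ℝ, a = F * (V0 * N * m) := ⟨_, rfl⟩
  obtain ⟨b, hb⟩ : ∃ b : ℝ, b = F * ((N : ℝ) ^ (1 - η) * m ^ 2) := ⟨_, rfl⟩
  obtain ⟨g, hg⟩ : ∃ g : ℝ, g = m ^ 2 * (N : ℝ) ^ (49 / 50 : ℝ) := ⟨_, rfl⟩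
  have ha0 : 0 ≤ a := by rw [ha]; positivity
  have hb0 : 0 ≤ b := by rw [hb]; positivity
  have hg0 : 0 ≤ g := by rw [hg]; positivity
  have e1 : F * (V0 * N * m + (N : ℝ) ^ (1 - η) * m ^ 2) + m ^ 2 * (N : ℝ) ^ (49 / 50 : ℝ) =
      a + b + g := by
    rw [ha, hb, hg]
    ring
  have e2 : F * (250 * K ^ 2 * (V0 * N * m) + 25 * CO * ((N : ℝ) ^ (1 - η) * m ^ 2)) =
      250 * K ^ 2 * a + 25 * CO * b := by
    rw [ha, hb]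
    ring
  rw [e1]
  rw [h4, e2] at hSdu
  rw [← hg] at h3
  have hk0 : (0 : ℝ) ≤ (k : ℝ) ^ 2 := by positivity
  have hKK : 0 ≤ K ^ 2 := by positivity
  have h6 : (500 * K ^ 2 + 50 * CO + 2 * (k : ℝ) ^ 2) * (a + b + g) =
      500 * (K ^ 2 * a) + 50 * (CO * b) + 2 * ((k : ℝ) ^ 2 * g) + 500 * (K ^ 2 * b) +
      500 * (K ^ 2 * g) + 50 * (CO * a) + 50 * (CO * g) + 2 * ((k : ℝ) ^ 2 * a) +
      2 * ((k : ℝ) ^ 2 * b) := by ring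
  have p1 : 0 ≤ K ^ 2 * b := mul_nonneg hKK hb0
  have p2 : 0 ≤ K ^ 2 * g := mul_nonneg hKK hg0
  have p3 : 0 ≤ CO * a := mul_nonneg hCO.le ha0
  have p4 : 0 ≤ CO * g := mul_nonneg hCO.le hg0
  have p5 : 0 ≤ (k : ℝ) ^ 2 * a := mul_nonneg hk0 ha0
  have p6 : 0 ≤ (k : ℝ) ^ 2 * b := mul_nonneg hk0 hb0
  rw [h6]
  nlinarith only [h1, h2, h3, hSdu, p1, p2, p3, p4, p5, p6]

end Pool.Agent.W23.PP
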