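import Pool.Agent.W23.PP.Fin7
import Pool.Agent.W23.PP.Sp1

/-!
PP project (helper23), sparse sets: almost prime values, up to a smooth factor.
-/

set_option autoImplicit false

namespace Pool.Agent.W23.PP

open Finset Filter
open Pool.Agent.H442R2
open Pool.Agent.H442R2.KF
open Pool.Agent.W23.DC
open Pool.Agent.W23.SG
open Pool.Agent.W23.PL
open Pool.Agent.W23.KT
open Pool.Agent.W23.KS

open Classical in
/-- the elements of `A` at which `φ` is, up to an `X^ε`-smooth factor, a product of at most `r` large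
primes -/
noncomputable def GS (A : Finset ℕ) (X : ℕ) (ε : ℝ) (r : ℕ) (φ : ℤ → ℤ) : Finset ℕ :=
  A.filter (fun n : ℕ => φ n ≠ 0 ∧ ∃ m s : ℕ, (φ n).natAbs = m * s ∧
    (∀ l : ℕ, l.Prime → l ∣ m → (l : ℝ) < (X : ℝ) ^ ε) ∧ s.primeFactorsList.length ≤ r ∧
    ∀ q ∈ s.primeFactors, (X : ℝ) ^ (1 / r : ℝ) ≤ q)

theorem sum_fA_sq {A : Finset ℕ} {N : ℕ} (hA : ∀ n ∈ A, 1 ≤ n ∧ n ≤ N) :
    ∑ n ∈ Icc 1 N, fA A n ^ 2 = A.card := by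
  classical
  have hsub : A ⊆ Icc 1 N := fun p hp => mem_Icc.2 (hA p hp)
  rw [← Finset.sum_subset hsub (fun p _ hpn => by
    unfold fA
    rw [if_neg hpn]
    norm_num)]
  have h1 : ∑ p ∈ A, fA A p ^ 2 = ∑ p ∈ A, (1 : ℝ) := by
    apply Finset.sum_congr rfl
    intro p hp
    unfold fA
    rw [if_pos hp]
    norm_num
  rw [h1]
  simp

/-- the numbers with no prime factor in `[N^ε₁, N^ζ)` -/
theorem sum_le_GS {k M : ℕ} {ζ : ℝ} (hζ : 0 < ζ) (hζ1 : ζ ≤ 1 / 10) {r : ℕ} (hk : 1 ≤ k)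
    (hr : ((M : ℝ) + 2 * k) / ζ ≤ r) {N : ℕ} (hN : 2 ≤ N) {φ : ℤ → ℤ} (hL : Sy k M N φ)
    {A : Finset ℕ} (hA : ∀ n ∈ A, 1 ≤ n ∧ n ≤ N) {ε₁ ε : ℝ} (hε : ε₁ ≤ ε) :
    ∑ n ∈ A, xx (pr N ε₁ ζ) (φ n) ≤ ((GS A N ε r φ).card : ℝ) + k := by
  classical
  have hN1 : (1 : ℝ) ≤ N := by exact_mod_cast (by omega : 1 ≤ N)
  set Z := A.filter (fun p : ℕ => φ p = 0) with hZ
  have h1 : ∀ n ∈ A, xx (pr N ε₁ ζ) (φ n) ≤ if n ∈ GS A N ε r φ ∪ Z then 1 else 0 := by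
    intro n hn
    unfold xx
    split_ifs with h2 h3 h3
    · exact le_rfl
    · exfalso
      apply h3
      rw [mem_union]
      by_cases h0 : φ n = 0
      · right
        rw [hZ, mem_filter]
        exact ⟨hn, h0⟩
      · left
        obtain ⟨m, s, e1, e2, e3, e4⟩ := structP hζ hζ1 hk hr hN hL (hA n hn).2
          (w := (N : ℝ) ^ ε₁) h0 (fun l hl hld => by
            by_contra hcon
            push Not at hcon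
            refine h2 l (mem_pr.2 ⟨⟨hl.pos, ?_⟩, hl, (le_tt_iff hN hl.pos _).2 hcon.1,
              (tt_lt_iff hN hl.pos _).2 hcon.2⟩) (Int.natCast_dvd.2 hld)
            have h4 : (N : ℝ) ^ ζ ≤ N := by
              calc (N : ℝ) ^ ζ ≤ (N : ℝ) ^ (1 : ℝ) :=
                    Real.rpow_le_rpow_of_exponent_le hN1 (by linarith)
                _ = N := Real.rpow_one _
            exact_mod_cast (hcon.2.le.trans h4))
        unfold GS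
        rw [mem_filter]
        exact ⟨hn, h0, m, s, e1, fun l hl hlm => (e2 l hl hlm).trans_le
          (Real.rpow_le_rpow_of_exponent_le hN1 hε), e3, e4⟩
    · exact zero_le_one
    · exact le_rfl
  have hsub : GS A N ε r φ ∪ Z ⊆ A := by
    apply Finset.union_subset
    · unfold GS
      exact Finset.filter_subset _ _
    · exact Finset.filter_subset _ _
  have h2 : ∑ n ∈ A, (if n ∈ GS A N ε r φ ∪ Z then (1 : ℝ) else 0) =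
      ((GS A N ε r φ ∪ Z).card : ℝ) := by
    rw [← Finset.sum_filter, Finset.filter_mem_eq_inter, Finset.inter_eq_right.2 hsub]
    simp
  have h3 : ((GS A N ε r φ ∪ Z).card : ℝ) ≤ (GS A N ε r φ).card + Z.card := by
    exact_mod_cast Finset.card_union_le _ _
  have h4 : (Z.card : ℝ) ≤ k := Pool.Agent.W959.PP.card_ze hL A
  calc _ ≤ ∑ n ∈ A, (if n ∈ GS A N ε r φ ∪ Z then (1 : ℝ) else 0) := Finset.sum_le_sum h1
    _ = ((GS A N ε r φ ∪ Z).card : ℝ) := h2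
    _ ≤ _ := by linarith

open Classical in
/-- **Sparse sets, functions** -/
theorem sparseP (hRTP : St_RTP) (hBHG : St_BHG) (hBXS : St_BXS) (hVLBP : St_VLBP) (k M : ℕ)
    (hk : 1 ≤ k) (hM : 1 ≤ M) :
    ∃ r : ℕ, 1 ≤ r ∧ ∀ κ : ℝ, 0 < κ → κ ≤ 1 → ∀ ε : ℝ, 0 < ε →
      ∃ (c C η : ℝ) (N₀ : ℕ), 0 < c ∧ 0 < C ∧ 0 < η ∧ ∀ N : ℕ, N₀ ≤ N →
      ∀ φ0 : ℤ → ℤ, Sy k M N φ0 → 0 < VP φ0 (P0 N κ) →
      ∀ A : Finset ℕ, (∀ n ∈ A, (1 ≤ n ∧ n ≤ N) ∧ xx (P0 N κ) (φ0 n) = 1) →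
      (N : ℝ) ^ (1 - η) ≤ A.card →
      ∀ (ι : Type) (𝒜 : Finset ι) (φ : ι → ℤ → ℤ),
      (∀ i ∈ 𝒜, Sy k M N (φ i) ∧ Cp M N φ0 (φ i)) →
      (∀ i ∈ 𝒜, ∀ j ∈ 𝒜, i ≠ j → Cp M N (φ i) (φ j)) →
      (∀ i ∈ 𝒜, ((GS A N ε r (φ i)).card : ℝ) < c * A.card) →
      (𝒜.card : ℝ) ≤ C * (VP φ0 (P0 N κ) * N / A.card) := by
  obtain ⟨ζ, c₀, hζ, hζ1, hc₀, H⟩ := sieveP hRTP hBHG k hk
  obtain ⟨εs, hεs, HB⟩ := hBXS k M hk hM
  obtain ⟨-, hVb⟩ := hVLBP k hk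
  obtain ⟨r, hr1, hr2⟩ : ∃ r : ℕ, 1 ≤ r ∧ ((M : ℝ) + 2 * k) / ζ ≤ r := by
    refine ⟨max 1 ⌈((M : ℝ) + 2 * k) / ζ⌉₊, le_max_left _ _, ?_⟩
    exact (Nat.le_ceil _).trans (by exact_mod_cast le_max_right _ _)
  refine ⟨r, hr1, fun κ hκ hκ1 ε hε => ?_⟩
  obtain ⟨ε₁, hε₁def⟩ : ∃ ε₁ : ℝ, ε₁ = min (min ε κ) (min εs (ζ / 2)) := ⟨_, rfl⟩
  have hε₁ : 0 < ε₁ := by
    rw [hε₁def]
    exact lt_min (lt_min hε hκ) (lt_min hεs (by linarith))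
  have hε₁ε : ε₁ ≤ ε := by rw [hε₁def]; exact (min_le_left _ _).trans (min_le_left _ _)
  have hε₁κ : ε₁ ≤ κ := by rw [hε₁def]; exact (min_le_left _ _).trans (min_le_right _ _)
  have hε₁s : ε₁ ≤ εs := by rw [hε₁def]; exact (min_le_right _ _).trans (min_le_left _ _)
  have hε₁ζ : ε₁ < ζ := by
    have : ε₁ ≤ ζ / 2 := by rw [hε₁def]; exact (min_le_right _ _).trans (min_le_right _ _)
    linarith
  obtain ⟨CV, hCV, HV⟩ := hVb κ hκ hκ1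
  obtain ⟨N₁, H1⟩ := H ε₁ hε₁ hε₁ζ
  obtain ⟨η, C, N₂, hη, hC, H2⟩ := HB ε₁ hε₁ hε₁s
  obtain ⟨N₃, H3⟩ := HV M ε₁ hε₁ hε₁κ
  obtain ⟨q, hq⟩ : ∃ q : ℝ, q = c₀ * ε₁ ^ k := ⟨_, rfl⟩
  have hq0 : 0 < q := by rw [hq]; positivity
  obtain ⟨κ₁, hκ₁⟩ : ∃ κ₁ : ℝ, κ₁ = ε₁ * q / 2 := ⟨_, rfl⟩
  have hκ₁0 : 0 < κ₁ := by rw [hκ₁]; positivity
  obtain ⟨N₄, H4⟩ : ∃ N₀ : ℕ, ∀ N : ℕ, N₀ ≤ N → C * (N : ℝ) ^ (-(η / 2)) ≤ κ₁ ^ 2 / 4 := by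
    have h1 : Filter.Tendsto (fun N : ℕ => C * (N : ℝ) ^ (-(η / 2))) Filter.atTop
        (nhds (C * 0)) :=
      ((tendsto_rpow_neg_atTop (by positivity : 0 < η / 2)).comp
        (tendsto_natCast_atTop_atTop (R := ℝ))).const_mul C
    rw [mul_zero] at h1
    exact Filter.eventually_atTop.1 (h1.eventually_le_const (show (0 : ℝ) < κ₁ ^ 2 / 4 by positivity))
  obtain ⟨N₅, H5⟩ : ∃ N₀ : ℕ, ∀ N : ℕ, N₀ ≤ N → C * (N : ℝ) ^ (-(1 / 100 : ℝ)) ≤ κ₁ ^ 2 / 4 := by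
    have h1 : Filter.Tendsto (fun N : ℕ => C * (N : ℝ) ^ (-(1 / 100 : ℝ))) Filter.atTop
        (nhds (C * 0)) :=
      ((tendsto_rpow_neg_atTop (by norm_num : (0 : ℝ) < 1 / 100)).comp
        (tendsto_natCast_atTop_atTop (R := ℝ))).const_mul C
    rw [mul_zero] at h1
    exact Filter.eventually_atTop.1 (h1.eventually_le_const (show (0 : ℝ) < κ₁ ^ 2 / 4 by positivity))
  obtain ⟨N₆, H6⟩ : ∃ N₀ : ℕ, ∀ N : ℕ, N₀ ≤ N → (k : ℝ) * (4 / q) ≤ (N : ℝ) ^ (1 / 2 : ℝ) := by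
    have h1 := (tendsto_rpow_atTop (by norm_num : (0 : ℝ) < 1 / 2)).comp
      (tendsto_natCast_atTop_atTop (R := ℝ))
    exact Filter.eventually_atTop.1 (h1.eventually_ge_atTop ((k : ℝ) * (4 / q)))
  refine ⟨q / 4, 2 * C / κ₁ ^ 2 * (CV * (1 / ε₁) ^ k), min (η / 2) (1 / 200),
    N₁ + N₂ + N₃ + N₄ + N₅ + N₆ + 2, by positivity, by positivity,
    lt_min (by positivity) (by norm_num), ?_⟩
  intro N hN φ0 hφ0 hW0 A hA hAc ι 𝒜 φ h𝒜 hdis hexc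
  have hNr : (2 : ℝ) ≤ N := by exact_mod_cast (by omega : 2 ≤ N)
  have hN0 : (0 : ℝ) < N := by linarith
  have hN1 : (1 : ℝ) ≤ N := by linarith
  obtain ⟨a, ha⟩ : ∃ a : ℝ, a = A.card := ⟨_, rfl⟩
  obtain ⟨W, hW⟩ : ∃ W : ℝ, W = VP φ0 (P0 N κ) := ⟨_, rfl⟩
  obtain ⟨V, hV⟩ : ∃ V : ℝ, V = VP φ0 (P0 N ε₁) := ⟨_, rfl⟩
  obtain ⟨hWV, hVW, -, -⟩ := H3 N (by omega) φ0 hφ0
  rw [← hW] at hW0 hWV hVW
  rw [← hV] at hWV hVW
  have hV0 : 0 < V := lt_of_lt_of_le hW0 hWV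
  have hAc1 : (N : ℝ) ^ (1 - η / 2) ≤ a := by
    rw [ha]
    refine le_trans (Real.rpow_le_rpow_of_exponent_le hN1 ?_) hAc
    have := min_le_left (η / 2) (1 / 200)
    linarith
  have hAc2 : (N : ℝ) ^ (199 / 200 : ℝ) ≤ a := by
    rw [ha]
    refine le_trans (Real.rpow_le_rpow_of_exponent_le hN1 ?_) hAc
    have := min_le_right (η / 2) (1 / 200)
    linarith
  have hAc3 : (N : ℝ) ^ (1 / 2 : ℝ) ≤ a :=
    (Real.rpow_le_rpow_of_exponent_le hN1 (by norm_num)).trans hAc2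
  have ha0 : 0 < a := lt_of_lt_of_le (Real.rpow_pos_of_pos hN0 _) hAc3
  have hkq : (k : ℝ) ≤ q / 4 * a := by
    have h1 := (H6 N (by omega)).trans hAc3
    have h2 : (k : ℝ) = q / 4 * (k * (4 / q)) := by field_simp
    rw [h2]
    exact mul_le_mul_of_nonneg_left h1 (by positivity)
  have hlow : ∀ i ∈ 𝒜, κ₁ * a ≤ ∑ d ∈ TBP N ε₁, |DP (φ i) (fA A) N d| := by
    intro i hi
    have h1 := H1 N (by omega) A (fun n hn => (hA n hn).1) M (φ i) (h𝒜 i hi).1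
    have h2 := sum_le_GS hζ hζ1 hk hr2 (by omega) (h𝒜 i hi).1 (fun n hn => (hA n hn).1) hε₁ε
    have h3 := hexc i hi
    rw [← ha] at h1 h3
    rw [← hq] at h1
    have h4 : q * a - (q / 4 * a + q / 4 * a) ≤
        1 / ε₁ * ∑ d ∈ TBP N ε₁, |DP (φ i) (fA A) N d| := by linarith
    have h5 := mul_le_mul_of_nonneg_left h4 hε₁.le
    have h6 : ε₁ * (1 / ε₁ * ∑ d ∈ TBP N ε₁, |DP (φ i) (fA A) N d|) =
        ∑ d ∈ TBP N ε₁, |DP (φ i) (fA A) N d| := by field_simp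
    rw [h6] at h5
    refine le_trans (le_of_eq ?_) h5
    rw [hκ₁]
    ring
  have hBX := H2 N (by omega) φ0 hφ0 (by rw [← hV]; exact hV0) ι 𝒜 φ h𝒜 hdis (fA A) (fA_le A)
    (fun n hn => by
      have hnA : n ∈ A := by
        by_contra h
        exact hn (by unfold fA; rw [if_neg h])
      have h1 := xx_ndvd (hA n hnA).2
      unfold xx
      rw [if_pos]
      intro l hl
      rw [mem_P0] at hl
      exact h1 l (mem_P0.2 ⟨hl.1, hl.2.1, hl.2.2.trans_le hε₁κ⟩))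
    (fun _ => TBP N ε₁) (fun i _ d hd => (mem_filter.1 hd).2)
  rw [sum_fA_sq (fun n hn => (hA n hn).1), ← ha, ← hV] at hBX
  obtain ⟨m, hm⟩ : ∃ m : ℝ, m = 𝒜.card := ⟨_, rfl⟩
  have hm0 : 0 ≤ m := by rw [hm]; exact Nat.cast_nonneg _
  have hs : m * (κ₁ * a) ≤ ∑ i ∈ 𝒜, ∑ d ∈ TBP N ε₁, |DP (φ i) (fA A) N d| := by
    rw [hm, ← nsmul_eq_mul]
    exact card_nsmul_le_sum _ _ _ hlow
  rw [← hm] at hBX
  have h1 := (pow_le_pow_left₀ (by positivity) hs 2).trans hBX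
  have h2 : C * (N : ℝ) ^ (1 - η) ≤ κ₁ ^ 2 / 4 * a := by
    have e1 : (N : ℝ) ^ (1 - η) = (N : ℝ) ^ (-(η / 2)) * (N : ℝ) ^ (1 - η / 2) := by
      rw [← Real.rpow_add hN0]
      congr 1
      ring
    rw [e1, ← mul_assoc]
    exact mul_le_mul (H4 N (by omega)) hAc1 (by positivity) (by positivity)
  have h3 : C * (N : ℝ) ^ (49 / 50 : ℝ) ≤ κ₁ ^ 2 / 4 * a ^ 2 := by
    have e1 : (N : ℝ) ^ (49 / 50 : ℝ) = (N : ℝ) ^ (-(1 / 100 : ℝ)) * (N : ℝ) ^ (99 / 100 : ℝ) := by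
      rw [← Real.rpow_add hN0]
      norm_num
    have e2 : (N : ℝ) ^ (99 / 100 : ℝ) ≤ a ^ 2 := by
      have e3 : (N : ℝ) ^ (99 / 100 : ℝ) ≤ ((N : ℝ) ^ (199 / 200 : ℝ)) ^ 2 := by
        rw [← Real.rpow_natCast ((N : ℝ) ^ (199 / 200 : ℝ)) 2, ← Real.rpow_mul hN0.le]
        exact Real.rpow_le_rpow_of_exponent_le hN1 (by norm_num)
      exact e3.trans (pow_le_pow_left₀ (by positivity) hAc2 2)
    rw [e1, ← mul_assoc]
    exact mul_le_mul (H5 N (by omega)) e2 (by positivity) (by positivity)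
  have h4 : (κ₁ ^ 2 / 2 * a ^ 2) * m ^ 2 ≤ C * a * (V * N) * m := by
    have e1 : C * (a * (V * N * m + (N : ℝ) ^ (1 - η) * m ^ 2) + m ^ 2 * (N : ℝ) ^ (49 / 50 : ℝ)) =
        C * a * (V * N) * m + (C * (N : ℝ) ^ (1 - η)) * (a * m ^ 2) +
          (C * (N : ℝ) ^ (49 / 50 : ℝ)) * m ^ 2 := by ring
    rw [e1] at h1
    have e2 : (C * (N : ℝ) ^ (1 - η)) * (a * m ^ 2) ≤ κ₁ ^ 2 / 4 * a * (a * m ^ 2) :=
      mul_le_mul_of_nonneg_right h2 (by positivity)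
    have e3 : (C * (N : ℝ) ^ (49 / 50 : ℝ)) * m ^ 2 ≤ κ₁ ^ 2 / 4 * a ^ 2 * m ^ 2 :=
      mul_le_mul_of_nonneg_right h3 (by positivity)
    have e4 : (m * (κ₁ * a)) ^ 2 = κ₁ ^ 2 * a ^ 2 * m ^ 2 := by ring
    rw [e4] at h1
    have e5 : κ₁ ^ 2 / 4 * a * (a * m ^ 2) = κ₁ ^ 2 / 4 * (a ^ 2 * m ^ 2) := by ring
    have e6 : κ₁ ^ 2 / 4 * a ^ 2 * m ^ 2 = κ₁ ^ 2 / 4 * (a ^ 2 * m ^ 2) := by ring
    have e7 : κ₁ ^ 2 * a ^ 2 * m ^ 2 = κ₁ ^ 2 * (a ^ 2 * m ^ 2) := by ring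
    have e8 : κ₁ ^ 2 / 2 * a ^ 2 * m ^ 2 = κ₁ ^ 2 / 2 * (a ^ 2 * m ^ 2) := by ring
    rw [e5] at e2
    rw [e6] at e3
    rw [e7] at h1
    rw [e8]
    linarith
  have h5 : m ≤ 2 * C / κ₁ ^ 2 * (V * N / a) := by
    rcases hm0.eq_or_lt with h | h
    · rw [← h]
      positivity
    · by_contra hcon
      push Not at hcon
      have h6 : (κ₁ ^ 2 / 2 * a ^ 2 * m) * (2 * C / κ₁ ^ 2 * (V * N / a)) <
          (κ₁ ^ 2 / 2 * a ^ 2 * m) * m := mul_lt_mul_of_pos_left hcon (by positivity)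
      have h7 : (κ₁ ^ 2 / 2 * a ^ 2 * m) * (2 * C / κ₁ ^ 2 * (V * N / a)) =
          C * a * (V * N) * m := by
        field_simp
      have h8 : (κ₁ ^ 2 / 2 * a ^ 2 * m) * m = (κ₁ ^ 2 / 2 * a ^ 2) * m ^ 2 := by ring
      rw [h7, h8] at h6
      linarith
  rw [← hW, ← hm, ← ha]
  calc m ≤ 2 * C / κ₁ ^ 2 * (V * N / a) := h5
    _ ≤ 2 * C / κ₁ ^ 2 * (CV * (1 / ε₁) ^ k * W * N / a) := by gcongr
    _ = _ := by ring

end Pool.Agent.W23.PP
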