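import Pool.Agent.W23.PP.Fin1
import Pool.Agent.W23.SG.Fin2

/-!
PP project (helper23): the weighted sieve for `h - n` at level `49/100`, arbitrary sets of integers.
(Adapted from `Pool/Agent/W23/SG/Fin2.lean`.)
-/

namespace Pool.Agent.W23.PP

open Finset
open Pool.Agent.H442R2
open Pool.Agent.H442R2.KF
open Pool.Agent.W23.DC
open Pool.Agent.W23.SG
open Pool.Agent.W23.KT

/-- the numerical inequality -/
def St_NU4 : Prop := 29 / 30 * (∫ x in (1 / 8 : ℝ)..(9 / 20),
      (1 - x / (9 / 20)) / (x * (49 / 100 - x))) < Real.log (73 / 25) / (49 / 100)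

theorem NU4 : St_NU4 := by
  unfold St_NU4
  have hmem : ∀ x ∈ Set.uIcc (1 / 8 : ℝ) (9 / 20), 1 / 8 ≤ x ∧ x ≤ 9 / 20 := by
    intro x hx
    rw [Set.uIcc_of_le (by norm_num)] at hx
    exact hx
  have hint : (∫ x in (1 / 8 : ℝ)..(9 / 20), (1 - x / (9 / 20)) / (x * (49 / 100 - x))) =
      (100 / 49 * Real.log (9 / 20) + 80 / 441 * Real.log (49 / 100 - 9 / 20)) -
        (100 / 49 * Real.log (1 / 8) + 80 / 441 * Real.log (49 / 100 - 1 / 8)) := by
    apply intervalIntegral.integral_eq_sub_of_hasDerivAt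
      (f := fun x => 100 / 49 * Real.log x + 80 / 441 * Real.log (49 / 100 - x))
    · intro x hx
      obtain ⟨h1, h2⟩ := hmem x hx
      have hx0 : x ≠ 0 := by linarith
      have hx1 : 49 / 100 - x ≠ 0 := by linarith
      have d1 : HasDerivAt (fun x => 100 / 49 * Real.log x) (100 / 49 * x⁻¹) x :=
        (Real.hasDerivAt_log hx0).const_mul _
      have d2 : HasDerivAt (fun x : ℝ => 49 / 100 - x) (-1) x := by
        simpa using (hasDerivAt_id x).const_sub (49 / 100)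
      have d3 : HasDerivAt (fun x => 80 / 441 * Real.log (49 / 100 - x))
          (80 / 441 * (-1 / (49 / 100 - x))) x := (d2.log hx1).const_mul _
      have d4 : HasDerivAt (fun x => 100 / 49 * Real.log x + 80 / 441 * Real.log (49 / 100 - x))
          (100 / 49 * x⁻¹ + 80 / 441 * (-1 / (49 / 100 - x))) x := d1.add d3
      refine d4.congr_deriv ?_
      have hx2 : 49 - 100 * x ≠ 0 := by
        intro h
        apply hx1
        linarith
      field_simp
      ring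
    · apply ContinuousOn.intervalIntegrable
      intro x hx
      obtain ⟨h1, h2⟩ := hmem x hx
      have hx0 : x ≠ 0 := by linarith
      have hx1 : 49 / 100 - x ≠ 0 := by linarith
      have : x * (49 / 100 - x) ≠ 0 := mul_ne_zero hx0 hx1
      apply ContinuousAt.continuousWithinAt
      fun_prop (disch := assumption)
  rw [hint]
  have e1 : Real.log (9 / 20) - Real.log (1 / 8) = Real.log (18 / 5) := by
    rw [← Real.log_div (by norm_num) (by norm_num)]
    norm_num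
  have e2 : Real.log (49 / 100 - 1 / 8) - Real.log (49 / 100 - 9 / 20) = Real.log (73 / 8) := by
    rw [← Real.log_div (by norm_num) (by norm_num)]
    norm_num
  have hB : 0 < Real.log (73 / 8) := Real.log_pos (by norm_num)
  have key : 145 * Real.log (18 / 5) < 12 * Real.log (73 / 8) + 150 * Real.log (73 / 25) := by
    have h1 : 145 * Real.log (18 / 5) = Real.log ((18 / 5) ^ 145) := by
      rw [Real.log_pow]
      norm_num
    have h2 : 12 * Real.log (73 / 8) + 150 * Real.log (73 / 25) =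
        Real.log ((73 / 8) ^ 12 * (73 / 25) ^ 150) := by
      rw [Real.log_mul (by positivity) (by positivity), Real.log_pow, Real.log_pow]
      norm_num
    rw [h1, h2]
    apply Real.log_lt_log (by positivity)
    norm_num
  linarith

/-- the sum over the middle primes -/
theorem QS4 (hMI : St_MI) (hMP : St_MP) (η₂ : ℝ) (hη : 0 < η₂) :
    ∃ N₀ : ℕ, ∀ N : ℕ, N₀ ≤ N →
      ∑ q ∈ pr N (1 / 8) (9 / 20), 1 / ((q : ℝ) - 1) * (c3 N q / (49 / 100 - tt N q)) ≤
      29 / 30 * (∫ x in (1 / 8 : ℝ)..(9 / 20), (1 - x / (9 / 20)) / (x * (49 / 100 - x))) + η₂ := by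
  set h : ℝ → ℝ := fun x => 29 / 30 * (1 - x / (9 / 20)) / (49 / 100 - x) with hh
  have hc : ContinuousOn h (Set.Icc (1 / 8) (9 / 20)) := by
    apply ContinuousOn.div
    · fun_prop
    · fun_prop
    · intro x hx
      have := hx.2
      linarith
  obtain ⟨H, hH⟩ := isCompact_Icc.exists_bound_of_continuousOn hc
  have hu := isCompact_Icc.uniformContinuousOn_of_continuous hc
  set κ : ℝ := η₂ / (2 * Real.log (1 / (1 / 8)) + 2) with hκ
  have hlog : 0 < Real.log (1 / (1 / 8)) := Real.log_pos (by norm_num)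
  have hκ0 : 0 < κ := by positivity
  rw [Metric.uniformContinuousOn_iff] at hu
  obtain ⟨ρ, hρ, hu⟩ := hu κ hκ0
  obtain ⟨η, hη0, HH⟩ := hMI (1 / 8) (ρ / 2) κ (max H 1) (by norm_num) (by norm_num) (by positivity)
    hκ0 (by positivity)
  obtain ⟨N₀, hN₀⟩ := mer_of hMP (1 / 8) (9 / 20) η (by norm_num) (by norm_num) hη0
  refine ⟨N₀, fun N hN => ?_⟩
  have key := HH (pr N (1 / 8) (9 / 20)) (tt N) (fun p => 1 / ((p : ℝ) - 1)) (9 / 20)
    (by norm_num) g_nonneg (hN₀ N hN) (1 / 8) (9 / 20) h le_rfl (by norm_num) le_rfl hc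
    (fun x hx => (hH x hx).trans (le_max_left _ _))
    (fun x hx y hy hxy => by
      have h1 := hu x hx y hy (by
        rw [Real.dist_eq]
        linarith)
      rw [Real.dist_eq] at h1
      exact h1.le)
  rw [pr_sub N (1 / 8) (9 / 20) (1 / 8) (9 / 20) le_rfl le_rfl] at key
  have e1 : κ * (2 * Real.log (1 / (1 / 8)) + 2) = η₂ := by
    rw [hκ]
    field_simp
  rw [e1] at key
  have e2 : ∫ x in (1 / 8 : ℝ)..(9 / 20), h x / x =
      29 / 30 * ∫ x in (1 / 8 : ℝ)..(9 / 20), (1 - x / (9 / 20)) / (x * (49 / 100 - x)) := by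
    rw [← intervalIntegral.integral_const_mul]
    apply intervalIntegral.integral_congr
    intro x hx
    rw [Set.uIcc_of_le (by norm_num)] at hx
    have h1 : x ≠ 0 := by
      have := hx.1
      intro h
      rw [h] at this
      linarith
    have h2 : 49 / 100 - x ≠ 0 := by
      have := hx.2
      intro h
      linarith
    simp only [hh]
    field_simp
  rw [e2] at key
  have := (abs_le.1 key).2
  simp only [hh] at this
  unfold c3
  linarith

/-- the second level and the sifting limit -/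
noncomputable def ta4 (N q : ℕ) : ℝ := 49 / 100 - tt N q
noncomputable def za4 (N q : ℕ) : ℝ := min (1 / 8) (ta4 N q)

theorem Wb_ge4 (hPT : St_PT) {N : ℕ} (hN : 2 ≤ N) (b : ℕ) {ε₁ : ℝ} (K n : ℕ) :
    LL (prb N b ε₁ (1 / 8)) (tt N) (ind n) K false (49 / 100) (1 / 8) 1 -
      ∑ q ∈ prb N b (1 / 8) (9 / 20), c3 N q *
        LL (prb N b ε₁ (1 / 8)) (tt N) (ind n) K true (ta4 N q) (za4 N q) q ≤ Wb N b ε₁ n := by
  classical
  have hS := sizb hN b ε₁ (1 / 8)
  have h1 := (hPT (prb N b ε₁ (1 / 8)) (tt N) hS n K (49 / 100) (1 / 8) 1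
    (fun p hp _ h => (hS.pr p hp).one_lt.ne' (Nat.dvd_one.1 h))).2
  have h2 : ∀ q ∈ prb N b (1 / 8) (9 / 20),
      (if ∀ p ∈ prb N b ε₁ (1 / 8), ¬ p ∣ n then (1 : ℝ) else 0) * (if q ∣ n then 1 else 0) ≤
      LL (prb N b ε₁ (1 / 8)) (tt N) (ind n) K true (ta4 N q) (za4 N q) q := by
    intro q hq
    have h3 := (hPT (prb N b ε₁ (1 / 8)) (tt N) hS n K (ta4 N q) (za4 N q) q (fun p hp _ h => by
      have h4 := (Nat.prime_dvd_prime_iff_eq (hS.pr p hp) (mem_prb.1 hq).1.2.1).1 h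
      have h5 := (mem_prb.1 hp).1.2.2.2
      have h6 := (mem_prb.1 hq).1.2.2.1
      rw [h4] at h5
      linarith)).1
    refine le_trans ?_ h3
    by_cases h7 : ∀ p ∈ prb N b ε₁ (1 / 8), ¬ p ∣ n
    · by_cases h8 : q ∣ n
      · rw [if_pos h7, if_pos h8, if_pos ⟨h8, fun p hp _ => h7 p hp⟩, one_mul]
      · rw [if_neg h8, mul_zero]
        split_ifs <;> norm_num
    · rw [if_neg h7, zero_mul]
      split_ifs <;> norm_num
  have h9 : LL (prb N b ε₁ (1 / 8)) (tt N) (ind n) K false (49 / 100) (1 / 8) 1 ≤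
      (if ∀ p ∈ prb N b ε₁ (1 / 8), ¬ p ∣ n then (1 : ℝ) else 0) := by
    refine h1.trans ?_
    by_cases h7 : ∀ p ∈ prb N b ε₁ (1 / 8), ¬ p ∣ n
    · rw [if_pos h7]
      split_ifs <;> norm_num
    · rw [if_neg h7, if_neg]
      rintro ⟨-, h8⟩
      exact h7 (fun p hp => h8 p hp (mem_prb.1 hp).1.2.2.2)
  have h10 : ∑ q ∈ prb N b (1 / 8) (9 / 20), c3 N q *
      ((if ∀ p ∈ prb N b ε₁ (1 / 8), ¬ p ∣ n then (1 : ℝ) else 0) * (if q ∣ n then 1 else 0)) ≤
      ∑ q ∈ prb N b (1 / 8) (9 / 20), c3 N q *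
        LL (prb N b ε₁ (1 / 8)) (tt N) (ind n) K true (ta4 N q) (za4 N q) q :=
    Finset.sum_le_sum fun q hq => mul_le_mul_of_nonneg_left (h2 q hq) (c3_nonneg q (prb_sub hq))
  have h11 : Wb N b ε₁ n = (if ∀ p ∈ prb N b ε₁ (1 / 8), ¬ p ∣ n then (1 : ℝ) else 0) -
      ∑ q ∈ prb N b (1 / 8) (9 / 20), c3 N q *
      ((if ∀ p ∈ prb N b ε₁ (1 / 8), ¬ p ∣ n then (1 : ℝ) else 0) * (if q ∣ n then 1 else 0)) := by
    unfold Wb
    rw [mul_sub, mul_one, Finset.mul_sum]
    congr 1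
    apply Finset.sum_congr rfl
    intro q _
    ring
  rw [h11]
  linarith

/-- densities `1/p` -/
theorem merd (hMP : St_MP) (ε₁ w η : ℝ) (hε : 0 < ε₁) (hw : w ≤ 1) (hη : 0 < η) :
    ∃ N₀ : ℕ, ∀ N : ℕ, N₀ ≤ N →
      Mer (prb N 1 ε₁ w) (tt N) (fun p => 1 / (p : ℝ)) ε₁ w η := by
  classical
  obtain ⟨N₀, H⟩ := merb hMP ε₁ w (η / 2) hε hw (by positivity)
  have hlim : Filter.Tendsto (fun N : ℕ => 4 * (N : ℝ) ^ (-ε₁)) Filter.atTop (nhds (4 * 0)) :=
    ((tendsto_rpow_neg_atTop hε).comp (tendsto_natCast_atTop_atTop (R := ℝ))).const_mul _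
  rw [mul_zero] at hlim
  obtain ⟨N₁, hN₁⟩ := Filter.eventually_atTop.1
    (hlim.eventually_le_const (show (0 : ℝ) < η / 2 by positivity))
  refine ⟨max (max N₀ N₁) 2, fun N hN c d hc hcd hd => ?_⟩
  have hNN₀ : N₀ ≤ N := ((le_max_left _ _).trans (le_max_left _ _)).trans hN
  have hNN₁ : N₁ ≤ N := ((le_max_right _ _).trans (le_max_left _ _)).trans hN
  have hN2 : 2 ≤ N := (le_max_right _ _).trans hN
  have hN1 : (1 : ℝ) ≤ N := by exact_mod_cast (by omega : 1 ≤ N)
  have hN0 : (0 : ℝ) < N := by linarith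
  have h1 := H N hNN₀ 1 le_rfl (Nat.one_le_pow _ _ (by omega)) c d hc hcd hd
  set S := (prb N 1 ε₁ w).filter (fun p => c ≤ tt N p ∧ tt N p < d) with hS
  have hSp : ∀ p ∈ S, p.Prime ∧ (N : ℝ) ^ ε₁ ≤ p := by
    intro p hp
    rw [hS, mem_filter, mem_prb] at hp
    exact ⟨hp.1.1.2.1, (le_tt_iff hN2 hp.1.1.2.1.pos _).1 hp.1.1.2.2.1⟩
  have hy0 : 0 < (N : ℝ) ^ ε₁ := by positivity
  obtain ⟨m, hm⟩ : ∃ m : ℕ, m = ⌈(N : ℝ) ^ ε₁⌉₊ := ⟨_, rfl⟩
  have hm1 : 1 ≤ m := by rw [hm]; exact Nat.ceil_pos.2 hy0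
  have hmy : (N : ℝ) ^ ε₁ ≤ m := by rw [hm]; exact Nat.le_ceil _
  have h2 : ∑ p ∈ S, (1 / ((p : ℝ) - 1) - 1 / (p : ℝ)) ≤ 4 * (N : ℝ) ^ (-ε₁) := by
    calc ∑ p ∈ S, (1 / ((p : ℝ) - 1) - 1 / (p : ℝ)) ≤ ∑ p ∈ S, 2 * ((p : ℝ) ^ 2)⁻¹ := by
          apply Finset.sum_le_sum
          intro p hp
          have h3 : (2 : ℝ) ≤ p := by exact_mod_cast (hSp p hp).1.two_le
          have h4 : 1 / ((p : ℝ) - 1) - 1 / (p : ℝ) = 1 / (((p : ℝ) - 1) * p) := by
            have : (p : ℝ) - 1 ≠ 0 := by linarith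
            field_simp
            ring
          rw [h4, ← div_eq_mul_inv, div_le_div_iff₀ (by nlinarith) (by positivity)]
          nlinarith
      _ ≤ ∑ p ∈ Ioo (m - 1) (N + 1), 2 * ((p : ℝ) ^ 2)⁻¹ := by
          apply Finset.sum_le_sum_of_subset_of_nonneg
          · intro p hp
            rw [mem_Ioo]
            have h3 : m ≤ p := by
              rw [hm]
              exact Nat.ceil_le.2 (hSp p hp).2
            have h4 : p ≤ N := by
              rw [hS, mem_filter, mem_prb] at hp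
              exact hp.1.1.1.2
            omega
          · intro p _ _
            positivity
      _ = 2 * ∑ p ∈ Ioo (m - 1) (N + 1), ((p : ℝ) ^ 2)⁻¹ := by rw [Finset.mul_sum]
      _ ≤ 2 * (2 / (((m - 1 : ℕ) : ℝ) + 1)) :=
          mul_le_mul_of_nonneg_left (sum_Ioo_inv_sq_le (α := ℝ) _ _) (by norm_num)
      _ = 4 / (m : ℝ) := by
          have : ((m - 1 : ℕ) : ℝ) + 1 = m := by
            rw [Nat.cast_sub hm1]
            push_cast
            ring
          rw [this]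
          ring
      _ ≤ 4 / (N : ℝ) ^ ε₁ := div_le_div_of_nonneg_left (by norm_num) hy0 hmy
      _ = _ := by rw [Real.rpow_neg hN0.le, div_eq_mul_inv]
  have h3 : 0 ≤ ∑ p ∈ S, (1 / ((p : ℝ) - 1) - 1 / (p : ℝ)) := by
    apply Finset.sum_nonneg
    intro p hp
    have h3 : (2 : ℝ) ≤ p := by exact_mod_cast (hSp p hp).1.two_le
    rw [sub_nonneg]
    exact one_div_le_one_div_of_le (by linarith) (by linarith)
  rw [Finset.sum_sub_distrib] at h2 h3
  have h4 := hN₁ N hNN₁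
  rw [abs_le] at h1 ⊢
  constructor <;> linarith [h1.1, h1.2]

/-- like `h - n`: the density of `d ∣ φ n` is `1/d` -/
def Li (φ : ℤ → ℤ) : Prop := ∀ d : ℕ, 1 ≤ d → rh φ d = 1 / (d : ℝ)

theorem Li_sub (h : ℤ) : Li (fun n => h - n) := by
  classical
  intro d hd
  have hd0 : (d : ℤ) ≠ 0 := by exact_mod_cast (by omega : d ≠ 0)
  have hdp : (0 : ℤ) < d := by exact_mod_cast hd
  have : nr (fun n => h - n) d = 1 := by
    unfold nr
    rw [Finset.card_eq_one]
    refine ⟨(h % d).toNat, ?_⟩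
    have h1 := Int.emod_nonneg h hd0
    have h2 := Int.emod_lt_of_pos h hdp
    ext a
    rw [mem_filter, mem_range, mem_singleton]
    constructor
    · rintro ⟨h3, h4⟩
      have h5 : h % d = (a : ℤ) % d := (Int.emod_emod_of_dvd h (dvd_refl _) ▸
        (Int.emod_emod_of_dvd h (dvd_refl _))) ▸ (Int.emod_eq_emod_iff_emod_sub_eq_zero.2
          (Int.emod_eq_zero_of_dvd h4))
      have h6 : (a : ℤ) % d = a := Int.emod_eq_of_lt (by omega) (by exact_mod_cast h3)
      rw [h6] at h5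
      omega
    · rintro rfl
      refine ⟨by omega, ?_⟩
      rw [Int.toNat_of_nonneg h1]
      exact Int.dvd_self_sub_emod
  unfold rh
  rw [this]
  norm_num

theorem countD {N : ℕ} {A : Finset ℕ} (hA : ∀ n ∈ A, 1 ≤ n ∧ n ≤ N) {φ : ℤ → ℤ} (hφ : Li φ)
    (e : ℕ) (he : 1 ≤ e) :
    ∑ p ∈ A, ind (φ p).natAbs e = (A.card : ℝ) * (1 / (e : ℝ)) + DP φ (fA A) N e := by
  classical
  rw [← hφ e he, ← countP hA φ e]
  apply Finset.sum_congr rfl
  intro p _
  unfold ind
  have : (e ∣ (φ p).natAbs) ↔ ((e : ℤ) ∣ φ p) := by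
    rw [Int.natCast_dvd]
  simp only [this]

end Pool.Agent.W23.PP
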