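import Pool.Agent.W23.PP.Wt1

/-!
PP project (helper23): the weighted sieve for `h - n` at level `49/100`, arbitrary sets of integers.
(Adapted from `Pool/Agent/W23/SG/Fin2.lean`.)
-/

namespace Pool.Agent.W23.PP

open Finset
open Pool.Agent.H442R2
open Pool.Agent.H442R2.KF
open Pool.Agent.W23.DC
open Pool.Agent.W23.SG
open Pool.Agent.W23.KT

theorem countD' {N : ℕ} {A : Finset ℕ} (hA : ∀ n ∈ A, 1 ≤ n ∧ n ≤ N) {φ : ℤ → ℤ} (hφ : Li φ)
    (e : ℕ) :
    ∑ p ∈ A, ind (φ p).natAbs e = (A.card : ℝ) * (1 / (e : ℝ)) + DP φ (fA A) N e := by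
  classical
  have h1 : rh φ e = 1 / (e : ℝ) := by
    rcases Nat.eq_zero_or_pos e with h | h
    · subst h
      unfold rh
      simp
    · exact hφ e h
  rw [← h1, ← countP hA φ e]
  apply Finset.sum_congr rfl
  intro p _
  unfold ind
  have : (e ∣ (φ p).natAbs) ↔ ((e : ℤ) ∣ φ p) := by
    rw [Int.natCast_dvd]
  simp only [this]

theorem inv_mul4 (P : Finset ℕ) : ∀ d, ∀ p ∈ P, ¬ p ∣ d →
    (fun e : ℕ => 1 / (e : ℝ)) (d * p) = (fun e : ℕ => 1 / (e : ℝ)) d * (1 / (p : ℝ)) := by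
  intro d p hp hpd
  simp only
  push_cast
  rw [one_div_mul_one_div]

/-- the recursion for the counting function of `A` -/
theorem LLL4 (hLN : St_LN) {N : ℕ} (hN : 2 ≤ N) {ε₁ : ℝ} {A : Finset ℕ}
    (hA : ∀ p ∈ A, 1 ≤ p ∧ p ≤ N) {φ : ℤ → ℤ} (hφ : Li φ) (K : ℕ) (b : Bool) (τ ζ : ℝ) (d : ℕ)
    (hd : ∀ p ∈ prb N 1 ε₁ (1 / 8), tt N p < ζ → ¬ p ∣ d) :
    ∑ p ∈ A, LL (prb N 1 ε₁ (1 / 8)) (tt N) (ind (φ p).natAbs) K b τ ζ d =
      (A.card : ℝ) * (1 / (d : ℝ) *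
        MM (prb N 1 ε₁ (1 / 8)) (tt N) (fun p => 1 / (p : ℝ)) K b τ ζ) +
      LL (prb N 1 ε₁ (1 / 8)) (tt N) (DP φ (fA A) N) K b τ ζ d := by
  rw [← hLN.1 (prb N 1 ε₁ (1 / 8)) (tt N) A (fun p => ind (φ p).natAbs) K b τ ζ d]
  have h1 : (fun e => ∑ p ∈ A, ind (φ p).natAbs e) =
      (fun e => (A.card : ℝ) * (fun e : ℕ => 1 / (e : ℝ)) e + DP φ (fA A) N e) := by
    funext e
    exact countD' hA hφ e
  rw [h1, hLN.2.1 (prb N 1 ε₁ (1 / 8)) (tt N) (A.card : ℝ) (fun e : ℕ => 1 / (e : ℝ))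
    (DP φ (fA A) N) K b τ ζ d,
    hLN.2.2 (prb N 1 ε₁ (1 / 8)) (tt N) (sizb hN _ _ _) (fun p => 1 / (p : ℝ))
      (fun e : ℕ => 1 / (e : ℝ)) (inv_mul4 _) K b τ ζ d hd]

theorem TBP_of {N : ℕ} (hN : 2 ≤ N) {ε₁ : ℝ} {e : ℕ}
    (he : Squarefree e) (h1 : 1 < e) (hp : ∀ p ∈ e.primeFactors, ε₁ ≤ tt N p)
    (hs : sz (tt N) e ≤ 49 / 100) : e ∈ TBP N ε₁ := by
  classical
  have hN1 : (1 : ℝ) < N := by exact_mod_cast (by omega : 1 < N)
  have h0 : e ≠ 0 := by omega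
  have hle : e ≤ ⌊(N : ℝ) ^ (49 / 100 : ℝ)⌋₊ := by
    apply Nat.le_floor
    rw [sz_eq hN he h0]
    exact Real.rpow_le_rpow_of_exponent_le hN1.le hs
  unfold TBP
  rw [mem_filter, mem_Icc]
  exact ⟨⟨h1.le, hle⟩, h1, hle, he, fun p hpp hpe => hp p (Nat.mem_primeFactors.2 ⟨hpp, hpe, h0⟩)⟩

/-- the first error term -/
theorem err1w {N : ℕ} (hN : 2 ≤ N) {ε₁ : ℝ} (hε : 0 < ε₁) (f : ℕ → ℝ) (φ : ℤ → ℤ) :
    ∑ e ∈ EE (prb N 1 ε₁ (1 / 8)) (tt N) (49 / 100) (1 / 8), |DP φ f N (1 * e)| ≤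
      ∑ d ∈ TBP N ε₁, |DP φ f N d| := by
  classical
  have h1 : ∑ e ∈ EE (prb N 1 ε₁ (1 / 8)) (tt N) (49 / 100) (1 / 8), |DP φ f N (1 * e)| =
      ∑ e ∈ (EE (prb N 1 ε₁ (1 / 8)) (tt N) (49 / 100) (1 / 8)).filter (fun e => 1 < e),
        |DP φ f N e| := by
    rw [Finset.sum_filter]
    apply Finset.sum_congr rfl
    intro e he
    rw [one_mul]
    split_ifs with h
    · rfl
    · have h0 := (mem_EEb he).1
      have : e = 1 := by omega
      rw [this, DP_one, abs_zero]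
  rw [h1]
  apply Finset.sum_le_sum_of_subset_of_nonneg
  · intro e he
    rw [mem_filter] at he
    obtain ⟨h2, h3, h4, h5⟩ := mem_EEb he.1
    exact TBP_of hN h3 he.2 (fun p hp => (h4 p hp).1)
      (sz_of_wfac (by norm_num) h2 h5 (fun p hp => lt_of_lt_of_le hε (h4 p hp).1))
  · intro _ _ _
    exact abs_nonneg _

/-- the second error term -/
theorem err2w {N : ℕ} (hN : 2 ≤ N) {ε₁ : ℝ} (hε : 0 < ε₁) (hε2 : ε₁ ≤ 1 / 25)
    (f : ℕ → ℝ) (φ : ℤ → ℤ) :
    ∑ q ∈ prb N 1 (1 / 8) (9 / 20),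
      ∑ e ∈ EE (prb N 1 ε₁ (1 / 8)) (tt N) (ta4 N q) (za4 N q), |DP φ f N (q * e)| ≤
      ∑ d ∈ TBP N ε₁, |DP φ f N d| := by
  classical
  rw [Finset.sum_sigma' (f := fun q e => |DP φ f N (q * e)|)]
  have hinj : Set.InjOn (fun x : (_ : ℕ) × ℕ => x.1 * x.2)
      ((prb N 1 (1 / 8) (9 / 20)).sigma
        (fun q => EE (prb N 1 ε₁ (1 / 8)) (tt N) (ta4 N q) (za4 N q)) :
          Finset ((_ : ℕ) × ℕ)) := by
    rintro ⟨q, e⟩ hqe ⟨q', e'⟩ hqe' heq
    rw [mem_coe, mem_sigma] at hqe hqe'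
    simp only at hqe hqe' heq
    have hq := (mem_prb.1 hqe.1).1
    have hq' := (mem_prb.1 hqe'.1).1
    obtain ⟨h1, h2, h3, h4⟩ := mem_EEb hqe.2
    obtain ⟨h1', h2', h3', h4'⟩ := mem_EEb hqe'.2
    have hqq : q = q' := by
      have hd : q ∣ q' * e' := heq ▸ Dvd.intro e rfl
      rcases (hq.2.1.dvd_mul).1 hd with h | h
      · exact (Nat.prime_dvd_prime_iff_eq hq.2.1 hq'.2.1).1 h
      · exfalso
        have := (h3' q (Nat.mem_primeFactors.2 ⟨hq.2.1, h, h1'⟩)).2.1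
        linarith [hq.2.2.1]
    subst hqq
    have : e = e' := Nat.eq_of_mul_eq_mul_left hq.2.1.pos heq
    rw [this]
  calc ∑ x ∈ (prb N 1 (1 / 8) (9 / 20)).sigma
        (fun q => EE (prb N 1 ε₁ (1 / 8)) (tt N) (ta4 N q) (za4 N q)), |DP φ f N (x.1 * x.2)|
      = ∑ d ∈ ((prb N 1 (1 / 8) (9 / 20)).sigma
        (fun q => EE (prb N 1 ε₁ (1 / 8)) (tt N) (ta4 N q) (za4 N q))).image
          (fun x => x.1 * x.2), |DP φ f N d| := by
        rw [Finset.sum_image hinj]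
    _ ≤ _ := by
        apply Finset.sum_le_sum_of_subset_of_nonneg
        · intro d hd
          rw [mem_image] at hd
          obtain ⟨⟨q, e⟩, hqe, rfl⟩ := hd
          rw [mem_sigma] at hqe
          simp only at hqe ⊢
          obtain ⟨hq, hqb⟩ := mem_prb.1 hqe.1
          obtain ⟨h1, h2, h3, h4⟩ := mem_EEb hqe.2
          have hqe' : ¬ q ∣ e := by
            intro h
            have := (h3 q (Nat.mem_primeFactors.2 ⟨hq.2.1, h, h1⟩)).2.1
            linarith [hq.2.2.1]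
          have hcop : Nat.Coprime q e := (hq.2.1.coprime_iff_not_dvd).2 hqe'
          apply TBP_of hN
          · exact (Nat.squarefree_mul hcop).2 ⟨hq.2.1.squarefree, h2⟩
          · have h5 := hq.2.1.one_lt
            have h6 : 1 ≤ e := Nat.pos_of_ne_zero h1
            nlinarith
          · intro p hp
            rw [Nat.primeFactors_mul hq.2.1.ne_zero h1, mem_union, hq.2.1.primeFactors,
              mem_singleton] at hp
            rcases hp with rfl | hp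
            · linarith [hq.2.2.1]
            · exact (h3 p hp).1
          · rw [SG.sz_mul hq.2.1 hqe' h1]
            have h7 : sz (tt N) e ≤ ta4 N q := sz_of_wfac (by
              unfold ta4
              linarith [hq.2.2.2]) h1 h4 (fun p hp => lt_of_lt_of_le hε (h3 p hp).1)
            unfold ta4 at h7
            linarith
        · intro _ _ _
          exact abs_nonneg _

theorem ta4_pos {N q : ℕ} {u : ℝ} (hq : q ∈ pr N u (9 / 20)) : 1 / 25 < ta4 N q := by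
  have h := (mem_pr.1 hq).2.2.2
  unfold ta4
  linarith

theorem ta4_le {N q : ℕ} (hq : q ∈ pr N (1 / 8) (9 / 20)) : ta4 N q ≤ 3 * za4 N q := by
  have h := (mem_pr.1 hq).2.2.1
  have h0 := ta4_pos hq
  unfold za4
  rcases le_total (1 / 8) (ta4 N q) with h1 | h1
  · rw [min_eq_left h1]
    unfold ta4
    linarith
  · rw [min_eq_right h1]
    linarith
theorem lowerW4 (hPT : St_PT) (hLN : St_LN) (hER : St_ER) (hMI : St_MI) (hMT : St_MT)
    (hMP : St_MP) (hNU : St_NU4) (A0 : ℝ) (F f : ℝ → ℝ) (hS : SF A0 F f) :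
    ∃ c₀ : ℝ, 0 < c₀ ∧ ∀ ε₁ : ℝ, 0 < ε₁ → ε₁ ≤ 1 / 25 → ∃ N₀ : ℕ, ∀ N : ℕ, N₀ ≤ N →
      ∀ A : Finset ℕ, (∀ p ∈ A, 1 ≤ p ∧ p ≤ N) → ∀ φ : ℤ → ℤ, Li φ →
      c₀ * ε₁ * A.card - 3 * ∑ d ∈ TBP N ε₁, |DP φ (fA A) N d| ≤
        ∑ p ∈ A, Wb N 1 ε₁ (φ p).natAbs := by
  classical
  set J : ℝ := 29 / 30 * (∫ x in (1 / 8 : ℝ)..(9 / 20),
      (1 - x / (9 / 20)) / (x * (49 / 100 - x))) with hJ
  set Z : ℝ := Real.log (73 / 25) / (49 / 100) with hZ
  have hJZ : J < Z := hNU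
  set c₂ : ℝ := Z - J with hc₂
  have hc₂0 : 0 < c₂ := by rw [hc₂]; linarith
  have hA0 := hS.pos
  refine ⟨A0 * c₂ / 2, by positivity, ?_⟩
  intro ε₁ hε hε2
  obtain ⟨η, hη0, HM⟩ := hMT A0 F f hS ε₁ (ε₁ * A0 * c₂ / 32) ⌈1 / ε₁⌉₊ hε (by linarith)
    (by positivity)
  obtain ⟨N₁, hN₁⟩ := merd hMP ε₁ (1 / 8) η hε (by norm_num) hη0
  obtain ⟨N₂, hN₂⟩ := QS4 hMI hMP (c₂ / 4) (by positivity)
  obtain ⟨N₃, hN₃⟩ := hMP (1 / 8) 1 (by norm_num) one_pos
  refine ⟨max (max N₁ N₂) (max N₃ 2), ?_⟩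
  intro N hN A hA φ hφ
  have hNN₁ : N₁ ≤ N := ((le_max_left _ _).trans (le_max_left _ _)).trans hN
  have hNN₂ : N₂ ≤ N := ((le_max_right _ _).trans (le_max_left _ _)).trans hN
  have hNN₃ : N₃ ≤ N := ((le_max_left _ _).trans (le_max_right _ _)).trans hN
  have hN2 : 2 ≤ N := ((le_max_right _ _).trans (le_max_right _ _)).trans hN
  set P := prb N 1 ε₁ (1 / 8) with hP
  set Q := prb N 1 (1 / 8) (9 / 20) with hQ
  set g : ℕ → ℝ := fun p => 1 / (p : ℝ) with hg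
  set K := ⌈1 / ε₁⌉₊ with hK
  set r := DP φ (fA A) N with hr
  set R := ∑ d ∈ TBP N ε₁, |r d| with hR
  have hR0 : 0 ≤ R := Finset.sum_nonneg fun _ _ => abs_nonneg _
  have hQpr : ∀ q ∈ Q, q ∈ pr N (1 / 8) (9 / 20) := fun q hq => prb_sub hq
  have hKε : 1 ≤ (K + 2) * ε₁ := by
    have h1 : 1 / ε₁ ≤ K := Nat.le_ceil _
    have h2 : 1 / ε₁ * ε₁ = 1 := by field_simp
    nlinarith
  have HM' := HM P (tt N) g (1 / 8) (by norm_num) (fun p hp => by
      simp only [hg]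
      positivity)
    (fun p hp => (mem_prb.1 hp).1.2.2.1) (hN₁ N hNN₁) K le_rfl
  -- the main terms
  have hminus : ε₁ * A0 * Z - ε₁ * A0 * c₂ / 32 ≤ MM P (tt N) g K false (49 / 100) (1 / 8) := by
    have h1 := (HM' (49 / 100) (1 / 8) (by linarith) (by linarith) le_rfl (by norm_num)
      (by norm_num)).2 (by norm_num)
    have h2 : ε₁ / (1 / 8) * f (49 / 100 / (1 / 8)) = ε₁ * A0 * Z := by
      rw [hS.f4 _ (by norm_num) (by norm_num), hZ]
      have : (49 / 100 / (1 / 8) - 1 : ℝ) = 73 / 25 := by norm_num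
      rw [this]
      ring
    rw [h2] at h1
    exact h1
  have hplus : ∀ q ∈ Q, MM P (tt N) g K true (ta4 N q) (za4 N q) ≤
      ε₁ * A0 / ta4 N q + ε₁ * A0 * c₂ / 32 := by
    intro q hq
    have h0 := ta4_pos (hQpr q hq)
    have h1 := ta4_le (hQpr q hq)
    have h2 : za4 N q ≤ ta4 N q := min_le_right _ _
    have h3 : ε₁ ≤ za4 N q := le_min (by linarith) (by linarith)
    have h4 : ta4 N q ≤ 1 := by
      have := (mem_prb.1 hq).1.2.2.1
      unfold ta4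
      linarith
    have h5 := (HM' (ta4 N q) (za4 N q) (by linarith) h3 (min_le_left _ _) h2 h4).1
    have h6 : 0 < za4 N q := by linarith
    have h7 : ε₁ / za4 N q * F (ta4 N q / za4 N q) = ε₁ * A0 / ta4 N q := by
      rw [hS.F3 _ ((one_le_div h6).2 h2) ((div_le_iff₀ h6).2 h1)]
      field_simp
    rw [h7] at h5
    exact h5
  -- the recursion, summed over `A`
  have e1 := LLL4 hLN hN2 (ε₁ := ε₁) hA hφ K false (49 / 100) (1 / 8) 1
    (fun p hp _ h => (mem_prb.1 hp).1.2.1.one_lt.ne' (Nat.dvd_one.1 h))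
  have e2 : ∀ q ∈ Q, ∑ p ∈ A, LL P (tt N) (ind (φ p).natAbs) K true (ta4 N q) (za4 N q) q =
      (A.card : ℝ) * (1 / (q : ℝ) * MM P (tt N) g K true (ta4 N q) (za4 N q)) +
        LL P (tt N) r K true (ta4 N q) (za4 N q) q := by
    intro q hq
    have h1 := LLL4 hLN hN2 (ε₁ := ε₁) hA hφ K true (ta4 N q) (za4 N q) q (fun p hp _ h => by
      have h4 := (Nat.prime_dvd_prime_iff_eq (mem_prb.1 hp).1.2.1 (mem_prb.1 hq).1.2.1).1 h
      have h5 := (mem_prb.1 hp).1.2.2.2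
      have h6 := (mem_prb.1 hq).1.2.2.1
      rw [h4] at h5
      linarith)
    exact h1
  have hsum : ∑ p ∈ A, (LL P (tt N) (ind (φ p).natAbs) K false (49 / 100) (1 / 8) 1 -
      ∑ q ∈ Q, c3 N q * LL P (tt N) (ind (φ p).natAbs) K true (ta4 N q) (za4 N q) q) ≤
      ∑ p ∈ A, Wb N 1 ε₁ (φ p).natAbs :=
    Finset.sum_le_sum fun p _ => Wb_ge4 hPT hN2 1 K _
  rw [Finset.sum_sub_distrib, Finset.sum_comm] at hsum
  have e3 : ∑ q ∈ Q, ∑ p ∈ A, c3 N q *
      LL P (tt N) (ind (φ p).natAbs) K true (ta4 N q) (za4 N q) q =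
      ∑ q ∈ Q, c3 N q * ((A.card : ℝ) * (1 / (q : ℝ) *
        MM P (tt N) g K true (ta4 N q) (za4 N q)) + LL P (tt N) r K true (ta4 N q) (za4 N q) q) := by
    apply Finset.sum_congr rfl
    intro q hq
    rw [← Finset.mul_sum, e2 q hq]
  rw [e3, e1] at hsum
  -- the errors
  have hE1 : |LL P (tt N) r K false (49 / 100) (1 / 8) 1| ≤ R :=
    (hER P (tt N) (sizb hN2 _ _ _) r K false (49 / 100) (1 / 8) 1 (by norm_num)
      (fun _ => by norm_num)).trans (err1w hN2 hε (fA A) φ)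
  have hE2 : ∑ q ∈ Q, c3 N q * LL P (tt N) r K true (ta4 N q) (za4 N q) q ≤ 29 / 30 * R := by
    calc ∑ q ∈ Q, c3 N q * LL P (tt N) r K true (ta4 N q) (za4 N q) q
        ≤ ∑ q ∈ Q, 29 / 30 * ∑ e ∈ EE P (tt N) (ta4 N q) (za4 N q), |r (q * e)| := by
          apply Finset.sum_le_sum
          intro q hq
          have h1 := hER P (tt N) (sizb hN2 _ _ _) r K true (ta4 N q) (za4 N q) q
            (by have := ta4_pos (hQpr q hq); linarith) (fun h => by simp at h)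
          have h2 := c3_nonneg q (hQpr q hq)
          have h3 := c3_le hN2 q (hQpr q hq)
          calc c3 N q * LL P (tt N) r K true (ta4 N q) (za4 N q) q
              ≤ c3 N q * |LL P (tt N) r K true (ta4 N q) (za4 N q) q| :=
                mul_le_mul_of_nonneg_left (le_abs_self _) h2
            _ ≤ 29 / 30 * ∑ e ∈ EE P (tt N) (ta4 N q) (za4 N q), |r (q * e)| :=
                mul_le_mul h3 h1 (abs_nonneg _) (by norm_num)
      _ = 29 / 30 * ∑ q ∈ Q, ∑ e ∈ EE P (tt N) (ta4 N q) (za4 N q), |r (q * e)| := by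
          rw [Finset.mul_sum]
      _ ≤ 29 / 30 * R := mul_le_mul_of_nonneg_left (err2w hN2 hε hε2 (fA A) φ) (by norm_num)
  -- the sum over `q`
  have hgg : ∀ q ∈ pr N (1 / 8) (9 / 20), g q ≤ 1 / ((q : ℝ) - 1) := by
    intro q hq
    have h2 : (2 : ℝ) ≤ q := by exact_mod_cast (mem_pr.1 hq).2.1.two_le
    simp only [hg]
    exact one_div_le_one_div_of_le (by linarith) (by linarith)
  have hg0 : ∀ q : ℕ, 0 ≤ g q := by
    intro q
    simp only [hg]
    positivity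
  have hq1 : ∑ q ∈ Q, g q * (c3 N q / ta4 N q) ≤ J + c₂ / 4 := by
    have h1 := hN₂ N hNN₂
    refine le_trans ?_ h1
    calc ∑ q ∈ Q, g q * (c3 N q / ta4 N q)
        ≤ ∑ q ∈ Q, 1 / ((q : ℝ) - 1) * (c3 N q / ta4 N q) := by
          apply Finset.sum_le_sum
          intro q hq
          have h2 := c3_nonneg q (hQpr q hq)
          have h3 := ta4_pos (hQpr q hq)
          have h5 : 0 < ta4 N q := by linarith
          exact mul_le_mul_of_nonneg_right (hgg q (hQpr q hq)) (by positivity)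
      _ ≤ ∑ q ∈ pr N (1 / 8) (9 / 20), 1 / ((q : ℝ) - 1) * (c3 N q / ta4 N q) := by
          apply Finset.sum_le_sum_of_subset_of_nonneg
          · intro q hq
            exact hQpr q hq
          · intro q hq _
            have h2 := c3_nonneg q hq
            have h3 := ta4_pos hq
            have h4 : 0 ≤ 1 / ((q : ℝ) - 1) := g_nonneg q hq
            have h5 : 0 < ta4 N q := by linarith
            positivity
      _ = _ := by
          simp only [ta4]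
  have hq2 : ∑ q ∈ Q, g q ≤ 3 := by
    have h1 := (abs_le.1 (hN₃ N hNN₃ (1 / 8) (9 / 20) le_rfl (by norm_num) (by norm_num))).2
    have h2 : Real.log (9 / 20 / (1 / 8)) ≤ 2 := by
      rw [Real.log_le_iff_le_exp (by norm_num)]
      have h3 := Real.add_one_le_exp (1 : ℝ)
      have h4 : Real.exp 2 = Real.exp 1 * Real.exp 1 := by
        rw [← Real.exp_add]
        norm_num
      nlinarith
    have h3 : ∑ q ∈ Q, g q ≤ ∑ q ∈ pr N (1 / 8) (9 / 20), 1 / ((q : ℝ) - 1) :=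
      (Finset.sum_le_sum fun q hq => hgg q (hQpr q hq)).trans
        (Finset.sum_le_sum_of_subset_of_nonneg (fun q hq => hQpr q hq)
          (fun q hq _ => g_nonneg q hq))
    linarith
  have hq3 : ∑ q ∈ Q, c3 N q * ((A.card : ℝ) * (1 / (q : ℝ) *
        MM P (tt N) g K true (ta4 N q) (za4 N q))) ≤
      (A.card : ℝ) * (ε₁ * A0 * (J + c₂ / 4) + ε₁ * A0 * c₂ / 32 * (29 / 30 * 3)) := by
    calc ∑ q ∈ Q, c3 N q * ((A.card : ℝ) * (1 / (q : ℝ) *
          MM P (tt N) g K true (ta4 N q) (za4 N q)))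
        ≤ ∑ q ∈ Q, (A.card : ℝ) * (ε₁ * A0 * (g q * (c3 N q / ta4 N q)) +
            ε₁ * A0 * c₂ / 32 * (29 / 30 * g q)) := by
          apply Finset.sum_le_sum
          intro q hq
          have h1 := hplus q hq
          have h2 := c3_nonneg q (hQpr q hq)
          have h3 := c3_le hN2 q (hQpr q hq)
          have h4 : 0 ≤ g q := hg0 q
          have h5 := ta4_pos (hQpr q hq)
          have h6 : (0 : ℝ) ≤ A.card := Nat.cast_nonneg _
          have h7 : c3 N q * (g q * MM P (tt N) g K true (ta4 N q) (za4 N q)) ≤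
              ε₁ * A0 * (g q * (c3 N q / ta4 N q)) + ε₁ * A0 * c₂ / 32 * (29 / 30 * g q) := by
            calc c3 N q * (g q * MM P (tt N) g K true (ta4 N q) (za4 N q))
                ≤ c3 N q * (g q * (ε₁ * A0 / ta4 N q + ε₁ * A0 * c₂ / 32)) := by gcongr
              _ = ε₁ * A0 * (g q * (c3 N q / ta4 N q)) +
                  ε₁ * A0 * c₂ / 32 * (c3 N q * g q) := by ring
              _ ≤ _ := by gcongr
          calc c3 N q * ((A.card : ℝ) * (1 / (q : ℝ) *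
                MM P (tt N) g K true (ta4 N q) (za4 N q)))
              = (A.card : ℝ) * (c3 N q * (g q * MM P (tt N) g K true (ta4 N q) (za4 N q))) := by
                simp only [hg]
                ring
            _ ≤ _ := mul_le_mul_of_nonneg_left h7 h6
      _ = (A.card : ℝ) * (ε₁ * A0 * (∑ q ∈ Q, g q * (c3 N q / ta4 N q)) +
            ε₁ * A0 * c₂ / 32 * (29 / 30 * ∑ q ∈ Q, g q)) := by
          rw [← Finset.mul_sum, Finset.sum_add_distrib, ← Finset.mul_sum, ← Finset.mul_sum,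
            ← Finset.mul_sum]
      _ ≤ _ := by
          have h1 : 0 ≤ ε₁ * A0 := by positivity
          have h2 : 0 ≤ ε₁ * A0 * c₂ / 32 := by positivity
          gcongr
  have e4 : ∑ q ∈ Q, c3 N q * ((A.card : ℝ) * (1 / (q : ℝ) *
        MM P (tt N) g K true (ta4 N q) (za4 N q)) + LL P (tt N) r K true (ta4 N q) (za4 N q) q) =
      ∑ q ∈ Q, c3 N q * ((A.card : ℝ) * (1 / (q : ℝ) *
        MM P (tt N) g K true (ta4 N q) (za4 N q))) +
      ∑ q ∈ Q, c3 N q * LL P (tt N) r K true (ta4 N q) (za4 N q) q := by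
    rw [← Finset.sum_add_distrib]
    apply Finset.sum_congr rfl
    intro q _
    ring
  rw [e4] at hsum
  have hA6 : (0 : ℝ) ≤ A.card := Nat.cast_nonneg _
  have hmain : (A.card : ℝ) * (ε₁ * A0 * Z - ε₁ * A0 * c₂ / 32) ≤
      (A.card : ℝ) * (1 / ((1 : ℕ) : ℝ) *
        MM P (tt N) g K false (49 / 100) (1 / 8)) := by
    apply mul_le_mul_of_nonneg_left _ hA6
    norm_num
    linarith
  have hE1' := (abs_le.1 hE1).1
  have hfin : A0 * c₂ / 2 * ε₁ * A.card ≤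
      (A.card : ℝ) * (ε₁ * A0 * Z - ε₁ * A0 * c₂ / 32) -
      (A.card : ℝ) * (ε₁ * A0 * (J + c₂ / 4) + ε₁ * A0 * c₂ / 32 * (29 / 30 * 3)) := by
    have h1 : (A.card : ℝ) * (ε₁ * A0 * Z - ε₁ * A0 * c₂ / 32) -
      (A.card : ℝ) * (ε₁ * A0 * (J + c₂ / 4) + ε₁ * A0 * c₂ / 32 * (29 / 30 * 3)) =
        (A.card : ℝ) * (ε₁ * A0 * c₂) * (1 - 1 / 32 - 1 / 4 - 29 / 320) := by
      rw [hc₂]
      ring
    rw [h1]
    have h2 : 0 ≤ (A.card : ℝ) * (ε₁ * A0 * c₂) := by positivity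
    nlinarith
  linarith

end Pool.Agent.W23.PP
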