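import Pool.Agent.W23.PP.Wt2
import Pool.Agent.W23.PP.Fin3
import Pool.Agent.W23.SG.Fin4

/-!
PP project (helper23): `h - n` on dense sets, products of few primes with an explicit bound.
-/

namespace Pool.Agent.W23.PP

open Finset Filter
open Pool.Agent.H442R2
open Pool.Agent.H442R2.KF
open Pool.Agent.W23.DC
open Pool.Agent.W23.SG
open Pool.Agent.W23.PL
open Pool.Agent.W23.KT
open Pool.Agent.W23.KS

/-- the function `h - n` -/
def ph (h : ℤ) : ℤ → ℤ := fun n => h - n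

theorem Per_ph (h : ℤ) : Per (ph h) := by
  intro m n
  unfold ph
  rw [show h - m - (h - n) = -(m - n) by ring]
  exact (dvd_neg).2 (dvd_refl _)

theorem Li_ph (h : ℤ) : Li (ph h) := Li_sub h

theorem Nv_ph (h : ℤ) : Nv 1 (ph h) := by
  intro v
  refine ⟨{h - v}, by simp, fun n hn => ?_⟩
  unfold ph at hn
  rw [mem_singleton]
  omega

theorem Sy_ph {N : ℕ} (hN : 2 ≤ N) {h : ℤ} (hh : |(h : ℝ)| ≤ (N : ℝ) ^ 2) : Sy 1 3 N (ph h) := by
  have hN2 : (2 : ℝ) ≤ N := by exact_mod_cast hN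
  refine ⟨Per_ph h, fun n => ?_, ⟨{h}, by simp, fun n hn => ?_⟩, fun p j hp hj => ?_⟩
  · unfold ph
    push_cast
    have h1 : |(h : ℝ) - n| ≤ |(h : ℝ)| + |(n : ℝ)| := abs_sub _ _
    have h2 : 0 ≤ |(n : ℝ)| := abs_nonneg _
    have h3 : (1 : ℝ) ≤ (N : ℝ) ^ 2 := one_le_pow₀ (by linarith)
    have h4 : (N : ℝ) ^ 2 ≤ (N : ℝ) ^ 3 := pow_le_pow_right₀ (by linarith) (by norm_num)
    rw [pow_one]
    nlinarith
  · unfold ph at hn
    rw [mem_singleton]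
    omega
  · refine ⟨{(h % ((p ^ j : ℕ) : ℤ)).toNat}, by simp, fun n hn => ⟨_, mem_singleton_self _, ?_⟩⟩
    have hpj : 0 < ((p ^ j : ℕ) : ℤ) := by exact_mod_cast pow_pos hp.pos j
    have h1 := Int.emod_nonneg h hpj.ne'
    rw [Int.toNat_of_nonneg h1]
    rw [show 1 * (j - 1) + 1 = j by omega] at hn
    unfold ph at hn
    have h2 : ((p ^ j : ℕ) : ℤ) ∣ h - h % ((p ^ j : ℕ) : ℤ) := Int.dvd_self_sub_emod
    have h3 : n - h % ((p ^ j : ℕ) : ℤ) = (h - h % ((p ^ j : ℕ) : ℤ)) - (h - n) := by ring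
    rw [h3]
    exact dvd_sub h2 hn

theorem Cp_ph {N : ℕ} (hN : 2 ≤ N) {h h' : ℤ} (hne : h ≠ h') (hh : |(h : ℝ)| ≤ (N : ℝ) ^ 2)
    (hh' : |(h' : ℝ)| ≤ (N : ℝ) ^ 2) : Cp 3 N (ph h) (ph h') := by
  have hN2 : (2 : ℝ) ≤ N := by exact_mod_cast hN
  refine ⟨h - h', sub_ne_zero.2 hne, ?_, fun n l _ h1 h2 => ?_⟩
  · push_cast
    have h1 : |(h : ℝ) - h'| ≤ |(h : ℝ)| + |(h' : ℝ)| := abs_sub _ _
    have h2 : (0 : ℝ) ≤ (N : ℝ) ^ 2 := by positivity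
    have h3 : (N : ℝ) ^ 3 = (N : ℝ) ^ 2 * N := by ring
    rw [h3]
    nlinarith
  · unfold ph at h1 h2
    have h3 : h - h' = (h - n) - (h' - n) := by ring
    rw [h3]
    exact dvd_sub h1 h2

theorem Cp_id_ph {N : ℕ} (hN : 2 ≤ N) {h : ℤ} (h0 : h ≠ 0) (hh : |(h : ℝ)| ≤ (N : ℝ) ^ 2) :
    Cp 3 N (fun n => n) (ph h) := by
  have hN2 : (2 : ℝ) ≤ N := by exact_mod_cast hN
  refine ⟨h, h0, hh.trans (pow_le_pow_right₀ (by linarith) (by norm_num)), fun n l _ h1 h2 => ?_⟩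
  unfold ph at h2
  have h3 : h = (h - n) + n := by ring
  rw [h3]
  exact dvd_add h2 h1

open Classical in
/-- the elements `n` of `A` such that `h - n` is a product of at most `r` large primes, up to a small
factor -/
noncomputable def GW (A : Finset ℕ) (X t r : ℕ) (h : ℤ) : Finset ℕ :=
  A.filter (fun n : ℕ => ∃ m s : ℕ, (h - n).natAbs = m * s ∧ 1 ≤ m ∧ (m : ℝ) ≤ Real.log X ^ t ∧
    1 < s ∧ s.primeFactorsList.length ≤ r ∧ ∀ q ∈ s.primeFactors, (X : ℝ) ^ (1 / 8 : ℝ) ≤ q)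

open Classical in
/-- the elements with a large square factor -/
noncomputable def SqW (A : Finset ℕ) (N : ℕ) (h : ℤ) : Finset ℕ :=
  A.filter (fun p : ℕ => lf (-h, 1) p ≠ 0 ∧ ∃ q : ℕ, q.Prime ∧ (N : ℝ) ^ (1 / 8 : ℝ) ≤ q ∧
      (q : ℝ) ≤ (N : ℝ) ^ (7 / 8 : ℝ) ∧ q ^ 2 ∣ (lf (-h, 1) p).natAbs)

theorem lf_ph (h n : ℤ) : (lf (-h, 1) n).natAbs = (ph h n).natAbs := by
  unfold lf ph
  push_cast
  rw [show -h + 1 * n = -(h - n) by ring, Int.natAbs_neg]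

open Classical in
theorem inclW (g : ℝ) (r : ℕ) (hg1 : 1 ≤ g) (hg2 : g ≤ 2) (hgr : g < 9 / 20 * ((r : ℝ) - 1 / 29)) :
    ∃ N₀ : ℕ, ∀ N : ℕ, N₀ ≤ N → ∀ (B u : ℕ) (ε₁ κ : ℝ), ε₁ ≤ 1 →
    ∀ (φ0 : ℤ → ℤ) (h : ℤ), |(h : ℝ)| ≤ (N : ℝ) ^ g → ∀ A : Finset ℕ,
    (∀ n ∈ A, (1 ≤ n ∧ n ≤ N) ∧ xx (P0 N κ) (φ0 n) = 1) →
    ∑ n ∈ AP A (P1 N B ε₁) (ph h), Wb N 1 ε₁ (ph h n).natAbs ≤
      ((GW A N (B * (1 * u)) r h).card : ℝ) + (SmP N B 1 u ε₁ κ φ0 (ph h)).card +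
        ((A.filter (fun n : ℕ => ((ph h n).natAbs : ℝ) ≤ Real.log N ^ (B * (1 * u)))).card +
          (SqW A N h).card) := by
  obtain ⟨N₁, HS⟩ := structg g r hg2 hgr
  refine ⟨max N₁ 3, fun N hN B u ε₁ κ hε1 φ0 h hh A hA => ?_⟩
  have hNN₁ : N₁ ≤ N := (le_max_left _ _).trans hN
  have hN3 : 3 ≤ N := (le_max_right _ _).trans hN
  have hN2 : 2 ≤ N := by omega
  have hN1 : (1 : ℝ) < N := by exact_mod_cast (by omega : 1 < N)
  have hN0 : (0 : ℝ) < N := by linarith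
  have hL : 0 < Real.log N := Real.log_pos hN1
  have h1 := sum_le_posb (N := N) (b := 1) (ε₁ := ε₁) (AP A (P1 N B ε₁) (ph h))
    (fun n : ℕ => (ph h n).natAbs)
  refine h1.trans ?_
  have h2 : (AP A (P1 N B ε₁) (ph h)).filter (fun n : ℕ => 0 < Wb N 1 ε₁ (ph h n).natAbs) ⊆
      (GW A N (B * (1 * u)) r h ∪ SmP N B 1 u ε₁ κ φ0 (ph h)) ∪
        (A.filter (fun n : ℕ => ((ph h n).natAbs : ℝ) ≤ Real.log N ^ (B * (1 * u))) ∪
          SqW A N h) := by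
    intro n hn
    rw [mem_filter] at hn
    obtain ⟨hnA', hnx⟩ := hn
    obtain ⟨hnA, hnx1⟩ := mem_filter.1 hnA'
    by_contra hno
    simp only [mem_union, not_or] at hno
    obtain ⟨⟨g1, g3⟩, g4, g5⟩ := hno
    apply g1
    unfold GW
    rw [mem_filter]
    refine ⟨hnA, ?_⟩
    have hbig : Real.log N ^ (B * (1 * u)) < ((ph h n).natAbs : ℝ) := by
      by_contra hcon
      exact g4 (mem_filter.2 ⟨hnA, not_lt.1 hcon⟩)
    have hpow0 : (0 : ℝ) ≤ Real.log N ^ (B * (1 * u)) := by positivity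
    have hn0 : (ph h n).natAbs ≠ 0 := by
      intro h0
      rw [h0, Nat.cast_zero] at hbig
      linarith
    have hne : ph h n ≠ 0 := by
      intro h0
      exact hn0 (Int.natAbs_eq_zero.2 h0)
    have hpp := (hA n hnA).1
    have hle : ((ph h n).natAbs : ℝ) ≤ 2 * (N : ℝ) ^ g := by
      have e1 : ((ph h n).natAbs : ℝ) = |(h : ℝ) - n| := by
        rw [Nat.cast_natAbs]
        unfold ph
        push_cast
        rfl
      have e2 : |(h : ℝ) - n| ≤ |(h : ℝ)| + |(n : ℝ)| := abs_sub _ _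
      have e3 : |(n : ℝ)| ≤ N := by
        rw [abs_of_nonneg (Nat.cast_nonneg _)]
        exact_mod_cast hpp.2
      have e4 : (N : ℝ) ≤ (N : ℝ) ^ g := by
        calc (N : ℝ) = (N : ℝ) ^ (1 : ℝ) := (Real.rpow_one _).symm
          _ ≤ _ := Real.rpow_le_rpow_of_exponent_le hN1.le hg1
      rw [e1]
      linarith
    have hsq : ∀ q : ℕ, q.Prime → (N : ℝ) ^ (1 / 8 : ℝ) ≤ q → (q : ℝ) ≤ (N : ℝ) ^ (7 / 8 : ℝ) →
        ¬ q ^ 2 ∣ (ph h n).natAbs := by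
      intro q hq hq1 hq2 hq3
      apply g5
      unfold SqW
      rw [mem_filter]
      refine ⟨hnA, ?_, q, hq, hq1, hq2, ?_⟩
      · intro h0
        apply hn0
        rw [← lf_ph, h0]
        rfl
      · rw [lf_ph]
        exact hq3
    obtain ⟨m, s, h3, h4, h5, h6⟩ := HS N hNN₁ 1 ε₁ (ph h n).natAbs hn0 hle hnx hsq
      (fun q hq _ h1 => hq.one_lt.ne' (Nat.dvd_one.1 h1))
    have hm0 : m ≠ 0 := by
      rintro rfl
      exact hn0 (by rw [h3, zero_mul])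
    have h4' : ∀ l : ℕ, l.Prime → l ∣ m → (l : ℝ) < Real.log N ^ B := by
      intro l hl hlm
      by_contra hcon
      rw [not_lt] at hcon
      have hl1 := h4 l hl hlm
      have hldi : (l : ℤ) ∣ ph h n := Int.natCast_dvd.2 (h3 ▸ hlm.mul_right s)
      have hlN : l ≤ N := by
        have h3 : (N : ℝ) ^ ε₁ ≤ N := by
          calc (N : ℝ) ^ ε₁ ≤ (N : ℝ) ^ (1 : ℝ) :=
                Real.rpow_le_rpow_of_exponent_le hN1.le hε1
            _ = N := Real.rpow_one _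
        exact_mod_cast (hl1.le.trans h3)
      exact xx_ndvd hnx1 l (mem_P1.2 ⟨⟨hl.pos, hlN⟩, hl, hcon, (tt_lt_iff hN2 hl.pos _).2 hl1⟩) hldi
    have hm : (m : ℝ) ≤ Real.log N ^ (B * (1 * u)) := by
      by_contra hm
      rw [not_le] at hm
      apply g3
      unfold SmP
      rw [mem_filter]
      exact ⟨mem_Icc.2 hpp, (hA n hnA).2, hne, hnx1, m, Dvd.intro _ h3.symm, h4', hm⟩
    refine ⟨m, s, h3, Nat.pos_of_ne_zero hm0, hm, ?_, h5, h6⟩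
    by_contra hs1
    have hs0 : s ≠ 0 := by
      rintro rfl
      exact hn0 (by rw [h3, mul_zero])
    have hs2 : s = 1 := by omega
    rw [h3, hs2, mul_one] at hbig
    linarith
  have h3 := (Finset.card_le_card h2).trans (Finset.card_union_le _ _)
  have h4 := Finset.card_union_le (GW A N (B * (1 * u)) r h) (SmP N B 1 u ε₁ κ φ0 (ph h))
  have h5 := Finset.card_union_le
    (A.filter (fun n : ℕ => ((ph h n).natAbs : ℝ) ≤ Real.log N ^ (B * (1 * u)))) (SqW A N h)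
  have h6 : ((AP A (P1 N B ε₁) (ph h)).filter
      (fun n : ℕ => 0 < Wb N 1 ε₁ (ph h n).natAbs)).card ≤
      (GW A N (B * (1 * u)) r h).card + (SmP N B 1 u ε₁ κ φ0 (ph h)).card +
      ((A.filter (fun n : ℕ => ((ph h n).natAbs : ℝ) ≤ Real.log N ^ (B * (1 * u)))).card +
        (SqW A N h).card) := by omega
  exact_mod_cast h6

open Classical in
theorem squareN {σ : ℝ} (hσ : 0 < σ) : ∃ N₀ : ℕ, ∀ N : ℕ, N₀ ≤ N →
    ∀ h : ℤ, ∀ A : Finset ℕ, (∀ p ∈ A, p ≤ N) → ∀ W V : ℝ, 1 / Real.log N ^ (1 + 1) ≤ W →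
    1 / Real.log N ^ (1 + 1) ≤ V → ((SqW A N h).card : ℝ) ≤ σ * (V * (W * N)) := by
  obtain ⟨N₇, hN₇⟩ := logpow_small 4 (show (0 : ℝ) < 1 / 8 by norm_num)
    (show (0 : ℝ) < σ / 5 by positivity)
  refine ⟨max N₇ 3, fun N hN h A hA W V hW hV => ?_⟩
  have hN3 : 3 ≤ N := (le_max_right _ _).trans hN
  have hN1 : (1 : ℝ) < N := by exact_mod_cast (by omega : 1 < N)
  have hN0 : (0 : ℝ) < N := by linarith
  have hL : 0 < Real.log N := Real.log_pos hN1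
  have h1 : ((SqW A N h).card : ℝ) ≤ 5 * (N : ℝ) ^ (7 / 8 : ℝ) := by
    unfold SqW
    exact squaresg (by omega) A hA (-h, 1) (by simp)
  refine h1.trans ?_
  have h2 := hN₇ N ((le_max_left _ _).trans hN)
  have hq : (0 : ℝ) ≤ 1 / Real.log N ^ (1 + 1) := by positivity
  have h3 : 1 / Real.log N ^ (1 + 1) * (1 / Real.log N ^ (1 + 1) * N) ≤ V * (W * N) := by
    have a1 : 1 / Real.log N ^ (1 + 1) * (N : ℝ) ≤ W * N := mul_le_mul_of_nonneg_right hW hN0.le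
    exact mul_le_mul hV a1 (by positivity) (hq.trans hV)
  refine le_trans ?_ (mul_le_mul_of_nonneg_left h3 hσ.le)
  have h4 : σ * (1 / Real.log N ^ (1 + 1) * (1 / Real.log N ^ (1 + 1) * N)) =
      σ * N / Real.log N ^ 4 := by
    rw [show 4 = (1 + 1) + (1 + 1) by norm_num, pow_add]
    field_simp
  rw [h4, le_div_iff₀ (by positivity)]
  have h5 : (N : ℝ) ^ (7 / 8 : ℝ) * (N : ℝ) ^ (1 / 8 : ℝ) = N := by
    rw [← Real.rpow_add hN0]
    norm_num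
  calc 5 * (N : ℝ) ^ (7 / 8 : ℝ) * Real.log N ^ 4
      ≤ 5 * (N : ℝ) ^ (7 / 8 : ℝ) * (σ / 5 * (N : ℝ) ^ (1 / 8 : ℝ)) := by gcongr
    _ = σ * ((N : ℝ) ^ (7 / 8 : ℝ) * (N : ℝ) ^ (1 / 8 : ℝ)) := by ring
    _ = σ * N := by rw [h5]

end Pool.Agent.W23.PP
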