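import Pool.Agent.W23.PP.Wt3

/-!
PP project (helper23): the main theorem for `h - n`, explicit number of primes.
(Adapted from `mainP` in `Pool/Agent/W23/PP/Fin3.lean`.)
-/

namespace Pool.Agent.W23.PP

open Finset Filter
open Pool.Agent.H442R2
open Pool.Agent.H442R2.KF
open Pool.Agent.W23.DC
open Pool.Agent.W23.SG
open Pool.Agent.W23.PL
open Pool.Agent.W23.KT
open Pool.Agent.W23.KS

open Classical in
theorem mainW (hPT : St_PT) (hLN : St_LN) (hER : St_ER) (hMI : St_MI) (hMT : St_MT)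
    (hMP : St_MP) (A0 : ℝ) (F f : ℝ → ℝ) (hS : SF A0 F f)
    (hBXBP : St_BXBP) (hBX0P : St_BX0P)
    (hVLBP : St_VLBP) (hSMOP : St_SMOP) (g : ℝ) (r : ℕ) (hg1 : 1 ≤ g) (hg2 : g ≤ 2)
    (hgr : g < 9 / 20 * ((r : ℝ) - 1 / 29)) :
    ∀ κ : ℝ, 0 < κ → κ ≤ 1 → ∀ δ : ℝ, 0 < δ →
      ∃ (c C : ℝ) (t N₀ : ℕ), 0 < c ∧ 0 < C ∧ ∀ N : ℕ, N₀ ≤ N →
      ∀ φ0 : ℤ → ℤ, Sy 1 3 N φ0 → 0 < VP φ0 (P0 N κ) →
      ∀ A : Finset ℕ, (∀ n ∈ A, (1 ≤ n ∧ n ≤ N) ∧ xx (P0 N κ) (φ0 n) = 1) →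
      δ * (VP φ0 (P0 N κ) * N) ≤ A.card →
      ∀ 𝒜 : Finset ℤ, (∀ i ∈ 𝒜, |(i : ℝ)| ≤ (N : ℝ) ^ g ∧ Cp 3 N φ0 (ph i)) →
      (∀ i ∈ 𝒜, ((GW A N t r i).card : ℝ) < c * VP (ph i) (PF N) * A.card) →
      ∑ i ∈ 𝒜, VP (ph i) (PF N) ≤ C := by
  obtain ⟨c₀, hc₀, H1⟩ := lowerW4 hPT hLN hER hMI hMT hMP NU4 A0 F f hS
  obtain ⟨N₈, hN₈⟩ := inclW g r hg1 hg2 hgr
  obtain ⟨k, hkdef⟩ : ∃ k : ℕ, k = 1 := ⟨1, rfl⟩
  obtain ⟨M, hMdef⟩ : ∃ M : ℕ, M = 3 := ⟨3, rfl⟩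
  have hk : 1 ≤ k := by omega
  have hM : 1 ≤ M := by omega
  have hk1 : (1 : ℝ) ≤ k := by exact_mod_cast hk
  have hM0 : (0 : ℝ) ≤ M := Nat.cast_nonneg _
  intro κ hκ0 hκ1 δ hδ
  obtain ⟨hVa, hVb⟩ := hVLBP k hk
  obtain ⟨Cκ, hCκ, HVκ⟩ := hVb κ hκ0 hκ1
  obtain ⟨B₁, e1, he1, HF⟩ := hBXBP k M hk hM 1 one_pos
  obtain ⟨B₂, e2, he2, H0⟩ := hBX0P k M hk hM 1 one_pos
  obtain ⟨B, hBB₁, hBB₂, hB2⟩ : ∃ B : ℕ, B₁ ≤ B ∧ B₂ ≤ B ∧ 2 ≤ B :=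
    ⟨max (max B₁ B₂) 2, (le_max_left _ _).trans (le_max_left _ _),
      (le_max_right _ _).trans (le_max_left _ _), le_max_right _ _⟩
  -- the choice of `ε₁`
  have hw0 : (0 : ℝ) < min ((c₀ * δ / 4) ^ 2) ((δ / 2) ^ 2) :=
    lt_min (by positivity) (by positivity)
  obtain ⟨ε₁, hε₁, hε₁a, hε₁1, hε₁b, -⟩ := exp_choice (2 * k)
    (show (0 : ℝ) < min ((c₀ * δ / 4) ^ 2) ((δ / 2) ^ 2) / (2 * Cκ ^ 2) by positivity)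
    (show (0 : ℝ) < 1 by norm_num)
    (show (0 : ℝ) < min (min (1 / 25) κ) (min e1 e2) from
      lt_min (lt_min (by positivity) hκ0) (lt_min he1 he2))
  have hε₁ζ : ε₁ ≤ 1 / 25 := (hε₁a.trans (min_le_left _ _)).trans (min_le_left _ _)
  have hε₁κ : ε₁ ≤ κ := (hε₁a.trans (min_le_left _ _)).trans (min_le_right _ _)
  have hε₁e1 : ε₁ ≤ e1 := hε₁a.trans ((min_le_right _ _).trans (min_le_left _ _))
  have hε₁e2 : ε₁ ≤ e2 := hε₁a.trans ((min_le_right _ _).trans (min_le_right _ _))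
  obtain ⟨N₁, hN₁⟩ := H1 ε₁ hε₁ hε₁ζ
  obtain ⟨C₁, N₂, hC₁, hN₂⟩ := HF ε₁ hε₁ hε₁e1 B hBB₁
  obtain ⟨C₃, N₃, hC₃, hN₃⟩ := H0 ε₁ hε₁ hε₁e2 B hBB₂
  obtain ⟨CV, N₄, hCV, hN₄⟩ := hVa M B (by omega) ε₁ hε₁ hε₁1
  obtain ⟨N₅, hN₅⟩ := HVκ M ε₁ hε₁ hε₁κ
  obtain ⟨C₅, hC₅, HS⟩ := hSMOP k M B hk hB2 ε₁ κ hε₁ hε₁1 hκ0 hκ1
  obtain ⟨σ, hσ⟩ : ∃ σ : ℝ, σ = c₀ * ε₁ ^ k * δ / 16 := ⟨_, rfl⟩
  have hσ0 : 0 < σ := by rw [hσ]; positivity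
  obtain ⟨u, hu1, hu⟩ : ∃ u : ℕ, 1 ≤ u ∧ C₅ * Real.exp (-(u : ℝ)) ≤ σ := by
    have hlim : Tendsto (fun u : ℕ => C₅ * Real.exp (-(u : ℝ))) atTop (nhds (C₅ * 0)) :=
      (Real.tendsto_exp_neg_atTop_nhds_zero.comp tendsto_natCast_atTop_atTop).const_mul C₅
    rw [mul_zero] at hlim
    obtain ⟨u, hu⟩ := Filter.eventually_atTop.1 (hlim.eventually_le_const hσ0)
    exact ⟨max u 1, le_max_right _ _, hu _ (le_max_left _ _)⟩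
  obtain ⟨N₆, hN₆⟩ := HS u hu1
  obtain ⟨N₇, hN₇⟩ := smallN k (B * (k * u)) hk (half_pos hσ0)
  obtain ⟨N₉, hN₉⟩ := squareN (half_pos hσ0)
  obtain ⟨K1, hK1⟩ : ∃ K1 : ℝ, K1 = Cκ * (1 / ε₁) ^ k := ⟨_, rfl⟩
  have hK10 : 0 < K1 := by rw [hK1]; positivity
  obtain ⟨η, hη⟩ : ∃ η : ℝ, η = c₀ * δ * ε₁ ^ (k + 1) / 4 := ⟨_, rfl⟩
  have hη0 : 0 < η := by rw [hη]; positivity
  have hexp1 : K1 ^ 2 * Real.exp (-(1 / ε₁)) ≤ η ^ 2 / 2 := by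
    rw [hK1]
    apply constP hCκ hε₁ hε₁b
    have h3 : η ^ 2 = (c₀ * δ / 4) ^ 2 * ε₁ ^ (2 * k + 2) := by
      rw [hη, show 2 * k + 2 = (k + 1) * 2 by ring, pow_mul]
      ring
    rw [h3]
    exact mul_le_mul_of_nonneg_right (min_le_left _ _) (by positivity)
  have hexp2 : K1 ^ 2 * Real.exp (-(1 / ε₁)) ≤ (δ / 2) ^ 2 / 2 := by
    rw [hK1]
    apply constP hCκ hε₁ hε₁b
    have h5 : ε₁ ^ (2 * k + 2) ≤ 1 := pow_le_one₀ hε₁.le hε₁1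
    calc min ((c₀ * δ / 4) ^ 2) ((δ / 2) ^ 2) * ε₁ ^ (2 * k + 2)
        ≤ (δ / 2) ^ 2 * 1 :=
          mul_le_mul (min_le_right _ _) h5 (by positivity) (by positivity)
      _ = _ := mul_one _
  refine ⟨c₀ * ε₁ ^ k / 8, 2 * K1 ^ 2 * C₃ / (δ / 2) ^ 2 + 2 * K1 ^ 2 * C₁ / η ^ 2, B * (k * u),
    max (max (max (max N₁ N₂) (max N₃ N₄)) (max (max N₅ N₆) (max N₇ 3))) (max N₈ N₉),
    by positivity, by positivity, ?_⟩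
  intro N hN' φ0 hφ0' hW0 A hA hAc 𝒜 hφ' hexc
  have hNN₈ : N₈ ≤ N := ((le_max_left _ _).trans (le_max_right _ _)).trans hN'
  have hNN₉ : N₉ ≤ N := ((le_max_right _ _).trans (le_max_right _ _)).trans hN'
  have hN := (le_max_left _ _).trans hN'
  clear hN'
  have hNN₁ : N₁ ≤ N :=
    (((le_max_left _ _).trans (le_max_left _ _)).trans (le_max_left _ _)).trans hN
  have hNN₂ : N₂ ≤ N :=
    (((le_max_right _ _).trans (le_max_left _ _)).trans (le_max_left _ _)).trans hN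
  have hNN₃ : N₃ ≤ N :=
    (((le_max_left _ _).trans (le_max_right _ _)).trans (le_max_left _ _)).trans hN
  have hNN₄ : N₄ ≤ N :=
    (((le_max_right _ _).trans (le_max_right _ _)).trans (le_max_left _ _)).trans hN
  have hNN₅ : N₅ ≤ N :=
    (((le_max_left _ _).trans (le_max_left _ _)).trans (le_max_right _ _)).trans hN
  have hNN₆ : N₆ ≤ N :=
    (((le_max_right _ _).trans (le_max_left _ _)).trans (le_max_right _ _)).trans hN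
  have hNN₇ : N₇ ≤ N :=
    (((le_max_left _ _).trans (le_max_right _ _)).trans (le_max_right _ _)).trans hN
  have hN3 : 3 ≤ N :=
    (((le_max_right _ _).trans (le_max_right _ _)).trans (le_max_right _ _)).trans hN
  clear hN
  have hφ0 : Sy k M N φ0 := by
    rw [hkdef, hMdef]
    exact hφ0'
  have hN1' : (1 : ℝ) < N := by exact_mod_cast (by omega : 1 < N)
  have hgN : ∀ i ∈ 𝒜, |(i : ℝ)| ≤ (N : ℝ) ^ 2 := fun i hi => (hφ' i hi).1.trans (by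
    rw [← Real.rpow_two]
    exact Real.rpow_le_rpow_of_exponent_le hN1'.le hg2)
  obtain ⟨φ, hφdef⟩ : ∃ φ : ℤ → ℤ → ℤ, φ = ph := ⟨_, rfl⟩
  have hφ : ∀ i ∈ 𝒜, Sy k M N (φ i) ∧ Cp M N φ0 (φ i) ∧ Nv k (φ i) := by
    intro i hi
    rw [hkdef, hMdef, hφdef]
    exact ⟨Sy_ph (by omega) (hgN i hi), (hφ' i hi).2, Nv_ph i⟩
  have hpair : ∀ i ∈ 𝒜, ∀ j ∈ 𝒜, i ≠ j → Cp M N (φ i) (φ j) := by
    intro i hi j hj hij
    rw [hMdef, hφdef]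
    exact Cp_ph (by omega) hij (hgN i hi) (hgN j hj)
  rw [← hφdef] at hexc ⊢
  have hN1 : (1 : ℝ) < N := by exact_mod_cast (by omega : 1 < N)
  have hN0 : (0 : ℝ) < N := by linarith
  have hL : 0 < Real.log N := Real.log_pos hN1
  obtain ⟨hWε, hWK, -, hWlow⟩ := hN₅ N hNN₅ φ0 hφ0
  have hWlow' := hWlow hW0
  obtain ⟨W, hW⟩ : ∃ W : ℝ, W = VP φ0 (P0 N κ) := ⟨_, rfl⟩
  rw [← hW] at hW0 hAc hWε hWK hWlow'
  have hWε0 : 0 < VP φ0 (P0 N ε₁) := lt_of_lt_of_le hW0 hWε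
  have hWN0 : 0 < W * N := by positivity
  have hAI : ∀ n ∈ A, 1 ≤ n ∧ n ≤ N := fun n hn => (hA n hn).1
  have hVPN : (VP φ0 (P0 N ε₁) * N) ^ 2 ≤ K1 ^ 2 * (W * N) ^ 2 := by
    rw [← mul_pow]
    apply pow_le_pow_left₀ (by positivity)
    calc VP φ0 (P0 N ε₁) * N ≤ (Cκ * (1 / ε₁) ^ k * W) * N := by gcongr
      _ = _ := by rw [hK1]; ring
  -- the two kinds of exceptions
  have hV0 : ∀ i, 0 ≤ VP (φ i) (P1 N B ε₁) := fun i => VP_nonneg _ _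
  have hVfac : ∀ i ∈ 𝒜, VP (φ i) (PF N) ≤ VP (φ i) (P1 N B ε₁) ∧
      1 / Real.log N ^ (k + 1) ≤ VP (φ i) (P1 N B ε₁) := by
    intro i hi
    obtain ⟨h1, h2, h3, h4⟩ := hN₄ N hNN₄ (φ i) (hφ i hi).1
    exact ⟨h1, h3.trans h1⟩
  have hfA0 : ∀ n : ℕ, fA A n ≠ 0 → xx (P0 N ε₁) (φ0 n) = 1 := by
    intro n hn
    by_cases h : n ∈ A
    · exact xx_mono (P0_mono hε₁κ) (hA n h).2
    · exfalso
      apply hn
      unfold fA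
      rw [if_neg h]
  have hsubpair : ∀ 𝒯 : Finset ℤ, 𝒯 ⊆ 𝒜 → (∀ i ∈ 𝒯, Sy k M N (φ i) ∧ Cp M N φ0 (φ i)) ∧
      (∀ i ∈ 𝒯, ∀ j ∈ 𝒯, i ≠ j → Cp M N (φ i) (φ j)) := by
    intro 𝒯 h
    exact ⟨fun i hi => ⟨(hφ i (h hi)).1, (hφ i (h hi)).2.1⟩,
      fun i hi j hj hij => hpair i (h hi) j (h hj) hij⟩
  obtain ⟨𝒯1, h𝒯1⟩ : ∃ 𝒯1 : Finset ℤ, 𝒯1 = 𝒜.filter (fun i =>
    VP (φ i) (P1 N B ε₁) * (A.card : ℝ) / 2 ≤
      |((AP A (P1 N B ε₁) (φ i)).card : ℝ) - VP (φ i) (P1 N B ε₁) * A.card|) := ⟨_, rfl⟩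
  obtain ⟨𝒯2, h𝒯2⟩ : ∃ 𝒯2 : Finset ℤ, 𝒯2 = 𝒜.filter (fun i =>
    η * VP (φ i) (P1 N B ε₁) * (W * N) ≤ ∑ d ∈ TBP N ε₁,
      |DP (φ i) (fun n => fA A n * xx (P1 N B ε₁) (φ i n)) N d|) := ⟨_, rfl⟩
  have hcov : 𝒜 ⊆ 𝒯1 ∪ 𝒯2 := by
    intro i hi
    by_contra hno
    rw [mem_union, not_or, h𝒯1, h𝒯2] at hno
    have n1 : |((AP A (P1 N B ε₁) (φ i)).card : ℝ) - VP (φ i) (P1 N B ε₁) * A.card| <
        VP (φ i) (P1 N B ε₁) * (A.card : ℝ) / 2 := by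
      by_contra hcon
      exact hno.1 (mem_filter.2 ⟨hi, not_lt.1 hcon⟩)
    have n2 : ∑ d ∈ TBP N ε₁, |DP (φ i) (fun n => fA A n * xx (P1 N B ε₁) (φ i n)) N d| <
        η * VP (φ i) (P1 N B ε₁) * (W * N) := by
      by_contra hcon
      exact hno.2 (mem_filter.2 ⟨hi, not_lt.1 hcon⟩)
    obtain ⟨hSy, hCp, hNv⟩ := hφ i hi
    obtain ⟨hVF, hVlow⟩ := hVfac i hi
    have hA'A : ∀ n ∈ AP A (P1 N B ε₁) (φ i), 1 ≤ n ∧ n ≤ N :=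
      fun n hn => hAI n (mem_filter.1 hn).1
    have hlow0 := hN₁ N hNN₁ (AP A (P1 N B ε₁) (φ i)) hA'A (φ i) (by rw [hφdef]; exact Li_ph i)
    rw [fA_AP A (P1 N B ε₁) (φ i)] at hlow0
    have hlow : c₀ * ε₁ ^ k * ((AP A (P1 N B ε₁) (φ i)).card : ℝ) - 1 / ε₁ *
        ∑ d ∈ TBP N ε₁, |DP (φ i) (fun n => fA A n * xx (P1 N B ε₁) (φ i n)) N d| ≤
        ∑ n ∈ AP A (P1 N B ε₁) (φ i), Wb N 1 ε₁ (φ i n).natAbs := by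
      refine le_trans ?_ hlow0
      have a1 : (3 : ℝ) ≤ 1 / ε₁ := by
        rw [le_div_iff₀ hε₁]
        linarith
      have a2 : 0 ≤ ∑ d ∈ TBP N ε₁,
          |DP (φ i) (fun n => fA A n * xx (P1 N B ε₁) (φ i n)) N d| :=
        Finset.sum_nonneg (fun _ _ => abs_nonneg _)
      have a3 := mul_le_mul_of_nonneg_right a1 a2
      rw [hkdef, pow_one]
      linarith
    have hA'c : VP (φ i) (P1 N B ε₁) * (A.card : ℝ) / 2 ≤ (AP A (P1 N B ε₁) (φ i)).card := by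
      have h1 := (abs_lt.1 n1).1
      linarith
    have hsum := hN₈ N hNN₈ B u ε₁ κ hε₁1 φ0 i (hφ' i hi).1 A hA
    rw [← hφdef] at hsum
    have hcc2 : ((SmP N B 1 u ε₁ κ φ0 (φ i)).card : ℝ) ≤
        σ * (VP (φ i) (P1 N B ε₁) * (W * N)) := by
      have h1 := hN₆ N hNN₆ φ0 (φ i) hφ0 hSy hCp
      rw [hkdef] at h1
      refine h1.trans ?_
      calc C₅ * Real.exp (-(u : ℝ)) * (VP φ0 (P0 N κ) * VP (φ i) (P1 N B ε₁)) * N =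
            C₅ * Real.exp (-(u : ℝ)) * (VP (φ i) (P1 N B ε₁) * (W * N)) := by
            rw [hW]
            ring
        _ ≤ _ := mul_le_mul_of_nonneg_right hu (mul_nonneg (hV0 i) hWN0.le)
    have hcc3 := hN₇ N hNN₇ (φ i) hNv A W (VP (φ i) (P1 N B ε₁)) hWlow' hVlow
    rw [hkdef] at hcc3
    have hcc4 := hN₉ N hNN₉ i A (fun p hp => (hA p hp).1.2) W (VP (φ i) (P1 N B ε₁))
      (by rw [hkdef] at hWlow'; exact hWlow') (by rw [hkdef] at hVlow; exact hVlow)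
    have hcc5 := add_le_add hcc3 hcc4
    rw [← add_mul, add_halves] at hcc5
    have hgood := goodP hc₀ hε₁ (hV0 i) hσ hAc (Nat.cast_nonneg _) hA'c
      (by rw [← hη]; exact n2.le) hlow hsum hcc2 hcc5 hVF
    have hexc' := hexc i hi
    rw [hkdef] at hexc' hgood
    exact absurd hexc' (not_lt.2 hgood)
  have hb1 : ∑ i ∈ 𝒯1, VP (φ i) (P1 N B ε₁) ≤ 2 * K1 ^ 2 * C₃ / (δ / 2) ^ 2 := by
    obtain ⟨q1, q2⟩ := hsubpair 𝒯1 (by rw [h𝒯1]; exact filter_subset _ _)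
    have h1 := hN₃ N hNN₃ φ0 hφ0 hWε0 ℤ 𝒯1 φ q1 q2 (fA A) (fA_le A) hfA0
    refine lamB (Finset.sum_nonneg (fun i _ => hV0 i)) (by positivity) hWN0 hC₃.le
      (Real.exp_pos _).le (le_trans ?_ h1) hVPN hexp2
    apply pow_le_pow_left₀ (mul_nonneg (mul_nonneg (Finset.sum_nonneg (fun i _ => hV0 i))
      (by positivity)) hWN0.le)
    rw [Finset.sum_mul, Finset.sum_mul]
    apply Finset.sum_le_sum
    intro i hi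
    rw [h𝒯1] at hi
    rw [← card_AP hAI (P1 N B ε₁) (VP (φ i) (P1 N B ε₁)) (φ i)]
    refine le_trans ?_ (mem_filter.1 hi).2
    have h3 : VP (φ i) (P1 N B ε₁) * (δ * (W * N)) ≤ VP (φ i) (P1 N B ε₁) * A.card :=
      mul_le_mul_of_nonneg_left hAc (hV0 i)
    linarith
  have hb2 : ∑ i ∈ 𝒯2, VP (φ i) (P1 N B ε₁) ≤ 2 * K1 ^ 2 * C₁ / η ^ 2 := by
    obtain ⟨q1, q2⟩ := hsubpair 𝒯2 (by rw [h𝒯2]; exact filter_subset _ _)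
    have h1 := hN₂ N hNN₂ φ0 hφ0 hWε0 ℤ 𝒯2 φ q1 q2 (fA A) (fA_le A) hfA0
      (fun _ => TBP N ε₁) (fun i _ d hd => by
        unfold TBP at hd
        exact (mem_filter.1 hd).2)
    refine lamB (Finset.sum_nonneg (fun i _ => hV0 i)) hη0 hWN0 hC₁.le
      (Real.exp_pos _).le (le_trans ?_ h1) hVPN hexp1
    apply pow_le_pow_left₀ (mul_nonneg (mul_nonneg (Finset.sum_nonneg (fun i _ => hV0 i))
      hη0.le) hWN0.le)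
    rw [Finset.sum_mul, Finset.sum_mul]
    apply Finset.sum_le_sum
    intro i hi
    rw [h𝒯2] at hi
    have := (mem_filter.1 hi).2
    linarith
  calc ∑ i ∈ 𝒜, VP (φ i) (PF N) ≤ ∑ i ∈ 𝒜, VP (φ i) (P1 N B ε₁) :=
        Finset.sum_le_sum (fun i hi => (hVfac i hi).1)
    _ ≤ ∑ i ∈ 𝒯1 ∪ 𝒯2, VP (φ i) (P1 N B ε₁) :=
        Finset.sum_le_sum_of_subset_of_nonneg hcov (fun i _ _ => hV0 i)
    _ ≤ ∑ i ∈ 𝒯1, VP (φ i) (P1 N B ε₁) + ∑ i ∈ 𝒯2, VP (φ i) (P1 N B ε₁) := by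
        have h1 := Finset.sum_union_inter (s₁ := 𝒯1) (s₂ := 𝒯2)
          (f := fun i => VP (φ i) (P1 N B ε₁))
        have h2 : 0 ≤ ∑ i ∈ 𝒯1 ∩ 𝒯2, VP (φ i) (P1 N B ε₁) :=
          Finset.sum_nonneg (fun i _ => hV0 i)
        linarith
    _ ≤ _ := add_le_add hb1 hb2

end Pool.Agent.W23.PP
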