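import Pool.Agent.W23.PP.Wt4
import Pool.Agent.W23.PP.Fin7
import Pool.Agent.W23.SG.All

/-!
PP project (helper23): `h - p`, final forms for the primes.
-/

namespace Pool.Agent.W23.PP

open Finset Filter
open Pool.Agent.H442R2
open Pool.Agent.H442R2.KF
open Pool.Agent.W23.DC
open Pool.Agent.W23.SG
open Pool.Agent.W23.PL
open Pool.Agent.W23.KT
open Pool.Agent.W23.KS

theorem loglog_large : ∃ N₀ : ℕ, 3 ≤ N₀ ∧ ∀ N : ℕ, N₀ ≤ N →
    1 ≤ Real.log (Real.log N) ∧ Real.log (Real.log N) ≤ Real.log N ∧ 1 ≤ Real.log N := by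
  obtain ⟨N₁, H1⟩ := log_large (Real.exp 1)
  refine ⟨max N₁ 3, le_max_right _ _, fun N hN => ?_⟩
  have h1 := H1 N ((le_max_left _ _).trans hN)
  have he : (1 : ℝ) ≤ Real.exp 1 := by
    have := Real.add_one_le_exp (1 : ℝ)
    linarith
  have h2 : 0 < Real.log N := by linarith
  refine ⟨?_, ?_, by linarith⟩
  · rw [Real.le_log_iff_exp_le h2]
    exact h1
  · have := Real.log_le_sub_one_of_pos h2
    linarith

/-- Mertens: the upper bound -/
theorem VP_ph_up : ∃ (C : ℝ) (N₀ : ℕ), 0 < C ∧ ∀ N : ℕ, N₀ ≤ N → ∀ h : ℤ,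
    |(h : ℝ)| ≤ (N : ℝ) ^ 2 → VP (ph h) (PF N) ≤ C * (Real.log (Real.log N) / Real.log N) := by
  classical
  obtain ⟨c₂, hc₂, H⟩ := W655.PL.VLB
  obtain ⟨N₁, hN₁⟩ := H 1 le_rfl 1 one_pos le_rfl
  obtain ⟨hVa, -⟩ := VLBP_thm 1 le_rfl
  obtain ⟨CV, N₂, hCV, hV⟩ := hVa 3 1 le_rfl 1 one_pos le_rfl
  refine ⟨1 / c₂, max (max N₁ N₂) 2, by positivity, fun N hN h hh => ?_⟩
  have hNN₁ : N₁ ≤ N := ((le_max_left _ _).trans (le_max_left _ _)).trans hN
  have hNN₂ : N₂ ≤ N := ((le_max_right _ _).trans (le_max_left _ _)).trans hN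
  have hN2 : 2 ≤ N := (le_max_right _ _).trans hN
  obtain ⟨h1, -, -, -⟩ := hV N hNN₂ (ph h) (Sy_ph hN2 hh)
  have h2 : VP (ph h) (P1 N 1 1) = VV (P1 N 1 1) := by
    unfold VP VV
    apply Finset.prod_congr rfl
    intro p hp
    rw [Li_ph h p (mem_P1.1 hp).1.1]
  have h3 := (hN₁ N hNN₁).2
  rw [Nat.cast_one, one_mul, one_mul] at h3
  rw [h2] at h1
  exact h1.trans h3

open Classical in
theorem primeW (g : ℝ) (r : ℕ) (hg1 : 1 ≤ g) (hg2 : g ≤ 2) (hgr : g < 9 / 20 * ((r : ℝ) - 1 / 29)) :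
    ∀ δ : ℝ, 0 < δ → ∃ (c C : ℝ) (t X₀ : ℕ), 0 < c ∧ 0 < C ∧
      ∀ X : ℕ, X₀ ≤ X → ∀ A : Finset ℕ, (∀ p ∈ A, p.Prime ∧ p ≤ X) →
      δ * (X / Real.log X) ≤ A.card →
      ∀ 𝒜 : Finset ℤ, (∀ h ∈ 𝒜, h ≠ 0 ∧ |(h : ℝ)| ≤ (X : ℝ) ^ g) →
      (∀ h ∈ 𝒜, ((GW A X t r h).card : ℝ) <
        c * (Real.log (Real.log X) / Real.log X) * A.card) →
      (𝒜.card : ℝ) ≤ C * (Real.log X / Real.log (Real.log X)) := by
  intro δ hδ
  obtain ⟨A0, F, f, hS⟩ := W366.DC.SFX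
  obtain ⟨CM, N₁, hCM, HM⟩ := VP_id (1 / 2) (by norm_num) (by norm_num)
  obtain ⟨c, C, t, X₀, hc, hC, H2⟩ := mainW W52.DC.PT W120.DC.LN W586.DC.ER W505.DC.MI MT_thm
    W378.DC.MP A0 F f hS BXBP_thm BX0P_thm VLBP_thm SMOP_thm g r hg1 hg2 hgr (1 / 2) (by norm_num)
    (by norm_num) (δ / (2 * CM)) (by positivity)
  obtain ⟨cv, N₃, hcv, HV⟩ := VP_low RTP_thm VLBP_thm VLBK_thm 1 3 le_rfl
  obtain ⟨N₂, HN₂⟩ := logpow_small 1 (show (0 : ℝ) < 1 / 2 by norm_num)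
    (show (0 : ℝ) < δ / 2 by positivity)
  obtain ⟨N₄, hN₄3, HN₄⟩ := loglog_large
  refine ⟨c * cv / 2, C / cv, t, max (max X₀ N₁) (max N₂ (max N₃ N₄)), by positivity,
    by positivity, fun X hX A hA hAc 𝒜 h𝒜 hexc => ?_⟩
  have hX₁ : X₀ ≤ X := ((le_max_left _ _).trans (le_max_left _ _)).trans hX
  have hX₂ : N₁ ≤ X := ((le_max_right _ _).trans (le_max_left _ _)).trans hX
  have hX₃ : N₂ ≤ X := ((le_max_left _ _).trans (le_max_right _ _)).trans hX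
  have hX₄ : N₃ ≤ X := (((le_max_left _ _).trans (le_max_right _ _)).trans
    (le_max_right _ _)).trans hX
  have hX₅ : N₄ ≤ X := (((le_max_right _ _).trans (le_max_right _ _)).trans
    (le_max_right _ _)).trans hX
  clear hX
  have hX3' : 3 ≤ X := hN₄3.trans hX₅
  have hX3 : (3 : ℝ) ≤ X := by exact_mod_cast hX3'
  have hX0 : (0 : ℝ) < X := by linarith
  obtain ⟨hLL1, hLL2, hL1⟩ := HN₄ X hX₅
  have hL : 0 < Real.log X := by linarith
  have hLL : 0 < Real.log (Real.log X) := by linarith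
  obtain ⟨hW0, hW⟩ := HM X hX₂
  -- remove the small primes
  set A' := A.filter (fun p : ℕ => (X : ℝ) ^ (1 / 2 : ℝ) ≤ p) with hA'
  have hcard : (A.card : ℝ) - A'.card ≤ (X : ℝ) ^ (1 / 2 : ℝ) := by
    have h1 := Finset.card_filter_add_card_filter_not (s := A)
      (fun p : ℕ => (X : ℝ) ^ (1 / 2 : ℝ) ≤ p)
    have h2 : (A.filter (fun p : ℕ => ¬ (X : ℝ) ^ (1 / 2 : ℝ) ≤ p)).card ≤
        (Icc 1 ⌊(X : ℝ) ^ (1 / 2 : ℝ)⌋₊).card := by
      apply Finset.card_le_card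
      intro p hp
      rw [mem_filter, not_le] at hp
      rw [mem_Icc]
      exact ⟨(hA p hp.1).1.pos, Nat.le_floor hp.2.le⟩
    have h3 : (A.card : ℝ) = (A'.card : ℝ) +
        ((A.filter (fun p : ℕ => ¬ (X : ℝ) ^ (1 / 2 : ℝ) ≤ p)).card : ℝ) := by
      rw [hA']
      exact_mod_cast h1.symm
    have h4 : ((A.filter (fun p : ℕ => ¬ (X : ℝ) ^ (1 / 2 : ℝ) ≤ p)).card : ℝ) ≤
        ⌊(X : ℝ) ^ (1 / 2 : ℝ)⌋₊ := by
      have : (Icc 1 ⌊(X : ℝ) ^ (1 / 2 : ℝ)⌋₊).card = ⌊(X : ℝ) ^ (1 / 2 : ℝ)⌋₊ := by simp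
      rw [this] at h2
      exact_mod_cast h2
    have h5 : (⌊(X : ℝ) ^ (1 / 2 : ℝ)⌋₊ : ℝ) ≤ (X : ℝ) ^ (1 / 2 : ℝ) :=
      Nat.floor_le (by positivity)
    linarith
  have hsmall : (X : ℝ) ^ (1 / 2 : ℝ) ≤ δ / 2 * (X / Real.log X) := by
    have h1 := HN₂ X hX₃
    rw [pow_one] at h1
    have h2 : (X : ℝ) = (X : ℝ) ^ (1 / 2 : ℝ) * (X : ℝ) ^ (1 / 2 : ℝ) := by
      rw [← Real.rpow_add hX0]
      norm_num
    rw [← mul_div_assoc, le_div_iff₀ hL]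
    calc (X : ℝ) ^ (1 / 2 : ℝ) * Real.log X ≤ (X : ℝ) ^ (1 / 2 : ℝ) *
          (δ / 2 * (X : ℝ) ^ (1 / 2 : ℝ)) := by gcongr
      _ = δ / 2 * ((X : ℝ) ^ (1 / 2 : ℝ) * (X : ℝ) ^ (1 / 2 : ℝ)) := by ring
      _ = _ := by rw [← h2]
  have hA'2 : (A.card : ℝ) / 2 ≤ A'.card := by
    have h1 : (X : ℝ) ^ (1 / 2 : ℝ) ≤ (A.card : ℝ) / 2 := by
      have : δ / 2 * (X / Real.log X) = δ * (X / Real.log X) / 2 := by ring
      linarith
    linarith
  have hA'A : A' ⊆ A := Finset.filter_subset _ _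
  have hXg : ∀ h ∈ 𝒜, |(h : ℝ)| ≤ (X : ℝ) ^ 2 := fun h hh => (h𝒜 h hh).2.trans (by
    rw [← Real.rpow_two]
    exact Real.rpow_le_rpow_of_exponent_le (by linarith) hg2)
  have hVlow : ∀ h ∈ 𝒜, cv * (Real.log (Real.log X) / Real.log X) ≤ VP (ph h) (PF X) := by
    intro h hh
    have := HV X hX₄ (ph h) (Sy_ph (by omega) (hXg h hh))
    rwa [pow_one] at this
  have hmain : ∑ h ∈ 𝒜, VP (ph h) (PF X) ≤ C := by
    refine H2 X hX₁ (fun n => n) (Sy_id le_rfl (by omega)) hW0 A' (fun p hp => ?_) ?_ 𝒜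
      (fun h hh => ⟨(h𝒜 h hh).2, Cp_id_ph (by omega) (h𝒜 h hh).1 (hXg h hh)⟩) (fun h hh => ?_)
    · rw [hA', mem_filter] at hp
      obtain ⟨h1, h2⟩ := hA p hp.1
      exact ⟨⟨h1.pos, h2⟩, prime_rough (by omega) h1 hp.2⟩
    · calc δ / (2 * CM) * (VP (fun n => n) (P0 X (1 / 2)) * X) ≤
            δ / (2 * CM) * (CM / Real.log X * X) := by gcongr
        _ = δ / 2 * (X / Real.log X) := by field_simp
        _ ≤ (A.card : ℝ) / 2 := by
            have : δ / 2 * (X / Real.log X) = δ * (X / Real.log X) / 2 := by ring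
            linarith
        _ ≤ _ := hA'2
    · have h1 : ((GW A' X t r h).card : ℝ) ≤ (GW A X t r h).card := by
        exact_mod_cast Finset.card_le_card (Finset.filter_subset_filter _ hA'A)
      have h2 := hexc h hh
      have h3 := hVlow h hh
      calc ((GW A' X t r h).card : ℝ) < c * cv / 2 * (Real.log (Real.log X) / Real.log X) *
            A.card := h1.trans_lt h2
        _ = c * (cv * (Real.log (Real.log X) / Real.log X)) * ((A.card : ℝ) / 2) := by ring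
        _ ≤ c * VP (ph h) (PF X) * A'.card := by
            have : 0 ≤ VP (ph h) (PF X) := VP_nonneg _ _
            gcongr
  have h1 : (𝒜.card : ℝ) * (cv * (Real.log (Real.log X) / Real.log X)) ≤ C := by
    refine le_trans ?_ hmain
    rw [← nsmul_eq_mul, ← Finset.sum_const]
    exact Finset.sum_le_sum hVlow
  have h2 : C / cv * (Real.log X / Real.log (Real.log X)) =
      C / (cv * (Real.log (Real.log X) / Real.log X)) := by
    field_simp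
  rw [h2, le_div_iff₀ (by positivity)]
  exact h1

/-- `h - p` is a product `m s`, `m` small, no prime factor of `s` is below `X^(1/8)` -/
def RepS (X t : ℕ) (h : ℤ) (p : ℕ) : Prop := ∃ m s : ℕ, (h - p).natAbs = m * s ∧ 1 ≤ m ∧
    (m : ℝ) ≤ Real.log X ^ t ∧ 1 < s ∧ ∀ q ∈ s.primeFactors, (X : ℝ) ^ (1 / 8 : ℝ) ≤ q

theorem RepS_xx {X t : ℕ} (hX : 3 ≤ X) {h : ℤ} {p : ℕ} (hR : RepS X t h p) :
    xx (P1 X (t + 2) (1 / 8)) (ph h p) = 1 := by
  classical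
  have hX3 : (3 : ℝ) ≤ X := by exact_mod_cast hX
  have hX0 : (0 : ℝ) < X := by linarith
  have hL1 : 1 < Real.log X := by
    rw [Real.lt_log_iff_exp_lt hX0]
    exact Real.exp_one_lt_three.trans_le hX3
  obtain ⟨m, s, e1, e2, e3, e4, e6⟩ := hR
  unfold xx
  rw [if_pos]
  intro l hl hld
  obtain ⟨⟨hl1, hl2⟩, hlp, hl3, hl4⟩ := mem_P1.1 hl
  have hln : l ∣ m * s := by
    rw [← e1]
    exact Int.natCast_dvd.1 hld
  rcases (hlp.dvd_mul).1 hln with h | h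
  · have h1 : l ≤ m := Nat.le_of_dvd (by omega) h
    have h2 : (l : ℝ) ≤ Real.log X ^ t := le_trans (by exact_mod_cast h1) e3
    have h3 : Real.log X ^ t < Real.log X ^ (t + 2) := pow_lt_pow_right₀ hL1 (by omega)
    linarith
  · have h1 := e6 l (Nat.mem_primeFactors.2 ⟨hlp, h, by omega⟩)
    have h2 := (tt_lt_iff (by omega : 2 ≤ X) hlp.pos _).1 hl4
    linarith

open Classical in
/-- the upper bound -/
theorem primeUp (t : ℕ) : ∃ (C : ℝ) (X₀ : ℕ), 0 < C ∧ ∀ X : ℕ, X₀ ≤ X →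
    ∀ h : ℤ, h ≠ 0 → |(h : ℝ)| ≤ (X : ℝ) ^ 2 →
    ((((Icc 1 X).filter Nat.Prime).filter (fun p : ℕ => RepS X t h p)).card : ℝ) ≤
      C * (Real.log (Real.log X) / Real.log X) * (X / Real.log X) := by
  obtain ⟨C, N₁, hC, H⟩ := upperP UBSP_thm VLBP_thm 1 3 (t + 2) le_rfl (by omega) (1 / 8) (1 / 2)
    (by norm_num) (by norm_num) (by norm_num) (by norm_num)
  obtain ⟨CM, N₂, hCM, HM⟩ := VP_id (1 / 2) (by norm_num) (by norm_num)
  obtain ⟨CV, N₃, hCV, HV⟩ := VP_ph_up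
  obtain ⟨N₄, hN₄3, HN₄⟩ := loglog_large
  obtain ⟨N₅, HN₅⟩ := logpow_small 2 (show (0 : ℝ) < 1 / 2 by norm_num)
    (show (0 : ℝ) < 1 by norm_num)
  refine ⟨C * CV * CM + 1, max (max N₁ N₂) (max N₃ (max N₄ N₅)), by positivity,
    fun X hX h h0 hh => ?_⟩
  have hX₁ : N₁ ≤ X := ((le_max_left _ _).trans (le_max_left _ _)).trans hX
  have hX₂ : N₂ ≤ X := ((le_max_right _ _).trans (le_max_left _ _)).trans hX
  have hX₃ : N₃ ≤ X := ((le_max_left _ _).trans (le_max_right _ _)).trans hX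
  have hX₄ : N₄ ≤ X := (((le_max_left _ _).trans (le_max_right _ _)).trans
    (le_max_right _ _)).trans hX
  have hX₅ : N₅ ≤ X := (((le_max_right _ _).trans (le_max_right _ _)).trans
    (le_max_right _ _)).trans hX
  clear hX
  have hX3' : 3 ≤ X := hN₄3.trans hX₄
  have hX3 : (3 : ℝ) ≤ X := by exact_mod_cast hX3'
  have hX0 : (0 : ℝ) < X := by linarith
  obtain ⟨hLL1, hLL2, hL1⟩ := HN₄ X hX₄
  have hL : 0 < Real.log X := by linarith
  obtain ⟨hW0, hW⟩ := HM X hX₂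
  set A₀ : Finset ℕ := (Icc 1 X).filter (fun p : ℕ => p.Prime ∧ (X : ℝ) ^ (1 / 2 : ℝ) ≤ p) with hA₀
  have h1 := H X hX₁ (fun n => n) (ph h) (Sy_id le_rfl (by omega)) (Sy_ph (by omega) hh)
    (Cp_id_ph (by omega) h0 hh) A₀ (fun p hp => by
    rw [hA₀, mem_filter, mem_Icc] at hp
    exact ⟨hp.1, prime_rough (by omega) hp.2.1 hp.2.2⟩)
  have h2 : ((Icc 1 X).filter Nat.Prime).filter (fun p : ℕ => RepS X t h p) ⊆
      XP A₀ X (t + 2) (1 / 8) (ph h) ∪ Icc 1 ⌊(X : ℝ) ^ (1 / 2 : ℝ)⌋₊ := by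
    intro p hp
    rw [mem_filter, mem_filter, mem_Icc] at hp
    rw [mem_union]
    rcases le_or_gt ((X : ℝ) ^ (1 / 2 : ℝ)) p with h3 | h3
    · left
      unfold XP
      rw [mem_filter, hA₀, mem_filter, mem_Icc]
      exact ⟨⟨hp.1.1, hp.1.2, h3⟩, RepS_xx hX3' hp.2⟩
    · right
      rw [mem_Icc]
      exact ⟨hp.1.2.pos, Nat.le_floor h3.le⟩
  have h5 := (Finset.card_le_card h2).trans (Finset.card_union_le _ _)
  have h6 : (Icc 1 ⌊(X : ℝ) ^ (1 / 2 : ℝ)⌋₊).card = ⌊(X : ℝ) ^ (1 / 2 : ℝ)⌋₊ := by simp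
  rw [h6] at h5
  have h7 : ((((Icc 1 X).filter Nat.Prime).filter (fun p : ℕ => RepS X t h p)).card : ℝ) ≤
      (XP A₀ X (t + 2) (1 / 8) (ph h)).card + ⌊(X : ℝ) ^ (1 / 2 : ℝ)⌋₊ := by exact_mod_cast h5
  have h8 : (⌊(X : ℝ) ^ (1 / 2 : ℝ)⌋₊ : ℝ) ≤ (X : ℝ) ^ (1 / 2 : ℝ) :=
    Nat.floor_le (by positivity)
  have h9 := HV X hX₃ h hh
  have h10 : C * VP (ph h) (PF X) * (VP (fun n => n) (P0 X (1 / 2)) * X) ≤
      C * (CV * (Real.log (Real.log X) / Real.log X)) * (CM / Real.log X * X) := by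
    have : 0 ≤ VP (ph h) (PF X) := VP_nonneg _ _
    gcongr
  have h11 : (X : ℝ) ^ (1 / 2 : ℝ) ≤ 1 * (Real.log (Real.log X) / Real.log X) *
      (X / Real.log X) := by
    have h12 := HN₅ X hX₅
    have h13 : (X : ℝ) = (X : ℝ) ^ (1 / 2 : ℝ) * (X : ℝ) ^ (1 / 2 : ℝ) := by
      rw [← Real.rpow_add hX0]
      norm_num
    have h14 : 1 * (Real.log (Real.log X) / Real.log X) * (X / Real.log X) =
        Real.log (Real.log X) * X / Real.log X ^ 2 := by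
      field_simp
    rw [h14, le_div_iff₀ (by positivity)]
    calc (X : ℝ) ^ (1 / 2 : ℝ) * Real.log X ^ 2 ≤ (X : ℝ) ^ (1 / 2 : ℝ) *
          (1 * (X : ℝ) ^ (1 / 2 : ℝ)) := by gcongr
      _ = 1 * X := by rw [one_mul, ← h13, one_mul]
      _ ≤ _ := by gcongr
  have h15 : C * (CV * (Real.log (Real.log X) / Real.log X)) * (CM / Real.log X * X) =
      C * CV * CM * (Real.log (Real.log X) / Real.log X) * (X / Real.log X) := by ring
  rw [h15] at h10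
  have h16 : (C * CV * CM + 1) * (Real.log (Real.log X) / Real.log X) * (X / Real.log X) =
      C * CV * CM * (Real.log (Real.log X) / Real.log X) * (X / Real.log X) +
        1 * (Real.log (Real.log X) / Real.log X) * (X / Real.log X) := by ring
  rw [h16]
  linarith

open Classical in
/-- the sharpness of the number of exceptions -/
theorem primeSh (t : ℕ) (η : ℝ) (hη : 0 < η) : ∃ (c : ℝ) (X₀ : ℕ), 0 < c ∧ ∀ X : ℕ, X₀ ≤ X →
    ∀ H : Finset ℤ, (∀ h ∈ H, h ≠ 0 ∧ |(h : ℝ)| ≤ (X : ℝ) ^ 2) →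
    (H.card : ℝ) ≤ c * (Real.log X / Real.log (Real.log X)) →
    ∃ A : Finset ℕ, (∀ p ∈ A, p.Prime ∧ p ≤ X) ∧
      (((Icc 1 X).filter Nat.Prime).card : ℝ) - A.card ≤ η * (X / Real.log X) ∧
      ∀ h ∈ H, ∀ p ∈ A, ¬ RepS X t h p := by
  obtain ⟨C, N₁, hC, HU⟩ := primeUp t
  obtain ⟨N₄, hN₄3, HN₄⟩ := loglog_large
  refine ⟨η / C, max N₁ N₄, by positivity, fun X hX H hH hHc => ?_⟩
  have hX₁ : N₁ ≤ X := (le_max_left _ _).trans hX
  have hX₄ : N₄ ≤ X := (le_max_right _ _).trans hX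
  have hX3' : 3 ≤ X := hN₄3.trans hX₄
  have hX3 : (3 : ℝ) ≤ X := by exact_mod_cast hX3'
  have hX0 : (0 : ℝ) < X := by linarith
  obtain ⟨hLL1, hLL2, hL1⟩ := HN₄ X hX₄
  have hL : 0 < Real.log X := by linarith
  have hLL : 0 < Real.log (Real.log X) := by linarith
  set P : Finset ℕ := (Icc 1 X).filter Nat.Prime with hP
  set B : Finset ℕ := H.biUnion (fun h => P.filter (fun p : ℕ => RepS X t h p)) with hB
  refine ⟨P \ B, fun p hp => ?_, ?_, fun h hh p hp hR => ?_⟩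
  · rw [Finset.mem_sdiff, hP, mem_filter, mem_Icc] at hp
    exact ⟨hp.1.2, hp.1.1.2⟩
  · have hBP : B ⊆ P := by
      intro p hp
      rw [hB, mem_biUnion] at hp
      obtain ⟨h, _, h2⟩ := hp
      exact (mem_filter.1 h2).1
    have h1 : ((P \ B).card : ℝ) = P.card - B.card := by
      rw [Finset.card_sdiff_of_subset hBP, Nat.cast_sub (Finset.card_le_card hBP)]
    rw [h1, sub_sub_cancel]
    have h2 : (B.card : ℝ) ≤ ∑ h ∈ H, ((P.filter (fun p : ℕ => RepS X t h p)).card : ℝ) := by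
      have := Finset.card_biUnion_le (s := H) (t := fun h => P.filter (fun p : ℕ => RepS X t h p))
      exact_mod_cast this
    have h3 : ∑ h ∈ H, ((P.filter (fun p : ℕ => RepS X t h p)).card : ℝ) ≤
        H.card * (C * (Real.log (Real.log X) / Real.log X) * (X / Real.log X)) := by
      rw [← nsmul_eq_mul, ← Finset.sum_const]
      exact Finset.sum_le_sum fun h hh => HU X hX₁ h (hH h hh).1 (hH h hh).2
    have h4 : (H.card : ℝ) * (C * (Real.log (Real.log X) / Real.log X) * (X / Real.log X)) ≤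
        (η / C * (Real.log X / Real.log (Real.log X))) *
          (C * (Real.log (Real.log X) / Real.log X) * (X / Real.log X)) := by gcongr
    have h5 : (η / C * (Real.log X / Real.log (Real.log X))) *
          (C * (Real.log (Real.log X) / Real.log X) * (X / Real.log X)) =
        η * (X / Real.log X) := by
      field_simp
    rw [h5] at h4
    linarith
  · rw [Finset.mem_sdiff] at hp
    exact hp.2 (by
      rw [hB, mem_biUnion]
      exact ⟨h, hh, mem_filter.2 ⟨hp.1, hR⟩⟩)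

end Pool.Agent.W23.PP
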